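import Mathlib

/-!
# Arbor polytopes: the key identity

For a laminar family `L` of subsets of a finite set, the generating polynomial of nonnegative
integer vectors with `x(D) ≤ m |D|` for `D ∈ L` and the one of families of subsets of an
`(m+1)`-element set with total size at least `|D|` on every `D ∈ L` are related by a
substitution.
-/

set_option autoImplicit false
open Finset Polynomial
open scoped Classical

namespace Pool.Agent.R135.Arbor

/-! ## Generating polynomials of constrained functions -/

section Weighted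

variable {α R : Type} [Fintype α] [Fintype R] (z : R) (w : R → ℕ) (P : Finset α → ℕ → Prop)

/-- functions equal to `z` outside `U` -/
noncomputable def box (U : Finset α) : Finset (α → R) :=
  Fintype.piFinset (fun i => if i ∈ U then univ else {z})

lemma mem_box (U : Finset α) (f : α → R) : f ∈ box z U ↔ ∀ i, i ∉ U → f i = z := by
  unfold box
  rw [Fintype.mem_piFinset]
  apply forall_congr'
  intro i
  by_cases h : i ∈ U <;> simp [h]

/-- total weight on `D` -/
def wt (f : α → R) (D : Finset α) : ℕ := ∑ i ∈ D, w (f i)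

/-- all constraints hold -/
def ok (L : Finset (Finset α)) (f : α → R) : Prop := ∀ D ∈ L, P D (wt w f D)

/-- the generating polynomial -/
noncomputable def gs (U : Finset α) (L : Finset (Finset α)) : ℤ[X] :=
  ∑ f ∈ (box z U).filter (ok w P L), X ^ (wt w f U)

lemma gs_split (U1 U2 : Finset α) (h : Disjoint U1 U2) (L1 L2 : Finset (Finset α))
    (h1 : ∀ D ∈ L1, D ⊆ U1) (h2 : ∀ D ∈ L2, D ⊆ U2) :
    gs z w P (U1 ∪ U2) (L1 ∪ L2) = gs z w P U1 L1 * gs z w P U2 L2 := by
  unfold gs
  rw [Finset.sum_mul_sum, ← Finset.sum_product']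
  have hw1 : ∀ (f g : α → R) (D : Finset α), D ⊆ U1 →
      wt w (fun a => if a ∈ U1 then f a else g a) D = wt w f D := by
    intro f g D hD
    unfold wt
    apply Finset.sum_congr rfl
    intro i hi
    show w (if i ∈ U1 then f i else g i) = w (f i)
    rw [if_pos (hD hi)]
  have hw2 : ∀ (f g : α → R) (D : Finset α), D ⊆ U2 →
      wt w (fun a => if a ∈ U1 then f a else g a) D = wt w g D := by
    intro f g D hD
    unfold wt
    apply Finset.sum_congr rfl
    intro i hi
    show w (if i ∈ U1 then f i else g i) = w (g i)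
    rw [if_neg]
    intro hi1
    exact Finset.disjoint_left.mp h hi1 (hD hi)
  have hv1 : ∀ (f : α → R) (D : Finset α), D ⊆ U1 →
      wt w (fun a => if a ∈ U1 then f a else z) D = wt w f D := fun f D hD => hw1 f _ D hD
  have hv2 : ∀ (f : α → R) (D : Finset α), D ⊆ U2 →
      wt w (fun a => if a ∈ U2 then f a else z) D = wt w f D := by
    intro f D hD
    unfold wt
    apply Finset.sum_congr rfl
    intro i hi
    show w (if i ∈ U2 then f i else z) = w (f i)
    rw [if_pos (hD hi)]
  apply Finset.sum_nbij' (fun f => ((fun a => if a ∈ U1 then f a else z : α → R),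
      (fun a => if a ∈ U2 then f a else z : α → R)))
    (fun p => (fun a => if a ∈ U1 then p.1 a else p.2 a))
  · intro f hf
    rw [Finset.mem_filter, mem_box] at hf
    rw [Finset.mem_product, Finset.mem_filter, Finset.mem_filter, mem_box, mem_box]
    refine ⟨⟨?_, ?_⟩, ⟨?_, ?_⟩⟩
    · intro i hi; simp [hi]
    · intro D hD
      show P D (wt w (fun a => if a ∈ U1 then f a else z) D)
      rw [hv1 f D (h1 D hD)]
      exact hf.2 D (Finset.mem_union_left _ hD)
    · intro i hi; simp [hi]
    · intro D hD
      show P D (wt w (fun a => if a ∈ U2 then f a else z) D)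
      rw [hv2 f D (h2 D hD)]
      exact hf.2 D (Finset.mem_union_right _ hD)
  · rintro ⟨f1, f2⟩ hf
    rw [Finset.mem_product, Finset.mem_filter, Finset.mem_filter, mem_box, mem_box] at hf
    obtain ⟨⟨hf1, hf2⟩, hf3, hf4⟩ := hf
    rw [Finset.mem_filter, mem_box]
    refine ⟨?_, ?_⟩
    · intro i hi
      rw [Finset.mem_union, not_or] at hi
      simp only [hi.1, if_false]
      exact hf3 i hi.2
    · intro D hD
      rw [Finset.mem_union] at hD
      rcases hD with hD | hD
      · rw [hw1 f1 f2 D (h1 D hD)]
        exact hf2 D hD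
      · rw [hw2 f1 f2 D (h2 D hD)]
        exact hf4 D hD
  · intro f hf
    rw [Finset.mem_filter, mem_box] at hf
    funext a
    by_cases ha1 : a ∈ U1
    · simp [ha1]
    · by_cases ha2 : a ∈ U2
      · simp [ha1, ha2]
      · simp only [ha1, ha2, if_false]
        exact (hf.1 a (by simp [ha1, ha2])).symm
  · rintro ⟨f1, f2⟩ hf
    rw [Finset.mem_product, Finset.mem_filter, Finset.mem_filter, mem_box, mem_box] at hf
    obtain ⟨⟨hf1, hf2⟩, hf3, hf4⟩ := hf
    simp only [Prod.mk.injEq]
    constructor
    · funext a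
      by_cases ha : a ∈ U1
      · simp [ha]
      · simp only [ha, if_false]
        exact (hf1 a ha).symm
    · funext a
      by_cases ha : a ∈ U2
      · have : a ∉ U1 := fun h' => Finset.disjoint_left.mp h h' ha
        simp [ha, this]
      · simp only [ha, if_false]
        exact (hf3 a ha).symm
  · intro f hf
    rw [← pow_add]
    congr 1
    rw [hv1 f U1 (Finset.Subset.refl _), hv2 f U2 (Finset.Subset.refl _)]
    unfold wt
    rw [Finset.sum_union h]

/-- one-element generating polynomial -/
noncomputable def GG : ℤ[X] := ∑ r : R, X ^ (w r)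

lemma gs_empty (U : Finset α) : gs z w P U ∅ = (GG (R := R) w) ^ U.card := by
  unfold gs
  have h1 : (box z U).filter (ok w P (∅ : Finset (Finset α))) = box z U := by
    apply Finset.filter_true_of_mem
    intro f _ D hD
    exact absurd hD (Finset.notMem_empty D)
  rw [h1]
  have h2 : ∀ f ∈ box z U, (X : ℤ[X]) ^ (wt w f U) = ∏ i, (if i ∈ U then (X : ℤ[X]) ^ (w (f i)) else 1) := by
    intro f _
    rw [Finset.prod_ite_mem, Finset.univ_inter]
    unfold wt
    rw [Finset.prod_pow_eq_pow_sum]
  rw [Finset.sum_congr rfl h2]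
  unfold box
  rw [← Finset.prod_univ_sum (fun i => if i ∈ U then (univ : Finset R) else {z})
    (fun i r => if i ∈ U then (X : ℤ[X]) ^ (w r) else 1)]
  have h3 : ∀ i : α, (∑ r ∈ (if i ∈ U then (univ : Finset R) else {z}),
      (if i ∈ U then (X : ℤ[X]) ^ (w r) else 1)) = if i ∈ U then GG (R := R) w else 1 := by
    intro i
    by_cases hi : i ∈ U
    · simp [hi, GG]
    · simp [hi]
  rw [Finset.prod_congr rfl (fun i _ => h3 i), Finset.prod_ite_mem, Finset.univ_inter,
    Finset.prod_const]

lemma gs_insert_coeff (U : Finset α) (L : Finset (Finset α)) (k : ℕ) :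
    (gs z w P U (insert U L)).coeff k = if P U k then (gs z w P U L).coeff k else 0 := by
  unfold gs
  rw [Polynomial.finsetSum_coeff, Polynomial.finsetSum_coeff]
  simp only [coeff_X_pow]
  rw [Finset.sum_filter, Finset.sum_filter]
  split_ifs with hP
  · apply Finset.sum_congr rfl
    intro f _
    by_cases hk : k = wt w f U
    · have : ok w P (insert U L) f ↔ ok w P L f := by
        unfold ok
        constructor
        · intro h D hD
          exact h D (Finset.mem_insert_of_mem hD)
        · intro h D hD
          rw [Finset.mem_insert] at hD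
          rcases hD with rfl | hD
          · rw [← hk]; exact hP
          · exact h D hD
      simp only [this]
    · simp [hk]
  · apply Finset.sum_eq_zero
    intro f _
    split_ifs with h1 h2
    · exfalso
      apply hP
      rw [h2]
      exact h1 U (Finset.mem_insert_self _ _)
    · rfl
    · rfl

end Weighted

/-! ## The substitution -/

/-- `(X+1)^N A(1/(X+1))` -/
noncomputable def Phi (N : ℕ) (A : ℤ[X]) : ℤ[X] := (reflect N A).comp (X + 1)

lemma reflect_natDegree_le (N : ℕ) (A : ℤ[X]) (h : A.natDegree ≤ N) :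
    (reflect N A).natDegree ≤ N := by
  rw [Polynomial.natDegree_le_iff_coeff_eq_zero]
  intro j hj
  rw [coeff_reflect, revAt_eq_self_of_lt hj]
  exact Polynomial.coeff_eq_zero_of_natDegree_lt (by omega)

lemma comp_coeff (N : ℕ) (p : ℤ[X]) (h : p.natDegree ≤ N) (i : ℕ) :
    (p.comp (X + 1)).coeff i = ∑ j ∈ range (N + 1), p.coeff j * (j.choose i : ℤ) := by
  conv_lhs => rw [p.as_sum_range_C_mul_X_pow' (show p.natDegree < N + 1 by omega)]
  rw [Polynomial.sum_comp, Polynomial.finsetSum_coeff]
  apply Finset.sum_congr rfl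
  intro j _
  rw [mul_comp, C_comp, X_pow_comp, coeff_C_mul, coeff_X_add_one_pow]

lemma Phi_coeff (N : ℕ) (A : ℤ[X]) (h : A.natDegree ≤ N) (i : ℕ) :
    (Phi N A).coeff i = ∑ k ∈ range (N + 1), A.coeff k * ((N - k).choose i : ℤ) := by
  unfold Phi
  rw [comp_coeff N _ (reflect_natDegree_le N A h)]
  rw [← Finset.sum_range_reflect]
  apply Finset.sum_congr rfl
  intro k hk
  rw [Finset.mem_range] at hk
  have h1 : N + 1 - 1 - k = N - k := by omega
  rw [h1, coeff_reflect, revAt_le (by omega)]
  congr 2
  omega

/-- the power series `∑ C(t,i) q^t` -/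
noncomputable def HH (i : ℕ) : PowerSeries ℤ := PowerSeries.mk (fun t => (t.choose i : ℤ))

lemma Phi_coeff' (N : ℕ) (A : ℤ[X]) (h : A.natDegree ≤ N) (i : ℕ) :
    (Phi N A).coeff i = PowerSeries.coeff N ((A : PowerSeries ℤ) * HH i) := by
  rw [Phi_coeff N A h, PowerSeries.coeff_mul, Finset.Nat.sum_antidiagonal_eq_sum_range_succ_mk]
  apply Finset.sum_congr rfl
  intro k _
  simp [HH]

lemma Phi_mul (N1 N2 : ℕ) (A1 A2 : ℤ[X]) (h1 : A1.natDegree ≤ N1) (h2 : A2.natDegree ≤ N2) :
    Phi (N1 + N2) (A1 * A2) = Phi N1 A1 * Phi N2 A2 := by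
  unfold Phi
  rw [reflect_mul A1 A2 h1 h2, mul_comp]

lemma Phi_add (N c : ℕ) (A : ℤ[X]) (h : A.natDegree ≤ N) :
    Phi (N + c) A = Phi N A * (X + 1) ^ c := by
  have h1 := Phi_mul N c A 1 h (by simp)
  rw [mul_one] at h1
  rw [h1]
  congr 1
  unfold Phi
  have h2 : reflect c (1 : ℤ[X]) = X ^ c := by
    have := reflect_one c (R := ℤ)
    exact this
  rw [h2, X_pow_comp]

/-- truncated geometric series -/
noncomputable def geo (M : ℕ) : ℤ[X] := ∑ x : Fin (M + 1), X ^ (x : ℕ)

lemma geo_mul (M : ℕ) : (1 - (X : ℤ[X])) * geo M = 1 - X ^ (M + 1) := by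
  unfold geo
  rw [Fin.sum_univ_eq_sum_range (fun x => (X : ℤ[X]) ^ x) (M + 1)]
  exact mul_neg_geom_sum X (M + 1)

lemma key1 (M i : ℕ) : ∀ (b N : ℕ), N ≤ M →
    PowerSeries.coeff N (((geo M ^ b : ℤ[X]) : PowerSeries ℤ) * HH i) = ((N + b).choose (b + i) : ℤ) := by
  intro b
  induction b with
  | zero =>
    intro N _
    simp [HH]
  | succ b ihb =>
    have hrec : (1 - (PowerSeries.X : PowerSeries ℤ)) *
        (((geo M ^ (b + 1) : ℤ[X]) : PowerSeries ℤ) * HH i)
        = (1 - PowerSeries.X ^ (M + 1)) * (((geo M ^ b : ℤ[X]) : PowerSeries ℤ) * HH i) := by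
      have h1 := congrArg (fun p : ℤ[X] => (p : PowerSeries ℤ)) (geo_mul M)
      simp only [Polynomial.coe_mul, Polynomial.coe_sub, Polynomial.coe_one, Polynomial.coe_X,
        Polynomial.coe_pow] at h1
      rw [Polynomial.coe_pow, Polynomial.coe_pow, pow_succ, ← h1]
      ring
    intro N
    induction N with
    | zero =>
      intro _
      have h2 := congrArg (PowerSeries.coeff 0) hrec
      have h3 := ihb 0 (Nat.zero_le _)
      have h4 : PowerSeries.coeff 0 ((1 - (PowerSeries.X : PowerSeries ℤ)) *
        (((geo M ^ (b + 1) : ℤ[X]) : PowerSeries ℤ) * HH i))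
          = PowerSeries.coeff 0 (((geo M ^ (b + 1) : ℤ[X]) : PowerSeries ℤ) * HH i) := by
        rw [sub_mul, one_mul, map_sub, mul_comm PowerSeries.X, PowerSeries.coeff_zero_mul_X, sub_zero]
      have h5 : PowerSeries.coeff 0 ((1 - (PowerSeries.X : PowerSeries ℤ) ^ (M + 1)) *
        (((geo M ^ b : ℤ[X]) : PowerSeries ℤ) * HH i))
          = PowerSeries.coeff 0 (((geo M ^ b : ℤ[X]) : PowerSeries ℤ) * HH i) := by
        rw [sub_mul, one_mul, map_sub, pow_succ, mul_assoc,
          mul_comm PowerSeries.X (((geo M ^ b : ℤ[X]) : PowerSeries ℤ) * HH i), ← mul_assoc,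
          PowerSeries.coeff_zero_mul_X, sub_zero]
      rw [h4, h5, h3] at h2
      rw [h2]
      rcases Nat.eq_zero_or_pos i with hi | hi
      · subst hi; simp
      · rw [Nat.choose_eq_zero_of_lt (by omega), Nat.choose_eq_zero_of_lt (by omega)]
    | succ N ihN =>
      intro hN
      have h2 := congrArg (PowerSeries.coeff (N + 1)) hrec
      have h3 := ihb (N + 1) hN
      have h3' := ihN (by omega)
      have h4 : PowerSeries.coeff (N + 1) ((1 - (PowerSeries.X : PowerSeries ℤ)) *
        (((geo M ^ (b + 1) : ℤ[X]) : PowerSeries ℤ) * HH i))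
          = PowerSeries.coeff (N + 1) (((geo M ^ (b + 1) : ℤ[X]) : PowerSeries ℤ) * HH i)
            - PowerSeries.coeff N (((geo M ^ (b + 1) : ℤ[X]) : PowerSeries ℤ) * HH i) := by
        rw [sub_mul, one_mul, map_sub, mul_comm PowerSeries.X, PowerSeries.coeff_succ_mul_X]
      have h5 : PowerSeries.coeff (N + 1) ((1 - (PowerSeries.X : PowerSeries ℤ) ^ (M + 1)) *
        (((geo M ^ b : ℤ[X]) : PowerSeries ℤ) * HH i))
          = PowerSeries.coeff (N + 1) (((geo M ^ b : ℤ[X]) : PowerSeries ℤ) * HH i) := by
        rw [sub_mul, one_mul, map_sub, PowerSeries.coeff_X_pow_mul', if_neg (by omega), sub_zero]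
      rw [h4, h5, h3, h3'] at h2
      have h6 : PowerSeries.coeff (N + 1) (((geo M ^ (b + 1) : ℤ[X]) : PowerSeries ℤ) * HH i)
          = ((N + 1 + b).choose (b + i) : ℤ) + ((N + (b + 1)).choose (b + 1 + i) : ℤ) := by
        linarith
      rw [h6]
      have h7 : N + 1 + (b + 1) = (N + 1 + b) + 1 := by ring
      have h8 : b + 1 + i = (b + i) + 1 := by ring
      have h9 : N + (b + 1) = N + 1 + b := by ring
      rw [h7, h8, h9, Nat.choose_succ_succ]
      push_cast
      ring

/-- the relation between the two generating polynomials -/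
def Rel (m u : ℕ) (A B : ℤ[X]) : Prop := A.natDegree ≤ m * u ∧ B = X ^ u * Phi (m * u) A

lemma Rel.mul {m u1 u2 : ℕ} {A1 A2 B1 B2 : ℤ[X]} (h1 : Rel m u1 A1 B1) (h2 : Rel m u2 A2 B2) :
    Rel m (u1 + u2) (A1 * A2) (B1 * B2) := by
  obtain ⟨h11, h12⟩ := h1
  obtain ⟨h21, h22⟩ := h2
  refine ⟨?_, ?_⟩
  · calc (A1 * A2).natDegree ≤ A1.natDegree + A2.natDegree := natDegree_mul_le
      _ ≤ m * u1 + m * u2 := by omega
      _ = m * (u1 + u2) := by ring
  · rw [mul_add, Phi_mul _ _ _ _ h11 h21, h12, h22, pow_add]
    ring

/-- the truncation step -/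
lemma Rel.step {m u b M : ℕ} {A A' B B' : ℤ[X]} (h : Rel m u A' B') (hM : m * (u + b) ≤ M)
    (hA : ∀ k, A.coeff k = if k ≤ m * (u + b) then (A' * geo M ^ b).coeff k else 0)
    (hB : ∀ j, B.coeff j = if u + b ≤ j then (B' * ((X + 1) ^ (m + 1)) ^ b).coeff j else 0) :
    Rel m (u + b) A B := by
  obtain ⟨h1, h2⟩ := h
  have hdeg : A.natDegree ≤ m * (u + b) := by
    rw [Polynomial.natDegree_le_iff_coeff_eq_zero]
    intro k hk
    rw [hA, if_neg (by omega)]
  refine ⟨hdeg, ?_⟩
  ext j
  rw [coeff_X_pow_mul']
  by_cases hj : u + b ≤ j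
  · rw [hB, if_pos hj, if_pos hj]
    obtain ⟨i, rfl⟩ : ∃ i, j = (u + b) + i := ⟨j - (u + b), by omega⟩
    have e1 : u + b + i - (u + b) = i := by omega
    rw [e1]
    -- left-hand side
    have e2 : B' * ((X + 1) ^ (m + 1)) ^ b = X ^ u * Phi (m * u + (m + 1) * b) A' := by
      rw [Phi_add _ _ _ h1, h2, ← pow_mul]
      ring
    have e3 : u + b + i = u + (b + i) := by ring
    rw [e2, e3, coeff_X_pow_mul', if_pos (by omega)]
    have e4 : u + (b + i) - u = b + i := by omega
    rw [e4, Phi_coeff _ _ (by omega), Phi_coeff' _ _ hdeg]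
    -- right-hand side
    have e5 : PowerSeries.coeff (m * (u + b)) ((A : PowerSeries ℤ) * HH i)
        = PowerSeries.coeff (m * (u + b)) (((A' * geo M ^ b : ℤ[X]) : PowerSeries ℤ) * HH i) := by
      rw [PowerSeries.coeff_mul, PowerSeries.coeff_mul]
      apply Finset.sum_congr rfl
      intro p hp
      rw [Finset.HasAntidiagonal.mem_antidiagonal] at hp
      rw [Polynomial.coeff_coe, Polynomial.coeff_coe, hA, if_pos (by omega)]
    rw [e5, Polynomial.coe_mul, mul_assoc, PowerSeries.coeff_mul,
      Finset.Nat.sum_antidiagonal_eq_sum_range_succ_mk]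
    have e6 : ∀ k ∈ range (m * (u + b) + 1),
        PowerSeries.coeff k (A' : PowerSeries ℤ) *
          PowerSeries.coeff (m * (u + b) - k) (((geo M ^ b : ℤ[X]) : PowerSeries ℤ) * HH i)
        = A'.coeff k * ((m * (u + b) - k + b).choose (b + i) : ℤ) := by
      intro k hk
      rw [Polynomial.coeff_coe, key1 M i b _ (by omega)]
    simp only
    rw [Finset.sum_congr rfl e6]
    -- compare the two sums
    have e7 : m * u + (m + 1) * b = m * (u + b) + b := by ring
    rw [e7]
    symm
    have e8 : ∀ k ∈ range (m * (u + b) + 1),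
        A'.coeff k * ((m * (u + b) - k + b).choose (b + i) : ℤ)
        = A'.coeff k * ((m * (u + b) + b - k).choose (b + i) : ℤ) := by
      intro k hk
      rw [Finset.mem_range] at hk
      have : m * (u + b) - k + b = m * (u + b) + b - k := by omega
      rw [this]
    rw [Finset.sum_congr rfl e8]
    apply Finset.sum_subset
    · intro k hk
      rw [Finset.mem_range] at hk ⊢
      omega
    · intro k hk hk'
      rw [Finset.mem_range] at hk hk'
      rw [Polynomial.coeff_eq_zero_of_natDegree_lt, zero_mul]
      have : m * u ≤ m * (u + b) := Nat.mul_le_mul_left _ (by omega)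
      omega
  · rw [hB, if_neg hj, if_neg hj]

/-! ## Laminar families -/

section Laminar

variable {α : Type} [Fintype α]

/-- any two members are nested or disjoint -/
def Laminar (L : Finset (Finset α)) : Prop :=
  ∀ D ∈ L, ∀ E ∈ L, D ⊆ E ∨ E ⊆ D ∨ Disjoint D E

/-- upper bounds on the vectors -/
def PA (m : ℕ) (D : Finset α) (s : ℕ) : Prop := s ≤ m * D.card

/-- lower bounds on the contents -/
def PB (D : Finset α) (s : ℕ) : Prop := D.card ≤ s

/-- generating polynomial of the vectors -/
noncomputable def gA (m M : ℕ) (U : Finset α) (L : Finset (Finset α)) : ℤ[X] :=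
  gs (R := Fin (M + 1)) 0 (fun x => (x : ℕ)) (PA m) U L

/-- generating polynomial of the families of subsets -/
noncomputable def gB (m : ℕ) (U : Finset α) (L : Finset (Finset α)) : ℤ[X] :=
  gs (R := Finset (Fin (m + 1))) ∅ Finset.card PB U L

lemma GG_B (m : ℕ) : GG (R := Finset (Fin (m + 1))) Finset.card = (X + 1) ^ (m + 1) := by
  unfold GG
  have := Fintype.sum_pow_mul_eq_add_pow (Fin (m + 1)) (X : ℤ[X]) 1
  simpa using this

lemma main_rel (m M : ℕ) (hM : m * Fintype.card α ≤ M) : ∀ (N : ℕ) (L : Finset (Finset α)),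
    L.card = N → Laminar L →
    Rel m (L.sup id).card (gA m M (L.sup id) L) (gB m (L.sup id) L) := by
  intro N
  induction N using Nat.strong_induction_on with
  | _ N ih =>
  intro L hN hL
  rcases L.eq_empty_or_nonempty with hemp | hne
  · subst hemp
    have hA : gA m M (∅ : Finset α) ∅ = 1 := by
      unfold gA
      rw [gs_empty]; simp
    have hB : gB m (∅ : Finset α) ∅ = 1 := by
      unfold gB
      rw [gs_empty]; simp
    have hsup : (∅ : Finset (Finset α)).sup id = ∅ := Finset.sup_empty
    rw [hsup, hA, hB]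
    refine ⟨by simp, ?_⟩
    unfold Phi
    simp [reflect_one]
  · set U := L.sup id with hU
    have hsub : ∀ D ∈ L, D ⊆ U := fun D hD => Finset.le_sup (f := id) hD
    by_cases hUL : U ∈ L
    · -- truncation step
      set L' := L.erase U with hL'
      set U' := L'.sup id with hU'
      have hlam : Laminar L' := by
        intro D hD E hE
        exact hL D (Finset.mem_of_mem_erase hD) E (Finset.mem_of_mem_erase hE)
      have hcard : L'.card < N := by
        rw [← hN]
        exact Finset.card_erase_lt_of_mem hUL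
      have ih' := ih L'.card hcard L' rfl hlam
      rw [← hU'] at ih'
      have hU'U : U' ⊆ U := by
        apply Finset.sup_le
        intro D hD
        exact hsub D (Finset.mem_of_mem_erase hD)
      have hdisj : Disjoint U' (U \ U') := Finset.disjoint_sdiff
      have hun : U' ∪ (U \ U') = U := Finset.union_sdiff_of_subset hU'U
      have hins : insert U L' = L := Finset.insert_erase hUL
      have hsub' : ∀ D ∈ L', D ⊆ U' := fun D hD => Finset.le_sup (f := id) hD
      have hcU : U.card = U'.card + (U \ U').card := by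
        rw [← Finset.card_union_of_disjoint hdisj, hun]
      have hsplitA : gA m M U L' = gA m M U' L' * geo M ^ (U \ U').card := by
        unfold gA
        have h1 := gs_split (R := Fin (M + 1)) 0 (fun x => (x : ℕ)) (PA m) U' (U \ U') hdisj L' ∅
          hsub' (by intro D hD; exact absurd hD (Finset.notMem_empty D))
        rw [hun, Finset.union_empty, gs_empty] at h1
        rw [h1]
        rfl
      have hsplitB : gB m U L' = gB m U' L' * ((X + 1) ^ (m + 1)) ^ (U \ U').card := by
        unfold gB
        have h1 := gs_split (R := Finset (Fin (m + 1))) ∅ Finset.card PB U' (U \ U') hdisj L' ∅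
          hsub' (by intro D hD; exact absurd hD (Finset.notMem_empty D))
        rw [hun, Finset.union_empty, gs_empty, GG_B] at h1
        rw [h1]
      rw [hcU]
      apply Rel.step ih' (M := M)
      · calc m * (U'.card + (U \ U').card) = m * U.card := by rw [hcU]
          _ ≤ m * Fintype.card α := Nat.mul_le_mul_left _ (Finset.card_le_univ _)
          _ ≤ M := hM
      · intro k
        rw [← hsplitA, ← hcU]
        conv_lhs => rw [← hins]
        unfold gA
        rw [gs_insert_coeff]
        exact if_congr Iff.rfl rfl rfl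
      · intro j
        rw [← hsplitB, ← hcU]
        conv_lhs => rw [← hins]
        unfold gB
        rw [gs_insert_coeff]
        exact if_congr Iff.rfl rfl rfl
    · -- splitting step
      obtain ⟨D, hD, hDmax⟩ := Finset.exists_max_image L Finset.card hne
      set L1 := L.filter (fun E => E ⊆ D) with hL1
      set L2 := L.filter (fun E => ¬ E ⊆ D) with hL2
      have hL12 : L1 ∪ L2 = L := Finset.filter_union_filter_not_eq _ _
      have hdisjE : ∀ E ∈ L2, Disjoint D E := by
        intro E hE
        rw [hL2, Finset.mem_filter] at hE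
        rcases hL D hD E hE.1 with h | h | h
        · exfalso
          have h1 := hDmax E hE.1
          have h2 : D = E := Finset.eq_of_subset_of_card_le h h1
          exact hE.2 (h2 ▸ Finset.Subset.refl _)
        · exact absurd h hE.2
        · exact h
      have hsup1 : L1.sup id = D := by
        apply le_antisymm
        · apply Finset.sup_le
          intro E hE
          rw [hL1, Finset.mem_filter] at hE
          exact hE.2
        · have hD1 : D ∈ L1 := by
            rw [hL1, Finset.mem_filter]
            exact ⟨hD, Finset.Subset.refl _⟩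
          exact Finset.le_sup (f := id) hD1
      have hdisj : Disjoint (L1.sup id) (L2.sup id) := by
        rw [hsup1, Finset.disjoint_sup_right]
        intro E hE
        exact hdisjE E hE
      have hUu : L1.sup id ∪ L2.sup id = U := by
        rw [hU, ← hL12, Finset.sup_union]
        rfl
      have hne2 : L2.Nonempty := by
        by_contra hcon
        rw [Finset.not_nonempty_iff_eq_empty] at hcon
        rw [hcon, hsup1] at hUu
        have : D = U := by
          rw [← hUu]
          simp
        exact hUL (this ▸ hD)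
      have hne1 : L1.Nonempty := ⟨D, by
        rw [hL1, Finset.mem_filter]
        exact ⟨hD, Finset.Subset.refl _⟩⟩
      have hdisjL : Disjoint L1 L2 := Finset.disjoint_filter_filter_not _ _ _
      have hcards : L1.card + L2.card = N := by
        rw [← Finset.card_union_of_disjoint hdisjL, hL12, hN]
      have hc1 := hne1.card_pos
      have hc2 := hne2.card_pos
      have hlam1 : Laminar L1 := by
        intro D hD E hE
        exact hL D (Finset.mem_filter.mp hD).1 E (Finset.mem_filter.mp hE).1
      have hlam2 : Laminar L2 := by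
        intro D hD E hE
        exact hL D (Finset.mem_filter.mp hD).1 E (Finset.mem_filter.mp hE).1
      have ih1 := ih L1.card (by omega) L1 rfl hlam1
      have ih2 := ih L2.card (by omega) L2 rfl hlam2
      have hmul := ih1.mul ih2
      have hsubs1 : ∀ E ∈ L1, E ⊆ L1.sup id := fun E hE => Finset.le_sup (f := id) hE
      have hsubs2 : ∀ E ∈ L2, E ⊆ L2.sup id := fun E hE => Finset.le_sup (f := id) hE
      have hsplitA : gA m M U L = gA m M (L1.sup id) L1 * gA m M (L2.sup id) L2 := by
        unfold gA
        have h1 := gs_split (R := Fin (M + 1)) 0 (fun x => (x : ℕ)) (PA m) _ _ hdisj L1 L2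
          hsubs1 hsubs2
        rw [hUu, hL12] at h1
        exact h1
      have hsplitB : gB m U L = gB m (L1.sup id) L1 * gB m (L2.sup id) L2 := by
        unfold gB
        have h1 := gs_split (R := Finset (Fin (m + 1))) ∅ Finset.card PB _ _ hdisj L1 L2
          hsubs1 hsubs2
        rw [hUu, hL12] at h1
        exact h1
      have hcU : U.card = (L1.sup id).card + (L2.sup id).card := by
        rw [← Finset.card_union_of_disjoint hdisj, hUu]
      rw [hsplitA, hsplitB, hcU]
      exact hmul

/-- vectors satisfying the upper bounds -/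
noncomputable def setA (m M : ℕ) (L : Finset (Finset α)) : Finset (α → Fin (M + 1)) :=
  Finset.univ.filter (fun x : α → Fin (M + 1) => ∀ D ∈ L, ∑ i ∈ D, (x i : ℕ) ≤ m * D.card)

/-- families of subsets satisfying the lower bounds -/
noncomputable def setB (m : ℕ) (L : Finset (Finset α)) : Finset (α → Finset (Fin (m + 1))) :=
  Finset.univ.filter (fun f : α → Finset (Fin (m + 1)) =>
    (∀ D ∈ L, D.card ≤ ∑ i ∈ D, (f i).card) ∧ ∑ i, (f i).card = Fintype.card α)

lemma mem_setA (m M : ℕ) (L : Finset (Finset α)) (x : α → Fin (M + 1)) :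
    x ∈ setA m M L ↔ ∀ D ∈ L, ∑ i ∈ D, (x i : ℕ) ≤ m * D.card := by
  unfold setA
  rw [Finset.mem_filter]
  exact ⟨fun h => h.2, fun h => ⟨Finset.mem_univ _, h⟩⟩

lemma mem_setB (m : ℕ) (L : Finset (Finset α)) (f : α → Finset (Fin (m + 1))) :
    f ∈ setB m L ↔ (∀ D ∈ L, D.card ≤ ∑ i ∈ D, (f i).card) ∧
      ∑ i, (f i).card = Fintype.card α := by
  unfold setB
  rw [Finset.mem_filter]
  exact ⟨fun h => h.2, fun h => ⟨Finset.mem_univ _, h⟩⟩

/-- **The key identity**: for a laminar family `L` containing the whole set, the number of vectors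
`x` with `x(D) ≤ m |D|` for all `D ∈ L` equals the number of families `(f i)` of subsets of an
`(m+1)`-element set with total size `|α|` and total size at least `|D|` on every `D ∈ L`. -/
theorem key_identity (m M : ℕ) (hM : m * Fintype.card α ≤ M) (L : Finset (Finset α))
    (hL : Laminar L) (huniv : (univ : Finset α) ∈ L) :
    (setA m M L).card = (setB m L).card := by
  have hsup : L.sup id = univ := by
    apply Finset.eq_univ_iff_forall.mpr
    intro a
    exact (Finset.le_sup (f := id) huniv : (univ : Finset α) ≤ L.sup id) (Finset.mem_univ a)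
  obtain ⟨h1, h2⟩ := main_rel m M hM L.card L rfl hL
  rw [hsup] at h1 h2
  have h3 := congrArg (fun p => p.coeff (univ : Finset α).card) h2
  rw [coeff_X_pow_mul', if_pos (le_refl _), Nat.sub_self, Phi_coeff _ _ h1] at h3
  simp only [Nat.choose_zero_right, Nat.cast_one, mul_one] at h3
  have h4 : ∑ k ∈ range (m * (univ : Finset α).card + 1), (gA m M univ L).coeff k
      = (gA m M univ L).eval 1 := by
    rw [Polynomial.eval_eq_sum_range' (show (gA m M univ L).natDegree
      < m * (univ : Finset α).card + 1 by omega)]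
    simp
  rw [h4] at h3
  have h5 : (gA m M univ L).eval 1 = ((setA m M L).card : ℤ) := by
    unfold gA gs
    rw [Polynomial.eval_finsetSum]
    simp only [eval_pow, eval_X, one_pow]
    rw [Finset.sum_const, nsmul_eq_mul, mul_one]
    congr 2
    ext x
    rw [Finset.mem_filter, mem_setA, mem_box]
    simp only [Finset.mem_univ, not_true, false_implies, implies_true, true_and]
    rfl
  have h6 : (gB m univ L).coeff (univ : Finset α).card = ((setB m L).card : ℤ) := by
    unfold gB gs
    rw [Polynomial.finsetSum_coeff]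
    simp only [coeff_X_pow]
    rw [Finset.sum_boole, Finset.filter_filter]
    congr 2
    ext f
    rw [Finset.mem_filter, mem_setB, mem_box]
    simp only [Finset.mem_univ, not_true, false_implies, implies_true, true_and]
    apply and_congr Iff.rfl
    unfold wt
    rw [Finset.card_univ]
    exact eq_comm
  rw [h5, h6] at h3
  exact_mod_cast h3.symm

end Laminar

end Pool.Agent.R135.Arbor
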