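import Mathlib

/-!
# Nonnegativity of the chromatic numerator polynomial

`∑ χ_G(n) zⁿ · (1-z)^{d+1} = ∑_w z^{t(w)+1}`, a sum over all listings `w` of the vertices.
-/

open Finset

namespace Pool.Agent.R135.ChromSym

/-! ## Counting decreasing sequences with prescribed strictness -/

/-- sequences `n > g 0 ≥ g 1 ≥ ... ≥ g k ≥ 0`, with strict steps where `s i` holds. -/
abbrev TT (k : ℕ) (s : Fin k → Prop) (n : ℕ) : Type :=
  {g : Fin (k + 1) → ℕ // g 0 < n ∧
    ∀ i : Fin k, g i.succ ≤ g i.castSucc ∧ (s i → g i.succ < g i.castSucc)}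

open Classical in
/-- splitting off the first value -/
noncomputable def TTsucc (k : ℕ) (s : Fin (k + 1) → Prop) (n : ℕ) :
    TT (k + 1) s n ≃
      Σ m : Fin n, TT k (fun i => s i.succ) (if s 0 then (m : ℕ) else (m : ℕ) + 1) where
  toFun g := ⟨⟨g.1 0, g.2.1⟩, ⟨fun i => g.1 i.succ, by
    constructor
    · have h := g.2.2 0
      by_cases h0 : s 0
      · simp only [h0, if_true]
        exact h.2 h0
      · simp only [h0, if_false]
        have := h.1
        simp only [Fin.castSucc_zero] at this
        show g.1 (Fin.succ 0) < g.1 0 + 1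
        omega
    · intro i
      have h := g.2.2 i.succ
      simpa [Fin.castSucc_succ] using h⟩⟩
  invFun p := ⟨Fin.cons (p.1 : ℕ) p.2.1, by
    obtain ⟨m, g⟩ := p
    constructor
    · simp
    · intro i
      refine Fin.cases ?_ (fun j => ?_) i
      · have h := g.2.1
        by_cases h0 : s 0
        · simp only [h0, if_true] at h
          simp only [Fin.cons_succ, Fin.castSucc_zero, Fin.cons_zero]
          exact ⟨le_of_lt h, fun _ => h⟩
        · simp only [h0, if_false] at h
          simp only [Fin.cons_succ, Fin.castSucc_zero, Fin.cons_zero]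
          exact ⟨Nat.lt_succ_iff.mp h, fun h' => absurd h' h0⟩
      · have h := g.2.2 j
        simpa [Fin.castSucc_succ] using h⟩
  left_inv g := by
    apply Subtype.ext
    funext i
    refine Fin.cases ?_ (fun j => ?_) i <;> simp
  right_inv p := by
    obtain ⟨m, g⟩ := p
    rfl

instance TT_finite : ∀ (k : ℕ) (s : Fin k → Prop) (n : ℕ), Finite (TT k s n) := by
  intro k
  induction k with
  | zero =>
    intro s n
    refine Finite.of_injective (β := Fin n) (fun g => ⟨g.1 0, g.2.1⟩) ?_
    intro g g' h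
    apply Subtype.ext
    funext i
    have hi : i = 0 := by
      apply Fin.ext; have := i.2; simp at this; omega
    subst hi
    simpa using h
  | succ k ih =>
    intro s n
    classical
    exact Finite.of_equiv _ (TTsucc k s n).symm

/-- the count -/
noncomputable def cc (k : ℕ) (s : Fin k → Prop) (n : ℕ) : ℕ := Nat.card (TT k s n)

lemma cc_zero (s : Fin 0 → Prop) (n : ℕ) : cc 0 s n = n := by
  unfold cc
  have e : TT 0 s n ≃ Fin n :=
    { toFun := fun g => ⟨g.1 0, g.2.1⟩
      invFun := fun m => ⟨fun _ => m, m.2, fun i => i.elim0⟩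
      left_inv := by
        intro g
        apply Subtype.ext
        funext i
        have hi : i = 0 := by
          apply Fin.ext; have := i.2; simp at this; omega
        subst hi
        rfl
      right_inv := by intro m; rfl }
  rw [Nat.card_congr e, Nat.card_fin]

open Classical in
lemma cc_succ (k : ℕ) (s : Fin (k + 1) → Prop) (n : ℕ) :
    cc (k + 1) s n = ∑ m ∈ range n, cc k (fun i => s i.succ) (if s 0 then m else m + 1) := by
  unfold cc
  rw [Nat.card_congr (TTsucc k s n), Nat.card_sigma, Finset.sum_range]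

lemma cc_at_zero (k : ℕ) (s : Fin k → Prop) : cc k s 0 = 0 := by
  unfold cc
  rw [Nat.card_eq_zero]
  left
  exact ⟨fun g => absurd g.2.1 (Nat.not_lt_zero _)⟩

open PowerSeries in
lemma partial_sums (u : ℕ → ℤ) :
    PowerSeries.mk (fun n => ∑ m ∈ range n, u m) * (1 - (X : PowerSeries ℤ))
      = X * PowerSeries.mk u := by
  ext n
  rw [mul_sub, mul_one, map_sub]
  cases n with
  | zero => simp
  | succ n =>
    rw [mul_comm X (PowerSeries.mk u), PowerSeries.coeff_succ_mul_X, PowerSeries.coeff_succ_mul_X]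
    simp [Finset.sum_range_succ]

/-- number of strict places -/
noncomputable def tt (k : ℕ) (s : Fin k → Prop) : ℕ :=
  Nat.card {i : Fin k // s i}

open Classical in
lemma tt_succ (k : ℕ) (s : Fin (k + 1) → Prop) :
    tt (k + 1) s = (if s 0 then 1 else 0) + tt k (fun i => s i.succ) := by
  unfold tt
  rw [Nat.card_eq_fintype_card, Nat.card_eq_fintype_card, Fintype.card_subtype,
    Fintype.card_subtype, Fin.card_filter_univ_succ]
  split_ifs <;> omega

lemma tt_le (k : ℕ) (s : Fin k → Prop) : tt k s ≤ k := by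
  unfold tt
  calc Nat.card {i : Fin k // s i} ≤ Nat.card (Fin k) := Nat.card_le_card_of_injective _ Subtype.val_injective
    _ = k := Nat.card_fin k

open PowerSeries in
lemma cc_gf : ∀ (k : ℕ) (s : Fin k → Prop),
    PowerSeries.mk (fun n => (cc k s n : ℤ)) * (1 - (X : PowerSeries ℤ)) ^ (k + 2)
      = X ^ (tt k s + 1) := by
  intro k
  induction k with
  | zero =>
    intro s
    have h0 : tt 0 s = 0 := by
      have := tt_le 0 s; omega
    rw [h0]
    have h1 : PowerSeries.mk (fun n => (cc 0 s n : ℤ)) * (1 - (X : PowerSeries ℤ))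
        = X * PowerSeries.mk (fun _ => (1 : ℤ)) := by
      rw [← partial_sums]
      congr 1
      ext n
      simp [cc_zero]
    have h2 : PowerSeries.mk (fun _ => (1 : ℤ)) * (1 - (X : PowerSeries ℤ)) = 1 := by
      exact PowerSeries.mk_one_mul_one_sub_eq_one ℤ
    calc PowerSeries.mk (fun n => (cc 0 s n : ℤ)) * (1 - (X : PowerSeries ℤ)) ^ (0 + 2)
        = (PowerSeries.mk (fun n => (cc 0 s n : ℤ)) * (1 - (X : PowerSeries ℤ))) * (1 - X) := by ring
      _ = X * (PowerSeries.mk (fun _ => (1 : ℤ)) * (1 - (X : PowerSeries ℤ))) := by rw [h1]; ring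
      _ = X ^ (0 + 1) := by rw [h2]; ring
  | succ k ih =>
    intro s
    classical
    have h1 : PowerSeries.mk (fun n => (cc (k + 1) s n : ℤ)) * (1 - (X : PowerSeries ℤ))
        = X * PowerSeries.mk (fun m => (cc k (fun i => s i.succ) (if s 0 then m else m + 1) : ℤ)) := by
      rw [← partial_sums]
      congr 1
      ext n
      simp [cc_succ]
    have ih' := ih (fun i => s i.succ)
    have h3 : PowerSeries.mk (fun n => (cc (k + 1) s n : ℤ)) * (1 - (X : PowerSeries ℤ)) ^ (k + 1 + 2)
        = (X * PowerSeries.mk (fun m => (cc k (fun i => s i.succ) (if s 0 then m else m + 1) : ℤ)))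
          * (1 - (X : PowerSeries ℤ)) ^ (k + 2) := by
      rw [← h1]; ring
    rw [h3, tt_succ]
    by_cases h0 : s 0
    · simp only [h0, if_true]
      rw [mul_assoc, ih']
      ring
    · simp only [h0, if_false]
      have h4 : (X : PowerSeries ℤ) * PowerSeries.mk (fun m => (cc k (fun i => s i.succ) (m + 1) : ℤ))
          = PowerSeries.mk (fun m => (cc k (fun i => s i.succ) m : ℤ)) := by
        ext n
        rw [mul_comm]
        cases n with
        | zero => simp [cc_at_zero]
        | succ n => rw [PowerSeries.coeff_succ_mul_X]; simp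
      rw [h4, ih']
      ring

/-! ## Sorting -/

section Sorting

variable {V : Type*} [Fintype V] {k : ℕ}

lemma exists_sort {α : Type*} [LinearOrder α] (hV : Fintype.card V = k + 1) (key : V → α)
    (hk : Function.Injective key) :
    ∃ w : Fin (k + 1) ≃ V, StrictAnti (fun i => key (w i)) := by
  let _inst : LinearOrder V := LinearOrder.lift' (fun v => OrderDual.toDual (key v))
    (fun a b h => hk (by simpa using h))
  let e := Fintype.orderIsoFinOfCardEq V hV
  refine ⟨e.toEquiv, ?_⟩
  intro i j hij
  have h1 : e i < e j := e.lt_iff_lt.mpr hij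
  have h2 : OrderDual.toDual (key (e i)) < OrderDual.toDual (key (e j)) := h1
  exact h2

omit [Fintype V] in
lemma sort_unique {α : Type*} [LinearOrder α] (key : V → α)
    (w w' : Fin (k + 1) ≃ V) (h : StrictAnti (fun i => key (w i)))
    (h' : StrictAnti (fun i => key (w' i))) : w = w' := by
  -- the order isomorphism `w' ∘ w⁻¹` of `Fin (k+1)`
  let e : Fin (k + 1) ≃o Fin (k + 1) :=
    { toEquiv := w.trans w'.symm
      map_rel_iff' := by
        intro i j
        have h1 : ∀ a b : Fin (k + 1), key (w b) ≤ key (w a) ↔ a ≤ b := by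
          intro a b
          exact h.le_iff_ge
        have h2 : ∀ a b : Fin (k + 1), key (w' b) ≤ key (w' a) ↔ a ≤ b := by
          intro a b
          exact h'.le_iff_ge
        rw [← h1 i j, ← h2]
        simp }
  have he : e = OrderIso.refl _ := Subsingleton.elim _ _
  ext i
  have h3 : e i = i := by rw [he]; rfl
  have h4 : w'.symm (w i) = i := h3
  rw [← h4]
  simp
  rw [h4]

end Sorting

/-! ## The sum over listings -/

section Listings

variable {V : Type*} [Fintype V] {k : ℕ} (G : SimpleGraph V)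

/-- the orientation of the edges given by a listing -/
def ori (w : Fin (k + 1) ≃ V) : V → V → Prop := fun u v => G.Adj u v ∧ w.symm u < w.symm v

open Classical in
/-- the chosen representative of the listings with the same orientation -/
noncomputable def rep [Nonempty (Fin (k + 1) ≃ V)] (w : Fin (k + 1) ≃ V) : Fin (k + 1) ≃ V :=
  Function.invFun (ori (k := k) G) (ori G w)

omit [Fintype V] in
lemma ori_rep [Nonempty (Fin (k + 1) ≃ V)] (w : Fin (k + 1) ≃ V) :
    ori G (rep G w) = ori G w :=
  Function.invFun_eq ⟨w, rfl⟩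

/-- compatibility of a listing with a function -/
def compat [Nonempty (Fin (k + 1) ≃ V)] (w : Fin (k + 1) ≃ V) (f : V → ℕ) : Prop :=
  StrictAnti (fun i => (toLex (f (w i), (rep G w).symm (w i)) : ℕ ×ₗ Fin (k + 1)))

/-- orientation of a function -/
def oriF (f : V → ℕ) : V → V → Prop := fun u v => G.Adj u v ∧ f v < f u

omit [Fintype V] in
lemma ori_of_antitone (w : Fin (k + 1) ≃ V) (f : V → ℕ) (hf : ∀ u v, G.Adj u v → f u ≠ f v)
    (h : Antitone (fun i => f (w i))) : ori G w = oriF G f := by
  funext u v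
  unfold ori oriF
  apply propext
  constructor
  · rintro ⟨h1, h2⟩
    refine ⟨h1, ?_⟩
    have h3 := h (le_of_lt h2)
    simp only [Equiv.apply_symm_apply] at h3
    exact lt_of_le_of_ne h3 (hf u v h1).symm
  · rintro ⟨h1, h2⟩
    refine ⟨h1, ?_⟩
    by_contra h3
    have h4 := h (not_lt.mp h3)
    simp only [Equiv.apply_symm_apply] at h4
    omega

omit [Fintype V] in
lemma antitone_of_strictAnti (w : Fin (k + 1) ≃ V) (f : V → ℕ) (e : V → Fin (k + 1))
    (h : StrictAnti (fun i => (toLex (f (w i), e (w i)) : ℕ ×ₗ Fin (k + 1)))) :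
    Antitone (fun i => f (w i)) := by
  intro i j hij
  rcases eq_or_lt_of_le hij with rfl | hlt
  · exact le_refl _
  · have h1 := h hlt
    have h2 := (Prod.Lex.toLex_lt_toLex).mp h1
    rcases h2 with h2 | h2
    · exact le_of_lt h2
    · exact le_of_eq h2.1

omit [Fintype V] in
lemma compat_proper [Nonempty (Fin (k + 1) ≃ V)] (w : Fin (k + 1) ≃ V) (f : V → ℕ)
    (h : compat G w f) : ∀ u v, G.Adj u v → f u ≠ f v := by
  have key : ∀ u v, G.Adj u v → w.symm u < w.symm v → f u ≠ f v := by
    intro u v huv hlt heq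
    have h1 := h hlt
    simp only [Equiv.apply_symm_apply] at h1
    have h2 := (Prod.Lex.toLex_lt_toLex).mp h1
    rcases h2 with h2 | h2
    · simp only at h2
      omega
    · have h3 : (rep G w).symm v < (rep G w).symm u := h2.2
      have h4 : ori G (rep G w) u v := by
        rw [ori_rep]
        exact ⟨huv, hlt⟩
      exact absurd h3 (not_lt.mpr (le_of_lt h4.2))
  intro u v huv
  rcases lt_trichotomy (w.symm u) (w.symm v) with h1 | h1 | h1
  · exact key u v huv h1
  · exact absurd (w.symm.injective h1) huv.ne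
  · exact (key v u huv.symm h1).symm

lemma exists_unique_compat [Nonempty (Fin (k + 1) ≃ V)] (hV : Fintype.card V = k + 1)
    (f : V → ℕ) (hf : ∀ u v, G.Adj u v → f u ≠ f v) :
    ∃! w : Fin (k + 1) ≃ V, compat G w f := by
  obtain ⟨e0⟩ := (inferInstance : Nonempty (Fin (k + 1) ≃ V))
  have inj : ∀ e : V ≃ Fin (k + 1),
      Function.Injective (fun v => (toLex (f v, e v) : ℕ ×ₗ Fin (k + 1))) := by
    intro e a b hab
    have h1 : (f a, e a) = (f b, e b) := toLex.injective hab
    have h2 := (Prod.mk.injEq _ _ _ _ ▸ h1).2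
    exact e.injective h2
  obtain ⟨w1, hw1⟩ := exists_sort hV _ (inj e0.symm)
  have ho1 : ori G w1 = oriF G f :=
    ori_of_antitone G w1 f hf (antitone_of_strictAnti w1 f _ hw1)
  set w0 := Function.invFun (ori (k := k) G) (oriF G f) with hw0
  obtain ⟨w, hw⟩ := exists_sort hV _ (inj w0.symm)
  have hrep : ∀ w' : Fin (k + 1) ≃ V, Antitone (fun i => f (w' i)) → rep G w' = w0 := by
    intro w' h
    unfold rep
    rw [ori_of_antitone G w' f hf h]
  refine ⟨w, ?_, ?_⟩
  · show compat G w f
    unfold compat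
    rw [hrep w (antitone_of_strictAnti w f _ hw)]
    exact hw
  · intro w' hw'
    have h1 : compat G w' f := hw'
    unfold compat at h1
    have h2 := hrep w' (antitone_of_strictAnti w' f _ h1)
    rw [h2] at h1
    exact sort_unique (fun v => (toLex (f v, w0.symm v) : ℕ ×ₗ Fin (k + 1))) w' w h1 hw

/-- the number of proper colourings with `n` colours -/
noncomputable def chi (G : SimpleGraph V) (n : ℕ) : ℕ :=
  Nat.card {φ : V → Fin n // ∀ u v, G.Adj u v → φ u ≠ φ v}

/-- strictness of the steps of a listing -/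
def st [Nonempty (Fin (k + 1) ≃ V)] (w : Fin (k + 1) ≃ V) (i : Fin k) : Prop :=
  (rep G w).symm (w i.castSucc) < (rep G w).symm (w i.succ)

omit [Fintype V] in
lemma compat_iff [Nonempty (Fin (k + 1) ≃ V)] (w : Fin (k + 1) ≃ V) (f : V → ℕ) :
    compat G w f ↔ ∀ i : Fin k, f (w i.succ) ≤ f (w i.castSucc) ∧
      (st G w i → f (w i.succ) < f (w i.castSucc)) := by
  unfold compat
  rw [Fin.strictAnti_iff_succ_lt]
  apply forall_congr'
  intro i
  rw [Prod.Lex.toLex_lt_toLex]
  have hne : (rep G w).symm (w i.castSucc) ≠ (rep G w).symm (w i.succ) := by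
    intro h
    have := w.injective ((rep G w).symm.injective h)
    exact absurd this (ne_of_lt (Fin.castSucc_lt_succ))
  unfold st
  simp only
  constructor
  · rintro (h | h)
    · exact ⟨le_of_lt h, fun _ => h⟩
    · refine ⟨le_of_eq h.1, fun h' => absurd h.2 (not_lt.mpr (le_of_lt h'))⟩
  · rintro ⟨h1, h2⟩
    rcases lt_or_gt_of_ne hne with h3 | h3
    · left; exact h2 h3
    · rcases eq_or_lt_of_le h1 with h4 | h4
      · right; exact ⟨h4, h3⟩
      · left; exact h4

/-- proper colourings decompose according to their listing -/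
noncomputable def decomp [Nonempty (Fin (k + 1) ≃ V)] (hV : Fintype.card V = k + 1) (n : ℕ) :
    (Σ w : Fin (k + 1) ≃ V, TT k (st G w) n) ≃
      {φ : V → Fin n // ∀ u v, G.Adj u v → φ u ≠ φ v} := by
  have hlt : ∀ (w : Fin (k + 1) ≃ V) (g : TT k (st G w) n) (i : Fin (k + 1)), g.1 i < n := by
    intro w g i
    have ha : Antitone g.1 := Fin.antitone_iff_succ_le.mpr (fun i => (g.2.2 i).1)
    exact lt_of_le_of_lt (ha (Fin.zero_le i)) g.2.1
  have hc : ∀ (w : Fin (k + 1) ≃ V) (g : TT k (st G w) n), compat G w (fun v => g.1 (w.symm v)) := by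
    intro w g
    rw [compat_iff]
    intro i
    simpa using g.2.2 i
  refine Equiv.ofBijective
    (fun p => ⟨fun v => ⟨p.2.1 (p.1.symm v), hlt p.1 p.2 _⟩, ?_⟩) ⟨?_, ?_⟩
  · intro u v huv h
    exact compat_proper G p.1 _ (hc p.1 p.2) u v huv (by simpa using congrArg Fin.val h)
  · rintro ⟨w, g⟩ ⟨w', g'⟩ h
    have h1 : ∀ v, g.1 (w.symm v) = g'.1 (w'.symm v) := by
      intro v
      have := congrFun (congrArg Subtype.val h) v
      simpa using congrArg Fin.val this
    have h2 : compat G w (fun v => g.1 (w.symm v)) := hc w g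
    have h3 : compat G w' (fun v => g.1 (w.symm v)) := by
      have := hc w' g'
      have he : (fun v => g.1 (w.symm v)) = (fun v => g'.1 (w'.symm v)) := funext h1
      rw [he]; exact this
    have hw : w = w' :=
      (exists_unique_compat G hV _ (compat_proper G w _ h2)).unique h2 h3
    subst hw
    have hg : g = g' := by
      apply Subtype.ext
      funext i
      have := h1 (w i)
      simpa using this
    rw [hg]
  · rintro ⟨φ, hφ⟩
    have hφ' : ∀ u v, G.Adj u v → (fun v => (φ v : ℕ)) u ≠ (fun v => (φ v : ℕ)) v := by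
      intro u v huv h
      exact hφ u v huv (Fin.ext h)
    obtain ⟨w, hw, _⟩ := exists_unique_compat G hV _ hφ'
    have hw' := (compat_iff G w _).mp hw
    refine ⟨⟨w, ⟨fun i => (φ (w i) : ℕ), ?_, ?_⟩⟩, ?_⟩
    · exact (φ (w 0)).2
    · intro i
      exact hw' i
    · apply Subtype.ext
      funext v
      apply Fin.ext
      simp

open Classical in
lemma chi_eq_sum [Nonempty (Fin (k + 1) ≃ V)] (hV : Fintype.card V = k + 1) (n : ℕ) :
    chi G n = ∑ w : Fin (k + 1) ≃ V, cc k (st G w) n := by
  unfold chi cc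
  rw [← Nat.card_congr (decomp G hV n), Nat.card_sigma]

open Classical in
/-- the numerator polynomial -/
noncomputable def hpol [Nonempty (Fin (k + 1) ≃ V)] (G : SimpleGraph V) : Polynomial ℤ :=
  ∑ w : Fin (k + 1) ≃ V, Polynomial.X ^ (tt k (st G w) + 1)

lemma hpol_gf [Nonempty (Fin (k + 1) ≃ V)] (hV : Fintype.card V = k + 1) :
    PowerSeries.mk (fun n => (chi G n : ℤ)) * (1 - (PowerSeries.X : PowerSeries ℤ)) ^ (k + 2)
      = (hpol (k := k) G : PowerSeries ℤ) := by
  classical
  have h1 : PowerSeries.mk (fun n => (chi G n : ℤ))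
      = ∑ w : Fin (k + 1) ≃ V, PowerSeries.mk (fun n => (cc k (st G w) n : ℤ)) := by
    ext n
    rw [PowerSeries.coeff_mk, map_sum, chi_eq_sum G hV n]
    push_cast
    apply Finset.sum_congr
    · rfl
    · intro w _
      rw [PowerSeries.coeff_mk]
  rw [h1, Finset.sum_mul]
  unfold hpol
  have h2 : ((∑ w : Fin (k + 1) ≃ V, (Polynomial.X : Polynomial ℤ) ^ (tt k (st G w) + 1) :
      Polynomial ℤ) : PowerSeries ℤ)
      = ∑ w : Fin (k + 1) ≃ V, (((Polynomial.X : Polynomial ℤ) ^ (tt k (st G w) + 1) :
      Polynomial ℤ) : PowerSeries ℤ) :=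
    map_sum (Polynomial.coeToPowerSeries.ringHom (R := ℤ)) _ _
  rw [h2]
  apply Finset.sum_congr
  · rfl
  · intro w _
    rw [cc_gf]
    simp

lemma hpol_coeff_nonneg [Nonempty (Fin (k + 1) ≃ V)] (i : ℕ) :
    0 ≤ (hpol (k := k) G).coeff i := by
  classical
  unfold hpol
  rw [Polynomial.finsetSum_coeff]
  apply Finset.sum_nonneg
  intro w _
  rw [Polynomial.coeff_X_pow]
  split_ifs <;> norm_num

lemma hpol_natDegree_le [Nonempty (Fin (k + 1) ≃ V)] :
    (hpol (k := k) G).natDegree ≤ k + 1 := by
  classical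
  unfold hpol
  apply Polynomial.natDegree_sum_le_of_forall_le
  intro w _
  rw [Polynomial.natDegree_X_pow]
  have := tt_le k (st G w)
  omega

lemma hpol_coeff_zero [Nonempty (Fin (k + 1) ≃ V)] :
    (hpol (k := k) G).coeff 0 = 0 := by
  classical
  unfold hpol
  rw [Polynomial.finsetSum_coeff]
  apply Finset.sum_eq_zero
  intro w _
  rw [Polynomial.coeff_X_pow, if_neg]
  omega

end Listings

end Pool.Agent.R135.ChromSym
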