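import Mathlib
import Pool.Agent.R135.ChromPos
import Pool.Agent.R135.Arbor

/-!
# Arbor polytopes: words and families of subsets
-/

set_option autoImplicit false
open Finset
open scoped Classical

namespace Pool.Agent.R135.Arbor

open Pool.Agent.R135.ChromSym (TT cc cc_gf cc_at_zero tt)

variable {k : ℕ}

/-- weak ascents -/
def wasc (w : Fin (k + 1) → Fin (k + 1)) (i : Fin k) : Prop := w i.castSucc ≤ w i.succ

/-- number of letters in `D` -/
noncomputable def cnt (w : Fin (k + 1) → Fin (k + 1)) (D : Finset (Fin (k + 1))) : ℕ :=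
  (univ.filter (fun j => w j ∈ D)).card

lemma strictAnti_of_TT (w : Fin (k + 1) → Fin (k + 1)) (m : ℕ) (g : TT k (wasc w) m) :
    StrictAnti (fun j => (toLex (g.1 j, w j) : ℕ ×ₗ Fin (k + 1))) := by
  rw [Fin.strictAnti_iff_succ_lt]
  intro i
  rw [Prod.Lex.toLex_lt_toLex]
  obtain ⟨h1, h2⟩ := g.2.2 i
  rcases eq_or_lt_of_le h1 with h | h
  · right
    refine ⟨h, ?_⟩
    by_contra hcon
    have h3 : wasc w i := not_lt.mp hcon
    exact absurd h (ne_of_lt (h2 h3))
  · left; exact h

lemma TT_lt (w : Fin (k + 1) → Fin (k + 1)) (m : ℕ) (g : TT k (wasc w) m) (j : Fin (k + 1)) :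
    g.1 j < m := by
  have ha : Antitone g.1 := Fin.antitone_iff_succ_le.mpr (fun i => (g.2.2 i).1)
  exact lt_of_le_of_lt (ha (Fin.zero_le j)) g.2.1

/-- the family of subsets of a pair -/
noncomputable def fam (m : ℕ) (w : Fin (k + 1) → Fin (k + 1)) (g : TT k (wasc w) (m + 1))
    (i : Fin (k + 1)) : Finset (Fin (m + 1)) :=
  (univ.filter (fun j => w j = i)).image (fun j => ⟨g.1 j, TT_lt w (m + 1) g j⟩)

lemma fam_card (m : ℕ) (w : Fin (k + 1) → Fin (k + 1)) (g : TT k (wasc w) (m + 1))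
    (i : Fin (k + 1)) : (fam m w g i).card = (univ.filter (fun j => w j = i)).card := by
  unfold fam
  apply Finset.card_image_of_injOn
  intro a ha b hb hab
  simp only [Finset.coe_filter, Finset.mem_univ, true_and, Set.mem_ofPred_eq] at ha hb
  have h1 : g.1 a = g.1 b := congrArg Fin.val hab
  apply (strictAnti_of_TT w (m + 1) g).injective
  show toLex (g.1 a, w a) = toLex (g.1 b, w b)
  rw [h1, ha, hb]

lemma fam_sum (m : ℕ) (w : Fin (k + 1) → Fin (k + 1)) (g : TT k (wasc w) (m + 1))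
    (D : Finset (Fin (k + 1))) : ∑ i ∈ D, (fam m w g i).card = cnt w D := by
  unfold cnt
  rw [Finset.sum_congr rfl (fun i _ => fam_card m w g i)]
  rw [Finset.card_eq_sum_card_fiberwise (f := w) (s := univ.filter (fun j => w j ∈ D)) (t := D)
    (fun j hj => by simpa using hj)]
  apply Finset.sum_congr rfl
  intro i hi
  rw [Finset.filter_filter]
  congr 1
  ext j
  simp only [Finset.mem_filter, Finset.mem_univ, true_and]
  constructor
  · intro h
    exact ⟨h ▸ hi, h⟩
  · exact fun h => h.2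

lemma mem_fam (m : ℕ) (w : Fin (k + 1) → Fin (k + 1)) (g : TT k (wasc w) (m + 1))
    (i : Fin (k + 1)) (a : Fin (m + 1)) : a ∈ fam m w g i ↔ ∃ j, w j = i ∧ g.1 j = a := by
  unfold fam
  rw [Finset.mem_image]
  constructor
  · rintro ⟨j, hj, rfl⟩
    exact ⟨j, (Finset.mem_filter.mp hj).2, rfl⟩
  · rintro ⟨j, hj, ha⟩
    exact ⟨j, Finset.mem_filter.mpr ⟨Finset.mem_univ _, hj⟩, Fin.ext ha⟩

lemma strictAnti_ext {β : Type} [LinearOrder β] (h h' : Fin (k + 1) → β) (hh : StrictAnti h)
    (hh' : StrictAnti h') (hr : Set.range h = Set.range h') : h = h' := by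
  have h1 : StrictMono (OrderDual.toDual ∘ h) := hh.dual_right
  have h2 : StrictMono (OrderDual.toDual ∘ h') := hh'.dual_right
  have h3 : Set.range (OrderDual.toDual ∘ h) = Set.range (OrderDual.toDual ∘ h') := by
    rw [Set.range_comp, Set.range_comp, hr]
  have h4 := (StrictMono.range_inj h1 h2).mp h3
  funext i
  exact OrderDual.toDual.injective (congrFun h4 i)

/-- the set of admissible words -/
noncomputable def words (L : Finset (Finset (Fin (k + 1)))) : Finset (Fin (k + 1) → Fin (k + 1)) :=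
  univ.filter (fun w => ∀ D ∈ L, D.card ≤ cnt w D)

/-- admissible families -/
abbrev Fam (m : ℕ) (L : Finset (Finset (Fin (k + 1)))) : Type :=
  {f : Fin (k + 1) → Finset (Fin (m + 1)) //
    (∀ D ∈ L, D.card ≤ ∑ i ∈ D, (f i).card) ∧ ∑ i, (f i).card = Fintype.card (Fin (k + 1))}

/-- words with compatible sequences correspond to families of subsets -/
noncomputable def wordEquiv (m : ℕ) (L : Finset (Finset (Fin (k + 1)))) :
    (Σ w : {w // w ∈ words L}, TT k (wasc w.1) (m + 1)) ≃ Fam m L := by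
  refine Equiv.ofBijective (fun p => ⟨fam m p.1.1 p.2, ?_, ?_⟩) ⟨?_, ?_⟩
  · intro D hD
    rw [fam_sum]
    exact (Finset.mem_filter.mp p.1.2).2 D hD
  · rw [fam_sum]
    unfold cnt
    simp
  · rintro ⟨⟨w, hw⟩, g⟩ ⟨⟨w', hw'⟩, g'⟩ h
    have hf : fam m w g = fam m w' g' := congrArg Subtype.val h
    have hr : ∀ (w w' : Fin (k + 1) → Fin (k + 1)) (g : TT k (wasc w) (m + 1))
        (g' : TT k (wasc w') (m + 1)), fam m w g = fam m w' g' →
        Set.range (fun j => (toLex (g.1 j, w j) : ℕ ×ₗ Fin (k + 1)))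
          ⊆ Set.range (fun j => (toLex (g'.1 j, w' j) : ℕ ×ₗ Fin (k + 1))) := by
      rintro w w' g g' hf _ ⟨j, rfl⟩
      have h1 : (⟨g.1 j, TT_lt w (m + 1) g j⟩ : Fin (m + 1)) ∈ fam m w g (w j) :=
        (mem_fam m w g _ _).mpr ⟨j, rfl, rfl⟩
      rw [hf, mem_fam] at h1
      obtain ⟨j', h2, h3⟩ := h1
      refine ⟨j', ?_⟩
      show toLex (g'.1 j', w' j') = toLex (g.1 j, w j)
      rw [h2, h3]
    have hrange := Set.Subset.antisymm (hr w w' g g' hf) (hr w' w g' g hf.symm)
    have heq := strictAnti_ext _ _ (strictAnti_of_TT w (m + 1) g) (strictAnti_of_TT w' (m + 1) g')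
      hrange
    have h4 : ∀ j, (g.1 j, w j) = (g'.1 j, w' j) := fun j => toLex.injective (congrFun heq j)
    have hww : w = w' := funext fun j => (Prod.mk.injEq _ _ _ _ ▸ h4 j).2
    subst hww
    have hgg : g = g' := Subtype.ext (funext fun j => (Prod.mk.injEq _ _ _ _ ▸ h4 j).1)
    rw [hgg]
  · rintro ⟨f, hf1, hf2⟩
    -- the set of pairs
    let emb : (Σ _ : Fin (k + 1), Fin (m + 1)) → ℕ ×ₗ Fin (k + 1) := fun p => toLex ((p.2 : ℕ), p.1)
    have hemb : Function.Injective emb := by
      rintro ⟨i, a⟩ ⟨i', a'⟩ h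
      have h1 : ((a : ℕ), i) = ((a' : ℕ), i') := toLex.injective h
      rw [Prod.mk.injEq] at h1
      obtain ⟨h2, rfl⟩ := h1
      have : a = a' := Fin.ext h2
      rw [this]
    let Xs : Finset (ℕ ×ₗ Fin (k + 1)) := (Finset.univ.sigma f).image emb
    have hXs : Xs.card = k + 1 := by
      simp only [Xs]
      rw [Finset.card_image_of_injective _ hemb, Finset.card_sigma, hf2, Fintype.card_fin]
    let h : Fin (k + 1) → ℕ ×ₗ Fin (k + 1) := fun j => Xs.orderEmbOfFin hXs (Fin.rev j)
    have hanti : StrictAnti h := by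
      intro a b hab
      exact (Xs.orderEmbOfFin hXs).strictMono (Fin.rev_lt_rev.mpr hab)
    have hmemX : ∀ x : ℕ ×ₗ Fin (k + 1), x ∈ Xs ↔
        ∃ a : Fin (m + 1), a ∈ f (ofLex x).2 ∧ (a : ℕ) = (ofLex x).1 := by
      intro x
      simp only [Xs]
      rw [Finset.mem_image]
      constructor
      · rintro ⟨⟨i, a⟩, hp, rfl⟩
        rw [Finset.mem_sigma] at hp
        exact ⟨a, hp.2, rfl⟩
      · rintro ⟨a, ha1, ha2⟩
        refine ⟨⟨(ofLex x).2, a⟩, ?_, ?_⟩
        · rw [Finset.mem_sigma]; exact ⟨Finset.mem_univ _, ha1⟩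
        · show toLex ((a : ℕ), (ofLex x).2) = x
          rw [ha2]
          rfl
    have hmem : ∀ j, h j ∈ Xs := fun j => Finset.orderEmbOfFin_mem _ _ _
    have hsurj : ∀ x ∈ Xs, ∃ j, h j = x := by
      intro x hx
      have h1 : x ∈ Set.range (Xs.orderEmbOfFin hXs) := by
        rw [Finset.range_orderEmbOfFin]; exact hx
      obtain ⟨j, hj⟩ := h1
      refine ⟨Fin.rev j, ?_⟩
      simp only [h]
      rw [Fin.rev_rev]
      exact hj
    let w : Fin (k + 1) → Fin (k + 1) := fun j => (ofLex (h j)).2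
    have hlt : ∀ j, (ofLex (h j)).1 < m + 1 := by
      intro j
      obtain ⟨a, _, ha⟩ := (hmemX _).mp (hmem j)
      rw [← ha]
      exact a.2
    have hstep := Fin.strictAnti_iff_succ_lt.mp hanti
    let g : TT k (wasc w) (m + 1) := ⟨fun j => (ofLex (h j)).1, hlt 0, by
      intro i
      have h1 := hstep i
      have h2 : toLex (ofLex (h i.succ)) < toLex (ofLex (h i.castSucc)) := h1
      rw [Prod.Lex.toLex_lt_toLex] at h2
      rcases h2 with h2 | ⟨h2, h3⟩
      · exact ⟨le_of_lt h2, fun _ => h2⟩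
      · refine ⟨le_of_eq h2, fun h4 => ?_⟩
        exact absurd h3 (not_lt.mpr h4)⟩
    have hfam : fam m w g = f := by
      funext i
      ext a
      rw [mem_fam]
      constructor
      · rintro ⟨j, hj1, hj2⟩
        obtain ⟨a', ha1, ha2⟩ := (hmemX _).mp (hmem j)
        have h5 : a' = a := Fin.ext (ha2.trans hj2)
        rw [← h5, ← hj1]
        exact ha1
      · intro ha
        have h6 : (toLex ((a : ℕ), i) : ℕ ×ₗ Fin (k + 1)) ∈ Xs :=
          (hmemX _).mpr ⟨a, ha, rfl⟩
        obtain ⟨j, hj⟩ := hsurj _ h6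
        refine ⟨j, ?_, ?_⟩
        · show (ofLex (h j)).2 = i
          rw [hj]; rfl
        · show (ofLex (h j)).1 = a
          rw [hj]; rfl
    have hw : w ∈ words L := by
      unfold words
      rw [Finset.mem_filter]
      refine ⟨Finset.mem_univ _, ?_⟩
      intro D hD
      rw [← fam_sum m w g D, hfam]
      exact hf1 D hD
    refine ⟨⟨⟨w, hw⟩, g⟩, ?_⟩
    apply Subtype.ext
    exact hfam

lemma card_fam (m : ℕ) (L : Finset (Finset (Fin (k + 1)))) :
    (setB m L).card = ∑ w ∈ words L, cc k (wasc w) (m + 1) := by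
  have e : {f // f ∈ setB m L} ≃ Fam m L :=
    Equiv.subtypeEquivRight (fun f => mem_setB m L f)
  rw [← Fintype.card_coe, ← Nat.card_eq_fintype_card, Nat.card_congr e,
    ← Nat.card_congr (wordEquiv m L), Nat.card_sigma, Finset.sum_coe_sort (words L)
      (fun w => Nat.card (TT k (wasc w) (m + 1)))]
  rfl

/-- descents -/
noncomputable def des (w : Fin (k + 1) → Fin (k + 1)) : ℕ :=
  (univ.filter (fun i : Fin k => w i.succ < w i.castSucc)).card

lemma tt_wasc (w : Fin (k + 1) → Fin (k + 1)) : tt k (wasc w) = k - des w := by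
  unfold tt des
  rw [Nat.card_eq_fintype_card, Fintype.card_subtype]
  have h1 := Finset.card_filter_add_card_filter_not (s := (univ : Finset (Fin k)))
    (fun i : Fin k => w i.succ < w i.castSucc)
  rw [Finset.card_univ, Fintype.card_fin] at h1
  have h2 : (univ.filter (fun i : Fin k => ¬ w i.succ < w i.castSucc))
      = univ.filter (fun i : Fin k => wasc w i) := by
    apply Finset.filter_congr
    intro i _
    unfold wasc
    rw [not_lt]
  rw [h2] at h1
  omega

open PowerSeries in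
lemma cc_gf' (s : Fin k → Prop) :
    PowerSeries.mk (fun m => (cc k s (m + 1) : ℤ)) * (1 - (X : PowerSeries ℤ)) ^ (k + 2)
      = X ^ (tt k s) := by
  have h1 : PowerSeries.mk (fun n => (cc k s n : ℤ))
      = X * PowerSeries.mk (fun m => (cc k s (m + 1) : ℤ)) := by
    ext n
    rw [mul_comm]
    cases n with
    | zero => simp [cc_at_zero]
    | succ n => rw [PowerSeries.coeff_succ_mul_X]; simp
  have h2 := cc_gf k s
  rw [h1] at h2
  have h3 : X * (PowerSeries.mk (fun m => (cc k s (m + 1) : ℤ)) * (1 - (X : PowerSeries ℤ)) ^ (k + 2))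
      = X * X ^ (tt k s) := by
    rw [← mul_assoc, h2, pow_succ]; ring
  exact mul_left_cancel₀ PowerSeries.X_ne_zero h3

open PowerSeries in
/-- generating function of the numbers of lattice points -/
theorem words_gf (L : Finset (Finset (Fin (k + 1)))) (hL : Laminar L)
    (huniv : (univ : Finset (Fin (k + 1))) ∈ L) (c : ℕ → ℕ)
    (hc : ∀ m, c m = (setA m (m * (k + 1)) L).card) :
    PowerSeries.mk (fun m => (c m : ℤ)) * (1 - (X : PowerSeries ℤ)) ^ (k + 2)
      = ((∑ w ∈ words L, (Polynomial.X : Polynomial ℤ) ^ (k - des w) : Polynomial ℤ) :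
          PowerSeries ℤ) := by
  have h1 : PowerSeries.mk (fun m => (c m : ℤ))
      = ∑ w ∈ words L, PowerSeries.mk (fun m => (cc k (wasc w) (m + 1) : ℤ)) := by
    ext m
    rw [map_sum, PowerSeries.coeff_mk]
    have h2 := key_identity (α := Fin (k + 1)) m (m * (k + 1)) (by rw [Fintype.card_fin]) L hL huniv
    rw [hc m, h2, card_fam m L]
    push_cast
    apply Finset.sum_congr rfl
    intro w _
    rw [PowerSeries.coeff_mk]
  have h2 : ((∑ w ∈ words L, (Polynomial.X : Polynomial ℤ) ^ (k - des w) : Polynomial ℤ) :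
          PowerSeries ℤ)
      = ∑ w ∈ words L, (((Polynomial.X : Polynomial ℤ) ^ (k - des w) : Polynomial ℤ) :
          PowerSeries ℤ) :=
    map_sum (Polynomial.coeToPowerSeries.ringHom (R := ℤ))
      (fun w => (Polynomial.X : Polynomial ℤ) ^ (k - des w)) (words L)
  rw [h1, h2, Finset.sum_mul]
  apply Finset.sum_congr rfl
  intro w _
  rw [cc_gf', tt_wasc]
  simp

end Pool.Agent.R135.Arbor
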