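import Mathlib

/-!
# Lattice points of dilates of the base-`r` simplices
-/

set_option autoImplicit false
open scoped Pointwise

namespace Pool.Agent.R135.BaseR

/-- The base-`r` `d`-simplex `conv(e_1, …, e_d, -∑_k (r-1) r^{k-1} e_k)` (the coordinates are
indexed by `0, …, d-1`). -/
def simplexB (r d : ℕ) : Set (Fin d → ℝ) :=
  convexHull ℝ (insert (fun k : Fin d => -(((r : ℝ) - 1) * (r : ℝ) ^ (k : ℕ)))
    (Set.range fun i : Fin d => (Pi.single i 1 : Fin d → ℝ)))

/-- number of `m < d` with `r (b mod r^m) < b mod r^(m+1)` -/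
def om (r d b : ℕ) : ℕ :=
  ((Finset.range d).filter (fun m => (b % r ^ m) * r < b % r ^ (m + 1))).card

theorem floor_aux (r m b : ℕ) (hr : 1 ≤ r) :
    (b * (r - 1)) / r ^ (m + 1) + b / r ^ (m + 1) +
      (if (b % r ^ m) * r < b % r ^ (m + 1) then 1 else 0) = b / r ^ m := by
  have hrm : 0 < r ^ m := Nat.pow_pos hr
  have hrm1 : 0 < r ^ (m + 1) := Nat.pow_pos hr
  obtain ⟨s, rfl⟩ : ∃ s, r = s + 1 := ⟨r - 1, by omega⟩
  rw [Nat.add_sub_cancel]
  set R := (s + 1) ^ m with hR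
  have hR1 : (s + 1) ^ (m + 1) = R * (s + 1) := pow_succ _ _
  rw [hR1] at hrm1 ⊢
  -- b = A (R (s+1)) + w R + x
  obtain ⟨A, hA⟩ : ∃ A, A = b / (R * (s + 1)) := ⟨_, rfl⟩
  obtain ⟨ρ, hρ⟩ : ∃ ρ, ρ = b % (R * (s + 1)) := ⟨_, rfl⟩
  have hb : R * (s + 1) * A + ρ = b := by rw [hA, hρ]; exact Nat.div_add_mod b (R * (s + 1))
  have hρlt : ρ < R * (s + 1) := by rw [hρ]; exact Nat.mod_lt _ hrm1
  obtain ⟨w, hw⟩ : ∃ w, w = ρ / R := ⟨_, rfl⟩
  obtain ⟨x, hx⟩ : ∃ x, x = ρ % R := ⟨_, rfl⟩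
  have hρ2 : R * w + x = ρ := by rw [hw, hx]; exact Nat.div_add_mod ρ R
  have hxlt : x < R := by rw [hx]; exact Nat.mod_lt _ hrm
  have hbmod : b % R = x := by
    rw [hx, hρ, Nat.mod_mul_right_mod]
  have hbdiv : b / R = A * (s + 1) + w := by
    rw [← hb, ← hρ2]
    have : R * (s + 1) * A + (R * w + x) = x + R * (A * (s + 1) + w) := by ring
    rw [this, Nat.add_mul_div_left _ _ hrm, Nat.div_eq_of_lt hxlt, zero_add]
  rw [← hρ, ← hA]
  rw [hbmod, hbdiv]
  split_ifs with h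
  · -- the quotient is `A s + w - 1`
    have hwpos : 1 ≤ w := by
      by_contra hw0
      have : w = 0 := by omega
      rw [this, mul_zero, zero_add] at hρ2
      have : x * 1 ≤ x * (s + 1) := Nat.mul_le_mul_left x (by omega)
      omega
    obtain ⟨w', hw'⟩ : ∃ w', w = w' + 1 := ⟨w - 1, by omega⟩
    have hq : (b * s) / (R * (s + 1)) = A * s + w' := by
      have e1 : b * s = (R * (s + 1) + x * (s + 1) - ρ) + (R * (s + 1)) * (A * s + w') := by
        have h2 : ρ ≤ R * (s + 1) + x * (s + 1) := by omega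
        zify [h2]
        rw [← hb, ← hρ2, hw']
        push_cast
        ring
      rw [e1, Nat.add_mul_div_left _ _ hrm1, Nat.div_eq_of_lt, zero_add]
      omega
    rw [hq, hw']
    ring
  · have hq : (b * s) / (R * (s + 1)) = A * s + w := by
      have e1 : b * s = (x * (s + 1) - ρ) + (R * (s + 1)) * (A * s + w) := by
        have h2 : ρ ≤ x * (s + 1) := by omega
        zify [h2]
        rw [← hb, ← hρ2]
        push_cast
        ring
      rw [e1, Nat.add_mul_div_left _ _ hrm1, Nat.div_eq_of_lt, zero_add]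
      have : x * (s + 1) < R * (s + 1) := Nat.mul_lt_mul_of_pos_right hxlt (by omega)
      omega
    rw [hq]
    ring

theorem om_succ (r m b : ℕ) : om r (m + 1) b =
    om r m b + (if (b % r ^ m) * r < b % r ^ (m + 1) then 1 else 0) := by
  unfold om
  rw [Finset.range_add_one, Finset.filter_insert]
  split_ifs with h
  · rw [Finset.card_insert_of_notMem (by simp)]
  · rw [add_zero]

theorem floor_sum_aux (r b : ℕ) (hr : 1 ≤ r) (d : ℕ) :
    (∑ m ∈ Finset.range d, (b * (r - 1)) / r ^ (m + 1)) + b / r ^ d + om r d b = b := by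
  induction d with
  | zero => simp [om]
  | succ d ih =>
    rw [Finset.sum_range_succ, om_succ]
    have h := floor_aux r d b hr
    omega

/-- `∑_k ⌊b q_k / r^d⌋ + ⌊b / r^d⌋ + ω(b) = b`, where `q_k = (r-1) r^k` -/
theorem floor_sum (r b : ℕ) (hr : 1 ≤ r) (d : ℕ) :
    (∑ k : Fin d, (b * ((r - 1) * r ^ (k : ℕ))) / r ^ d) + b / r ^ d + om r d b = b := by
  have h := floor_sum_aux r b hr d
  have e : (∑ k : Fin d, (b * ((r - 1) * r ^ (k : ℕ))) / r ^ d) =
      ∑ m ∈ Finset.range d, (b * (r - 1)) / r ^ (m + 1) := by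
    rw [Finset.sum_range, ← Equiv.sum_comp Fin.revPerm]
    apply Finset.sum_congr rfl
    intro k _
    have hk : ((Fin.revPerm k : Fin d) : ℕ) + (k : ℕ) + 1 = d := by
      simp only [Fin.revPerm_apply, Fin.val_rev]
      omega
    have h1 : r ^ d = r ^ ((k : ℕ) + 1) * r ^ ((Fin.revPerm k : Fin d) : ℕ) := by
      rw [← pow_add]; congr 1; omega
    rw [h1, ← mul_assoc, Nat.mul_div_mul_right _ _ (Nat.pow_pos hr)]
  rw [e]
  exact h

theorem om_mod (r d b : ℕ) : om r d (b % r ^ d) = om r d b := by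
  unfold om
  congr 1
  apply Finset.filter_congr
  intro m hm
  rw [Finset.mem_range] at hm
  have e1 : (b % r ^ d) % r ^ m = b % r ^ m :=
    Nat.mod_mod_of_dvd _ (pow_dvd_pow r (by omega))
  have e2 : (b % r ^ d) % r ^ (m + 1) = b % r ^ (m + 1) :=
    Nat.mod_mod_of_dvd _ (pow_dvd_pow r (by omega))
  rw [e1, e2]

theorem om_le (r d b : ℕ) : om r d b ≤ d := by
  unfold om
  calc _ ≤ (Finset.range d).card := Finset.card_filter_le _ _
    _ = d := Finset.card_range d

/-! ## Membership in dilates -/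

theorem sum_q (r d : ℕ) :
    (∑ k : Fin d, ((r : ℝ) - 1) * (r : ℝ) ^ (k : ℕ)) = (r : ℝ) ^ d - 1 := by
  rw [← Finset.mul_sum, Fin.sum_univ_eq_sum_range (fun k => (r : ℝ) ^ k) d, mul_comm,
    geom_sum_mul]

theorem simplexB_eq (r d : ℕ) (hr : 1 ≤ r) : simplexB r d =
    {x | ∑ i, x i ≤ 1 ∧
      ∀ k : Fin d, 0 ≤ x k * (r : ℝ) ^ d + (1 - ∑ i, x i) * (((r : ℝ) - 1) * (r : ℝ) ^ (k : ℕ))} := by
  have hr1 : (1 : ℝ) ≤ r := by exact_mod_cast hr
  have hrd : (0 : ℝ) < (r : ℝ) ^ d := by positivity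
  have hq : ∀ k : ℕ, 0 ≤ ((r : ℝ) - 1) * (r : ℝ) ^ k := fun k => by
    apply mul_nonneg (by linarith) (by positivity)
  unfold simplexB
  apply Set.Subset.antisymm
  · apply convexHull_min
    · intro x hx
      rcases hx with rfl | ⟨i, rfl⟩
      · have hs : (∑ k : Fin d, -(((r : ℝ) - 1) * (r : ℝ) ^ (k : ℕ))) = 1 - (r : ℝ) ^ d := by
          rw [Finset.sum_neg_distrib, sum_q]; ring
        refine ⟨?_, fun k => ?_⟩
        · rw [hs]; linarith
        · rw [hs]
          apply le_of_eq; ring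
      · have hs : (∑ k : Fin d, (Pi.single i 1 : Fin d → ℝ) k) = 1 := by
          rw [Finset.sum_pi_single']; simp
        refine ⟨by rw [hs], fun k => ?_⟩
        rw [hs, sub_self, zero_mul, add_zero]
        apply mul_nonneg _ hrd.le
        change 0 ≤ (Pi.single i 1 : Fin d → ℝ) k
        rw [Pi.single_apply]
        split_ifs <;> norm_num
    · intro x hx y hy a b ha hb hab
      obtain ⟨h1, h2⟩ := hx
      obtain ⟨h3, h4⟩ := hy
      have hsum : ∑ i, (a • x + b • y) i = a * ∑ i, x i + b * ∑ i, y i := by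
        rw [Finset.mul_sum, Finset.mul_sum, ← Finset.sum_add_distrib]
        rfl
      refine ⟨?_, fun k => ?_⟩
      · rw [hsum]
        nlinarith
      · rw [hsum]
        have e1 := mul_nonneg ha (h2 k)
        have e2 := mul_nonneg hb (h4 k)
        have : (a • x + b • y) k = a * x k + b * y k := rfl
        rw [this]
        have hb' : b = 1 - a := by linarith
        subst hb'
        nlinarith
  · rintro x ⟨h1, h2⟩
    -- barycentric coordinates
    set l0 : ℝ := (1 - ∑ i, x i) / (r : ℝ) ^ d with hl0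
    have hl0nn : 0 ≤ l0 := div_nonneg (by linarith) hrd.le
    set q : Fin d → ℝ := fun k => ((r : ℝ) - 1) * (r : ℝ) ^ (k : ℕ) with hqdef
    have hl : ∀ k, 0 ≤ x k + l0 * q k := by
      intro k
      have h3 := h2 k
      have : x k + l0 * q k = (x k * (r : ℝ) ^ d + (1 - ∑ i, x i) * q k) / (r : ℝ) ^ d := by
        rw [hl0]; field_simp
      rw [this]
      exact div_nonneg h3 hrd.le
    have hsum : (∑ k, (x k + l0 * q k)) + l0 = 1 := by
      rw [Finset.sum_add_distrib, ← Finset.mul_sum, hqdef, sum_q, hl0]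
      field_simp
      ring
    have hc := convex_convexHull ℝ (insert (fun k : Fin d => -(((r : ℝ) - 1) * (r : ℝ) ^ (k : ℕ)))
      (Set.range fun i : Fin d => (Pi.single i 1 : Fin d → ℝ)))
    have := hc.sum_mem (t := (Finset.univ : Finset (Option (Fin d))))
      (w := fun o => o.elim l0 (fun k => x k + l0 * q k))
      (z := fun o => o.elim (fun k : Fin d => -(((r : ℝ) - 1) * (r : ℝ) ^ (k : ℕ)))
        (fun i => (Pi.single i 1 : Fin d → ℝ)))
      (by
        rintro (_ | k) _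
        · exact hl0nn
        · exact hl k)
      (by
        rw [Fintype.sum_option]
        simp only [Option.elim]
        linarith)
      (by
        rintro (_ | k) _
        · exact subset_convexHull ℝ _ (Set.mem_insert _ _)
        · exact subset_convexHull ℝ _ (Set.mem_insert_of_mem _ ⟨k, rfl⟩))
    rw [Fintype.sum_option] at this
    simp only [Option.elim] at this
    convert this using 1
    funext k
    rw [Pi.add_apply, Pi.smul_apply, Finset.sum_apply]
    simp only [Pi.smul_apply, smul_eq_mul]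
    have : ∑ c : Fin d, (x c + l0 * q c) * (Pi.single c 1 : Fin d → ℝ) k = x k + l0 * q k := by
      rw [Finset.sum_eq_single k]
      · simp
      · intro b _ hb
        rw [Pi.single_eq_of_ne (Ne.symm hb), mul_zero]
      · intro h; exact absurd (Finset.mem_univ k) h
    rw [this, hqdef]
    ring

theorem mem_smul_simplexB (r d : ℕ) (hr : 2 ≤ r) (t : ℕ) (z : Fin d → ℤ) :
    (fun i => (z i : ℝ)) ∈ (t : ℝ) • simplexB r d ↔
      ∑ i, z i ≤ t ∧
      ∀ k : Fin d, 0 ≤ z k * (r : ℤ) ^ d + (t - ∑ i, z i) * (((r : ℤ) - 1) * (r : ℤ) ^ (k : ℕ)) := by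
  have hrd : (0 : ℝ) < (r : ℝ) ^ d := by positivity
  have hr1 : (2 : ℝ) ≤ r := by exact_mod_cast hr
  rcases Nat.eq_zero_or_pos t with ht | ht
  · subst ht
    have hne : (simplexB r d).Nonempty := by
      rw [simplexB]
      exact ⟨_, subset_convexHull ℝ _ (Set.mem_insert _ _)⟩
    rw [Nat.cast_zero, Set.zero_smul_set hne]
    simp only [Set.mem_zero]
    constructor
    · intro h
      have hz : ∀ i, z i = 0 := fun i => by
        have := congrFun h i
        simpa using this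
      simp [hz]
    · rintro ⟨h1, h2⟩
      push_cast at h1 h2
      -- sum of the inequalities
      have hs : 0 ≤ (∑ i, z i) * (r : ℤ) ^ d +
          (0 - ∑ i, z i) * ((r : ℤ) ^ d - 1) := by
        have h3 := Finset.sum_nonneg (fun k (_ : k ∈ (Finset.univ : Finset (Fin d))) => h2 k)
        rw [Finset.sum_add_distrib, ← Finset.sum_mul, ← Finset.mul_sum] at h3
        have h4 : (∑ k : Fin d, ((r : ℤ) - 1) * (r : ℤ) ^ (k : ℕ)) = (r : ℤ) ^ d - 1 := by
          rw [← Finset.mul_sum, Fin.sum_univ_eq_sum_range (fun k => (r : ℤ) ^ k) d, mul_comm,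
            geom_sum_mul]
        rw [h4] at h3
        exact h3
      have hs2 : 0 ≤ ∑ i, z i := by linarith
      have hs3 : ∑ i, z i = 0 := le_antisymm h1 hs2
      have hz : ∀ k, 0 ≤ z k := by
        intro k
        have h3 := h2 k
        rw [hs3, sub_zero, zero_mul, add_zero] at h3
        have hrd' : (0 : ℤ) < (r : ℤ) ^ d := by positivity
        exact nonneg_of_mul_nonneg_left h3 hrd'
      have hz0 : ∀ k, z k = 0 := by
        intro k
        exact (Finset.sum_eq_zero_iff_of_nonneg (fun i _ => hz i)).mp hs3 k (Finset.mem_univ k)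
      funext k
      simp [hz0 k]
  · have ht' : (0 : ℝ) < t := by exact_mod_cast ht
    rw [Set.mem_smul_set_iff_inv_smul_mem₀ (ne_of_gt ht'), simplexB_eq r d (by omega)]
    simp only [Set.mem_ofPred_eq, Pi.smul_apply, smul_eq_mul]
    rw [← Finset.mul_sum]
    have e1 : (t : ℝ)⁻¹ * ∑ i, (z i : ℝ) ≤ 1 ↔ ∑ i, z i ≤ t := by
      rw [inv_mul_le_iff₀ ht', mul_one]
      exact_mod_cast Iff.rfl
    have e2 : ∀ k : Fin d, (0 ≤ (t : ℝ)⁻¹ * (z k : ℝ) * (r : ℝ) ^ d +
        (1 - (t : ℝ)⁻¹ * ∑ i, (z i : ℝ)) * (((r : ℝ) - 1) * (r : ℝ) ^ (k : ℕ)) ↔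
        0 ≤ z k * (r : ℤ) ^ d + (t - ∑ i, z i) * (((r : ℤ) - 1) * (r : ℤ) ^ (k : ℕ))) := by
      intro k
      have h3 : (t : ℝ)⁻¹ * (z k : ℝ) * (r : ℝ) ^ d +
        (1 - (t : ℝ)⁻¹ * ∑ i, (z i : ℝ)) * (((r : ℝ) - 1) * (r : ℝ) ^ (k : ℕ)) =
        (t : ℝ)⁻¹ * ((z k : ℝ) * (r : ℝ) ^ d +
        ((t : ℝ) - ∑ i, (z i : ℝ)) * (((r : ℝ) - 1) * (r : ℝ) ^ (k : ℕ))) := by
        field_simp
      rw [h3, mul_nonneg_iff_of_pos_left (inv_pos.mpr ht')]
      exact_mod_cast Iff.rfl
    rw [e1]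
    simp only [e2]

/-! ## Counting -/

/-- pairs `(b₀, f)` with `b₀ < r^d`, `f : Fin (d+1) → ℕ`, `∑ f + ω(b₀) = t` -/
noncomputable def S (r d t : ℕ) : Finset (Σ _ : ℕ, (Fin (d + 1) →₀ ℕ)) :=
  (Finset.range (r ^ d)).sigma (fun b₀ =>
    if om r d b₀ ≤ t then Finset.finsuppAntidiag Finset.univ (t - om r d b₀) else ∅)

theorem mem_S (r d t : ℕ) (s : Σ _ : ℕ, (Fin (d + 1) →₀ ℕ)) :
    s ∈ S r d t ↔ s.1 < r ^ d ∧ (∑ i, s.2 i) + om r d s.1 = t := by
  unfold S
  rw [Finset.mem_sigma, Finset.mem_range]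
  split_ifs with h
  · rw [Finset.mem_finsuppAntidiag]
    constructor
    · rintro ⟨h1, h2, _⟩
      have h2' : ∑ i, s.2 i = t - om r d s.1 := h2
      exact ⟨h1, by omega⟩
    · rintro ⟨h1, h2⟩
      have h2' : ∑ i, s.2 i = t - om r d s.1 := by omega
      exact ⟨h1, h2', Finset.subset_univ _⟩
  · constructor
    · rintro ⟨_, h2⟩
      exact absurd h2 (Finset.notMem_empty _)
    · rintro ⟨_, h2⟩
      omega

/-- the lattice point attached to `(b₀, f)` -/
def psi (r d : ℕ) (s : Σ _ : ℕ, (Fin (d + 1) →₀ ℕ)) : Fin d → ℤ := fun k =>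
  (s.2 k.succ : ℤ) - (((s.2 0 * r ^ d + s.1) * ((r - 1) * r ^ (k : ℕ)) / r ^ d : ℕ) : ℤ)

theorem psi_sum (r d t : ℕ) (hr : 2 ≤ r) (s : Σ _ : ℕ, (Fin (d + 1) →₀ ℕ))
    (hs : s ∈ S r d t) : ∑ k, psi r d s k = (t : ℤ) - ((s.2 0 * r ^ d + s.1 : ℕ) : ℤ) := by
  rw [mem_S] at hs
  obtain ⟨h1, h2⟩ := hs
  have h3 := floor_sum r (s.2 0 * r ^ d + s.1) (by omega) d
  have h4 : (s.2 0 * r ^ d + s.1) / r ^ d = s.2 0 := by
    rw [mul_comm, Nat.mul_add_div (Nat.pow_pos (by omega)), Nat.div_eq_of_lt h1, add_zero]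
  have h5 : om r d (s.2 0 * r ^ d + s.1) = om r d s.1 := by
    rw [← om_mod r d (s.2 0 * r ^ d + s.1)]
    congr 1
    rw [mul_comm, Nat.mul_add_mod, Nat.mod_eq_of_lt h1]
  rw [h4, h5] at h3
  rw [Fin.sum_univ_succ] at h2
  unfold psi
  rw [Finset.sum_sub_distrib]
  have h6 : (∑ k : Fin d, (((s.2 0 * r ^ d + s.1) * ((r - 1) * r ^ (k : ℕ)) / r ^ d : ℕ) : ℤ)) =
      ((∑ k : Fin d, (s.2 0 * r ^ d + s.1) * ((r - 1) * r ^ (k : ℕ)) / r ^ d : ℕ) : ℤ) := by
    push_cast; rfl
  have h7 : (∑ k : Fin d, (s.2 k.succ : ℤ)) = ((∑ k : Fin d, s.2 k.succ : ℕ) : ℤ) := by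
    push_cast; rfl
  rw [h6, h7]
  omega

theorem psi_injOn (r d t : ℕ) (hr : 2 ≤ r) : Set.InjOn (psi r d) (S r d t : Set _) := by
  intro s hs s' hs' h
  rw [Finset.mem_coe] at hs hs'
  have e1 := psi_sum r d t hr s hs
  have e2 := psi_sum r d t hr s' hs'
  rw [h, e2] at e1
  have hb : s'.2 0 * r ^ d + s'.1 = s.2 0 * r ^ d + s.1 := by omega
  have hlt := ((mem_S r d t s).mp hs).1
  have hlt' := ((mem_S r d t s').mp hs').1
  have hpos : 0 < r ^ d := Nat.pow_pos (by omega)
  have h1 : s'.1 = s.1 := by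
    have := congrArg (fun x => x % r ^ d) hb
    rw [mul_comm, Nat.mul_add_mod, Nat.mod_eq_of_lt hlt', mul_comm, Nat.mul_add_mod,
      Nat.mod_eq_of_lt hlt] at this
    exact this
  have h0 : s'.2 0 = s.2 0 := by
    rw [h1] at hb
    have : s'.2 0 * r ^ d = s.2 0 * r ^ d := by omega
    exact Nat.eq_of_mul_eq_mul_right hpos this
  have h2 : ∀ k : Fin d, s.2 k.succ = s'.2 k.succ := by
    intro k
    have := congrFun h k
    unfold psi at this
    rw [hb] at this
    omega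
  have h3 : s.2 = s'.2 := by
    ext i
    refine Fin.cases ?_ ?_ i
    · exact h0.symm
    · intro k; exact h2 k
  cases s; cases s'
  simp only at h1 h3
  subst h1 h3
  rfl

theorem image_psi (r d t : ℕ) (hr : 2 ≤ r) :
    psi r d '' (S r d t : Set _) =
      {z : Fin d → ℤ | (fun i => (z i : ℝ)) ∈ (t : ℝ) • simplexB r d} := by
  have hposd : 0 < r ^ d := Nat.pow_pos (by omega)
  ext z
  rw [Set.mem_ofPred_eq, mem_smul_simplexB r d hr]
  have hcast : ∀ k : ℕ, (((r : ℤ) - 1) * (r : ℤ) ^ k) = (((r - 1) * r ^ k : ℕ) : ℤ) := by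
    intro k
    have : ((r - 1 : ℕ) : ℤ) = (r : ℤ) - 1 := by omega
    push_cast [this]
    ring
  constructor
  · rintro ⟨s, hs, rfl⟩
    rw [Finset.mem_coe] at hs
    rw [psi_sum r d t hr s hs]
    refine ⟨by omega, fun k => ?_⟩
    rw [hcast]
    set b := s.2 0 * r ^ d + s.1 with hb
    have e : (t : ℤ) - ((t : ℤ) - (b : ℤ)) = (b : ℤ) := by ring
    rw [e]
    unfold psi
    rw [← hb]
    have h1 : (b * ((r - 1) * r ^ (k : ℕ))) / r ^ d * r ^ d ≤ b * ((r - 1) * r ^ (k : ℕ)) :=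
      Nat.div_mul_le_self _ _
    have h2 : (0 : ℤ) ≤ (s.2 k.succ : ℤ) * (r : ℤ) ^ d := by positivity
    have h3 : ((((b * ((r - 1) * r ^ (k : ℕ))) / r ^ d : ℕ) : ℤ)) * (r : ℤ) ^ d ≤
        (b : ℤ) * (((r - 1) * r ^ (k : ℕ) : ℕ) : ℤ) := by exact_mod_cast h1
    rw [sub_mul]
    linarith
  · rintro ⟨h1, h2⟩
    obtain ⟨b, hb⟩ : ∃ b : ℕ, (b : ℤ) = t - ∑ i, z i := ⟨(t - ∑ i, z i).toNat, by omega⟩
    rw [← hb] at h2
    have hy : ∀ k : Fin d, 0 ≤ z k + (((b * ((r - 1) * r ^ (k : ℕ))) / r ^ d : ℕ) : ℤ) := by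
      intro k
      have h3 := h2 k
      rw [hcast] at h3
      have h4 : -z k ≤ (((b * ((r - 1) * r ^ (k : ℕ))) / r ^ d : ℕ) : ℤ) := by
        rw [Int.natCast_div]
        apply Int.le_ediv_of_mul_le (by positivity)
        have e1 : ((b * ((r - 1) * r ^ (k : ℕ)) : ℕ) : ℤ) = (b : ℤ) * (((r - 1) * r ^ (k : ℕ) : ℕ) : ℤ) :=
          Nat.cast_mul _ _
        have e2 : ((r ^ d : ℕ) : ℤ) = (r : ℤ) ^ d := Nat.cast_pow _ _
        rw [e1, e2]
        linarith
      linarith
    refine ⟨⟨b % r ^ d, Finsupp.equivFunOnFinite.symm (Fin.cons (b / r ^ d)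
      (fun k => (z k + (((b * ((r - 1) * r ^ (k : ℕ))) / r ^ d : ℕ) : ℤ)).toNat))⟩, ?_, ?_⟩
    · rw [Finset.mem_coe, mem_S]
      refine ⟨Nat.mod_lt _ hposd, ?_⟩
      simp only [Finsupp.equivFunOnFinite_symm_apply_apply, Fin.sum_univ_succ, Fin.cons_zero,
        Fin.cons_succ]
      rw [om_mod]
      have h3 := floor_sum r b (by omega) d
      have h4 : ((∑ k : Fin d, (z k + (((b * ((r - 1) * r ^ (k : ℕ))) / r ^ d : ℕ) : ℤ)).toNat : ℕ) : ℤ) =
          (∑ k, z k) + ((∑ k : Fin d, (b * ((r - 1) * r ^ (k : ℕ))) / r ^ d : ℕ) : ℤ) := by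
        rw [Nat.cast_sum, Nat.cast_sum, ← Finset.sum_add_distrib]
        apply Finset.sum_congr rfl
        intro k _
        exact Int.toNat_of_nonneg (hy k)
      omega
    · funext k
      unfold psi
      simp only [Finsupp.equivFunOnFinite_symm_apply_apply, Fin.cons_zero, Fin.cons_succ]
      have e1 : b / r ^ d * r ^ d + b % r ^ d = b := Nat.div_add_mod' b (r ^ d)
      rw [e1, Int.toNat_of_nonneg (hy k)]
      ring

theorem card_lattice (r d t : ℕ) (hr : 2 ≤ r) :
    Set.ncard {z : Fin d → ℤ | (fun i => (z i : ℝ)) ∈ (t : ℝ) • simplexB r d} =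
      ∑ b ∈ Finset.range (r ^ d),
        if om r d b ≤ t then (d + (t - om r d b)).choose (t - om r d b) else 0 := by
  rw [← image_psi r d t hr, Set.InjOn.ncard_image (psi_injOn r d t hr), Set.ncard_coe_finset,
    S, Finset.card_sigma]
  apply Finset.sum_congr rfl
  intro b _
  split_ifs with h
  · rw [Finset.card_finsuppAntidiag_nat_eq_choose, Finset.card_univ, Fintype.card_fin]
    congr 1
    omega
  · rfl

/-! ## The distribution of `om` -/

/-- comparison of consecutive digits, ties broken by `c` -/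
def cmp (w : ℕ) (c : Bool) (w2 : ℕ) : Bool := decide (w < w2) || (decide (w = w2) && c)

/-- top digit of `b < r^m` -/
def ld (r m b : ℕ) : ℕ := match m with
  | 0 => 0
  | m + 1 => b / r ^ m

/-- top comparison of `b < r^m` -/
def cc (r m b : ℕ) : Bool := match m with
  | 0 => false
  | m + 1 => decide ((b % r ^ m) * r < b)

theorem cmp_aux (r R b w x w2 : ℕ) (hr : 1 ≤ r) (h1 : R * w + x = b) (h2 : x < R)
    (hb : b < R * r) :
    decide (b * r < w2 * (R * r) + b) =
      (decide (w < w2) || (decide (w = w2) && decide (x * r < b))) := by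
  rcases lt_trichotomy w w2 with h | h | h
  · have h3 : b * r < w2 * (R * r) + b := by
      have h4 : b < (w + 1) * R := by nlinarith
      have h5 : (w + 1) * R ≤ w2 * R := Nat.mul_le_mul_right R h
      have h6 : b * r < w2 * R * r := Nat.mul_lt_mul_of_pos_right (by omega) hr
      have h7 : w2 * R * r = w2 * (R * r) := by ring
      omega
    simp [h3, h]
  · subst h
    have h3 : b * r < w * (R * r) + b ↔ x * r < b := by
      have h4 : b * r = w * (R * r) + x * r := by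
        rw [← h1]; ring
      omega
    simp [h3]
  · have h3 : ¬ (b * r < w2 * (R * r) + b) := by
      have h4 : (w2 + 1) * R ≤ w * R := Nat.mul_le_mul_right R h
      have h5 : w2 * R + R ≤ b := by nlinarith
      have h6 : (w2 * R + R) * r ≤ b * r := Nat.mul_le_mul_right r h5
      have h7 : (w2 * R + R) * r = w2 * (R * r) + R * r := by ring
      omega
    have h4 : ¬ w < w2 := by omega
    have h5 : ¬ w = w2 := by omega
    simp [h3, h4, h5]

theorem cmp_eq (r : ℕ) (hr : 1 ≤ r) (m b w2 : ℕ) (hb : b < r ^ m) :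
    decide (b * r < w2 * r ^ m + b) = cmp (ld r m b) (cc r m b) w2 := by
  cases m with
  | zero =>
    have : b = 0 := by simpa using hb
    subst this
    by_cases h0 : 0 < w2
    · simp [cmp, ld, cc, h0]
    · simp [cmp, ld, cc, h0]
  | succ m =>
    have hrm : 0 < r ^ m := Nat.pow_pos hr
    have h := cmp_aux r (r ^ m) b (b / r ^ m) (b % r ^ m) w2 hr (Nat.div_add_mod b (r ^ m))
      (Nat.mod_lt _ hrm) (by rwa [← pow_succ])
    simp only [cmp, ld, cc, pow_succ]
    exact h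

theorem sum_range_pow_succ {M : Type*} [AddCommMonoid M] (r m : ℕ) (hr : 1 ≤ r) (F : ℕ → M) :
    ∑ b ∈ Finset.range (r ^ (m + 1)), F b =
      ∑ b ∈ Finset.range (r ^ m), ∑ w ∈ Finset.range r, F (w * r ^ m + b) := by
  have hrm : 0 < r ^ m := Nat.pow_pos hr
  rw [← Finset.sum_product']
  symm
  apply Finset.sum_nbij' (fun p => p.2 * r ^ m + p.1) (fun b => (b % r ^ m, b / r ^ m))
  · rintro ⟨b, w⟩ h
    rw [Finset.mem_product, Finset.mem_range, Finset.mem_range] at h
    rw [Finset.mem_range, pow_succ]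
    simp only at h ⊢
    have : (w + 1) * r ^ m ≤ r * r ^ m := Nat.mul_le_mul_right _ h.2
    nlinarith [h.1]
  · intro b h
    rw [Finset.mem_range] at h
    rw [Finset.mem_product, Finset.mem_range, Finset.mem_range]
    refine ⟨Nat.mod_lt _ hrm, ?_⟩
    rw [Nat.div_lt_iff_lt_mul hrm, ← pow_succ']
    exact h
  · rintro ⟨b, w⟩ h
    rw [Finset.mem_product, Finset.mem_range, Finset.mem_range] at h
    simp only at h ⊢
    rw [mul_comm, Nat.mul_add_mod, Nat.mod_eq_of_lt h.1, Nat.mul_add_div hrm,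
      Nat.div_eq_of_lt h.1, add_zero]
  · intro b h
    simp only
    exact Nat.div_add_mod' b (r ^ m)
  · rintro ⟨b, w⟩ h
    rfl

theorem om_digit (r m b w : ℕ) (hr : 1 ≤ r) (hb : b < r ^ m) (hw : w < r) :
    om r (m + 1) (w * r ^ m + b) =
      om r m b + (if cmp (ld r m b) (cc r m b) w then 1 else 0) := by
  rw [om_succ]
  have h1 : (w * r ^ m + b) % r ^ m = b := by
    rw [mul_comm, Nat.mul_add_mod, Nat.mod_eq_of_lt hb]
  have h2 : (w * r ^ m + b) % r ^ (m + 1) = w * r ^ m + b := by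
    apply Nat.mod_eq_of_lt
    rw [pow_succ]
    have : (w + 1) * r ^ m ≤ r * r ^ m := Nat.mul_le_mul_right _ hw
    nlinarith
  rw [h1, h2, ← cmp_eq r hr m b w hb]
  have h3 : om r m (w * r ^ m + b) = om r m b := by
    rw [← om_mod r m (w * r ^ m + b), h1]
  rw [h3]
  simp

/-- transfer of weights -/
def W (r B : ℕ) : ℕ → ℕ → Bool → ℕ
  | 0, _, _ => 1
  | j + 1, w, c => ∑ w2 ∈ Finset.range r, (if cmp w c w2 then B else 1) * W r B j w2 (cmp w c w2)

theorem ld_digit (r m b w : ℕ) (hr : 1 ≤ r) (hb : b < r ^ m) :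
    ld r (m + 1) (w * r ^ m + b) = w := by
  unfold ld
  simp only
  rw [mul_comm, Nat.mul_add_div (Nat.pow_pos hr), Nat.div_eq_of_lt hb, add_zero]

theorem cc_digit (r m b w : ℕ) (hr : 1 ≤ r) (hb : b < r ^ m) :
    cc r (m + 1) (w * r ^ m + b) = cmp (ld r m b) (cc r m b) w := by
  rw [← cmp_eq r hr m b w hb]
  have h1 : (w * r ^ m + b) % r ^ m = b := by
    rw [mul_comm, Nat.mul_add_mod, Nat.mod_eq_of_lt hb]
  change decide (((w * r ^ m + b) % r ^ m) * r < w * r ^ m + b) = _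
  rw [h1]

theorem sum_W (r B : ℕ) (hr : 1 ≤ r) (m : ℕ) : ∀ j : ℕ,
    ∑ b ∈ Finset.range (r ^ m), B ^ om r m b * W r B j (ld r m b) (cc r m b) =
      W r B (j + m) 0 false := by
  induction m with
  | zero =>
    intro j
    simp [om, ld, cc]
  | succ m ih =>
    intro j
    rw [sum_range_pow_succ r m hr]
    have h := ih (j + 1)
    have e : j + (m + 1) = j + 1 + m := by ring
    rw [e, ← h]
    apply Finset.sum_congr rfl
    intro b hb
    rw [Finset.mem_range] at hb
    rw [W, Finset.mul_sum]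
    apply Finset.sum_congr rfl
    intro w hw
    rw [Finset.mem_range] at hw
    rw [om_digit r m b w hr hb hw, ld_digit r m b w hr hb, cc_digit r m b w hr hb, pow_add,
      mul_assoc]
    congr 2
    split_ifs <;> simp

theorem sum_pow_om (r B d : ℕ) (hr : 1 ≤ r) :
    ∑ b ∈ Finset.range (r ^ d), B ^ om r d b = W r B d 0 false := by
  have h := sum_W r B hr d 0
  rw [zero_add] at h
  rw [← h]
  apply Finset.sum_congr rfl
  intro b _
  rw [W, mul_one]

/-- the number of `b < r^d` with `ω(b) = i` -/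
def Nf (r d i : ℕ) : ℕ := ((Finset.range (r ^ d)).filter (fun b => om r d b = i)).card

theorem sum_fiber {M : Type*} [AddCommMonoid M] (r d : ℕ) (g : ℕ → M) :
    ∑ b ∈ Finset.range (r ^ d), g (om r d b) = ∑ i ∈ Finset.range (d + 1), Nf r d i • g i := by
  rw [← Finset.sum_fiberwise_of_maps_to (t := Finset.range (d + 1)) (g := om r d)]
  · apply Finset.sum_congr rfl
    intro i _
    rw [Nf, Finset.sum_congr rfl (g := fun _ => g i)]
    · rw [Finset.sum_const]
    · intro b hb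
      rw [(Finset.mem_filter.mp hb).2]
  · intro b _
    rw [Finset.mem_range]
    have := om_le r d b
    omega

theorem Nf_le (r d i : ℕ) : Nf r d i ≤ r ^ d := by
  unfold Nf
  calc _ ≤ (Finset.range (r ^ d)).card := Finset.card_filter_le _ _
    _ = r ^ d := Finset.card_range _

theorem sum_Nf_pow (r B d : ℕ) (hr : 1 ≤ r) :
    ∑ i ∈ Finset.range (d + 1), Nf r d i * B ^ i = W r B d 0 false := by
  rw [← sum_pow_om r B d hr, sum_fiber r d (fun i => B ^ i)]
  simp only [smul_eq_mul]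

theorem card_lattice' (r d t : ℕ) (hr : 2 ≤ r) :
    Set.ncard {z : Fin d → ℤ | (fun i => (z i : ℝ)) ∈ (t : ℝ) • simplexB r d} =
      ∑ i ∈ Finset.range (d + 1),
        Nf r d i * (if i ≤ t then (d + (t - i)).choose (t - i) else 0) := by
  rw [card_lattice r d t hr,
    sum_fiber r d (fun i => if i ≤ t then (d + (t - i)).choose (t - i) else 0)]
  simp only [smul_eq_mul]

end Pool.Agent.R135.BaseR
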