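import Mathlib
import Pool.Agent.R135.ChromPos

/-!
# Symmetric decomposition of the chromatic numerator
-/

open Finset Polynomial

namespace Pool.Agent.R135.ChromSym

/-! ## The Eulerian polynomials -/

/-- `∑ n^d zⁿ = E d / (1-z)^{d+1}` -/
noncomputable def E : ℕ → ℤ[X]
  | 0 => 1
  | d + 1 => X * ((1 - X) * derivative (E d) + ((d : ℤ[X]) + 1) * E d)

open PowerSeries in
lemma E_gf : ∀ d : ℕ, PowerSeries.mk (fun n => ((n : ℤ) ^ d)) *
    (1 - (PowerSeries.X : PowerSeries ℤ)) ^ (d + 1) = (E d : PowerSeries ℤ) := by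
  intro d
  induction d with
  | zero =>
    have := PowerSeries.mk_one_mul_one_sub_eq_one ℤ
    simp only [pow_zero, zero_add, pow_one, E]
    rw [Polynomial.coe_one]
    exact this
  | succ d ih =>
    have hD := congrArg (PowerSeries.derivative ℤ) ih
    rw [Derivation.leibniz, Derivation.leibniz_pow] at hD
    simp only [map_sub, smul_eq_mul, PowerSeries.derivative_X] at hD
    have h1 : (PowerSeries.derivative ℤ) (1 : PowerSeries ℤ) = 0 := Derivation.map_one_eq_zero _
    rw [h1] at hD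
    have hF : PowerSeries.mk (fun n => ((n : ℤ) ^ (d + 1)))
        = PowerSeries.X * (PowerSeries.derivative ℤ) (PowerSeries.mk (fun n => ((n : ℤ) ^ d))) := by
      ext n
      cases n with
      | zero => simp
      | succ n =>
        rw [mul_comm, PowerSeries.coeff_succ_mul_X, PowerSeries.coeff_derivative]
        simp only [PowerSeries.coeff_mk]
        push_cast
        ring
    have hc : (PowerSeries.derivative ℤ) (E d : PowerSeries ℤ) = ((derivative (E d) : ℤ[X]) : PowerSeries ℤ) :=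
      PowerSeries.derivative_coe _
    rw [hc] at hD
    rw [hF]
    simp only [E]
    push_cast
    rw [← hD, ← ih]
    have hcast : (((d : ℤ[X])) : PowerSeries ℤ) = (d : PowerSeries ℤ) :=
      map_natCast (Polynomial.coeToPowerSeries.ringHom (R := ℤ)) d
    simp only [Nat.add_sub_cancel, nsmul_eq_mul]
    rw [hcast]
    push_cast
    ring

lemma E_coeff (d i : ℕ) : (E (d + 1)).coeff (i + 1)
    = (i + 1) * (E d).coeff (i + 1) + (d + 1 - i) * (E d).coeff i := by
  simp only [E]
  rw [mul_comm X, coeff_mul_X, coeff_add, sub_mul, one_mul, coeff_sub, coeff_derivative]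
  have h1 : (((d : ℤ[X]) + 1) * E d).coeff i = ((d : ℤ) + 1) * (E d).coeff i := by
    have : ((d : ℤ[X]) + 1) = C ((d : ℤ) + 1) := by simp
    rw [this, coeff_C_mul]
  rw [h1]
  cases i with
  | zero => simp
  | succ i =>
    rw [mul_comm X, coeff_mul_X, coeff_derivative]
    push_cast
    ring

lemma E_coeff_zero (d : ℕ) : (E (d + 1)).coeff 0 = 0 := by
  simp [E]

lemma E_high (d : ℕ) : ∀ i, d < i → (E d).coeff i = 0 := by
  induction d with
  | zero =>
    intro i hi
    simp only [E]
    rw [coeff_one, if_neg (by omega)]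
  | succ d ih =>
    intro i hi
    obtain ⟨j, rfl⟩ : ∃ j, i = j + 1 := ⟨i - 1, by omega⟩
    rw [E_coeff, ih (j + 1) (by omega), ih j (by omega)]
    ring

/-- palindromicity -/
lemma E_pal (d : ℕ) : ∀ i j, i + j = d + 2 → (E (d + 1)).coeff i = (E (d + 1)).coeff j := by
  induction d with
  | zero =>
    intro i j hij
    have hi : i ≤ 2 := by omega
    interval_cases i
    · have hj : j = 2 := by omega
      subst hj
      rw [E_coeff_zero, E_high _ _ (by norm_num)]
    · have hj : j = 1 := by omega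
      subst hj; rfl
    · have hj : j = 0 := by omega
      subst hj
      rw [E_coeff_zero, E_high _ _ (by norm_num)]
  | succ d ih =>
    intro i j hij
    rcases Nat.eq_zero_or_pos i with rfl | hi
    · rw [E_coeff_zero, E_high _ _ (by omega)]
    rcases Nat.eq_zero_or_pos j with rfl | hj
    · rw [E_coeff_zero, E_high _ _ (by omega)]
    obtain ⟨a, rfl⟩ : ∃ a, i = a + 1 := ⟨i - 1, by omega⟩
    obtain ⟨b, rfl⟩ : ∃ b, j = b + 1 := ⟨j - 1, by omega⟩
    rw [E_coeff (d + 1) a, E_coeff (d + 1) b, ih (a + 1) b (by omega), ih a (b + 1) (by omega)]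
    have h1 : (d : ℤ) + 1 = a + b := by
      have : d + 1 = a + b := by omega
      exact_mod_cast this
    push_cast
    have h2 : (d : ℤ) + 1 + 1 - a = b + 1 := by linarith
    have h3 : (d : ℤ) + 1 + 1 - b = a + 1 := by linarith
    rw [h2, h3]
    ring

/-! ## The coefficients of the decomposition -/

/-- `β_i = ∑_{j < i} (h_{d-j} - h_j)`, equal to `b_{i-1}` -/
noncomputable def beta (d : ℕ) (h : ℤ[X]) (i : ℕ) : ℤ :=
  ∑ j ∈ range i, (h.coeff (d - j) - h.coeff j)

lemma beta_zero (d : ℕ) (h : ℤ[X]) : beta d h 0 = 0 := by simp [beta]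

lemma beta_succ (d : ℕ) (h : ℤ[X]) (i : ℕ) :
    beta d h (i + 1) = beta d h i + (h.coeff (d - i) - h.coeff i) := by
  simp only [beta, Finset.sum_range_succ]

lemma E_beta (d : ℕ) : ∀ i ≤ d + 1, (E (d + 1)).coeff i = beta (d + 1) (E (d + 1)) i := by
  intro i
  induction i with
  | zero => intro _; rw [beta_zero, E_coeff_zero]
  | succ i ih =>
    intro hi
    rw [beta_succ, ← ih (by omega)]
    rw [E_pal d (i + 1) (d + 1 - i) (by omega)]
    ring

/-- behaviour of `β` under `h = k - (1 - X) h'` -/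
lemma beta_del (d : ℕ) (h k h' : ℤ[X]) (hh : h = k - (1 - X) * h')
    (hd : h'.coeff d = 0) : ∀ i, i + 1 ≤ d →
    beta d h (i + 1) = beta d k (i + 1) + h'.coeff (d - (i + 1)) + h'.coeff i := by
  have hc0 : h.coeff 0 = k.coeff 0 - h'.coeff 0 := by
    rw [hh, coeff_sub, sub_mul, one_mul, coeff_sub]
    simp
  have hcs : ∀ j, h.coeff (j + 1) = k.coeff (j + 1) - h'.coeff (j + 1) + h'.coeff j := by
    intro j
    rw [hh, coeff_sub, sub_mul, one_mul, coeff_sub, coeff_X_mul]
    ring
  intro i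
  induction i with
  | zero =>
    intro hd1
    rw [beta_succ, beta_succ, beta_zero, beta_zero, hc0]
    obtain ⟨e, rfl⟩ : ∃ e, d = e + 1 := ⟨d - 1, by omega⟩
    simp only [Nat.sub_zero, zero_add, Nat.add_sub_cancel]
    rw [hcs, hd]
    ring
  | succ i ih =>
    intro hd1
    rw [beta_succ, ih (by omega), beta_succ d k (i + 1), hcs]
    have h1 : d - (i + 1) = (d - (i + 1 + 1)) + 1 := by omega
    rw [h1, hcs]
    have h2 : d - (i + 1) = (d - (i + 1 + 1)) + 1 := by omega
    ring

lemma ineq_del (d : ℕ) (h k h' : ℤ[X]) (hh : h = k - (1 - X) * h')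
    (hd : h'.coeff d = 0) (hn : ∀ i, 0 ≤ h'.coeff i)
    (hk : ∀ i ≤ d, k.coeff i ≤ beta d k i) : ∀ i ≤ d, h.coeff i ≤ beta d h i := by
  intro i hi
  cases i with
  | zero =>
    have h1 := hk 0 (by omega)
    rw [beta_zero] at h1 ⊢
    have hc0 : h.coeff 0 = k.coeff 0 - h'.coeff 0 := by
      rw [hh, coeff_sub, sub_mul, one_mul, coeff_sub]
      simp
    rw [hc0]
    have := hn 0
    linarith
  | succ i =>
    rw [beta_del d h k h' hh hd i hi]
    have h1 := hk (i + 1) hi
    have hcs : h.coeff (i + 1) = k.coeff (i + 1) - h'.coeff (i + 1) + h'.coeff i := by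
      rw [hh, coeff_sub, sub_mul, one_mul, coeff_sub, coeff_X_mul]
      ring
    rw [hcs]
    have := hn (i + 1)
    have := hn (d - (i + 1))
    linarith

/-! ## Deletion and contraction -/

section DC

universe u

variable {V : Type u}

open Classical in
/-- the contraction map identifying `v` with `u` -/
noncomputable def pr (u v : V) (huv : u ≠ v) (x : V) : {x : V // x ≠ v} :=
  if h : x = v then ⟨u, huv⟩ else ⟨x, h⟩

lemma pr_v (u v : V) (huv : u ≠ v) : pr u v huv v = ⟨u, huv⟩ := by
  simp [pr]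

lemma pr_ne (u v : V) (huv : u ≠ v) (x : V) (hx : x ≠ v) : pr u v huv x = ⟨x, hx⟩ := by
  simp [pr, hx]

/-- the contraction `G / uv` -/
noncomputable def contr (G : SimpleGraph V) (u v : V) (huv : u ≠ v) :
    SimpleGraph {x : V // x ≠ v} where
  Adj a b := a ≠ b ∧ ∃ x y, G.Adj x y ∧ pr u v huv x = a ∧ pr u v huv y = b
  symm := ⟨by
    rintro a b ⟨h1, x, y, h2, h3, h4⟩
    exact ⟨h1.symm, y, x, h2.symm, h4, h3⟩⟩
  loopless := ⟨by
    rintro a ⟨h1, _⟩
    exact h1 rfl⟩

variable [Fintype V]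

lemma chi_del_contr (G : SimpleGraph V) (u v : V) (huv : u ≠ v) (hadj : G.Adj u v) (n : ℕ)
    [Fintype {x : V // x ≠ v}] :
    chi (G.deleteEdges {s(u, v)}) n = chi G n + chi (contr G u v huv) n := by
  unfold chi
  rw [← Nat.card_sum]
  symm
  apply Nat.card_congr
  have hprop : ∀ (ψ : {x : V // x ≠ v} → Fin n)
      (_ : ∀ a b, (contr G u v huv).Adj a b → ψ a ≠ ψ b),
      ∀ x y, (G.deleteEdges {s(u, v)}).Adj x y → ψ (pr u v huv x) ≠ ψ (pr u v huv y) := by
    intro ψ hψ x y hxy
    rw [SimpleGraph.deleteEdges_adj] at hxy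
    apply hψ
    refine ⟨?_, x, y, hxy.1, rfl, rfl⟩
    intro h
    by_cases hx : x = v
    · by_cases hy : y = v
      · exact hxy.1.ne (hx.trans hy.symm)
      · subst hx
        rw [pr_v, pr_ne _ _ _ _ hy] at h
        have h1 : u = y := congrArg Subtype.val h
        apply hxy.2
        rw [← h1]
        simp [Sym2.eq_swap]
    · by_cases hy : y = v
      · subst hy
        rw [pr_v, pr_ne _ _ _ _ hx] at h
        have h1 : x = u := congrArg Subtype.val h
        apply hxy.2
        rw [h1]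
        simp
      · rw [pr_ne _ _ _ _ hx, pr_ne _ _ _ _ hy] at h
        exact hxy.1.ne (congrArg Subtype.val h)
  let F : {φ : V → Fin n // ∀ u v, G.Adj u v → φ u ≠ φ v} ⊕
      {ψ : {x : V // x ≠ v} → Fin n // ∀ a b, (contr G u v huv).Adj a b → ψ a ≠ ψ b} →
      {φ : V → Fin n // ∀ x y, (G.deleteEdges {s(u, v)}).Adj x y → φ x ≠ φ y} :=
    Sum.elim
    (fun φ : {φ : V → Fin n // ∀ u v, G.Adj u v → φ u ≠ φ v} =>
      (⟨φ.1, fun x y hxy => φ.2 x y ((SimpleGraph.deleteEdges_adj).mp hxy).1⟩ :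
        {φ : V → Fin n // ∀ x y, (G.deleteEdges {s(u, v)}).Adj x y → φ x ≠ φ y}))
    (fun ψ : {ψ : {x : V // x ≠ v} → Fin n // ∀ a b, (contr G u v huv).Adj a b → ψ a ≠ ψ b} =>
      ⟨fun x => ψ.1 (pr u v huv x), hprop ψ.1 ψ.2⟩)
  refine Equiv.ofBijective F ⟨?_, ?_⟩
  · rintro (φ | ψ) (φ' | ψ') h
    · have h1 : φ.1 = φ'.1 :=
        congrArg (Subtype.val (p := fun φ : V → Fin n =>
          ∀ x y, (G.deleteEdges {s(u, v)}).Adj x y → φ x ≠ φ y)) h
      rw [Subtype.ext h1]
    · exfalso
      have h1 : φ.1 = fun x => ψ'.1 (pr u v huv x) :=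
        congrArg (Subtype.val (p := fun φ : V → Fin n =>
          ∀ x y, (G.deleteEdges {s(u, v)}).Adj x y → φ x ≠ φ y)) h
      apply φ.2 u v hadj
      rw [h1]
      simp only
      rw [pr_v, pr_ne _ _ _ _ huv]
    · exfalso
      have h1 : (fun x => ψ.1 (pr u v huv x)) = φ'.1 :=
        congrArg (Subtype.val (p := fun φ : V → Fin n =>
          ∀ x y, (G.deleteEdges {s(u, v)}).Adj x y → φ x ≠ φ y)) h
      apply φ'.2 u v hadj
      rw [← h1]
      simp only
      rw [pr_v, pr_ne _ _ _ _ huv]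
    · have h1 : (fun x => ψ.1 (pr u v huv x)) = fun x => ψ'.1 (pr u v huv x) :=
        congrArg (Subtype.val (p := fun φ : V → Fin n =>
          ∀ x y, (G.deleteEdges {s(u, v)}).Adj x y → φ x ≠ φ y)) h
      have h2 : ψ.1 = ψ'.1 := by
        funext a
        have := congrFun h1 a.1
        simpa [pr_ne _ _ _ _ a.2] using this
      rw [Subtype.ext h2]
  · rintro ⟨φ, hφ⟩
    by_cases h : φ u = φ v
    · have hpr : ∀ x, φ (pr u v huv x).1 = φ x := by
        intro x
        by_cases hx : x = v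
        · subst hx; rw [pr_v]; exact h
        · rw [pr_ne _ _ _ _ hx]
      refine ⟨Sum.inr ⟨fun a => φ a.1, ?_⟩, ?_⟩
      · rintro a b ⟨hab, x, y, hxy, hx, hy⟩
        simp only
        rw [← hx, ← hy, hpr, hpr]
        apply hφ
        rw [SimpleGraph.deleteEdges_adj]
        refine ⟨hxy, ?_⟩
        intro hmem
        apply hab
        rw [← hx, ← hy]
        have h1 : s(x, y) = s(u, v) := by simpa using hmem
        rw [Sym2.eq_iff] at h1
        rcases h1 with ⟨h2, h3⟩ | ⟨h2, h3⟩
        · rw [h2, h3, pr_v, pr_ne _ _ _ _ huv]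
        · rw [h2, h3, pr_v, pr_ne _ _ _ _ huv]
      · apply Subtype.ext
        funext x
        exact hpr x
    · refine ⟨Sum.inl ⟨φ, ?_⟩, ?_⟩
      · intro x y hxy
        by_cases h1 : s(x, y) = s(u, v)
        · rw [Sym2.eq_iff] at h1
          rcases h1 with ⟨h2, h3⟩ | ⟨h2, h3⟩
          · rw [h2, h3]; exact h
          · rw [h2, h3]; exact fun h' => h h'.symm
        · apply hφ
          rw [SimpleGraph.deleteEdges_adj]
          exact ⟨hxy, by simpa using h1⟩
      · apply Subtype.ext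
        rfl

/-- `h` is the chromatic numerator of `G`. -/
def IsNum (G : SimpleGraph V) (h : ℤ[X]) : Prop :=
  PowerSeries.mk (fun n => (chi G n : ℤ)) *
    (1 - (PowerSeries.X : PowerSeries ℤ)) ^ (Fintype.card V + 1) = (h : PowerSeries ℤ)

lemma IsNum.unique {G : SimpleGraph V} {h h' : ℤ[X]} (h1 : IsNum G h) (h2 : IsNum G h') :
    h = h' := by
  unfold IsNum at h1 h2
  exact Polynomial.coe_injective ℤ (h1.symm.trans h2)

lemma exists_num (G : SimpleGraph V) (hV : 1 ≤ Fintype.card V) :
    ∃ h : ℤ[X], IsNum G h ∧ h.natDegree ≤ Fintype.card V ∧ h.coeff 0 = 0 ∧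
      ∀ i, 0 ≤ h.coeff i := by
  obtain ⟨k, hk⟩ : ∃ k, Fintype.card V = k + 1 := ⟨Fintype.card V - 1, by omega⟩
  have hne : Nonempty (Fin (k + 1) ≃ V) := by
    rw [← hk]
    exact ⟨(Fintype.equivFin V).symm⟩
  refine ⟨hpol (k := k) G, ?_, ?_, ?_, ?_⟩
  · unfold IsNum
    rw [hk]
    exact hpol_gf G hk
  · rw [hk]
    exact hpol_natDegree_le G
  · exact hpol_coeff_zero G
  · exact hpol_coeff_nonneg G

lemma chi_empty (G : SimpleGraph V) (hG : ∀ u v, ¬ G.Adj u v) (n : ℕ) :
    chi G n = n ^ Fintype.card V := by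
  unfold chi
  have e : {φ : V → Fin n // ∀ u v, G.Adj u v → φ u ≠ φ v} ≃ (V → Fin n) :=
    Equiv.subtypeUnivEquiv (fun φ u v h => absurd h (hG u v))
  rw [Nat.card_congr e, Nat.card_fun]
  simp

lemma main_ineq (hV : 1 ≤ Fintype.card V) : ∀ (m : ℕ) (G : SimpleGraph V),
    G.edgeSet.ncard = m → ∀ h : ℤ[X], IsNum G h →
      ∀ i ≤ Fintype.card V, h.coeff i ≤ beta (Fintype.card V) h i := by
  classical
  obtain ⟨k, hk⟩ : ∃ k, Fintype.card V = k + 1 := ⟨Fintype.card V - 1, by omega⟩
  intro m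
  induction m with
  | zero =>
    intro G hG h hh i hi
    have hG' : ∀ u v, ¬ G.Adj u v := by
      intro u v huv
      rw [Set.ncard_eq_zero (Set.toFinite _)] at hG
      have : s(u, v) ∈ G.edgeSet := huv
      rw [hG] at this
      exact this
    have hE : IsNum G (E (Fintype.card V)) := by
      unfold IsNum
      have := E_gf (Fintype.card V)
      rw [← this]
      congr 2
      funext n
      rw [chi_empty G hG']
      push_cast
      rfl
    have : h = E (Fintype.card V) := hh.unique hE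
    rw [this]
    rw [hk] at hi ⊢
    exact le_of_eq (E_beta k i hi)
  | succ m ih =>
    intro G hG h hh
    have hne : G.edgeSet.Nonempty := by
      rw [Set.nonempty_iff_ne_empty]
      intro h0
      rw [h0] at hG
      simp at hG
    obtain ⟨e, he⟩ := hne
    induction e with
    | _ u v =>
    have hadj : G.Adj u v := he
    have huv : u ≠ v := hadj.ne
    have hcard : Fintype.card {x : V // x ≠ v} = k := by
      rw [Fintype.card_subtype_compl, Fintype.card_subtype_eq, hk]
      rfl
    have hk1 : 1 ≤ k := by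
      rw [← hcard]
      exact Fintype.card_pos_iff.mpr ⟨⟨u, huv⟩⟩
    obtain ⟨g, hg, _⟩ := exists_num (G.deleteEdges {s(u, v)}) hV
    obtain ⟨h', hh', hdeg, _, hpos⟩ := exists_num (contr G u v huv) (by rw [hcard]; exact hk1)
    have hE : (G.deleteEdges {s(u, v)}).edgeSet.ncard = m := by
      rw [SimpleGraph.edgeSet_deleteEdges, Set.ncard_sdiff_singleton_of_mem he, hG]
      rfl
    have hrel : h = g - (1 - X) * h' := by
      apply Polynomial.coe_injective ℤ
      unfold IsNum at hh hg hh'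
      rw [Polynomial.coe_sub, Polynomial.coe_mul, ← hh, ← hg, ← hh', hcard, hk]
      have h1 : PowerSeries.mk (fun n => (chi (G.deleteEdges {s(u, v)}) n : ℤ))
          = PowerSeries.mk (fun n => (chi G n : ℤ))
            + PowerSeries.mk (fun n => (chi (contr G u v huv) n : ℤ)) := by
        ext n
        rw [map_add, PowerSeries.coeff_mk, PowerSeries.coeff_mk, PowerSeries.coeff_mk,
          chi_del_contr G u v huv hadj n]
        push_cast
        rfl
      rw [h1]
      simp only [Polynomial.coe_sub, Polynomial.coe_one, Polynomial.coe_X]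
      ring
    apply ineq_del (Fintype.card V) h g h' hrel _ hpos (ih _ hE g hg)
    apply Polynomial.coeff_eq_zero_of_natDegree_lt
    omega

end DC

end Pool.Agent.R135.ChromSym
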