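import Mathlib

/-!
# Ehrhart polynomials of order polytopes
-/

set_option autoImplicit false
open scoped Pointwise Classical

namespace Pool.Agent.R135.OrderPoly

/-- The order polytope `O(P) = {x ∈ [0,1]^P : x_a ≤ x_b whenever a ≤ b}`. -/
def orderPolytope (P : Type) [PartialOrder P] : Set (P → ℝ) :=
  {x | (∀ a, 0 ≤ x a ∧ x a ≤ 1) ∧ ∀ a b, a ≤ b → x a ≤ x b}

/-- `#(t S ∩ ℤ^P)`. -/
noncomputable def latticeCount {P : Type} (S : Set (P → ℝ)) (t : ℕ) : ℕ :=
  Set.ncard {z : P → ℤ | (fun a => (z a : ℝ)) ∈ (t : ℝ) • S}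

variable {P : Type} [Fintype P] [PartialOrder P]

/-- monotone maps `P → {0, …, m-1}` -/
noncomputable def mono (P : Type) [Fintype P] [PartialOrder P] (m : ℕ) : Finset (P → Fin m) :=
  Finset.univ.filter (fun f => Monotone f)

theorem mem_mono (m : ℕ) (f : P → Fin m) : f ∈ mono P m ↔ Monotone f := by
  rw [mono, Finset.mem_filter]
  exact ⟨fun h => h.2, fun h => ⟨Finset.mem_univ _, h⟩⟩

/-- monotone surjections `P → {0, …, k-1}` -/
noncomputable def surj (P : Type) [Fintype P] [PartialOrder P] (k : ℕ) : Finset (P → Fin k) :=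
  Finset.univ.filter (fun f => Monotone f ∧ Function.Surjective f)

omit [Fintype P] in
theorem mem_smul_orderPolytope (t : ℕ) (x : P → ℝ) :
    x ∈ (t : ℝ) • orderPolytope P ↔ (∀ a, 0 ≤ x a ∧ x a ≤ t) ∧ ∀ a b, a ≤ b → x a ≤ x b := by
  rcases Nat.eq_zero_or_pos t with ht | ht
  · subst ht
    have hne : (orderPolytope P).Nonempty := ⟨0, by
      refine ⟨fun a => ⟨le_rfl, by simp⟩, fun a b _ => le_rfl⟩⟩
    rw [Nat.cast_zero, Set.zero_smul_set hne, Set.mem_zero]
    constructor
    · rintro rfl
      exact ⟨fun a => ⟨le_rfl, le_rfl⟩, fun a b _ => le_rfl⟩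
    · rintro ⟨h1, _⟩
      funext a
      exact le_antisymm (h1 a).2 (h1 a).1
  · have ht' : (0 : ℝ) < t := by exact_mod_cast ht
    rw [Set.mem_smul_set_iff_inv_smul_mem₀ (ne_of_gt ht')]
    unfold orderPolytope
    simp only [Set.mem_ofPred_eq, Pi.smul_apply, smul_eq_mul]
    have e1 : ∀ a, (0 ≤ (t : ℝ)⁻¹ * x a ↔ 0 ≤ x a) := fun a =>
      mul_nonneg_iff_of_pos_left (inv_pos.mpr ht')
    have e2 : ∀ a, ((t : ℝ)⁻¹ * x a ≤ 1 ↔ x a ≤ t) := fun a => by
      rw [inv_mul_le_iff₀ ht', mul_one]
    have e3 : ∀ a b, ((t : ℝ)⁻¹ * x a ≤ (t : ℝ)⁻¹ * x b ↔ x a ≤ x b) := fun a b =>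
      mul_le_mul_iff_right₀ (inv_pos.mpr ht')
    simp only [e1, e2, e3]

theorem latticeCount_eq (t : ℕ) :
    latticeCount (orderPolytope P) t = (mono P (t + 1)).card := by
  unfold latticeCount
  have hinj : Function.Injective (fun (f : P → Fin (t + 1)) => fun a => ((f a : ℕ) : ℤ)) := by
    intro f g h
    funext a
    have h1 : ((f a : ℕ) : ℤ) = ((g a : ℕ) : ℤ) := congrFun h a
    apply Fin.ext
    exact_mod_cast h1
  have : {z : P → ℤ | (fun a => (z a : ℝ)) ∈ (t : ℝ) • orderPolytope P} =
      (fun (f : P → Fin (t + 1)) => fun a => ((f a : ℕ) : ℤ)) '' (mono P (t + 1) : Set _) := by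
    ext z
    rw [Set.mem_ofPred_eq, mem_smul_orderPolytope]
    constructor
    · rintro ⟨h1, h2⟩
      have g1 : ∀ a, 0 ≤ z a ∧ z a ≤ t := fun a => by
        have := h1 a
        exact ⟨by exact_mod_cast this.1, by exact_mod_cast this.2⟩
      have g2 : ∀ a b, a ≤ b → z a ≤ z b := fun a b hab => by
        have := h2 a b hab
        exact_mod_cast this
      refine ⟨fun a => ⟨(z a).toNat, by have := g1 a; omega⟩, ?_, ?_⟩
      · rw [Finset.mem_coe, mono, Finset.mem_filter]
        refine ⟨Finset.mem_univ _, fun a b hab => ?_⟩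
        rw [Fin.le_def]
        have := g2 a b hab
        simp only
        omega
      · funext a
        simp only
        have := g1 a
        omega
    · rintro ⟨f, hf, rfl⟩
      rw [Finset.mem_coe, mono, Finset.mem_filter] at hf
      refine ⟨fun a => ⟨by simp, ?_⟩, fun a b hab => ?_⟩
      · have := (f a).isLt
        have h3 : ((f a : ℕ) : ℤ) ≤ (t : ℤ) := by omega
        show ((((f a : ℕ) : ℤ)) : ℝ) ≤ (t : ℝ)
        exact_mod_cast h3
      · have := hf.2 hab
        rw [Fin.le_def] at this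
        show ((((f a : ℕ) : ℤ)) : ℝ) ≤ ((((f b : ℕ) : ℤ)) : ℝ)
        exact_mod_cast this
  rw [this, Set.ncard_image_of_injective _ hinj, Set.ncard_coe_finset]

theorem card_fiber (m : ℕ) (S : Finset (Fin m)) :
    ((mono P m).filter (fun f => Finset.univ.image f = S)).card = (surj P S.card).card := by
  symm
  apply Finset.card_bij (fun g _ => fun a => S.orderEmbOfFin rfl (g a))
  · intro g hg
    rw [surj, Finset.mem_filter] at hg
    rw [mono, Finset.mem_filter, Finset.mem_filter]
    refine ⟨⟨Finset.mem_univ _, fun a b hab => ?_⟩, ?_⟩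
    · exact (S.orderEmbOfFin rfl).monotone (hg.2.1 hab)
    · ext x
      rw [Finset.mem_image]
      constructor
      · rintro ⟨a, _, rfl⟩
        exact Finset.orderEmbOfFin_mem S rfl _
      · intro hx
        have : x ∈ Set.range (S.orderEmbOfFin rfl) := by
          rw [Finset.range_orderEmbOfFin]; exact hx
        obtain ⟨i, hi⟩ := this
        obtain ⟨a, ha⟩ := hg.2.2 i
        exact ⟨a, Finset.mem_univ _, by rw [ha, hi]⟩
  · intro g hg g' hg' h
    funext a
    exact (S.orderEmbOfFin rfl).injective (congrFun h a)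
  · intro f hf
    rw [mono, Finset.mem_filter, Finset.mem_filter] at hf
    have hmem : ∀ a, f a ∈ S := fun a => by
      rw [← hf.2]; exact Finset.mem_image_of_mem _ (Finset.mem_univ _)
    have hex : ∀ a, ∃ i, S.orderEmbOfFin rfl i = f a := fun a => by
      have : f a ∈ Set.range (S.orderEmbOfFin rfl) := by
        rw [Finset.range_orderEmbOfFin]; exact hmem a
      exact this
    choose g hg using hex
    refine ⟨g, ?_, ?_⟩
    · rw [surj, Finset.mem_filter]
      refine ⟨Finset.mem_univ _, fun a b hab => ?_, fun i => ?_⟩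
      · have := hf.1.2 hab
        rw [← hg a, ← hg b] at this
        exact (S.orderEmbOfFin rfl).le_iff_le.mp this
      · have : S.orderEmbOfFin rfl i ∈ Finset.univ.image f := by
          rw [hf.2]; exact Finset.orderEmbOfFin_mem S rfl _
        obtain ⟨a, _, ha⟩ := Finset.mem_image.mp this
        refine ⟨a, (S.orderEmbOfFin rfl).injective ?_⟩
        rw [hg a, ha]
    · funext a
      exact hg a

theorem card_mono (m : ℕ) : (mono P m).card =
    ∑ k ∈ Finset.range (m + 1), m.choose k * (surj P k).card := by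
  have h := Finset.card_eq_sum_card_fiberwise (f := fun f : P → Fin m => Finset.univ.image f)
    (s := mono P m) (t := (Finset.univ : Finset (Fin m)).powerset)
    (fun f _ => by simp)
  rw [h]
  have h2 : ∀ S ∈ (Finset.univ : Finset (Fin m)).powerset,
      ((mono P m).filter (fun f => Finset.univ.image f = S)).card = (surj P S.card).card :=
    fun S _ => card_fiber m S
  rw [Finset.sum_congr rfl h2, Finset.sum_powerset_apply_card (fun k => (surj P k).card)]
  simp

theorem card_surj_eq_zero (k : ℕ) (hk : Fintype.card P < k) : (surj P k).card = 0 := by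
  rw [Finset.card_eq_zero, surj, Finset.filter_eq_empty_iff]
  rintro f _ ⟨_, h⟩
  have := Fintype.card_le_of_surjective f h
  rw [Fintype.card_fin] at this
  omega

theorem card_mono' (m : ℕ) : (mono P m).card =
    ∑ k ∈ Finset.range (Fintype.card P + 1), m.choose k * (surj P k).card := by
  rw [card_mono]
  rcases le_total m (Fintype.card P) with h | h
  · apply Finset.sum_subset
    · intro k hk
      rw [Finset.mem_range] at hk ⊢
      omega
    · intro k _ hk
      rw [Finset.mem_range] at hk
      rw [Nat.choose_eq_zero_of_lt (by omega), zero_mul]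
  · symm
    apply Finset.sum_subset
    · intro k hk
      rw [Finset.mem_range] at hk ⊢
      omega
    · intro k _ hk
      rw [Finset.mem_range] at hk
      rw [card_surj_eq_zero k (by omega), mul_zero]

/-- `(X+1) X (X-1) ⋯ (X-k+2)` -/
noncomputable def D (k : ℕ) : Polynomial ℚ := (descPochhammer ℚ k).comp (Polynomial.X + 1)

theorem eval_D (k t : ℕ) : (D k).eval (t : ℚ) = (k.factorial : ℚ) * ((t + 1).choose k : ℚ) := by
  unfold D
  rw [Polynomial.eval_comp]
  simp only [Polynomial.eval_add, Polynomial.eval_X, Polynomial.eval_one]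
  have h := descPochhammer_eval_eq_descFactorial ℚ (t + 1) k
  push_cast at h
  rw [h, Nat.descFactorial_eq_factorial_mul_choose]
  push_cast
  ring

theorem D_succ (k : ℕ) : D (k + 1) = D k * (Polynomial.X + Polynomial.C (1 - (k : ℚ))) := by
  unfold D
  rw [descPochhammer_succ_right, Polynomial.mul_comp]
  congr 1
  simp
  ring

theorem D_zero : D 0 = 1 := by simp [D]

/-- the coefficient of `X` in `D k` -/
theorem coeff_D (k : ℕ) : (D (k + 2)).coeff 0 = 0 ∧
    (D (k + 2)).coeff 1 = (-1) ^ k * (k.factorial : ℚ) := by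
  induction k with
  | zero =>
    have h1 : D (0 + 2) = (Polynomial.X + Polynomial.C 1) * Polynomial.X := by
      rw [D_succ, D_succ, D_zero]
      norm_num
    rw [h1]
    refine ⟨by simp, ?_⟩
    rw [Polynomial.coeff_mul_X]
    simp
  | succ k ih =>
    rw [show k + 1 + 2 = (k + 2) + 1 by ring, D_succ]
    refine ⟨?_, ?_⟩
    · rw [Polynomial.mul_coeff_zero, ih.1, zero_mul]
    · rw [mul_add, Polynomial.coeff_add, Polynomial.coeff_mul_X, ih.1, Polynomial.coeff_mul_C,
        ih.2, Nat.factorial_succ]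
      push_cast
      ring

/-- The Ehrhart polynomial of the order polytope of `P`. -/
noncomputable def ehr (P : Type) [Fintype P] [PartialOrder P] : Polynomial ℚ :=
  ∑ k ∈ Finset.range (Fintype.card P + 1),
    Polynomial.C (((surj P k).card : ℚ) / (k.factorial : ℚ)) * D k

theorem eval_ehr (t : ℕ) : (ehr P).eval (t : ℚ) = (latticeCount (orderPolytope P) t : ℚ) := by
  rw [latticeCount_eq, card_mono', ehr, Polynomial.eval_finsetSum, Nat.cast_sum]
  apply Finset.sum_congr rfl
  intro k _
  rw [Polynomial.eval_mul, Polynomial.eval_C, eval_D]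
  have : (k.factorial : ℚ) ≠ 0 := by exact_mod_cast k.factorial_ne_zero
  push_cast
  field_simp

/-- the linear coefficient -/
theorem coeff_ehr (n : ℕ) (hn : Fintype.card P = n + 1) : (ehr P).coeff 1 =
    ((surj P 1).card : ℚ) + ∑ k ∈ Finset.range n,
      (-1) ^ k * ((surj P (k + 2)).card : ℚ) / (((k + 1) * (k + 2) : ℕ) : ℚ) := by
  rw [ehr, hn, Polynomial.finsetSum_coeff, Finset.sum_range_succ', Finset.sum_range_succ']
  have h0 : (Polynomial.C (((surj P 0).card : ℚ) / ((0 : ℕ).factorial : ℚ)) * D 0).coeff 1 = 0 := by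
    rw [D_zero, mul_one, Polynomial.coeff_C]; simp
  have h1 : (Polynomial.C (((surj P (0 + 1)).card : ℚ) / ((0 + 1 : ℕ).factorial : ℚ)) *
      D (0 + 1)).coeff 1 = ((surj P 1).card : ℚ) := by
    rw [D_succ, D_zero, Polynomial.coeff_C_mul]
    simp [Polynomial.coeff_one]
  rw [h0, h1, add_zero, add_comm]
  congr 1
  apply Finset.sum_congr rfl
  intro k _
  rw [Polynomial.coeff_C_mul, (coeff_D k).2]
  have e : ((k + 1 + 1).factorial : ℚ) = ((k + 1) * (k + 2) : ℕ) * (k.factorial : ℚ) := by
    rw [Nat.factorial_succ, Nat.factorial_succ]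
    push_cast
    ring
  rw [e]
  have : (k.factorial : ℚ) ≠ 0 := by exact_mod_cast k.factorial_ne_zero
  have h2 : (((k + 1) * (k + 2) : ℕ) : ℚ) ≠ 0 := by positivity
  field_simp

end Pool.Agent.R135.OrderPoly
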