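import Mathlib
import Pool.Agent.R135.OrderPoly

/-!
# The face lattice of a polygon and its order polynomial
-/

set_option autoImplicit false

namespace Pool.Agent.R135.Crown

open Pool.Agent.R135.OrderPoly

/-- The faces of a convex `n`-gon: the empty face, the vertices, the edges, and the whole polygon.
The edge `edge i` joins the vertices `vtx i` and `vtx (i + 1)`, indices modulo `n`. -/
inductive Face (n : ℕ) : Type
  | bot : Face n
  | vtx : Fin n → Face n
  | edge : Fin n → Face n
  | top : Face n
  deriving DecidableEq, Fintype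

/-- Inclusion of faces. -/
def Face.le {n : ℕ} [NeZero n] : Face n → Face n → Prop
  | .bot, _ => True
  | _, .top => True
  | .vtx i, .vtx j => i = j
  | .edge i, .edge j => i = j
  | .vtx i, .edge j => i = j ∨ i = j + 1
  | _, _ => False

instance {n : ℕ} [NeZero n] : PartialOrder (Face n) where
  le := Face.le
  le_refl a := by cases a <;> simp [Face.le]
  le_trans a b c := by
    cases a <;> cases b <;> cases c <;> simp only [Face.le] <;> intro h1 h2 <;>
      first | trivial | exact h1.elim | exact h2.elim | (subst h1; exact h2) | (subst h2; exact h1)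
  le_antisymm a b := by
    cases a <;> cases b <;> simp only [Face.le] <;> intro h1 h2 <;>
      first | rfl | trivial | exact h1.elim | exact h2.elim | (subst h1; rfl)

variable {n : ℕ} [NeZero n]

theorem bot_le' (a : Face n) : Face.bot ≤ a := by cases a <;> exact trivial

theorem le_top' (a : Face n) : a ≤ Face.top := by cases a <;> exact trivial

theorem vtx_le_edge (i : Fin n) : Face.vtx i ≤ Face.edge i := Or.inl rfl

theorem vtx_le_edge' (i : Fin n) : Face.vtx (i + 1) ≤ Face.edge i := Or.inr rfl

/-- number of `(v, e)` -/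
def Tn (n N : ℕ) [NeZero n] : ℕ :=
  ∑ v ∈ Fintype.piFinset (fun _ : Fin n => Finset.range N), ∏ i, (min (v i) (v (i + 1)) + 1)

/-- the target of the bijection -/
def tgt (n m : ℕ) [NeZero n] : Finset (Σ _ : ℕ, Σ _ : ℕ, Σ _ : (Fin n → ℕ), (Fin n → ℕ)) :=
  (Finset.range m).sigma (fun b => (Finset.range (b + 1)).sigma (fun a =>
    (Fintype.piFinset (fun _ : Fin n => Finset.range (a + 1))).sigma (fun v =>
      Fintype.piFinset (fun i : Fin n => Finset.range (min (v i) (v (i + 1)) + 1)))))

theorem card_tgt (m : ℕ) : (tgt n m).card =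
    ∑ b ∈ Finset.range m, ∑ a ∈ Finset.range (b + 1), Tn n (a + 1) := by
  unfold tgt Tn
  simp only [Finset.card_sigma, Fintype.card_piFinset, Finset.card_range]

theorem mem_tgt (m : ℕ) (s : Σ _ : ℕ, Σ _ : ℕ, Σ _ : (Fin n → ℕ), (Fin n → ℕ)) :
    s ∈ tgt n m ↔ s.1 < m ∧ s.2.1 ≤ s.1 ∧ (∀ i, s.2.2.1 i ≤ s.2.1) ∧
      ∀ i, s.2.2.2 i ≤ s.2.2.1 i ∧ s.2.2.2 i ≤ s.2.2.1 (i + 1) := by
  unfold tgt
  simp only [Finset.mem_sigma, Finset.mem_range, Fintype.mem_piFinset, Nat.lt_succ_iff,
    le_min_iff]

theorem card_mono_face (m : ℕ) : (mono (Face n) m).card =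
    ∑ b ∈ Finset.range m, ∑ a ∈ Finset.range (b + 1), Tn n (a + 1) := by
  rw [← card_tgt]
  apply Finset.card_bij (fun f _ => (⟨(f Face.top : ℕ), ⟨(f Face.top : ℕ) - (f Face.bot : ℕ),
    ⟨fun i => (f Face.top : ℕ) - (f (Face.vtx i) : ℕ),
      fun i => (f Face.top : ℕ) - (f (Face.edge i) : ℕ)⟩⟩⟩ :
      Σ _ : ℕ, Σ _ : ℕ, Σ _ : (Fin n → ℕ), (Fin n → ℕ)))
  · intro f hf
    rw [mem_mono] at hf
    have hm := hf
    rw [mem_tgt]
    refine ⟨(f Face.top).isLt, Nat.sub_le _ _, fun i => ?_, fun i => ⟨?_, ?_⟩⟩
    · have := hm (bot_le' (Face.vtx i))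
      rw [Fin.le_def] at this
      simp only
      omega
    · have := hm (vtx_le_edge i)
      rw [Fin.le_def] at this
      simp only
      omega
    · have := hm (vtx_le_edge' i)
      rw [Fin.le_def] at this
      simp only
      omega
  · intro f hf g hg h
    rw [mem_mono] at hf hg
    have h1 : (f Face.top : ℕ) = (g Face.top : ℕ) := congrArg (fun s => s.1) h
    have h2 : (f Face.top : ℕ) - (f Face.bot : ℕ) = (g Face.top : ℕ) - (g Face.bot : ℕ) :=
      congrArg (fun s => s.2.1) h
    have h3 : (fun i => (f Face.top : ℕ) - (f (Face.vtx i) : ℕ)) =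
        fun i => (g Face.top : ℕ) - (g (Face.vtx i) : ℕ) := congrArg (fun s => s.2.2.1) h
    have h4 : (fun i => (f Face.top : ℕ) - (f (Face.edge i) : ℕ)) =
        fun i => (g Face.top : ℕ) - (g (Face.edge i) : ℕ) := congrArg (fun s => s.2.2.2) h
    have kf : ∀ a, (f a : ℕ) ≤ (f Face.top : ℕ) := fun a => by
      have := hf (le_top' a); rwa [Fin.le_def] at this
    have kg : ∀ a, (g a : ℕ) ≤ (g Face.top : ℕ) := fun a => by
      have := hg (le_top' a); rwa [Fin.le_def] at this
    funext a
    apply Fin.ext
    have k1 := kf a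
    have k2 := kg a
    cases a with
    | bot => omega
    | vtx i => have := congrFun h3 i; omega
    | edge i => have := congrFun h4 i; omega
    | top => omega
  · intro s hs
    rw [mem_tgt] at hs
    obtain ⟨h1, h2, h3, h4⟩ := hs
    -- the values
    have hlt : ∀ x : ℕ, s.1 - x < m := fun x => by omega
    refine ⟨fun a => ⟨match a with
      | .bot => s.1 - s.2.1
      | .vtx i => s.1 - s.2.2.1 i
      | .edge i => s.1 - s.2.2.2 i
      | .top => s.1, by cases a <;> simp only <;> omega⟩, ?_, ?_⟩
    · rw [mem_mono]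
      intro a b hab
      rw [Fin.le_def]
      have hab' : Face.le a b := hab
      cases a with
      | bot =>
        cases b with
        | bot => simp
        | vtx i => have := h3 i; simp only; omega
        | edge i => have := h3 i; have := (h4 i).1; simp only; omega
        | top => simp only; omega
      | vtx i =>
        cases b with
        | bot => exact hab'.elim
        | vtx j => have : i = j := hab'; subst this; simp
        | edge j =>
          rcases (hab' : i = j ∨ i = j + 1) with h | h
          · subst h; have := (h4 i).1; simp only; omega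
          · subst h; have := (h4 j).2; simp only; omega
        | top => simp only; omega
      | edge i =>
        cases b with
        | bot => exact hab'.elim
        | vtx j => exact hab'.elim
        | edge j => have : i = j := hab'; subst this; simp
        | top => simp only; omega
      | top =>
        cases b with
        | bot => exact hab'.elim
        | vtx j => exact hab'.elim
        | edge j => exact hab'.elim
        | top => simp
    · obtain ⟨b, a, v, e⟩ := s
      simp only at h1 h2 h3 h4 ⊢
      have e1 : b - (b - a) = a := by omega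
      have e2 : (fun i => b - (b - v i)) = v := by
        funext i; have := h3 i; omega
      have e3 : (fun i => b - (b - e i)) = e := by
        funext i; have := h3 i; have := (h4 i).1; omega
      rw [e1, e2, e3]

/-! ## Closed walks -/

/-- `(K g)(x) = ∑_{z<N} (min x z + 1) g z` -/
def ap (N : ℕ) (g : ℕ → ℕ) : ℕ → ℕ := fun x => ∑ z ∈ Finset.range N, (min x z + 1) * g z

/-- sum over paths -/
def pathS (N j : ℕ) (φ : ℕ → ℕ → ℕ) : ℕ :=
  ∑ v ∈ Fintype.piFinset (fun _ : Fin (j + 1) => Finset.range N),
    (∏ i : Fin j, (min (v i.castSucc) (v i.succ) + 1)) * φ (v 0) (v (Fin.last j))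

theorem pathS_succ (N j : ℕ) (φ : ℕ → ℕ → ℕ) :
    pathS N (j + 1) φ = pathS N j (fun x => ap N (φ x)) := by
  unfold pathS
  have h : ∑ v ∈ Fintype.piFinset (fun _ : Fin (j + 1 + 1) => Finset.range N),
    (∏ i : Fin (j + 1), (min (v i.castSucc) (v i.succ) + 1)) * φ (v 0) (v (Fin.last (j + 1))) =
    ∑ p ∈ (Fintype.piFinset (fun _ : Fin (j + 1) => Finset.range N)) ×ˢ Finset.range N,
      ((∏ i : Fin j, (min (p.1 i.castSucc) (p.1 i.succ) + 1)) *
        (min (p.1 (Fin.last j)) p.2 + 1)) * φ (p.1 0) p.2 := by
    apply Finset.sum_nbij' (fun v => (Fin.init v, v (Fin.last (j + 1))))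
      (fun p => (Fin.snoc p.1 p.2 : Fin (j + 2) → ℕ))
    · intro v hv
      rw [Fintype.mem_piFinset] at hv
      rw [Finset.mem_product, Fintype.mem_piFinset]
      exact ⟨fun i => hv i.castSucc, hv _⟩
    · rintro ⟨w, z⟩ hp
      rw [Finset.mem_product, Fintype.mem_piFinset] at hp
      rw [Fintype.mem_piFinset]
      intro i
      refine Fin.lastCases ?_ (fun i => ?_) i
      · rw [Fin.snoc_last]; exact hp.2
      · rw [Fin.snoc_castSucc]; exact hp.1 i
    · intro v _
      exact Fin.snoc_init_self v
    · rintro ⟨w, z⟩ _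
      simp
    · intro v _
      rw [Fin.prod_univ_castSucc]
      have e0 : Fin.init v 0 = v 0 := rfl
      have e1 : ∀ i : Fin (j + 1), Fin.init v i = v i.castSucc := fun i => rfl
      simp only [e1]
      rfl
  rw [h, Finset.sum_product]
  apply Finset.sum_congr rfl
  intro w _
  unfold ap
  rw [Finset.mul_sum]
  apply Finset.sum_congr rfl
  intro z _
  ring

theorem pathS_zero (N : ℕ) (φ : ℕ → ℕ → ℕ) :
    pathS N 0 φ = ∑ x ∈ Finset.range N, φ x x := by
  unfold pathS
  apply Finset.sum_nbij' (fun v => v 0) (fun x => fun _ => x)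
  · intro v hv
    rw [Fintype.mem_piFinset] at hv
    exact hv 0
  · intro x hx
    rw [Fintype.mem_piFinset]
    intro _; exact hx
  · intro v _
    funext i
    rw [show i = 0 from Fin.ext (by omega)]
  · intro x _; rfl
  · intro v _
    simp

theorem pathS_eq (N j : ℕ) (φ : ℕ → ℕ → ℕ) :
    pathS N j φ = ∑ x ∈ Finset.range N, (ap N)^[j] (φ x) x := by
  induction j generalizing φ with
  | zero => rw [pathS_zero]; rfl
  | succ j ih =>
    rw [pathS_succ, ih]
    rfl

theorem Tn_eq (j N : ℕ) :
    Tn (j + 1) N = ∑ x ∈ Finset.range N, (ap N)^[j] (fun y => min y x + 1) x := by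
  rw [← pathS_eq N j (fun x y => min y x + 1)]
  unfold Tn pathS
  apply Finset.sum_congr rfl
  intro v _
  rw [Fin.prod_univ_castSucc]
  congr 1
  · apply Finset.prod_congr rfl
    intro i _
    rw [Fin.coeSucc_eq_succ]
  · rw [Fin.last_add_one]

/-! ## List evaluation -/

/-- prefix sums -/
def preL : ℕ → List ℕ → List ℕ
  | _, [] => []
  | acc, a :: l => (acc + a) :: preL (acc + a) l

/-- one application of `K` -/
def apL (l : List ℕ) : List ℕ := preL 0 (preL 0 l.reverse).reverse

/-- iterates -/
def itL : ℕ → List ℕ → List ℕ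
  | 0, l => l
  | j + 1, l => itL j (apL l)

/-- list form of `Tn (j + 1) N` -/
def TL (j N : ℕ) : ℕ :=
  ((List.range N).map (fun x => (itL j ((List.range N).map (fun y => min y x + 1))).getD x 0)).sum

theorem length_preL (acc : ℕ) (l : List ℕ) : (preL acc l).length = l.length := by
  induction l generalizing acc with
  | nil => rfl
  | cons a l ih => simp [preL, ih]

theorem getD_preL (acc : ℕ) (l : List ℕ) (i : ℕ) (hi : i < l.length) :
    (preL acc l).getD i 0 = acc + ∑ j ∈ Finset.range (i + 1), l.getD j 0 := by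
  induction l generalizing acc i with
  | nil => simp at hi
  | cons a l ih =>
    cases i with
    | zero => simp [preL]
    | succ i =>
      rw [Finset.sum_range_succ']
      simp only [preL, List.getD_cons_succ, List.getD_cons_zero]
      rw [ih (acc + a) i (by simpa using hi)]
      ring

theorem getD_reverse (l : List ℕ) (i : ℕ) (hi : i < l.length) :
    l.reverse.getD i 0 = l.getD (l.length - 1 - i) 0 := by
  rw [List.getD_eq_getElem _ _ (by simpa using hi), List.getD_eq_getElem _ _ (by omega),
    List.getElem_reverse]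

/-- `l` lists the values of `g` on `0, …, N-1` -/
def Rep (N : ℕ) (l : List ℕ) (g : ℕ → ℕ) : Prop := l.length = N ∧ ∀ i < N, l.getD i 0 = g i

theorem rep_apL (N : ℕ) (l : List ℕ) (g : ℕ → ℕ) (h : Rep N l g) : Rep N (apL l) (ap N g) := by
  obtain ⟨hl, hg⟩ := h
  have hl1 : l.reverse.length = N := by simp [hl]
  have hl2 : (preL 0 l.reverse).length = N := by rw [length_preL, hl1]
  have hl3 : (preL 0 l.reverse).reverse.length = N := by rw [List.length_reverse, hl2]
  refine ⟨by rw [apL, length_preL, hl3], fun i hi => ?_⟩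
  -- suffix sums
  have hsuf : ∀ a < N, (preL 0 l.reverse).reverse.getD a 0 = ∑ z ∈ Finset.Ico a N, g z := by
    intro a ha
    rw [getD_reverse _ _ (by omega), hl2, getD_preL _ _ _ (by omega), zero_add]
    have e : N - 1 - a + 1 = N - a := by omega
    rw [e, Finset.sum_Ico_eq_sum_range, ← Finset.sum_range_reflect]
    apply Finset.sum_congr rfl
    intro j hj
    rw [Finset.mem_range] at hj
    rw [getD_reverse _ _ (by omega), hl]
    have e2 : N - 1 - (N - a - 1 - j) = a + j := by omega
    rw [e2, hg _ (by omega)]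
  rw [apL, getD_preL _ _ _ (by omega), zero_add]
  have h1 : ∑ j ∈ Finset.range (i + 1), (preL 0 l.reverse).reverse.getD j 0 =
      ∑ a ∈ Finset.range (i + 1), ∑ z ∈ Finset.Ico a N, g z := by
    apply Finset.sum_congr rfl
    intro j hj
    rw [Finset.mem_range] at hj
    exact hsuf j (by omega)
  rw [h1]
  unfold ap
  -- exchange the sums
  have h2 : ∀ a ∈ Finset.range (i + 1), ∑ z ∈ Finset.Ico a N, g z =
      ∑ z ∈ Finset.range N, if a ≤ z then g z else 0 := by
    intro a _
    rw [← Finset.sum_filter]
    apply Finset.sum_congr _ (fun _ _ => rfl)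
    ext z
    rw [Finset.mem_Ico, Finset.mem_filter, Finset.mem_range]
    exact and_comm
  rw [Finset.sum_congr rfl h2, Finset.sum_comm]
  apply Finset.sum_congr rfl
  intro z _
  rw [← Finset.sum_filter, Finset.sum_const, smul_eq_mul]
  congr 1
  have : (Finset.range (i + 1)).filter (fun a => a ≤ z) = Finset.range (min i z + 1) := by
    ext a
    rw [Finset.mem_filter, Finset.mem_range, Finset.mem_range]
    omega
  rw [this, Finset.card_range]

theorem rep_itL (N j : ℕ) (l : List ℕ) (g : ℕ → ℕ) (h : Rep N l g) :
    Rep N (itL j l) ((ap N)^[j] g) := by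
  induction j generalizing l g with
  | zero => exact h
  | succ j ih => exact ih _ _ (rep_apL N l g h)

theorem TL_eq (j N : ℕ) : Tn (j + 1) N = TL j N := by
  rw [Tn_eq, TL, ← List.sum_toFinset _ List.nodup_range, List.toFinset_range]
  apply Finset.sum_congr rfl
  intro x hx
  rw [Finset.mem_range] at hx
  have h : Rep N ((List.range N).map (fun y => min y x + 1)) (fun y => min y x + 1) := by
    refine ⟨by simp, fun i hi => ?_⟩
    rw [List.getD_eq_getElem _ _ (by simpa using hi)]
    simp
  exact ((rep_itL N j _ _ h).2 x hx).symm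

end Pool.Agent.R135.Crown
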