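import Mathlib
import Pool.Agent.R135.Crown

/-!
# Numerical data for the 13-gon
-/

set_option autoImplicit false

namespace Pool.Agent.R135.CrownNum

open Pool.Agent.R135.OrderPoly Pool.Agent.R135.Crown

/-- values of `Tn 13 N`, `N = 0, 1, …, 28` -/
def tv : List ℕ := [0,
  1,
  271443,
  1385407029,
  874569107071,
  154424192534978,
  11590981980134136,
  471109005712845073,
  12073893516637797647,
  216054227528911051598,
  2899588931289770319928,
  30747252105854418602807,
  267900870986039891665533,
  1976658261038065237688965,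
  12646583259151935165028659,
  71505544338055517905383002,
  362852466483982941465664294,
  1673644967862052696066138463,
  7091534775916075003484209649,
  27850704697432295249191815709,
  102151810477267331847970867095,
  352204279293140920190902505756,
  1147947037059968833062938517298,
  3554264799119307289506871036659,
  10498698066409011044245276217901,
  29697044023575712453995735900724,
  80710316446302004065351530568318,
  211382155607852560741336416052863,
  534907644994676627454203692327477]

/-- numbers of monotone surjections onto `{0, …, k-1}`, `k = 0, …, 28` -/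
def sv : List ℕ := [0,
  1,
  271443,
  1385135586,
  871798564456,
  151804641163409,
  10978527083279977,
  414689598973217165,
  9418028838436475023,
  141029964153596573341,
  1483644770665100361123,
  11472609071040183632111,
  67402558315774824380485,
  308348981399152930995980,
  1118716584168663322451414,
  3262799856158433406820667,
  7724382197508535960517779,
  14939374052763123788978400,
  23686997224708226574082736,
  30808719225702764392437248,
  32795095938552526665302528,
  28407833921356507027537920,
  19828135951306774828072960,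
  10981142046010635660754944,
  4713158606245858522890240,
  1511282535541369554862080,
  340672247617940278476800,
  48149688637090556805120,
  3209979242472703787008]

theorem T1 : Tn 13 1 = tv.getD 1 0 := by
  rw [TL_eq 12 1]; decide +kernel

theorem T2 : Tn 13 2 = tv.getD 2 0 := by
  rw [TL_eq 12 2]; decide +kernel

theorem T3 : Tn 13 3 = tv.getD 3 0 := by
  rw [TL_eq 12 3]; decide +kernel

theorem T4 : Tn 13 4 = tv.getD 4 0 := by
  rw [TL_eq 12 4]; decide +kernel

theorem T5 : Tn 13 5 = tv.getD 5 0 := by
  rw [TL_eq 12 5]; decide +kernel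

theorem T6 : Tn 13 6 = tv.getD 6 0 := by
  rw [TL_eq 12 6]; decide +kernel

theorem T7 : Tn 13 7 = tv.getD 7 0 := by
  rw [TL_eq 12 7]; decide +kernel

theorem T8 : Tn 13 8 = tv.getD 8 0 := by
  rw [TL_eq 12 8]; decide +kernel

theorem T9 : Tn 13 9 = tv.getD 9 0 := by
  rw [TL_eq 12 9]; decide +kernel

theorem T10 : Tn 13 10 = tv.getD 10 0 := by
  rw [TL_eq 12 10]; decide +kernel

theorem T11 : Tn 13 11 = tv.getD 11 0 := by
  rw [TL_eq 12 11]; decide +kernel

theorem T12 : Tn 13 12 = tv.getD 12 0 := by
  rw [TL_eq 12 12]; decide +kernel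

theorem T13 : Tn 13 13 = tv.getD 13 0 := by
  rw [TL_eq 12 13]; decide +kernel

theorem T14 : Tn 13 14 = tv.getD 14 0 := by
  rw [TL_eq 12 14]; decide +kernel

theorem T15 : Tn 13 15 = tv.getD 15 0 := by
  rw [TL_eq 12 15]; decide +kernel

theorem T16 : Tn 13 16 = tv.getD 16 0 := by
  rw [TL_eq 12 16]; decide +kernel

theorem T17 : Tn 13 17 = tv.getD 17 0 := by
  rw [TL_eq 12 17]; decide +kernel

theorem T18 : Tn 13 18 = tv.getD 18 0 := by
  rw [TL_eq 12 18]; decide +kernel

theorem T19 : Tn 13 19 = tv.getD 19 0 := by
  rw [TL_eq 12 19]; decide +kernel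

theorem T20 : Tn 13 20 = tv.getD 20 0 := by
  rw [TL_eq 12 20]; decide +kernel

theorem T21 : Tn 13 21 = tv.getD 21 0 := by
  rw [TL_eq 12 21]; decide +kernel

theorem T22 : Tn 13 22 = tv.getD 22 0 := by
  rw [TL_eq 12 22]; decide +kernel

theorem T23 : Tn 13 23 = tv.getD 23 0 := by
  rw [TL_eq 12 23]; decide +kernel

theorem T24 : Tn 13 24 = tv.getD 24 0 := by
  rw [TL_eq 12 24]; decide +kernel

theorem T25 : Tn 13 25 = tv.getD 25 0 := by
  rw [TL_eq 12 25]; decide +kernel

theorem T26 : Tn 13 26 = tv.getD 26 0 := by
  rw [TL_eq 12 26]; decide +kernel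

theorem T27 : Tn 13 27 = tv.getD 27 0 := by
  rw [TL_eq 12 27]; decide +kernel

theorem T28 : Tn 13 28 = tv.getD 28 0 := by
  rw [TL_eq 12 28]; decide +kernel

theorem T_all (N : ℕ) (h1 : 1 ≤ N) (h2 : N ≤ 28) : Tn 13 N = tv.getD N 0 := by
  interval_cases N
  · exact T1
  · exact T2
  · exact T3
  · exact T4
  · exact T5
  · exact T6
  · exact T7
  · exact T8
  · exact T9
  · exact T10
  · exact T11
  · exact T12
  · exact T13
  · exact T14
  · exact T15
  · exact T16
  · exact T17
  · exact T18
  · exact T19
  · exact T20
  · exact T21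
  · exact T22
  · exact T23
  · exact T24
  · exact T25
  · exact T26
  · exact T27
  · exact T28

/-- If two sequences have the same binomial transforms up to `M`, they agree up to `M`. -/
theorem binom_unique (M : ℕ) (s s' : ℕ → ℕ)
    (h : ∀ m ≤ M, ∑ k ∈ Finset.range (m + 1), m.choose k * s k =
      ∑ k ∈ Finset.range (m + 1), m.choose k * s' k) : ∀ m ≤ M, s m = s' m := by
  intro m
  induction m using Nat.strong_induction_on with
  | _ m ih =>
    intro hm
    have h1 := h m hm
    rw [Finset.sum_range_succ, Finset.sum_range_succ, Nat.choose_self, one_mul, one_mul] at h1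
    have h2 : ∑ k ∈ Finset.range m, m.choose k * s k = ∑ k ∈ Finset.range m, m.choose k * s' k := by
      apply Finset.sum_congr rfl
      intro k hk
      rw [Finset.mem_range] at hk
      rw [ih k hk (by omega)]
    omega

theorem check : ∀ m ≤ 28, ∑ k ∈ Finset.range (m + 1), m.choose k * sv.getD k 0 =
    ∑ b ∈ Finset.range m, ∑ a ∈ Finset.range (b + 1), tv.getD (a + 1) 0 := by
  decide +kernel

theorem surj_values : ∀ m ≤ 28, (surj (Face 13) m).card = sv.getD m 0 := by
  apply binom_unique
  intro m hm
  rw [check m hm, ← card_mono, card_mono_face]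
  apply Finset.sum_congr rfl
  intro b hb
  apply Finset.sum_congr rfl
  intro a ha
  rw [Finset.mem_range] at ha hb
  exact T_all (a + 1) (by omega) (by omega)

theorem card_face : Fintype.card (Face 13) = 27 + 1 := by rfl

theorem coeff_value : (ehr (Face 13)).coeff 1 = -(298495711 / 35302608) := by
  rw [coeff_ehr 27 card_face, surj_values 1 (by norm_num)]
  have h : ∀ k ∈ Finset.range 27, (-1 : ℚ) ^ k * ((surj (Face 13) (k + 2)).card : ℚ) /
      (((k + 1) * (k + 2) : ℕ) : ℚ) = (-1 : ℚ) ^ k * ((sv.getD (k + 2) 0 : ℕ) : ℚ) /
      (((k + 1) * (k + 2) : ℕ) : ℚ) := by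
    intro k hk
    rw [Finset.mem_range] at hk
    rw [surj_values (k + 2) (by omega)]
  rw [Finset.sum_congr rfl h]
  simp only [Finset.sum_range_succ, Finset.sum_range_zero, sv, List.getD_cons_succ,
    List.getD_cons_zero]
  norm_num

end Pool.Agent.R135.CrownNum
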