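import Pool.Agent.R135.EquivEhrhart

set_option autoImplicit false
open scoped Pointwise

namespace Pool.Agent.R135.Eq5

open Pool.Agent.R135.Equi

/-- the group `(ℤ/2)^3` -/
abbrev G : Type := Multiplicative (Fin 3 → ZMod 2)

/-- `0` or `1` as an integer -/
def dl (g : G) (i : Fin 3) : ℤ := ((Multiplicative.toAdd g i).val : ℤ)

/-- linear part -/
def AM (u : Fin 3 → ZMod 2) : Matrix (Fin 5) (Fin 5) ℤ :=
  let a : Fin 3 → ℤ := fun i => ((u i).val : ℤ)
  !![1 - 2 * a 0, 0, 0, -a 0, -a 0;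
     0, 1 - 2 * a 1, 0, -a 1, -a 1;
     0, 0, 1 - 2 * a 2, -a 2, -a 2;
     0, 0, 0, 1, 0;
     0, 0, 0, 0, 1]

/-- translation part -/
def bM (u : Fin 3 → ZMod 2) : Fin 5 → ℤ :=
  ![((u 0).val : ℤ), ((u 1).val : ℤ), ((u 2).val : ℤ), 0, 0]

lemma AM_mul : ∀ u v : Fin 3 → ZMod 2, AM (u + v) = AM u * AM v := by
  decide +kernel

lemma bM_mul : ∀ u v : Fin 3 → ZMod 2, bM (u + v) = (AM u).mulVec (bM v) + bM u := by
  decide +kernel

/-- the action -/
def act : AffineAction G 5 where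
  A :=
    { toFun := fun g => AM (Multiplicative.toAdd g)
      map_one' := by
        show AM 0 = 1
        decide +kernel
      map_mul' := fun g h => AM_mul _ _ }
  b := fun g => bM (Multiplicative.toAdd g)
  b_mul := fun g h => bM_mul _ _

/-- the vertices: the eight vertices of the cube and four apices -/
def V : Finset (Fin 5 → ℤ) :=
  {![0, 0, 0, 0, 0], ![1, 0, 0, 0, 0], ![0, 1, 0, 0, 0], ![0, 0, 1, 0, 0],
   ![1, 1, 0, 0, 0], ![1, 0, 1, 0, 0], ![0, 1, 1, 0, 0], ![1, 1, 1, 0, 0],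
   ![0, 0, 0, 1, 0], ![1, 1, 1, -1, 0], ![0, 0, 0, 0, 1], ![1, 1, 1, 0, -1]}

/-- the polytope -/
def P : Set (Fin 5 → ℝ) := convexHull ℝ (toReal '' (V : Set (Fin 5 → ℤ)))

lemma convex_P : Convex ℝ P := convex_convexHull ℝ _

lemma mem_P {v : Fin 5 → ℤ} (hv : v ∈ V) : toReal v ∈ P :=
  subset_convexHull ℝ _ ⟨v, hv, rfl⟩

lemma P_nonempty : P.Nonempty := ⟨_, mem_P (v := ![0, 0, 0, 0, 0]) (by decide)⟩

/-- the inequalities -/
def Ineq (m : ℤ) (x : Fin 5 → ℤ) : Prop :=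
  ∀ i : Fin 3, |2 * x (Fin.castLE (by norm_num) i) - m + x 3 + x 4| + |x 3| + |x 4| ≤ m

lemma P_subset : P ⊆ {y : Fin 5 → ℝ |
    ∀ i : Fin 3, |2 * y (Fin.castLE (by norm_num) i) - 1 + y 3 + y 4| + |y 3| + |y 4| ≤ 1} := by
  apply convexHull_min
  · rintro _ ⟨v, hv, rfl⟩
    have h : ∀ v ∈ V, ∀ i : Fin 3,
        |2 * v (Fin.castLE (by norm_num) i) - 1 + v 3 + v 4| + |v 3| + |v 4| ≤ 1 := by decide
    intro i
    have := h v hv i
    simp only [toReal]
    exact_mod_cast this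
  · rintro x hx y hy a b ha hb hab i
    have h1 := hx i
    have h2 := hy i
    simp only [Pi.add_apply, Pi.smul_apply, smul_eq_mul]
    have e1 : 2 * (a * x (Fin.castLE (by norm_num) i) + b * y (Fin.castLE (by norm_num) i)) - 1 +
        (a * x 3 + b * y 3) + (a * x 4 + b * y 4) =
        a * (2 * x (Fin.castLE (by norm_num) i) - 1 + x 3 + x 4) +
        b * (2 * y (Fin.castLE (by norm_num) i) - 1 + y 3 + y 4) := by
      linear_combination (1 : ℝ) * hab
    rw [e1]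
    have k1 := abs_add_le (a * (2 * x (Fin.castLE (by norm_num) i) - 1 + x 3 + x 4))
      (b * (2 * y (Fin.castLE (by norm_num) i) - 1 + y 3 + y 4))
    have k2 := abs_add_le (a * x 3) (b * y 3)
    have k3 := abs_add_le (a * x 4) (b * y 4)
    rw [abs_mul, abs_mul, abs_of_nonneg ha, abs_of_nonneg hb] at k1 k2 k3
    nlinarith

lemma ineq_iff (m : ℤ) (x : Fin 5 → ℤ) : Ineq m x ↔
    |2 * x 0 - m + x 3 + x 4| + |x 3| + |x 4| ≤ m ∧
    |2 * x 1 - m + x 3 + x 4| + |x 3| + |x 4| ≤ m ∧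
    |2 * x 2 - m + x 3 + x 4| + |x 3| + |x 4| ≤ m := by
  constructor
  · intro h
    exact ⟨h 0, h 1, h 2⟩
  · rintro ⟨h0, h1, h2⟩ i
    fin_cases i
    · exact h0
    · exact h1
    · exact h2

lemma step (m a b c h k : ℤ) (hm : 0 ≤ m)
    (h0 : |2 * a - (m + 1) + h + k| + |h| + |k| ≤ m + 1)
    (h1 : |2 * b - (m + 1) + h + k| + |h| + |k| ≤ m + 1)
    (h2 : |2 * c - (m + 1) + h + k| + |h| + |k| ≤ m + 1) :
    ∃ v ∈ V, |2 * (a - v 0) - m + (h - v 3) + (k - v 4)| + |h - v 3| + |k - v 4| ≤ m ∧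
      |2 * (b - v 1) - m + (h - v 3) + (k - v 4)| + |h - v 3| + |k - v 4| ≤ m ∧
      |2 * (c - v 2) - m + (h - v 3) + (k - v 4)| + |h - v 3| + |k - v 4| ≤ m := by
  simp only [abs_eq_max_neg] at *
  by_cases hh : 0 < h
  · refine ⟨![0, 0, 0, 1, 0], by decide, ?_⟩
    simp; omega
  by_cases hh' : h < 0
  · refine ⟨![1, 1, 1, -1, 0], by decide, ?_⟩
    simp; omega
  by_cases hk : 0 < k
  · refine ⟨![0, 0, 0, 0, 1], by decide, ?_⟩
    simp; omega
  by_cases hk' : k < 0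
  · refine ⟨![1, 1, 1, 0, -1], by decide, ?_⟩
    simp; omega
  have e1 : h = 0 := by omega
  have e2 : k = 0 := by omega
  subst e1 e2
  by_cases ha : 0 < a
  · by_cases hb : 0 < b
    · by_cases hc : 0 < c
      · refine ⟨![1, 1, 1, 0, 0], by decide, ?_⟩
        simp; omega
      · refine ⟨![1, 1, 0, 0, 0], by decide, ?_⟩
        simp; omega
    · by_cases hc : 0 < c
      · refine ⟨![1, 0, 1, 0, 0], by decide, ?_⟩
        simp; omega
      · refine ⟨![1, 0, 0, 0, 0], by decide, ?_⟩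
        simp; omega
  · by_cases hb : 0 < b
    · by_cases hc : 0 < c
      · refine ⟨![0, 1, 1, 0, 0], by decide, ?_⟩
        simp; omega
      · refine ⟨![0, 1, 0, 0, 0], by decide, ?_⟩
        simp; omega
    · by_cases hc : 0 < c
      · refine ⟨![0, 0, 1, 0, 0], by decide, ?_⟩
        simp; omega
      · refine ⟨![0, 0, 0, 0, 0], by decide, ?_⟩
        simp; omega

lemma mem_of_ineq (m : ℕ) : ∀ x : Fin 5 → ℤ, Ineq m x → toReal x ∈ (m : ℝ) • P := by
  induction m with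
  | zero =>
    intro x hx
    rw [ineq_iff] at hx
    simp only [abs_eq_max_neg, Nat.cast_zero] at hx
    have h3 : x 3 = 0 := by omega
    have h4 : x 4 = 0 := by omega
    have h0 : x 0 = 0 := by omega
    have h1 : x 1 = 0 := by omega
    have h2 : x 2 = 0 := by omega
    have : toReal x = 0 := by
      funext i
      fin_cases i <;> simp [toReal, h0, h1, h2, h3, h4]
    rw [this, Nat.cast_zero, Set.zero_smul_set P_nonempty]
    rfl
  | succ m ih =>
    intro x hx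
    rw [ineq_iff] at hx
    push_cast at hx
    obtain ⟨v, hv, a1, a2, a3⟩ := step m (x 0) (x 1) (x 2) (x 3) (x 4) (by positivity)
      hx.1 hx.2.1 hx.2.2
    have h3 := ih (x - v) (by
      rw [ineq_iff]
      exact ⟨a1, a2, a3⟩)
    rw [Nat.cast_succ, convex_P.add_smul (Nat.cast_nonneg m) zero_le_one, one_smul]
    refine ⟨toReal (x - v), h3, toReal v, mem_P hv, ?_⟩
    funext i
    simp [toReal]

lemma mem_iff (m : ℕ) (x : Fin 5 → ℤ) : toReal x ∈ (m : ℝ) • P ↔ Ineq m x := by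
  constructor
  · rintro ⟨y, hy, hyx⟩ i
    have h1 := P_subset hy i
    have hc : ∀ i, ((x i : ℤ) : ℝ) = m * y i := fun i => by
      have := congrFun hyx i
      simpa [toReal] using this.symm
    have hm : (0 : ℝ) ≤ m := Nat.cast_nonneg m
    have key : |2 * ((x (Fin.castLE (by norm_num) i) : ℤ) : ℝ) - m + ((x 3 : ℤ) : ℝ) +
        ((x 4 : ℤ) : ℝ)| + |((x 3 : ℤ) : ℝ)| + |((x 4 : ℤ) : ℝ)| ≤ (m : ℝ) := by
      rw [hc, hc, hc]
      have e : 2 * ((m : ℝ) * y (Fin.castLE (by norm_num) i)) - m + m * y 3 + m * y 4 =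
          m * (2 * y (Fin.castLE (by norm_num) i) - 1 + y 3 + y 4) := by ring
      rw [e, abs_mul, abs_mul, abs_mul, abs_of_nonneg hm]
      have := mul_le_mul_of_nonneg_left h1 hm
      linarith
    exact_mod_cast key
  · exact mem_of_ineq m x

end Pool.Agent.R135.Eq5
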