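import Pool.Agent.R135.Eq5

set_option autoImplicit false
open scoped Pointwise

namespace Pool.Agent.R135.Eq5

open Pool.Agent.R135.Equi

/-! ### The polytope is full-dimensional and invariant -/

lemma isLatticePolytope_P : IsLatticePolytope P := by
  refine ⟨⟨V, rfl⟩, ?_⟩
  unfold P
  rw [interior_convexHull_nonempty_iff_affineSpan_eq_top]
  have h0 : (toReal (![0, 0, 0, 0, 0] : Fin 5 → ℤ)) ∈ toReal '' (V : Set (Fin 5 → ℤ)) :=
    ⟨_, by decide, rfl⟩
  rw [AffineSubspace.affineSpan_eq_top_iff_vectorSpan_eq_top_of_nonempty ℝ _ _ ⟨_, h0⟩]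
  have h : ∀ i : Fin 5, (Pi.single i (1 : ℝ) : Fin 5 → ℝ) ∈
      vectorSpan ℝ (toReal '' (V : Set (Fin 5 → ℤ))) := by
    intro i
    have h1 : ∀ i : Fin 5, (Pi.single i (1 : ℤ) : Fin 5 → ℤ) ∈ V := by decide
    have h3 : toReal (Pi.single i (1 : ℤ)) ∈ toReal '' (V : Set (Fin 5 → ℤ)) := ⟨_, h1 i, rfl⟩
    have h2 := vsub_mem_vectorSpan ℝ h3 h0
    convert h2 using 1
    funext j
    fin_cases i <;> fin_cases j <;> simp [toReal]
  rw [eq_top_iff]
  intro x _
  have hx : x = ∑ i, x i • (Pi.single i (1 : ℝ) : Fin 5 → ℝ) := by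
    funext j
    simp [Finset.sum_apply, Pi.single_apply]
  rw [hx]
  exact Submodule.sum_mem _ fun i _ => Submodule.smul_mem _ _ (h i)

lemma V_image : ∀ u : Fin 3 → ZMod 2,
    V.image (fun v => (AM u).mulVec v + bM u) = V := by
  decide +kernel

lemma toReal_affine (A : Matrix (Fin 5) (Fin 5) ℤ) (b v : Fin 5 → ℤ) :
    (A.map (Int.cast : ℤ → ℝ)).mulVec (toReal v) + toReal b = toReal (A.mulVec v + b) := by
  funext i
  simp [toReal, Matrix.mulVec, dotProduct]

lemma invariant_P : act.Invariant P := by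
  intro g
  set A : Matrix (Fin 5) (Fin 5) ℤ := AM (Multiplicative.toAdd g) with hA
  set b : Fin 5 → ℤ := bM (Multiplicative.toAdd g) with hb
  have hA' : act.A g = A := rfl
  have hb' : act.b g = b := rfl
  rw [hA', hb']
  let φ : (Fin 5 → ℝ) →ᵃ[ℝ] (Fin 5 → ℝ) :=
    (Matrix.toLin' (A.map (Int.cast : ℤ → ℝ))).toAffineMap +
      AffineMap.const ℝ (Fin 5 → ℝ) (toReal b)
  have hφ : (fun x : Fin 5 → ℝ => (A.map (Int.cast : ℤ → ℝ)).mulVec x + toReal b) = φ := by
    funext x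
    simp [φ]
  rw [hφ]
  unfold P
  rw [AffineMap.image_convexHull]
  congr 1
  rw [← hφ, Set.image_image]
  ext y
  constructor
  · rintro ⟨v, hv, rfl⟩
    refine ⟨A.mulVec v + b, ?_, (toReal_affine A b v).symm⟩
    have := V_image (Multiplicative.toAdd g)
    rw [Finset.mem_coe, ← this]
    exact Finset.mem_image_of_mem _ hv
  · rintro ⟨v, hv, rfl⟩
    have := V_image (Multiplicative.toAdd g)
    rw [Finset.mem_coe, ← this, Finset.mem_image] at hv
    obtain ⟨w, hw, rfl⟩ := hv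
    exact ⟨w, hw, toReal_affine A b w⟩

/-! ### Counting -/

/-- possible values of one of the first three coordinates -/
noncomputable def F (δ m h k : ℤ) : Finset ℤ :=
  (Finset.Icc (max (-h) 0 + max (-k) 0) (m - max h 0 - max k 0)).filter
    fun y => δ * (2 * y + h + k - m) = 0

/-- number of values -/
def c (δ r : ℤ) : ℤ :=
  if δ = 0 then (if 0 ≤ r then r + 1 else 0) else (if 0 ≤ r ∧ r % 2 = 0 then 1 else 0)

lemma card_F (δ m h k : ℤ) (hδ : δ = 0 ∨ δ = 1) :
    ((F δ m h k).card : ℤ) = c δ (m - |h| - |k|) := by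
  obtain ⟨r, hr⟩ : ∃ r, r = m - |h| - |k| := ⟨_, rfl⟩
  rw [← hr]
  simp only [abs_eq_max_neg] at hr
  unfold F c
  rcases hδ with rfl | rfl
  · rw [if_pos rfl]
    have : (Finset.Icc (max (-h) 0 + max (-k) 0) (m - max h 0 - max k 0)).filter
        (fun y => (0 : ℤ) * (2 * y + h + k - m) = 0) =
        Finset.Icc (max (-h) 0 + max (-k) 0) (m - max h 0 - max k 0) := by
      apply Finset.filter_true_of_mem
      intro x _
      ring
    rw [this, Int.card_Icc]
    by_cases h1 : 0 ≤ r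
    · rw [if_pos h1]; omega
    · rw [if_neg h1]; omega
  · rw [if_neg (by norm_num)]
    by_cases h1 : 0 ≤ r ∧ r % 2 = 0
    · rw [if_pos h1]
      have : (Finset.Icc (max (-h) 0 + max (-k) 0) (m - max h 0 - max k 0)).filter
          (fun y => (1 : ℤ) * (2 * y + h + k - m) = 0) = {(m - h - k) / 2} := by
        ext y
        simp only [Finset.mem_filter, Finset.mem_Icc, Finset.mem_singleton, one_mul]
        omega
      rw [this]
      simp
    · rw [if_neg h1]
      have : (Finset.Icc (max (-h) 0 + max (-k) 0) (m - max h 0 - max k 0)).filter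
          (fun y => (1 : ℤ) * (2 * y + h + k - m) = 0) = ∅ := by
        ext y
        simp only [Finset.mem_filter, Finset.mem_Icc, Finset.notMem_empty, one_mul, iff_false]
        omega
      rw [this]
      simp

/-- the domain of the two last coordinates -/
noncomputable def D (m : ℤ) : Finset (ℤ × ℤ) := Finset.Icc (-m) m ×ˢ Finset.Icc (-m) m

/-- parametrisation of the fixed points -/
def J (t : (_ : ℤ × ℤ) × (Fin 3 → ℤ)) : Fin 5 → ℤ :=
  ![t.2 0, t.2 1, t.2 2, t.1.1, t.1.2]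

lemma J_injective : Function.Injective J := by
  rintro ⟨⟨h, k⟩, y⟩ ⟨⟨h', k'⟩, y'⟩ e
  have e0 := congrFun e 0
  have e1 := congrFun e 1
  have e2 := congrFun e 2
  have e3 := congrFun e 3
  have e4 := congrFun e 4
  simp [J] at e0 e1 e2 e3 e4
  have : y = y' := by
    funext i
    fin_cases i
    · exact e0
    · exact e1
    · exact e2
  subst this e3 e4
  rfl

/-- the finset of parameters -/
noncomputable def T (g : G) (m : ℤ) : Finset ((_ : ℤ × ℤ) × (Fin 3 → ℤ)) :=
  (D m).sigma fun p => Fintype.piFinset fun i => F (dl g i) m p.1 p.2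

lemma fix_iff (g : G) (m : ℤ) (x : Fin 5 → ℤ) :
    (act.A g).mulVec x + m • act.b g = x ↔
      dl g 0 * (2 * x 0 + x 3 + x 4 - m) = 0 ∧ dl g 1 * (2 * x 1 + x 3 + x 4 - m) = 0 ∧
      dl g 2 * (2 * x 2 + x 3 + x 4 - m) = 0 := by
  have e : (act.A g).mulVec x + m • act.b g =
      ![x 0 - dl g 0 * (2 * x 0 + x 3 + x 4 - m), x 1 - dl g 1 * (2 * x 1 + x 3 + x 4 - m),
        x 2 - dl g 2 * (2 * x 2 + x 3 + x 4 - m), x 3, x 4] := by
    have hA : act.A g = AM (Multiplicative.toAdd g) := rfl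
    have hb : act.b g = bM (Multiplicative.toAdd g) := rfl
    rw [hA, hb]
    funext i
    fin_cases i <;>
      simp [AM, bM, dl, dotProduct, Fin.sum_univ_five] <;> ring
  rw [e]
  constructor
  · intro h
    have e0 := congrFun h 0
    have e1 := congrFun h 1
    have e2 := congrFun h 2
    simp at e0 e1 e2
    refine ⟨?_, ?_, ?_⟩
    · rcases e0 with h | h
      · rw [h, zero_mul]
      · rw [h, mul_zero]
    · rcases e1 with h | h
      · rw [h, zero_mul]
      · rw [h, mul_zero]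
    · rcases e2 with h | h
      · rw [h, zero_mul]
      · rw [h, mul_zero]
  · rintro ⟨h0, h1, h2⟩
    rw [h0, h1, h2]
    funext i
    fin_cases i <;> simp

lemma set_eq (g : G) (m : ℕ) :
    {x : Fin 5 → ℤ | toReal x ∈ (m : ℝ) • P ∧ (act.A g).mulVec x + (m : ℤ) • act.b g = x} =
      J '' (T g m : Set ((_ : ℤ × ℤ) × (Fin 3 → ℤ))) := by
  ext x
  simp only [Set.mem_ofPred_eq, mem_iff, ineq_iff, fix_iff, Set.mem_image, Finset.mem_coe, T,
    Finset.mem_sigma, D, Finset.mem_product, Finset.mem_Icc, Fintype.mem_piFinset, F,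
    Finset.mem_filter, abs_eq_max_neg]
  constructor
  · rintro ⟨⟨h0, h1, h2⟩, f0, f1, f2⟩
    refine ⟨⟨(x 3, x 4), ![x 0, x 1, x 2]⟩, ⟨⟨by simp only; omega, by simp only; omega⟩, ?_⟩, ?_⟩
    · intro i
      fin_cases i
      · simp only [Fin.zero_eta, Matrix.cons_val_zero]
        exact ⟨by omega, f0⟩
      · simp only [Fin.mk_one, Matrix.cons_val_one, Matrix.cons_val_zero]
        exact ⟨by omega, f1⟩
      · simp only [Fin.reduceFinMk, Matrix.cons_val]
        exact ⟨by omega, f2⟩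
    · funext i
      fin_cases i <;> simp [J]
  · rintro ⟨⟨⟨h, k⟩, y⟩, ⟨⟨h1, h2⟩, h3⟩, rfl⟩
    have a0 := h3 0
    have a1 := h3 1
    have a2 := h3 2
    simp only at a0 a1 a2
    have j0 : J ⟨(h, k), y⟩ 0 = y 0 := rfl
    have j1 : J ⟨(h, k), y⟩ 1 = y 1 := rfl
    have j2 : J ⟨(h, k), y⟩ 2 = y 2 := rfl
    have j3 : J ⟨(h, k), y⟩ 3 = h := rfl
    have j4 : J ⟨(h, k), y⟩ 4 = k := rfl
    rw [j0, j1, j2, j3, j4]
    refine ⟨⟨by omega, by omega, by omega⟩, a0.2, a1.2, a2.2⟩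

lemma dl_cases (g : G) (i : Fin 3) : dl g i = 0 ∨ dl g i = 1 := by
  have h : ∀ z : ZMod 2, ((z.val : ℕ) : ℤ) = 0 ∨ ((z.val : ℕ) : ℤ) = 1 := by decide
  exact h _

/-- the function counted over the last two coordinates -/
def GG (g : G) (r : ℤ) : ℤ := c (dl g 0) r * c (dl g 1) r * c (dl g 2) r

lemma GG_neg (g : G) (r : ℤ) (hr : r < 0) : GG g r = 0 := by
  have : c (dl g 0) r = 0 := by
    unfold c
    rw [if_neg (by omega : ¬ 0 ≤ r), if_neg (by omega : ¬ (0 ≤ r ∧ r % 2 = 0))]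
    simp
  unfold GG
  rw [this]
  ring

lemma chi_eq (g : G) (m : ℕ) : (act.chi P m g : ℤ) =
    ∑ h ∈ Finset.Icc (-(m : ℤ)) m, ∑ k ∈ Finset.Icc (-(m : ℤ)) m, GG g (m - |h| - |k|) := by
  unfold AffineAction.chi
  rw [set_eq, Set.ncard_image_of_injective _ J_injective, Set.ncard_coe_finset, T,
    Finset.card_sigma]
  push_cast
  unfold D
  rw [Finset.sum_product]
  refine Finset.sum_congr rfl fun h _ => Finset.sum_congr rfl fun k _ => ?_
  rw [Fintype.card_piFinset]
  push_cast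
  rw [Fin.prod_univ_three, card_F _ _ _ _ (dl_cases g 0), card_F _ _ _ _ (dl_cases g 1),
    card_F _ _ _ _ (dl_cases g 2)]
  rfl

end Pool.Agent.R135.Eq5
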