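import Pool.Agent.R135.Eq5b

set_option autoImplicit false
open scoped Pointwise

namespace Pool.Agent.R135.Eq5

open Pool.Agent.R135.Equi PowerSeries

/-! ### The generating function of a sum over `|h| ≤ m` -/

/-- `(Λ f)(r) = ∑_{|h| ≤ r} f (r - |h|)` -/
noncomputable def Lam (f : ℤ → ℤ) (r : ℤ) : ℤ := ∑ h ∈ Finset.Icc (-r) r, f (r - |h|)

lemma Lam_neg (f : ℤ → ℤ) (r : ℤ) (hr : r < 0) : Lam f r = 0 := by
  unfold Lam
  rw [Finset.Icc_eq_empty (by omega), Finset.sum_empty]

lemma sum_abs (f : ℤ → ℤ) (n : ℕ) : ∑ h ∈ Finset.Icc (-(n : ℤ)) n, f |h| =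
    f 0 + 2 * ∑ s ∈ Finset.range n, f (s + 1) := by
  induction n with
  | zero => simp
  | succ n ih =>
    have h1 : Finset.Icc (-((n + 1 : ℕ) : ℤ)) ((n + 1 : ℕ) : ℤ) =
        insert (-((n : ℤ) + 1)) (insert ((n : ℤ) + 1) (Finset.Icc (-(n : ℤ)) n)) := by
      ext x
      simp only [Finset.mem_Icc, Finset.mem_insert]
      push_cast
      omega
    rw [h1, Finset.sum_insert, Finset.sum_insert, ih, Finset.sum_range_succ]
    · rw [abs_neg, abs_of_nonneg (by positivity)]
      ring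
    · simp only [Finset.mem_Icc]; omega
    · simp only [Finset.mem_Icc, Finset.mem_insert]; omega

lemma Lam_nat (f : ℤ → ℤ) (n : ℕ) : Lam f n = f n + 2 * ∑ j ∈ Finset.range n, f j := by
  unfold Lam
  rw [sum_abs (fun s => f (n - s)) n, sub_zero]
  congr 2
  rw [← Finset.sum_range_reflect]
  refine Finset.sum_congr rfl fun j hj => ?_
  rw [Finset.mem_range] at hj
  congr 1
  omega

lemma series_Lam (f : ℤ → ℤ) : PowerSeries.mk (fun m : ℕ => Lam f m) * (1 - X) =
    (1 + X) * PowerSeries.mk (fun m : ℕ => f m) := by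
  ext n
  rw [mul_sub, mul_one, add_mul, one_mul, map_sub, map_add]
  rcases n with _ | n
  · simp [Lam_nat]
  · rw [PowerSeries.coeff_succ_mul_X, PowerSeries.coeff_succ_X_mul]
    simp only [PowerSeries.coeff_mk]
    rw [Lam_nat, Lam_nat, Finset.sum_range_succ]
    ring

lemma double_sum (f : ℤ → ℤ) (hf : ∀ r < 0, f r = 0) (m : ℕ) :
    ∑ h ∈ Finset.Icc (-(m : ℤ)) m, ∑ k ∈ Finset.Icc (-(m : ℤ)) m, f (m - |h| - |k|) =
      Lam (Lam f) m := by
  unfold Lam
  refine Finset.sum_congr rfl fun h hh => ?_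
  rw [Finset.mem_Icc] at hh
  symm
  apply Finset.sum_subset
  · apply Finset.Icc_subset_Icc
    · have := abs_nonneg h; omega
    · have := abs_nonneg h; omega
  · intro k _ hk
    apply hf
    rw [Finset.mem_Icc] at hk
    simp only [abs_eq_max_neg] at hk ⊢
    omega

lemma series_chi (g : G) : PowerSeries.mk (fun m : ℕ => (act.chi P m g : ℤ)) * (1 - X) ^ 2 =
    (1 + X) ^ 2 * PowerSeries.mk (fun m : ℕ => GG g m) := by
  have h1 : (fun m : ℕ => (act.chi P m g : ℤ)) = fun m : ℕ => Lam (Lam (GG g)) m := by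
    funext m
    rw [chi_eq, double_sum _ (fun r hr => GG_neg g r hr)]
  rw [h1, pow_two, ← mul_assoc, series_Lam, mul_assoc, mul_comm (PowerSeries.mk _) (1 - X),
    mul_comm (1 - X), series_Lam]
  ring

/-! ### The determinant -/

lemma det_eq (g : G) : Matrix.det (1 - (Polynomial.X : Polynomial ℤ) •
    (act.A g).map Polynomial.C) =
      (1 - Polynomial.X * Polynomial.C (1 - 2 * dl g 0)) *
      (1 - Polynomial.X * Polynomial.C (1 - 2 * dl g 1)) *
      (1 - Polynomial.X * Polynomial.C (1 - 2 * dl g 2)) * (1 - Polynomial.X) ^ 2 := by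
  rw [Matrix.det_of_isUpperTriangular]
  · have hA : act.A g = AM (Multiplicative.toAdd g) := rfl
    rw [hA, Fin.prod_univ_five]
    simp [AM, dl]
    ring
  · intro i j hij
    have hA : act.A g = AM (Multiplicative.toAdd g) := rfl
    rw [hA]
    fin_cases i <;> fin_cases j <;> first | (exfalso; revert hij; decide) | simp [AM]

lemma Hstar_eq (g : G) : act.Hstar P g =
    (1 + X) ^ 2 * (1 - X) * ((1 - X * C (1 - 2 * dl g 0)) * (1 - X * C (1 - 2 * dl g 1)) *
      (1 - X * C (1 - 2 * dl g 2))) * PowerSeries.mk (fun m : ℕ => GG g m) := by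
  unfold AffineAction.Hstar
  rw [det_eq]
  have h := series_chi g
  have e : (((1 - Polynomial.X * Polynomial.C (1 - 2 * dl g 0)) *
      (1 - Polynomial.X * Polynomial.C (1 - 2 * dl g 1)) *
      (1 - Polynomial.X * Polynomial.C (1 - 2 * dl g 2)) * (1 - Polynomial.X) ^ 2 :
        Polynomial ℤ) : PowerSeries ℤ) = (1 - X * C (1 - 2 * dl g 0)) *
      (1 - X * C (1 - 2 * dl g 1)) * (1 - X * C (1 - 2 * dl g 2)) * (1 - X) ^ 2 := by
    simp only [Polynomial.coe_mul, Polynomial.coe_sub, Polynomial.coe_pow, Polynomial.coe_one,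
      Polynomial.coe_X, Polynomial.coe_C]
  rw [e]
  linear_combination ((1 - X) * ((1 - X * C (1 - 2 * dl g 0)) * (1 - X * C (1 - 2 * dl g 1)) *
      (1 - X * C (1 - 2 * dl g 2)))) * h

/-! ### The four series -/

/-- `0 ≤ r`, no reflection -/
def f0 (r : ℕ) : ℤ := ((r : ℤ) + 1) ^ 3
/-- one reflection -/
def f1 (r : ℕ) : ℤ := if r % 2 = 0 then ((r : ℤ) + 1) ^ 2 else 0
/-- two reflections -/
def f2 (r : ℕ) : ℤ := if r % 2 = 0 then ((r : ℤ) + 1) else 0
/-- three reflections -/
def f3 (r : ℕ) : ℤ := if r % 2 = 0 then 1 else 0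

lemma s0 : PowerSeries.mk f0 * (1 - X) ^ 4 = 1 + 4 * X + X ^ 2 := by
  have e : PowerSeries.mk f0 * (1 - X) ^ 4 = PowerSeries.mk f0 -
      C 4 * (X ^ 1 * PowerSeries.mk f0) + C 6 * (X ^ 2 * PowerSeries.mk f0)
      - C 4 * (X ^ 3 * PowerSeries.mk f0) + X ^ 4 * PowerSeries.mk f0 := by
    have n4 : (C 4 : PowerSeries ℤ) = 4 := by simp
    have n6 : (C 6 : PowerSeries ℤ) = 6 := by simp
    rw [n4, n6]
    ring
  have n4 : (4 : PowerSeries ℤ) = C 4 := by simp
  rw [e, n4]
  ext n
  simp only [map_add, map_sub, PowerSeries.coeff_C_mul, PowerSeries.coeff_X_pow_mul',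
    PowerSeries.coeff_mk, PowerSeries.coeff_one, PowerSeries.coeff_X_pow, PowerSeries.coeff_X, f0]
  rcases n with _ | _ | _ | _ | n
  · simp
  · simp
  · simp
  · simp
  · simp
    ring

lemma s1 : PowerSeries.mk f1 * (1 - X ^ 2) ^ 3 = 1 + 6 * X ^ 2 + X ^ 4 := by
  have e : PowerSeries.mk f1 * (1 - X ^ 2) ^ 3 = PowerSeries.mk f1 -
      C 3 * (X ^ 2 * PowerSeries.mk f1) + C 3 * (X ^ 4 * PowerSeries.mk f1)
      - X ^ 6 * PowerSeries.mk f1 := by
    have n3 : (C 3 : PowerSeries ℤ) = 3 := by simp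
    rw [n3]
    ring
  have n6 : (6 : PowerSeries ℤ) = C 6 := by simp
  rw [e, n6]
  ext n
  simp only [map_add, map_sub, PowerSeries.coeff_C_mul, PowerSeries.coeff_X_pow_mul',
    PowerSeries.coeff_mk, PowerSeries.coeff_one, PowerSeries.coeff_X_pow, f1]
  rcases n with _ | _ | _ | _ | _ | _ | n
  · simp
  · simp
  · simp
  · simp
  · simp
  · simp
  · have e6 : n + 1 + 1 + 1 + 1 + 1 + 1 = n + 6 := by ring
    rw [e6, if_pos (by omega : 2 ≤ n + 6), if_pos (by omega : 4 ≤ n + 6),
      if_pos (by omega : 6 ≤ n + 6), if_neg (by omega : ¬ n + 6 = 0),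
      if_neg (by omega : ¬ n + 6 = 2), if_neg (by omega : ¬ n + 6 = 4)]
    have a1 : n + 6 - 2 = n + 4 := by omega
    have a2 : n + 6 - 4 = n + 2 := by omega
    have a3 : n + 6 - 6 = n := by omega
    rw [a1, a2, a3]
    by_cases h : n % 2 = 0
    · rw [if_pos (by omega), if_pos (by omega), if_pos (by omega), if_pos h]
      push_cast
      ring
    · rw [if_neg (by omega), if_neg (by omega), if_neg (by omega), if_neg h]
      ring

lemma s2 : PowerSeries.mk f2 * (1 - X ^ 2) ^ 2 = 1 + X ^ 2 := by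
  have e : PowerSeries.mk f2 * (1 - X ^ 2) ^ 2 = PowerSeries.mk f2 -
      C 2 * (X ^ 2 * PowerSeries.mk f2) + X ^ 4 * PowerSeries.mk f2 := by
    have n3 : (C 2 : PowerSeries ℤ) = 2 := by simp
    rw [n3]
    ring
  rw [e]
  ext n
  simp only [map_add, map_sub, PowerSeries.coeff_C_mul, PowerSeries.coeff_X_pow_mul',
    PowerSeries.coeff_mk, PowerSeries.coeff_one, PowerSeries.coeff_X_pow, f2]
  rcases n with _ | _ | _ | _ | n
  · simp
  · simp
  · simp
  · simp
  · have e6 : n + 1 + 1 + 1 + 1 = n + 4 := by ring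
    rw [e6, if_pos (by omega : 2 ≤ n + 4), if_pos (by omega : 4 ≤ n + 4),
      if_neg (by omega : ¬ n + 4 = 0), if_neg (by omega : ¬ n + 4 = 2)]
    have a1 : n + 4 - 2 = n + 2 := by omega
    have a2 : n + 4 - 4 = n := by omega
    rw [a1, a2]
    by_cases h : n % 2 = 0
    · rw [if_pos (by omega), if_pos (by omega), if_pos h]
      push_cast
      ring
    · rw [if_neg (by omega), if_neg (by omega), if_neg h]
      ring

lemma s3 : PowerSeries.mk f3 * (1 - X ^ 2) = 1 := by
  have e : PowerSeries.mk f3 * (1 - X ^ 2) = PowerSeries.mk f3 -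
      (X ^ 2 * PowerSeries.mk f3) := by
    ring
  rw [e]
  ext n
  simp only [map_sub, PowerSeries.coeff_X_pow_mul',
    PowerSeries.coeff_mk, PowerSeries.coeff_one, f3]
  rcases n with _ | _ | n
  · simp
  · simp
  · have e6 : n + 1 + 1 = n + 2 := by ring
    rw [e6, if_pos (by omega : 2 ≤ n + 2), if_neg (by omega : ¬ n + 2 = 0)]
    have a2 : n + 2 - 2 = n := by omega
    rw [a2]
    by_cases h : n % 2 = 0
    · rw [if_pos (by omega), if_pos h]
      ring
    · rw [if_neg (by omega), if_neg h]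
      ring

/-- The `H^*`-polynomial as a function of the number of reflections. -/
noncomputable def HP (k : ℤ) : Polynomial ℤ :=
  if k = 0 then (1 + Polynomial.X) ^ 2 * (1 + 4 * Polynomial.X + Polynomial.X ^ 2)
  else if k = 1 then 1 + 6 * Polynomial.X ^ 2 + Polynomial.X ^ 4
  else if k = 2 then (1 + Polynomial.X) ^ 2 * (1 + Polynomial.X ^ 2)
  else (1 + Polynomial.X) ^ 4

lemma Hstar_HP (g : G) : act.Hstar P g = ((HP (dl g 0 + dl g 1 + dl g 2) : Polynomial ℤ) :
    PowerSeries ℤ) := by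
  have hG : ∀ (a b d : ℤ), dl g 0 = a → dl g 1 = b → dl g 2 = d →
      (fun m : ℕ => GG g m) = fun m : ℕ => c a m * c b m * c d m := by
    rintro a b d rfl rfl rfl
    rfl
  have g0 : (fun m : ℕ => c 0 m * c 0 m * c 0 m) = f0 := by
    funext m; simp [c, f0]; ring
  have g1 : (fun m : ℕ => c 1 m * c 0 m * c 0 m) = f1 := by
    funext m
    by_cases h : m % 2 = 0
    · have : (m : ℤ) % 2 = 0 := by omega
      simp [c, f1, h, this]; ring
    · have : ¬ (m : ℤ) % 2 = 0 := by omega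
      simp [c, f1, h, this]
  have g2 : (fun m : ℕ => c 1 m * c 1 m * c 0 m) = f2 := by
    funext m
    by_cases h : m % 2 = 0
    · have : (m : ℤ) % 2 = 0 := by omega
      simp [c, f2, h, this]
    · have : ¬ (m : ℤ) % 2 = 0 := by omega
      simp [c, f2, h, this]
  have g3 : (fun m : ℕ => c 1 m * c 1 m * c 1 m) = f3 := by
    funext m
    by_cases h : m % 2 = 0
    · have : (m : ℤ) % 2 = 0 := by omega
      simp [c, f3, h, this]
    · have : ¬ (m : ℤ) % 2 = 0 := by omega
      simp [c, f3, h, this]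
  have c1 : (C (1 - 2 * 1) : PowerSeries ℤ) = -1 := by simp
  have c0 : (C (1 - 2 * 0) : PowerSeries ℤ) = 1 := by simp
  have p4 : ((4 : Polynomial ℤ) : PowerSeries ℤ) = 4 := by
    have := Polynomial.coe_C (4 : ℤ)
    simpa using this
  have p6 : ((6 : Polynomial ℤ) : PowerSeries ℤ) = 6 := by
    have := Polynomial.coe_C (6 : ℤ)
    simpa using this
  have q0 : ((HP 0 : Polynomial ℤ) : PowerSeries ℤ) = (1 + X) ^ 2 * (1 + 4 * X + X ^ 2) := by
    unfold HP
    rw [if_pos rfl]
    simp only [Polynomial.coe_mul, Polynomial.coe_add, Polynomial.coe_pow, Polynomial.coe_one,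
      Polynomial.coe_X, p4]
  have q1 : ((HP 1 : Polynomial ℤ) : PowerSeries ℤ) = 1 + 6 * X ^ 2 + X ^ 4 := by
    unfold HP
    rw [if_neg (by norm_num), if_pos rfl]
    simp only [Polynomial.coe_mul, Polynomial.coe_add, Polynomial.coe_pow, Polynomial.coe_one,
      Polynomial.coe_X, p6]
  have q2 : ((HP 2 : Polynomial ℤ) : PowerSeries ℤ) = (1 + X) ^ 2 * (1 + X ^ 2) := by
    unfold HP
    rw [if_neg (by norm_num), if_neg (by norm_num), if_pos rfl]
    simp only [Polynomial.coe_mul, Polynomial.coe_add, Polynomial.coe_pow, Polynomial.coe_one,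
      Polynomial.coe_X]
  have q3 : ((HP 3 : Polynomial ℤ) : PowerSeries ℤ) = (1 + X) ^ 4 := by
    unfold HP
    rw [if_neg (by norm_num), if_neg (by norm_num), if_neg (by norm_num)]
    simp only [Polynomial.coe_add, Polynomial.coe_pow, Polynomial.coe_one,
      Polynomial.coe_X]
  rw [Hstar_eq]
  rcases dl_cases g 0 with h0 | h0 <;> rcases dl_cases g 1 with h1 | h1 <;>
    rcases dl_cases g 2 with h2 | h2 <;> rw [hG _ _ _ h0 h1 h2, h0, h1, h2] <;>
    simp only [c0, c1]
  · rw [g0]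
    norm_num only
    rw [q0, ← s0]
    ring
  · have : (fun m : ℕ => c 0 m * c 0 m * c 1 m) = f1 := by
      rw [← g1]; funext m; ring
    rw [this]
    norm_num only
    rw [q1, ← s1]
    ring
  · have : (fun m : ℕ => c 0 m * c 1 m * c 0 m) = f1 := by
      rw [← g1]; funext m; ring
    rw [this]
    norm_num only
    rw [q1, ← s1]
    ring
  · have : (fun m : ℕ => c 0 m * c 1 m * c 1 m) = f2 := by
      rw [← g2]; funext m; ring
    rw [this]
    norm_num only
    rw [q2, ← s2]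
    ring
  · rw [g1]
    norm_num only
    rw [q1, ← s1]
    ring
  · have : (fun m : ℕ => c 1 m * c 0 m * c 1 m) = f2 := by
      rw [← g2]; funext m; ring
    rw [this]
    norm_num only
    rw [q2, ← s2]
    ring
  · rw [g2]
    norm_num only
    rw [q2, ← s2]
    ring
  · rw [g3]
    norm_num only
    rw [q3]
    have := s3
    linear_combination ((1 + X) ^ 4) * this

end Pool.Agent.R135.Eq5
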