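import Mathlib

/-!
# Equivariant Ehrhart theory: definitions
-/

set_option autoImplicit false
open scoped Pointwise

namespace Pool.Agent.R135.Equi

/-- The real vector with the same (integer) coordinates. -/
def toReal {d : ℕ} (x : Fin d → ℤ) : Fin d → ℝ := fun i => (x i : ℝ)

/-- An action of the group `G` on the lattice `ℤ^d` by affine lattice automorphisms
`x ↦ A g x + b g`. The linear representation `ρ` induced on the lattice of translations is `A`. -/
structure AffineAction (G : Type) [Group G] (d : ℕ) where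
  /-- the linear part `ρ` -/
  A : G →* Matrix (Fin d) (Fin d) ℤ
  /-- the translation part -/
  b : G → Fin d → ℤ
  /-- compatibility: `g (h x) = (g h) x` -/
  b_mul : ∀ g h : G, b (g * h) = (A g).mulVec (b h) + b g

/-- `P` is a `d`-dimensional lattice polytope in `ℝ^d`: the convex hull of finitely many lattice
points, with nonempty interior. -/
def IsLatticePolytope {d : ℕ} (P : Set (Fin d → ℝ)) : Prop :=
  (∃ V : Finset (Fin d → ℤ), P = convexHull ℝ (toReal '' (V : Set (Fin d → ℤ)))) ∧
    (interior P).Nonempty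

variable {G : Type} [Group G] {d : ℕ}

/-- Every `g` maps `P` onto itself. -/
def AffineAction.Invariant (α : AffineAction G d) (P : Set (Fin d → ℝ)) : Prop :=
  ∀ g : G, (fun x : Fin d → ℝ =>
    ((α.A g).map (Int.cast : ℤ → ℝ)).mulVec x + toReal (α.b g)) '' P = P

/-- The permutation character `χ_{mP}(g)`: the number of lattice points of `mP` fixed by `g`, where
`g` acts on `mP` by `x ↦ A g x + m b g`. (For `m = 0` it is `1` when `P` is nonempty.) -/
noncomputable def AffineAction.chi (α : AffineAction G d) (P : Set (Fin d → ℝ)) (m : ℕ) (g : G) :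
    ℕ :=
  Set.ncard {x : Fin d → ℤ | toReal x ∈ (m : ℝ) • P ∧ (α.A g).mulVec x + (m : ℤ) • α.b g = x}

/-- The equivariant `H^*`-series at `g`:
`H^*(t)(g) = (∑_m χ_{mP}(g) t^m) (1 - t) det(I - t ρ(g))`. -/
noncomputable def AffineAction.Hstar (α : AffineAction G d) (P : Set (Fin d → ℝ)) (g : G) :
    PowerSeries ℤ :=
  PowerSeries.mk (fun m : ℕ => (α.chi P m g : ℤ)) * (1 - PowerSeries.X) *
    ((Matrix.det (1 - (Polynomial.X : Polynomial ℤ) • (α.A g).map Polynomial.C) :
      Polynomial ℤ) : PowerSeries ℤ)

/-- The coefficient `H^*_i`, a class function of `g`. -/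
noncomputable def AffineAction.HstarCoeff (α : AffineAction G d) (P : Set (Fin d → ℝ)) (i : ℕ)
    (g : G) : ℤ :=
  PowerSeries.coeff (R := ℤ) i (α.Hstar P g)

/-- `H^*(t)` is a polynomial: only finitely many `H^*_i` are nonzero. -/
def AffineAction.IsPolynomial (α : AffineAction G d) (P : Set (Fin d → ℝ)) : Prop :=
  ∃ N : ℕ, ∀ i : ℕ, N ≤ i → ∀ g : G, α.HstarCoeff P i g = 0

/-- `f` is the character of a genuine finite-dimensional complex representation of `G`. -/
def IsCharacter (f : G → ℤ) : Prop :=
  ∃ (n : ℕ) (R : G →* Matrix (Fin n) (Fin n) ℂ), ∀ g : G, (R g).trace = (f g : ℂ)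

/-- `H^*(t)` is effective: every `H^*_i` is the character of a genuine representation. -/
def AffineAction.IsEffective (α : AffineAction G d) (P : Set (Fin d → ℝ)) : Prop :=
  ∀ i : ℕ, IsCharacter (α.HstarCoeff P i)

end Pool.Agent.R135.Equi
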