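import Mathlib

/-!
# Euler characteristic and support functions of compact convex sets
-/

set_option autoImplicit false
open scoped Classical

namespace Pool.Agent.R135.Hadwiger

/-- indicator function -/
noncomputable def ind {E : Type*} (K : Set E) (x : E) : ℝ := if x ∈ K then 1 else 0

/-- one-dimensional lemma -/
theorem oneD {ι : Type*} (s : Finset ι) (α : ι → ℝ) (I : ι → Set ℝ)
    (hc : ∀ i ∈ s, IsCompact (I i)) (hv : ∀ i ∈ s, Convex ℝ (I i))
    (h : ∀ t : ℝ, ∑ i ∈ s, α i * ind (I i) t = 0) (e : ℝ) :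
    ∑ i ∈ s.filter (fun i => (I i).Nonempty ∧ sSup (I i) = e), α i = 0 := by
  -- description of the intervals
  have hI : ∀ i ∈ s, (I i).Nonempty → ∀ t, t ∈ I i ↔ sInf (I i) ≤ t ∧ t ≤ sSup (I i) := by
    intro i hi hne t
    constructor
    · intro ht
      exact ⟨csInf_le (hc i hi).bddBelow ht, le_csSup (hc i hi).bddAbove ht⟩
    · rintro ⟨h1, h2⟩
      exact (hv i hi).ordConnected.out ((hc i hi).sInf_mem hne) ((hc i hi).sSup_mem hne) ⟨h1, h2⟩
  -- a point slightly to the right of `e`
  obtain ⟨r, hr, hr2⟩ : ∃ r : ℝ, e < r ∧ ∀ i ∈ s, (sInf (I i) ≤ e ∨ r < sInf (I i)) ∧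
      (sSup (I i) ≤ e ∨ r < sSup (I i)) := by
    have h1 : ∀ x : ℝ, ∀ᶠ r in nhdsWithin e (Set.Ioi e), x ≤ e ∨ r < x := by
      intro x
      rcases le_or_gt x e with hx | hx
      · exact Filter.Eventually.of_forall (fun _ => Or.inl hx)
      · have h7 : ∀ᶠ r in nhds e, r < x := Iio_mem_nhds hx
        exact (h7.filter_mono nhdsWithin_le_nhds).mono (fun _ h => Or.inr h)
    have h2 : ∀ᶠ r in nhdsWithin e (Set.Ioi e), e < r := self_mem_nhdsWithin
    have h3 : ∀ᶠ r in nhdsWithin e (Set.Ioi e), ∀ i ∈ s, (sInf (I i) ≤ e ∨ r < sInf (I i)) ∧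
      (sSup (I i) ≤ e ∨ r < sSup (I i)) := by
      rw [Filter.eventually_all_finset]
      intro i _
      exact (h1 _).and (h1 _)
    obtain ⟨r, h4, h5⟩ := (h2.and h3).exists
    exact ⟨r, h4, h5⟩
  have key : ∑ i ∈ s.filter (fun i => (I i).Nonempty ∧ sSup (I i) = e), α i =
      ∑ i ∈ s, α i * ind (I i) e - ∑ i ∈ s, α i * ind (I i) r := by
    rw [Finset.sum_filter, ← Finset.sum_sub_distrib]
    apply Finset.sum_congr rfl
    intro i hi
    by_cases hne : (I i).Nonempty
    · have k1 := hI i hi hne e
      have k2 := hI i hi hne r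
      have k3 := hr2 i hi
      have k4 : sInf (I i) ≤ sSup (I i) := csInf_le_csSup hne (hc i hi).bddBelow (hc i hi).bddAbove
      unfold ind
      by_cases he : sSup (I i) = e
      · have m1 : e ∈ I i := k1.mpr ⟨by linarith, he.ge⟩
        have m2 : r ∉ I i := fun h => by
          have := (k2.mp h).2
          linarith
        simp [hne, he, m1, m2]
      · by_cases m1 : e ∈ I i
        · have m2 : r ∈ I i := by
            rw [k2]
            obtain ⟨a1, a2⟩ := k1.mp m1
            refine ⟨by linarith, ?_⟩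
            rcases k3.2 with h5 | h5
            · exact absurd (le_antisymm h5 a2) he
            · exact h5.le
          simp [he, m1, m2]
        · have m2 : r ∉ I i := by
            intro h5
            obtain ⟨a1, a2⟩ := k2.mp h5
            apply m1
            rw [k1]
            refine ⟨?_, by linarith⟩
            rcases k3.1 with h6 | h6
            · exact h6
            · linarith
          simp [he, m1, m2]
    · have hem : I i = ∅ := Set.not_nonempty_iff_eq_empty.mp hne
      simp [ind, hem]
  rw [key, h e, h r, sub_zero]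

/-- consequences of `oneD` for arbitrary functions of the right end point -/
theorem oneD' {ι : Type*} (s : Finset ι) (α : ι → ℝ) (I : ι → Set ℝ)
    (hc : ∀ i ∈ s, IsCompact (I i)) (hv : ∀ i ∈ s, Convex ℝ (I i))
    (h : ∀ t : ℝ, ∑ i ∈ s, α i * ind (I i) t = 0) (φ : ℝ → ℝ) :
    ∑ i ∈ s.filter (fun i => (I i).Nonempty), α i * φ (sSup (I i)) = 0 := by
  rw [← Finset.sum_fiberwise_of_maps_to (g := fun i => sSup (I i))
    (t := (s.filter (fun i => (I i).Nonempty)).image (fun i => sSup (I i)))
    (fun i hi => Finset.mem_image_of_mem _ hi)]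
  apply Finset.sum_eq_zero
  intro e _
  rw [Finset.filter_filter]
  have h1 := oneD s α I hc hv h e
  have h2 : ∑ i ∈ s.filter (fun i => (I i).Nonempty ∧ sSup (I i) = e), α i * φ (sSup (I i)) =
      (∑ i ∈ s.filter (fun i => (I i).Nonempty ∧ sSup (I i) = e), α i) * φ e := by
    rw [Finset.sum_mul]
    apply Finset.sum_congr rfl
    intro i hi
    rw [(Finset.mem_filter.mp hi).2.2]
  rw [h2, h1, zero_mul]

/-- the slice `{w : (t, w) ∈ K}` -/
def slice {n : ℕ} (K : Set (Fin (n + 1) → ℝ)) (t : ℝ) : Set (Fin n → ℝ) :=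
  Fin.tail '' (K ∩ {w | w 0 = t})

theorem mem_slice {n : ℕ} (K : Set (Fin (n + 1) → ℝ)) (t : ℝ) (w : Fin n → ℝ) :
    w ∈ slice K t ↔ (Fin.cons t w : Fin (n + 1) → ℝ) ∈ K := by
  unfold slice
  constructor
  · rintro ⟨v, ⟨h1, h2⟩, rfl⟩
    have : (Fin.cons t (Fin.tail v) : Fin (n + 1) → ℝ) = v := by
      have h3 : v 0 = t := h2
      rw [← h3]
      exact Fin.cons_self_tail v
    rw [this]; exact h1
  · intro h
    exact ⟨_, ⟨h, rfl⟩, rfl⟩

theorem continuous_tail (n : ℕ) : Continuous (Fin.tail : (Fin (n + 1) → ℝ) → (Fin n → ℝ)) :=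
  continuous_pi (fun i => continuous_apply i.succ)

theorem compact_slice {n : ℕ} (K : Set (Fin (n + 1) → ℝ)) (hK : IsCompact K) (t : ℝ) :
    IsCompact (slice K t) := by
  apply IsCompact.image _ (continuous_tail n)
  apply hK.inter_right
  exact isClosed_eq (continuous_apply 0) continuous_const

theorem convex_slice {n : ℕ} (K : Set (Fin (n + 1) → ℝ)) (hK : Convex ℝ K) (t : ℝ) :
    Convex ℝ (slice K t) := by
  intro x hx y hy a b ha hb hab
  rw [mem_slice] at *
  have := hK hx hy ha hb hab
  convert this using 1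
  funext i
  refine Fin.cases ?_ (fun j => ?_) i
  · simp only [Fin.cons_zero, Pi.add_apply, Pi.smul_apply, smul_eq_mul]
    rw [← add_mul, hab, one_mul]
  · simp only [Fin.cons_succ, Pi.add_apply, Pi.smul_apply, smul_eq_mul]

/-- **Hadwiger's lemma.** -/
theorem hadwiger {ι : Type*} (n : ℕ) : ∀ (s : Finset ι) (α : ι → ℝ) (K : ι → Set (Fin n → ℝ)),
    (∀ i ∈ s, IsCompact (K i)) → (∀ i ∈ s, Convex ℝ (K i)) →
    (∀ p : Fin n → ℝ, ∑ i ∈ s, α i * ind (K i) p = 0) →
    ∑ i ∈ s.filter (fun i => (K i).Nonempty), α i = 0 := by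
  induction n with
  | zero =>
    intro s α K _ _ h
    have h1 := h (fun i => i.elim0)
    rw [← h1, Finset.sum_filter]
    apply Finset.sum_congr rfl
    intro i _
    unfold ind
    by_cases hm : (fun i => i.elim0 : Fin 0 → ℝ) ∈ K i
    · have : (K i).Nonempty := ⟨_, hm⟩
      simp [hm, this]
    · have : ¬ (K i).Nonempty := by
        rintro ⟨p, hp⟩
        apply hm
        have h2 : (fun i => i.elim0 : Fin 0 → ℝ) = p := funext (fun i => i.elim0)
        rw [h2]
        exact hp
      simp [hm, this]
  | succ n ih =>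
    intro s α K hc hv h
    have hI : ∀ (i : ι) (t : ℝ), t ∈ (fun w : Fin (n + 1) → ℝ => w 0) '' (K i) ↔
        (slice (K i) t).Nonempty := by
      intro i t
      constructor
      · rintro ⟨w, hw, rfl⟩
        exact ⟨Fin.tail w, ⟨w, ⟨hw, rfl⟩, rfl⟩⟩
      · rintro ⟨_, ⟨w, ⟨hw, hw2⟩, rfl⟩⟩
        exact ⟨w, hw, hw2⟩
    have h0 : ∀ t : ℝ, ∑ i ∈ s, α i * ind ((fun w : Fin (n + 1) → ℝ => w 0) '' (K i)) t = 0 := by
      intro t
      have h1 := ih s α (fun i => slice (K i) t) (fun i hi => compact_slice _ (hc i hi) t)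
        (fun i hi => convex_slice _ (hv i hi) t) (by
          intro w
          rw [← h (Fin.cons t w)]
          apply Finset.sum_congr rfl
          intro i _
          unfold ind
          by_cases hm : (Fin.cons t w : Fin (n + 1) → ℝ) ∈ K i
          · have := (mem_slice (K i) t w).mpr hm
            simp [hm, this]
          · have : w ∉ slice (K i) t := fun h => hm ((mem_slice (K i) t w).mp h)
            simp [hm, this])
      rw [← h1, Finset.sum_filter]
      apply Finset.sum_congr rfl
      intro i _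
      unfold ind
      by_cases hm : t ∈ (fun w : Fin (n + 1) → ℝ => w 0) '' (K i)
      · have := (hI i t).mp hm
        simp only [hm, this, if_true, mul_one]
      · have : ¬ (slice (K i) t).Nonempty := fun h => hm ((hI i t).mpr h)
        simp only [hm, this, if_false, mul_zero]
    have h2 := oneD' s α (fun i => (fun w : Fin (n + 1) → ℝ => w 0) '' (K i))
      (fun i hi => (hc i hi).image (continuous_apply 0))
      (fun i hi => (hv i hi).is_linear_image
        (IsLinearMap.mk (fun _ _ => rfl) (fun _ _ => rfl))) h0 (fun _ => 1)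
    simp only [Set.image_nonempty, mul_one] at h2
    exact h2

/-- A linear relation between indicator functions of compact convex sets gives the same relation
between their support functions. -/
theorem support_relation {ι : Type*} (n : ℕ) (s : Finset ι) (α : ι → ℝ)
    (K : ι → Set (Fin n → ℝ)) (hc : ∀ i ∈ s, IsCompact (K i)) (hv : ∀ i ∈ s, Convex ℝ (K i))
    (h : ∀ p : Fin n → ℝ, ∑ i ∈ s, α i * ind (K i) p = 0) (u : (Fin n → ℝ) →L[ℝ] ℝ) :
    ∑ i ∈ s.filter (fun i => (K i).Nonempty), α i * sSup (u '' (K i)) = 0 := by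
  have h0 : ∀ t : ℝ, ∑ i ∈ s, α i * ind (u '' (K i)) t = 0 := by
    intro t
    have h1 := hadwiger n s α (fun i => K i ∩ {p | u p = t})
      (fun i hi => (hc i hi).inter_right (isClosed_eq u.continuous continuous_const))
      (fun i hi => (hv i hi).inter (convex_hyperplane u.toLinearMap.isLinear t)) (by
        intro p
        by_cases hp : u p = t
        · rw [← h p]
          apply Finset.sum_congr rfl
          intro i _
          unfold ind
          by_cases hm : p ∈ K i
          · have : p ∈ K i ∩ {p | u p = t} := ⟨hm, hp⟩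
            simp only [hm, this, if_true]
          · have : p ∉ K i ∩ {p | u p = t} := fun h => hm h.1
            simp only [hm, this, if_false]
        · apply Finset.sum_eq_zero
          intro i _
          have : p ∉ K i ∩ {p | u p = t} := fun h => hp h.2
          unfold ind
          simp only [this, if_false, mul_zero])
    rw [← h1, Finset.sum_filter]
    apply Finset.sum_congr rfl
    intro i _
    unfold ind
    have hiff : t ∈ u '' (K i) ↔ (K i ∩ {p | u p = t}).Nonempty := by
      constructor
      · rintro ⟨w, hw, hw2⟩; exact ⟨w, hw, hw2⟩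
      · rintro ⟨w, hw, hw2⟩; exact ⟨w, hw, hw2⟩
    by_cases hm : t ∈ u '' (K i)
    · have := hiff.mp hm
      simp only [hm, this, if_true, mul_one]
    · have : ¬ (K i ∩ {p | u p = t}).Nonempty := fun h => hm (hiff.mpr h)
      simp only [hm, this, if_false, mul_zero]
  have h2 := oneD' s α (fun i => u '' (K i)) (fun i hi => (hc i hi).image u.continuous)
    (fun i hi => (hv i hi).is_linear_image u.toLinearMap.isLinear) h0 (fun x => x)
  simp only [Set.image_nonempty] at h2
  exact h2

end Pool.Agent.R135.Hadwiger
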