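import Mathlib

/-!
# The mirror Markov tree
-/

set_option autoImplicit false
open Polynomial LaurentPolynomial

namespace Pool.Agent.R135.MirrorMarkov

/-- The mirror image `x̃(q) = q^{deg x} x(q⁻¹)` (Mathlib's `Polynomial.reverse`). -/
noncomputable def mirrorIm (x : ℤ[X]) : ℤ[X] := x.reverse

/-- The symmetrization `X(q) = x(q) x(q⁻¹)`, a Laurent polynomial (`LaurentPolynomial.invert` is
`q ↦ q⁻¹`). -/
noncomputable def symm (x : ℤ[X]) : ℤ[T;T⁻¹] := toLaurent x * invert (toLaurent x)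

/-- A triple of polynomials. -/
structure Triple where
  a : ℤ[X]
  b : ℤ[X]
  c : ℤ[X]

/-- `t'` is the right mutation of `t` with sign `s`:
`t' = (b, c, q^{deg c} (q^s B + C) / ã)`, an exact division. -/
def IsRightMut (s : ℤ) (t t' : Triple) : Prop :=
  t'.a = t.b ∧ t'.b = t.c ∧
    toLaurent t'.c * toLaurent (mirrorIm t.a) =
      T (t.c.natDegree : ℤ) * (T s * symm t.b + symm t.c)

/-- `t'` is the left mutation of `t` with sign `s`:
`t' = (a, c, q^{deg c} (q^s A + C) / b̃)`, an exact division. -/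
def IsLeftMut (s : ℤ) (t t' : Triple) : Prop :=
  t'.a = t.a ∧ t'.b = t.c ∧
    toLaurent t'.c * toLaurent (mirrorIm t.b) =
      T (t.c.natDegree : ℤ) * (T s * symm t.a + symm t.c)

/-- The triple `t₀ = (1, 1+q, 1+2q+2q²)`. -/
noncomputable def t0 : Triple := ⟨1, 1 + X, 1 + 2 * X + 2 * X ^ 2⟩

/-- Directions. -/
inductive Dir : Type
  | left : Dir
  | right : Dir
  deriving DecidableEq

/-- `Below w t ε`: the vertex reached from `t₀` by following the list `w` of directions is `t`, and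
its entering edge has sign `ε`. -/
inductive Below : List Dir → Triple → ℤ → Prop
  | root : Below [] t0 1
  | left {w : List Dir} {t t' : Triple} {ε : ℤ} :
      Below w t ε → IsLeftMut ε t t' → Below (w ++ [Dir.left]) t' ε
  | right {w : List Dir} {t t' : Triple} {ε : ℤ} :
      Below w t ε → IsRightMut (-ε) t t' → Below (w ++ [Dir.right]) t' (-ε)

/-- The positions in the mirror Markov tree: the two top vertices, and one position for every list
of directions followed from `t₀`. -/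
inductive Node : Type
  | top0 : Node
  | top1 : Node
  | below : List Dir → Node

/-- `At v t`: the vertex of the mirror Markov tree at the position `v` is the triple `t`. -/
def At : Node → Triple → Prop
  | Node.top0, t => t = ⟨1, 1, 1⟩
  | Node.top1, t => t = ⟨1, 1, 1 + X⟩
  | Node.below w, t => ∃ ε : ℤ, Below w t ε

/-! ## Polynomial form of the mutations -/

/-- `x x̃` -/
noncomputable def S (x : ℤ[X]) : ℤ[X] := x * mirrorIm x

theorem toLaurent_S (x : ℤ[X]) : toLaurent (S x) = symm x * T (x.natDegree : ℤ) := by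
  rw [S, map_mul, mirrorIm, toLaurent_reverse, symm, mul_assoc]

theorem mut_iff (s : ℤ) (x c y d : ℤ[X]) (e : ℕ)
    (he : (e : ℤ) = (c.natDegree : ℤ) - x.natDegree + s) :
    toLaurent d * toLaurent (mirrorIm y) = T (c.natDegree : ℤ) * (T s * symm x + symm c) ↔
      d * mirrorIm y = X ^ e * S x + S c := by
  have h : toLaurent (X ^ e * S x + S c) = T (c.natDegree : ℤ) * (T s * symm x + symm c) := by
    rw [map_add, map_mul, toLaurent_S, toLaurent_S, toLaurent_X_pow, he, mul_add, T_add, T_sub]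
    have h1 : (T (x.natDegree : ℤ) * T (-(x.natDegree : ℤ)) : ℤ[T;T⁻¹]) = 1 := by
      rw [← T_add, add_neg_cancel, T_zero]
    linear_combination (T (c.natDegree : ℤ) * T s * symm x) * h1
  rw [← h, ← map_mul]
  exact Polynomial.toLaurent_injective.eq_iff

/-! ## Mirror images -/

theorem natDegree_mirror (x : ℤ[X]) (h : x.coeff 0 ≠ 0) : (mirrorIm x).natDegree = x.natDegree := by
  rw [mirrorIm, reverse_natDegree, natTrailingDegree_eq_zero_of_constantCoeff_ne_zero h, Nat.sub_zero]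

theorem mirror_mirror (x : ℤ[X]) (h : x.coeff 0 ≠ 0) : mirrorIm (mirrorIm x) = x := by
  have h1 : mirrorIm (mirrorIm x) = reflect (mirrorIm x).natDegree (mirrorIm x) := rfl
  rw [h1, natDegree_mirror x h]
  exact reflect_reflect

theorem coeff_zero_mirror (x : ℤ[X]) : (mirrorIm x).coeff 0 = x.leadingCoeff :=
  coeff_zero_reverse x

theorem leadingCoeff_mirror (x : ℤ[X]) (h : x.coeff 0 ≠ 0) :
    (mirrorIm x).leadingCoeff = x.coeff 0 := by
  rw [mirrorIm, reverse_leadingCoeff, trailingCoeff,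
    natTrailingDegree_eq_zero_of_constantCoeff_ne_zero h]

theorem mirror_mul (x y : ℤ[X]) : mirrorIm (x * y) = mirrorIm x * mirrorIm y :=
  reverse_mul_of_domain x y

theorem natDegree_S (x : ℤ[X]) (h : x.coeff 0 ≠ 0) : (S x).natDegree = 2 * x.natDegree := by
  have hx : x ≠ 0 := by rintro rfl; simp at h
  have hm : mirrorIm x ≠ 0 := by
    intro h0
    have := coeff_zero_mirror x
    rw [h0, coeff_zero] at this
    exact hx (leadingCoeff_eq_zero.mp this.symm)
  rw [S, natDegree_mul hx hm, natDegree_mirror x h]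
  ring

theorem coeff_zero_S (x : ℤ[X]) : (S x).coeff 0 = x.coeff 0 * x.leadingCoeff := by
  rw [S, mul_coeff_zero, coeff_zero_mirror]

theorem leadingCoeff_S (x : ℤ[X]) (h : x.coeff 0 ≠ 0) :
    (S x).leadingCoeff = x.leadingCoeff * x.coeff 0 := by
  rw [S, leadingCoeff_mul, leadingCoeff_mirror x h]

theorem reflect_S (x : ℤ[X]) (h : x.coeff 0 ≠ 0) : reflect (2 * x.natDegree) (S x) = S x := by
  have e : 2 * x.natDegree = x.natDegree + x.natDegree := by ring
  rw [e, S, reflect_mul x (mirrorIm x) le_rfl (natDegree_mirror x h).le]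
  have h1 : reflect x.natDegree x = mirrorIm x := rfl
  have h2 : reflect x.natDegree (mirrorIm x) = x := by
    have : reflect x.natDegree (reflect x.natDegree x) = x := reflect_reflect
    exact this
  rw [h1, h2, mul_comm]

/-! ## One mutation -/

/-- data of one mutation: `x` is kept, `y` is replaced by `d`, `c` is the old maximum -/
structure Mut (x y c d : ℤ[X]) (s : ℤ) (e : ℕ) : Prop where
  hs : s = 1 ∨ s = -1
  hy : s = 1 → 1 ≤ y.natDegree
  x0 : 0 < x.coeff 0
  xl : 0 < x.leadingCoeff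
  y0 : 0 < y.coeff 0
  yl : 0 < y.leadingCoeff
  c0 : 0 < c.coeff 0
  cl : 0 < c.leadingCoeff
  deg : c.natDegree = x.natDegree + y.natDegree + 1
  he : (e : ℤ) = (c.natDegree : ℤ) - x.natDegree + s
  eq : d * mirrorIm y = X ^ e * S x + S c

namespace Mut

variable {x y c d : ℤ[X]} {s : ℤ} {e : ℕ}

theorem e_add (h : Mut x y c d s e) : ∃ e' : ℕ, (e' : ℤ) = (c.natDegree : ℤ) - x.natDegree - s ∧
    e + e' = 2 * (c.natDegree - x.natDegree) := by
  have h1 := h.he
  have h2 := h.deg
  refine ⟨2 * (c.natDegree - x.natDegree) - e, ?_, ?_⟩ <;> rcases h.hs with h3 | h3 <;> omega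

theorem natDegree_Sx (h : Mut x y c d s e) : (X ^ e * S x).natDegree < (S c).natDegree := by
  have hS : S x ≠ 0 := by
    intro h0
    have := coeff_zero_S x
    rw [h0, coeff_zero] at this
    have h1 := mul_pos h.x0 h.xl
    omega
  rw [natDegree_mul (pow_ne_zero _ X_ne_zero) hS, natDegree_X_pow, natDegree_S x h.x0.ne',
    natDegree_S c h.c0.ne']
  have h1 := h.he
  have h2 := h.deg
  rcases h.hs with h3 | h3
  · have := h.hy h3
    omega
  · omega

theorem ne_zero (h : Mut x y c d s e) : d ≠ 0 := by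
  rintro rfl
  have h1 := h.eq
  rw [zero_mul] at h1
  have h2 := natDegree_add_eq_right_of_natDegree_lt h.natDegree_Sx
  rw [← h1] at h2
  have h3 := h.natDegree_Sx
  rw [← h2] at h3
  simp at h3

theorem y_ne (h : Mut x y c d s e) : y ≠ 0 := by
  rintro rfl
  have := h.y0
  simp at this

theorem my_ne (h : Mut x y c d s e) : mirrorIm y ≠ 0 := by
  intro h0
  have := coeff_zero_mirror y
  rw [h0, coeff_zero] at this
  exact absurd this h.yl.ne

theorem natDegree_d (h : Mut x y c d s e) : d.natDegree + y.natDegree = 2 * c.natDegree := by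
  have h1 := congrArg natDegree h.eq
  rw [natDegree_mul h.ne_zero h.my_ne, natDegree_mirror y h.y0.ne',
    natDegree_add_eq_right_of_natDegree_lt h.natDegree_Sx, natDegree_S c h.c0.ne'] at h1
  exact h1

theorem lead_d (h : Mut x y c d s e) :
    d.leadingCoeff * y.coeff 0 = c.leadingCoeff * c.coeff 0 := by
  have h1 := congrArg leadingCoeff h.eq
  rw [leadingCoeff_mul, leadingCoeff_mirror y h.y0.ne',
    leadingCoeff_add_of_degree_lt (degree_lt_degree h.natDegree_Sx), leadingCoeff_S c h.c0.ne'] at h1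
  exact h1

theorem coeff_d (h : Mut x y c d s e) (he : 1 ≤ e) :
    d.coeff 0 * y.leadingCoeff = c.coeff 0 * c.leadingCoeff := by
  have h1 := congrArg (fun p : ℤ[X] => p.coeff 0) h.eq
  simp only [mul_coeff_zero, coeff_add, coeff_zero_mirror, coeff_zero_S] at h1
  rw [coeff_X_pow, if_neg (by omega), zero_mul, zero_add] at h1
  exact h1

theorem coeff_d' (h : Mut x y c d s e) (he : e = 0) :
    d.coeff 0 * y.leadingCoeff =
      x.coeff 0 * x.leadingCoeff + c.coeff 0 * c.leadingCoeff := by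
  have h1 := congrArg (fun p : ℤ[X] => p.coeff 0) h.eq
  simp only [mul_coeff_zero, coeff_add, coeff_zero_mirror, coeff_zero_S] at h1
  rw [he, pow_zero, coeff_one_zero, one_mul] at h1
  exact h1

theorem d0_pos (h : Mut x y c d s e) : 0 < d.coeff 0 := by
  have h2 := mul_pos h.c0 h.cl
  have h3 := mul_pos h.x0 h.xl
  have h5 : 0 < d.coeff 0 * y.leadingCoeff := by
    rcases Nat.eq_zero_or_pos e with he | he
    · rw [h.coeff_d' he]; linarith
    · rw [h.coeff_d he]; exact h2
  exact pos_of_mul_pos_left h5 h.yl.le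

theorem dl_pos (h : Mut x y c d s e) : 0 < d.leadingCoeff := by
  have h2 := mul_pos h.cl h.c0
  have h5 : 0 < d.leadingCoeff * y.coeff 0 := by rw [h.lead_d]; exact h2
  exact pos_of_mul_pos_left h5 h.y0.le

/-- the mirrored equation -/
theorem eq' (h : Mut x y c d s e) (e' : ℕ)
    (he' : (e' : ℤ) = (c.natDegree : ℤ) - x.natDegree - s) :
    mirrorIm d * y = X ^ e' * S x + S c := by
  have h1 := congrArg mirrorIm h.eq
  rw [mirror_mul, mirror_mirror y h.y0.ne'] at h1
  rw [h1]
  have h2 : mirrorIm (X ^ e * S x + S c) = reflect (2 * c.natDegree) (X ^ e * S x + S c) := by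
    have : mirrorIm (X ^ e * S x + S c) =
      reflect (X ^ e * S x + S c).natDegree (X ^ e * S x + S c) := rfl
    rw [this, natDegree_add_eq_right_of_natDegree_lt h.natDegree_Sx, natDegree_S c h.c0.ne']
  have h3 := h.he
  have h4 := h.deg
  have h5 : e ≤ 2 * (c.natDegree - x.natDegree) := by rcases h.hs with h6 | h6 <;> omega
  have h7 : 2 * c.natDegree = 2 * (c.natDegree - x.natDegree) + 2 * x.natDegree := by omega
  rw [h2, reflect_add, reflect_S c h.c0.ne']
  congr 1
  rw [h7, reflect_mul (X ^ e) (S x) (by rw [natDegree_X_pow]; exact h5)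
    (natDegree_S x h.x0.ne').le, reflect_S x h.x0.ne', reflect_monomial, revAt_le h5]
  congr 2
  rcases h.hs with h6 | h6 <;> omega

end Mut

theorem isRelPrime_X_pow (f : ℤ[X]) (h : f.coeff 0 ≠ 0) (n : ℕ) : IsRelPrime f (X ^ n) := by
  intro p hp1 hp2
  rw [dvd_prime_pow Polynomial.prime_X] at hp2
  obtain ⟨i, _, hi⟩ := hp2
  rcases Nat.eq_zero_or_pos i with h0 | h0
  · subst h0
    rw [pow_zero] at hi
    exact associated_one_iff_isUnit.mp hi
  · exfalso
    apply h
    have h1 : (X : ℤ[X]) ∣ p := by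
      have : (X : ℤ[X]) ∣ X ^ i := dvd_pow_self X (by omega)
      exact this.trans hi.symm.dvd
    exact X_dvd_iff.mp (h1.trans hp1)

/-- The divisibility relations for the new triple. -/
theorem step {x y c d : ℤ[X]} {s : ℤ} {e : ℕ} (h : Mut x y c d s e)
    (J2 : ∀ k : ℕ, (k : ℤ) = (c.natDegree : ℤ) - y.natDegree - s → mirrorIm x ∣ X ^ k * S y + S c)
    (J3 : ∃ i j : ℕ, (i : ℤ) - j = (y.natDegree : ℤ) - x.natDegree - s ∧
      mirrorIm c ∣ X ^ i * S x + X ^ j * S y)
    (P1 : IsRelPrime (S x) (S y)) (P2 : IsRelPrime (S x) (S c)) (P3 : IsRelPrime (S y) (S c)) :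
    (∀ k : ℕ, (k : ℤ) = (d.natDegree : ℤ) - x.natDegree + s → mirrorIm c ∣ X ^ k * S x + S d) ∧
    (∀ k : ℕ, (k : ℤ) = (d.natDegree : ℤ) - c.natDegree - s → mirrorIm x ∣ X ^ k * S c + S d) ∧
    (∀ k : ℕ, (k : ℤ) = (c.natDegree : ℤ) - x.natDegree - s → mirrorIm d ∣ X ^ k * S x + S c) ∧
    IsRelPrime (S x) (S d) ∧ IsRelPrime (S c) (S d) := by
  obtain ⟨e', he', hee'⟩ := h.e_add
  have hE := h.eq
  have hE' := h.eq' e' he'
  have hdeg := h.natDegree_d
  have hc := h.deg
  have hprod : S d * S y = (X ^ e * S x + S c) * (X ^ e' * S x + S c) := by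
    rw [← hE, ← hE', S, S]; ring
  have hc0 : (mirrorIm c).coeff 0 ≠ 0 := by rw [coeff_zero_mirror]; exact h.cl.ne'
  have hmc : mirrorIm c ∣ S c := Dvd.intro_left c rfl
  have hmx : mirrorIm x ∣ S x := Dvd.intro_left x rfl
  refine ⟨?_, ?_, ?_, ?_, ?_⟩
  · intro k hk
    obtain ⟨i, j, hij, h3⟩ := J3
    -- multiply by `X^j S y`
    have hrel : IsRelPrime (mirrorIm c) (X ^ j * S y) :=
      (isRelPrime_X_pow _ hc0 j).mul_right (P3.symm.of_dvd_left hmc)
    apply hrel.dvd_of_dvd_mul_left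
    have hexp : k + i = j + (e + e') := by
      rw [hee']
      rcases h.hs with h6 | h6 <;> omega
    have key : X ^ j * S y * (X ^ k * S x + S d) =
        X ^ k * S x * (X ^ i * S x + X ^ j * S y) +
        (X ^ j * (X ^ e + X ^ e') * S x + X ^ j * S c) * S c := by
      have h1 : X ^ k * S x * (X ^ i * S x) = X ^ j * (X ^ e * X ^ e') * (S x * S x) := by
        have : (X : ℤ[X]) ^ k * X ^ i = X ^ j * (X ^ e * X ^ e') := by
          rw [← pow_add, ← pow_add, ← pow_add, hexp]
        linear_combination (S x * S x) * this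
      linear_combination X ^ j * hprod - h1
    rw [key]
    exact dvd_add (Dvd.dvd.mul_left h3 _) (Dvd.dvd.mul_left hmc _)
  · intro k hk
    have hk' : (k : ℤ) = (c.natDegree : ℤ) - y.natDegree - s := by omega
    have h2 := J2 k hk'
    have hrel : IsRelPrime (mirrorIm x) (S y) := P1.of_dvd_left hmx
    apply hrel.dvd_of_dvd_mul_left
    have key : S y * (X ^ k * S c + S d) = S c * (X ^ k * S y + S c) +
        (X ^ e * X ^ e' * S x + (X ^ e + X ^ e') * S c) * S x := by
      linear_combination hprod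
    rw [key]
    exact dvd_add (Dvd.dvd.mul_left h2 _) (Dvd.dvd.mul_left hmx _)
  · intro k hk
    have : k = e' := by omega
    subst this
    rw [← hE']
    exact Dvd.intro _ rfl
  · have h1 : IsRelPrime (S x) d := by
      intro p hp1 hp2
      apply P2 hp1
      have h3 : p ∣ X ^ e * S x + S c := by rw [← hE]; exact hp2.mul_right _
      exact (dvd_add_right (hp1.mul_left _)).mp h3
    have h2 : IsRelPrime (S x) (mirrorIm d) := by
      intro p hp1 hp2
      apply P2 hp1
      have h3 : p ∣ X ^ e' * S x + S c := by rw [← hE']; exact hp2.mul_right _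
      exact (dvd_add_right (hp1.mul_left _)).mp h3
    exact h1.mul_right h2
  · have hSc0 : (S c).coeff 0 ≠ 0 := by
      rw [coeff_zero_S]; exact (mul_pos h.c0 h.cl).ne'
    have h1 : IsRelPrime (S c) d := by
      intro p hp1 hp2
      have h3 : p ∣ X ^ e * S x + S c := by rw [← hE]; exact hp2.mul_right _
      have h4 : p ∣ X ^ e * S x := (dvd_add_left hp1).mp h3
      exact ((isRelPrime_X_pow _ hSc0 e).mul_right P2.symm) hp1 h4
    have h2 : IsRelPrime (S c) (mirrorIm d) := by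
      intro p hp1 hp2
      have h3 : p ∣ X ^ e' * S x + S c := by rw [← hE']; exact hp2.mul_right _
      have h4 : p ∣ X ^ e' * S x := (dvd_add_left hp1).mp h3
      exact ((isRelPrime_X_pow _ hSc0 e').mul_right P2.symm) hp1 h4
    exact h1.mul_right h2

/-! ## Invariants along the tree -/

/-- invariants of a vertex `(a, b, c)` whose entering edge has sign `ε` -/
structure Inv (t : Triple) (ε : ℤ) : Prop where
  hε : ε = 1 ∨ ε = -1
  ha : ε = -1 → 1 ≤ t.a.natDegree
  ab : t.a.natDegree < t.b.natDegree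
  deg : t.c.natDegree = t.a.natDegree + t.b.natDegree + 1
  a0 : 0 < t.a.coeff 0
  al : 0 < t.a.leadingCoeff
  b0 : 0 < t.b.coeff 0
  bl : 0 < t.b.leadingCoeff
  c0 : 0 < t.c.coeff 0
  cl : 0 < t.c.leadingCoeff
  I1 : ∀ k : ℕ, (k : ℤ) = (t.c.natDegree : ℤ) - t.a.natDegree + ε →
    mirrorIm t.b ∣ X ^ k * S t.a + S t.c
  I2 : ∀ k : ℕ, (k : ℤ) = (t.c.natDegree : ℤ) - t.b.natDegree - ε →
    mirrorIm t.a ∣ X ^ k * S t.b + S t.c
  I3 : ∀ k : ℕ, (k : ℤ) = (t.b.natDegree : ℤ) - t.a.natDegree - ε →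
    mirrorIm t.c ∣ X ^ k * S t.a + S t.b
  P1 : IsRelPrime (S t.a) (S t.b)
  P2 : IsRelPrime (S t.a) (S t.c)
  P3 : IsRelPrime (S t.b) (S t.c)

/-- data of a left mutation -/
theorem Inv.leftMut {t : Triple} {ε : ℤ} (h : Inv t ε) (d : ℤ[X]) (e : ℕ)
    (he : (e : ℤ) = (t.c.natDegree : ℤ) - t.a.natDegree + ε)
    (hd : d * mirrorIm t.b = X ^ e * S t.a + S t.c) : Mut t.a t.b t.c d ε e where
  hs := h.hε
  hy _ := by have := h.ab; omega
  x0 := h.a0
  xl := h.al
  y0 := h.b0
  yl := h.bl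
  c0 := h.c0
  cl := h.cl
  deg := h.deg
  he := he
  eq := hd

/-- data of a right mutation -/
theorem Inv.rightMut {t : Triple} {ε : ℤ} (h : Inv t ε) (d : ℤ[X]) (e : ℕ)
    (he : (e : ℤ) = (t.c.natDegree : ℤ) - t.b.natDegree + -ε)
    (hd : d * mirrorIm t.a = X ^ e * S t.b + S t.c) : Mut t.b t.a t.c d (-ε) e where
  hs := by rcases h.hε with h | h <;> simp [h]
  hy h1 := h.ha (by omega)
  x0 := h.b0
  xl := h.bl
  y0 := h.a0
  yl := h.al
  c0 := h.c0
  cl := h.cl
  deg := by rw [h.deg]; ring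
  he := he
  eq := hd

theorem Inv.left {t : Triple} {ε : ℤ} (h : Inv t ε) (d : ℤ[X]) (e : ℕ)
    (he : (e : ℤ) = (t.c.natDegree : ℤ) - t.a.natDegree + ε)
    (hd : d * mirrorIm t.b = X ^ e * S t.a + S t.c) : Inv ⟨t.a, t.c, d⟩ ε := by
  have hm := h.leftMut d e he hd
  obtain ⟨K1, K2, K3, K4, K5⟩ := step hm
    (fun k hk => h.I2 k hk)
    (by
      have h1 := h.ab
      refine ⟨((t.b.natDegree : ℤ) - t.a.natDegree - ε).toNat, 0, ?_, ?_⟩
      · rcases h.hε with h2 | h2 <;> omega
      · rw [pow_zero, one_mul]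
        apply h.I3
        rcases h.hε with h2 | h2 <;> omega)
    h.P1 h.P2 h.P3
  have h1 := hm.natDegree_d
  have h2 := h.deg
  have h3 := h.ab
  exact
    { hε := h.hε
      ha := h.ha
      ab := by simp only; omega
      deg := by simp only; omega
      a0 := h.a0
      al := h.al
      b0 := h.c0
      bl := h.cl
      c0 := hm.d0_pos
      cl := hm.dl_pos
      I1 := K1
      I2 := K2
      I3 := K3
      P1 := h.P2
      P2 := K4
      P3 := K5 }

theorem Inv.right {t : Triple} {ε : ℤ} (h : Inv t ε) (d : ℤ[X]) (e : ℕ)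
    (he : (e : ℤ) = (t.c.natDegree : ℤ) - t.b.natDegree + -ε)
    (hd : d * mirrorIm t.a = X ^ e * S t.b + S t.c) : Inv ⟨t.b, t.c, d⟩ (-ε) := by
  have hm := h.rightMut d e he hd
  obtain ⟨K1, K2, K3, K4, K5⟩ := step hm
    (fun k hk => h.I1 k (by rw [hk]; ring))
    (by
      have h1 := h.ab
      refine ⟨0, ((t.b.natDegree : ℤ) - t.a.natDegree - ε).toNat, ?_, ?_⟩
      · rcases h.hε with h2 | h2 <;> omega
      · rw [pow_zero, one_mul, add_comm]
        apply h.I3
        rcases h.hε with h2 | h2 <;> omega)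
    h.P1.symm h.P3 h.P2
  have h1 := hm.natDegree_d
  have h2 := h.deg
  have h3 := h.ab
  exact
    { hε := hm.hs
      ha := fun _ => by simp only; omega
      ab := by simp only; omega
      deg := by simp only; omega
      a0 := h.b0
      al := h.bl
      b0 := h.c0
      bl := h.cl
      c0 := hm.d0_pos
      cl := hm.dl_pos
      I1 := K1
      I2 := K2
      I3 := K3
      P1 := h.P3
      P2 := K4
      P3 := K5 }

/-! ## The root -/

theorem t0b_natDegree : (1 + X : ℤ[X]).natDegree = 1 := by compute_degree!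

theorem t0c_natDegree : (1 + 2 * X + 2 * X ^ 2 : ℤ[X]).natDegree = 2 := by compute_degree!

theorem mirror_one : mirrorIm (1 : ℤ[X]) = 1 := by
  rw [mirrorIm]
  have : (1 : ℤ[X]) = Polynomial.C 1 := by simp
  rw [this, reverse_C]

theorem mirror_t0b : mirrorIm (1 + X : ℤ[X]) = 1 + X := by
  have h1 : mirrorIm (1 + X : ℤ[X]) = reflect 1 (1 + X) := by
    rw [mirrorIm, reverse, t0b_natDegree]
  rw [h1, reflect_add, reflect_one, reflect_one_X]
  ring

theorem mirror_t0c : mirrorIm (1 + 2 * X + 2 * X ^ 2 : ℤ[X]) = 2 + 2 * X + X ^ 2 := by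
  have h1 : mirrorIm (1 + 2 * X + 2 * X ^ 2 : ℤ[X]) = reflect 2 (1 + 2 * X + 2 * X ^ 2) := by
    rw [mirrorIm, reverse, t0c_natDegree]
  have h2 : (2 * X : ℤ[X]) = Polynomial.C 2 * X ^ 1 := by simp
  have h3 : (2 * X ^ 2 : ℤ[X]) = Polynomial.C 2 * X ^ 2 := by simp
  rw [h1, reflect_add, reflect_add, reflect_one, h2, h3, reflect_C_mul_X_pow, reflect_C_mul_X_pow,
    revAt_le (by norm_num : (1 : ℕ) ≤ 2), revAt_le (le_refl 2)]
  simp
  ring

theorem coeffs_t0 : (1 + X : ℤ[X]).coeff 0 = 1 ∧ (1 + X : ℤ[X]).leadingCoeff = 1 ∧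
    (1 + 2 * X + 2 * X ^ 2 : ℤ[X]).coeff 0 = 1 ∧
    (1 + 2 * X + 2 * X ^ 2 : ℤ[X]).leadingCoeff = 2 := by
  refine ⟨by simp, ?_, ?_, ?_⟩
  · rw [leadingCoeff, t0b_natDegree]
    simp [coeff_one]
  · rw [coeff_zero_eq_eval_zero]; simp
  · have h2 : (1 + 2 * X + 2 * X ^ 2 : ℤ[X]) = Polynomial.C 1 + Polynomial.C 2 * X ^ 1 +
      Polynomial.C 2 * X ^ 2 := by simp
    rw [leadingCoeff, t0c_natDegree, h2]
    simp only [Polynomial.coeff_add, Polynomial.coeff_C_mul, Polynomial.coeff_X_pow,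
      Polynomial.coeff_C]
    norm_num

theorem inv_t0 : Inv t0 1 := by
  obtain ⟨k1, k2, k3, k4⟩ := coeffs_t0
  have hSa : S (1 : ℤ[X]) = 1 := by rw [S, mirror_one, one_mul]
  have hSb : S (1 + X : ℤ[X]) = (1 + X) ^ 2 := by rw [S, mirror_t0b]; ring
  have hSc : S (1 + 2 * X + 2 * X ^ 2 : ℤ[X]) = (1 + 2 * X + 2 * X ^ 2) * (2 + 2 * X + X ^ 2) := by
    rw [S, mirror_t0c]
  refine
    { hε := Or.inl rfl
      ha := by intro h; norm_num at h
      ab := ?_, deg := ?_, a0 := ?_, al := ?_, b0 := ?_, bl := ?_, c0 := ?_, cl := ?_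
      I1 := ?_, I2 := ?_, I3 := ?_, P1 := ?_, P2 := ?_, P3 := ?_ }
  · simp only [t0]; rw [t0b_natDegree, natDegree_one]; norm_num
  · simp only [t0]; rw [t0b_natDegree, t0c_natDegree, natDegree_one]
  · simp [t0]
  · simp [t0]
  · simp only [t0]; rw [k1]; norm_num
  · simp only [t0]; rw [k2]; norm_num
  · simp only [t0]; rw [k3]; norm_num
  · simp only [t0]; rw [k4]; norm_num
  · intro k hk
    simp only [t0] at hk ⊢
    rw [t0c_natDegree, natDegree_one] at hk
    have : k = 3 := by omega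
    subst this
    rw [mirror_t0b, hSa, hSc]
    exact ⟨2 + 4 * X + 5 * X ^ 2 + 2 * X ^ 3, by ring⟩
  · intro k _
    simp only [t0]
    rw [mirror_one]
    exact one_dvd _
  · intro k hk
    simp only [t0] at hk ⊢
    rw [t0b_natDegree, natDegree_one] at hk
    have : k = 0 := by omega
    subst this
    rw [mirror_t0c, hSa, hSb]
    exact ⟨1, by ring⟩
  · simp only [t0]; rw [hSa]; exact isRelPrime_one_left
  · simp only [t0]; rw [hSa]; exact isRelPrime_one_left
  · simp only [t0]; rw [hSb, hSc]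
    have h1 : IsCoprime ((1 + X : ℤ[X]) ^ 2) ((X : ℤ[X]) ^ 2) := by
      apply IsCoprime.pow
      refine ⟨1, -1, ?_⟩
      ring
    have h2 : IsCoprime ((1 + X : ℤ[X]) ^ 2) (1 + 2 * X + 2 * X ^ 2 : ℤ[X]) := by
      obtain ⟨u, v, huv⟩ := h1
      refine ⟨u - v, v, ?_⟩
      linear_combination huv
    have h3 : IsCoprime ((1 + X : ℤ[X]) ^ 2) (2 + 2 * X + X ^ 2 : ℤ[X]) := by
      refine ⟨-1, 1, ?_⟩
      ring
    exact (h2.mul_right h3).isRelPrime

end Pool.Agent.R135.MirrorMarkov
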