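import Mathlib
import Pool.Agent.R135.OrderPoly

/-!
# Order polytopes and lattice polytopes of two fewer dimensions: combinatorial part
-/

set_option autoImplicit false
open scoped Pointwise Classical

namespace Pool.Agent.R135.OPDim

open Pool.Agent.R135.OrderPoly

/-! ## Counting order preserving maps by their range -/

section Counting

variable (Q : Type) [Fintype Q] [PartialOrder Q]

/-- order preserving maps to `{0, …, n}` -/
abbrev OmT (n : ℕ) : Type := {f : Q → ℕ // Monotone f ∧ ∀ p, f p ≤ n}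
/-- ... with minimum `0` -/
abbrev E1T (n : ℕ) : Type := {f : Q → ℕ // Monotone f ∧ (∀ p, f p ≤ n) ∧ ∃ a, f a = 0}
/-- ... with minimum `0` and maximum `n` -/
abbrev EET (n : ℕ) : Type :=
  {f : Q → ℕ // Monotone f ∧ (∀ p, f p ≤ n) ∧ (∃ a, f a = 0) ∧ ∃ b, f b = n}

instance OmT_finite (n : ℕ) : Finite (OmT Q n) := by
  refine Finite.of_injective (β := Q → Fin (n + 1))
    (fun f p => ⟨f.1 p, Nat.lt_succ_of_le (f.2.2 p)⟩) ?_
  intro f g h
  apply Subtype.ext
  funext p
  have := congrFun h p
  simpa using this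

instance E1T_finite (n : ℕ) : Finite (E1T Q n) := by
  refine Finite.of_injective (β := OmT Q n) (fun f => ⟨f.1, f.2.1, f.2.2.1⟩) ?_
  intro f g h
  apply Subtype.ext
  have := congrArg Subtype.val h
  exact this

instance EET_finite (n : ℕ) : Finite (EET Q n) := by
  refine Finite.of_injective (β := OmT Q n) (fun f => ⟨f.1, f.2.1, f.2.2.1⟩) ?_
  intro f g h
  apply Subtype.ext
  have := congrArg Subtype.val h
  exact this

noncomputable def om (n : ℕ) : ℕ := Nat.card (OmT Q n)
noncomputable def e1 (n : ℕ) : ℕ := Nat.card (E1T Q n)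
noncomputable def ee (n : ℕ) : ℕ := Nat.card (EET Q n)

omit [Fintype Q] in
lemma om_zero : om Q 0 = 1 := by
  unfold om
  rw [Nat.card_eq_one_iff_unique]
  constructor
  · constructor
    intro f g
    apply Subtype.ext
    funext p
    have h1 := f.2.2 p
    have h2 := g.2.2 p
    omega
  · exact ⟨⟨fun _ => 0, fun _ _ _ => le_refl _, fun _ => le_refl _⟩⟩

omit [Fintype Q] in
lemma e1_zero [Nonempty Q] : e1 Q 0 = 1 := by
  obtain ⟨q⟩ := (inferInstance : Nonempty Q)
  unfold e1
  rw [Nat.card_eq_one_iff_unique]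
  constructor
  · constructor
    intro f g
    apply Subtype.ext
    funext p
    have h1 := f.2.2.1 p
    have h2 := g.2.2.1 p
    omega
  · exact ⟨⟨fun _ => 0, fun _ _ _ => le_refl _, fun _ => le_refl _, q, rfl⟩⟩

omit [Fintype Q] in
lemma ee_zero [Nonempty Q] : ee Q 0 = 1 := by
  obtain ⟨q⟩ := (inferInstance : Nonempty Q)
  unfold ee
  rw [Nat.card_eq_one_iff_unique]
  constructor
  · constructor
    intro f g
    apply Subtype.ext
    funext p
    have h1 := f.2.2.1 p
    have h2 := g.2.2.1 p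
    omega
  · exact ⟨⟨fun _ => 0, fun _ _ _ => le_refl _, fun _ => le_refl _, ⟨q, rfl⟩, ⟨q, rfl⟩⟩⟩

lemma om_succ (n : ℕ) : om Q (n + 1) = e1 Q (n + 1) + om Q n := by
  unfold om e1
  rw [← Nat.card_sum]
  symm
  apply Nat.card_congr
  let F : E1T Q (n + 1) ⊕ OmT Q n → OmT Q (n + 1) := Sum.elim
    (fun f => ⟨f.1, f.2.1, f.2.2.1⟩)
    (fun g => ⟨fun p => g.1 p + 1, fun a b h => Nat.add_le_add_right (g.2.1 h) 1,
      fun p => Nat.add_le_add_right (g.2.2 p) 1⟩)
  refine Equiv.ofBijective F ⟨?_, ?_⟩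
  · rintro (f | g) (f' | g') h
    · have h1 : f.1 = f'.1 := congrArg (Subtype.val (p := fun f : Q → ℕ =>
        Monotone f ∧ ∀ p, f p ≤ n + 1)) h
      rw [Subtype.ext h1]
    · exfalso
      have h1 : f.1 = fun p => g'.1 p + 1 := congrArg (Subtype.val (p := fun f : Q → ℕ =>
        Monotone f ∧ ∀ p, f p ≤ n + 1)) h
      obtain ⟨a, ha⟩ := f.2.2.2
      have := congrFun h1 a
      omega
    · exfalso
      have h1 : (fun p => g.1 p + 1) = f'.1 := congrArg (Subtype.val (p := fun f : Q → ℕ =>
        Monotone f ∧ ∀ p, f p ≤ n + 1)) h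
      obtain ⟨a, ha⟩ := f'.2.2.2
      have := congrFun h1 a
      omega
    · have h1 : (fun p => g.1 p + 1) = fun p => g'.1 p + 1 :=
        congrArg (Subtype.val (p := fun f : Q → ℕ => Monotone f ∧ ∀ p, f p ≤ n + 1)) h
      have h2 : g.1 = g'.1 := by
        funext p
        have := congrFun h1 p
        omega
      rw [Subtype.ext h2]
  · rintro ⟨f, hf1, hf2⟩
    by_cases h : ∃ a, f a = 0
    · exact ⟨Sum.inl ⟨f, hf1, hf2, h⟩, rfl⟩
    · push Not at h
      refine ⟨Sum.inr ⟨fun p => f p - 1, ?_, ?_⟩, ?_⟩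
      · intro a b hab
        have := hf1 hab
        simp only
        omega
      · intro p
        have := hf2 p
        simp only
        omega
      · apply Subtype.ext
        funext p
        have := h p
        show f p - 1 + 1 = f p
        omega

lemma e1_succ (n : ℕ) : e1 Q (n + 1) = ee Q (n + 1) + e1 Q n := by
  unfold e1 ee
  rw [← Nat.card_sum]
  symm
  apply Nat.card_congr
  let F : EET Q (n + 1) ⊕ E1T Q n → E1T Q (n + 1) := Sum.elim
    (fun f => ⟨f.1, f.2.1, f.2.2.1, f.2.2.2.1⟩)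
    (fun g => ⟨g.1, g.2.1, fun p => Nat.le_succ_of_le (g.2.2.1 p), g.2.2.2⟩)
  refine Equiv.ofBijective F ⟨?_, ?_⟩
  · rintro (f | g) (f' | g') h
    · have h1 : f.1 = f'.1 := congrArg (Subtype.val (p := fun f : Q → ℕ =>
        Monotone f ∧ (∀ p, f p ≤ n + 1) ∧ ∃ a, f a = 0)) h
      rw [Subtype.ext h1]
    · exfalso
      have h1 : f.1 = g'.1 := congrArg (Subtype.val (p := fun f : Q → ℕ =>
        Monotone f ∧ (∀ p, f p ≤ n + 1) ∧ ∃ a, f a = 0)) h
      obtain ⟨a, ha⟩ := f.2.2.2.2
      have h2 := congrFun h1 a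
      have h3 := g'.2.2.1 a
      omega
    · exfalso
      have h1 : g.1 = f'.1 := congrArg (Subtype.val (p := fun f : Q → ℕ =>
        Monotone f ∧ (∀ p, f p ≤ n + 1) ∧ ∃ a, f a = 0)) h
      obtain ⟨a, ha⟩ := f'.2.2.2.2
      have h2 := congrFun h1 a
      have h3 := g.2.2.1 a
      omega
    · have h1 : g.1 = g'.1 := congrArg (Subtype.val (p := fun f : Q → ℕ =>
        Monotone f ∧ (∀ p, f p ≤ n + 1) ∧ ∃ a, f a = 0)) h
      rw [Subtype.ext h1]
  · rintro ⟨f, hf1, hf2, hf3⟩
    by_cases h : ∃ b, f b = n + 1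
    · exact ⟨Sum.inl ⟨f, hf1, hf2, hf3, h⟩, rfl⟩
    · push Not at h
      refine ⟨Sum.inr ⟨f, hf1, ?_, hf3⟩, rfl⟩
      intro p
      have h1 := h p
      have h2 := hf2 p
      omega

lemma e1_eq_sum [Nonempty Q] (n : ℕ) : e1 Q n = ∑ m ∈ Finset.range (n + 1), ee Q m := by
  induction n with
  | zero => simp [e1_zero, ee_zero]
  | succ n ih => rw [e1_succ, Finset.sum_range_succ, ← ih]; ring

omit [Fintype Q] in
/-- adding an isolated point multiplies the number of order preserving maps. -/
lemma om_isolated (e : Q) (h1 : ∀ p, p ≤ e → p = e) (h2 : ∀ p, e ≤ p → p = e) (n : ℕ) :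
    om Q n = (n + 1) * om {p : Q // p ≠ e} n := by
  unfold om
  have e0 : OmT Q n ≃ Fin (n + 1) × OmT {p : Q // p ≠ e} n :=
    { toFun := fun f => (⟨f.1 e, Nat.lt_succ_of_le (f.2.2 e)⟩,
        ⟨fun p => f.1 p.1, fun a b hab => f.2.1 hab, fun p => f.2.2 p.1⟩)
      invFun := fun q => ⟨fun p => if h : p = e then q.1 else q.2.1 ⟨p, h⟩, by
        intro a b hab
        show (if h : a = e then (q.1 : ℕ) else q.2.1 ⟨a, h⟩)
          ≤ (if h : b = e then (q.1 : ℕ) else q.2.1 ⟨b, h⟩)
        by_cases ha : a = e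
        · have hb : b = e := h2 b (ha ▸ hab)
          simp [ha, hb]
        · by_cases hb : b = e
          · exact absurd (h1 a (hb ▸ hab)) ha
          · simp only [ha, hb, dif_neg, not_false_eq_true]
            exact q.2.2.1 hab, by
        intro p
        show (if h : p = e then (q.1 : ℕ) else q.2.1 ⟨p, h⟩) ≤ n
        split_ifs with h
        · exact Nat.lt_succ_iff.mp q.1.2
        · exact q.2.2.2 _⟩
      left_inv := by
        intro f
        apply Subtype.ext
        funext p
        by_cases h : p = e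
        · simp [h]
        · simp [h]
      right_inv := by
        rintro ⟨m, g⟩
        apply Prod.ext
        · apply Fin.ext
          simp
        · apply Subtype.ext
          funext p
          simp [p.2] }
  rw [Nat.card_congr e0, Nat.card_prod, Nat.card_fin]

/-- the recursion for an isolated point -/
lemma ee_isolated (e : Q) (h1 : ∀ p, p ≤ e → p = e) (h2 : ∀ p, e ≤ p → p = e)
    [Nonempty {p : Q // p ≠ e}] (n : ℕ) :
    ee Q n = (n + 1) * ee {p : Q // p ≠ e} n
      + 2 * ∑ m ∈ Finset.range n, ee {p : Q // p ≠ e} m := by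
  have : Nonempty Q := ⟨e⟩
  have hO := om_isolated Q e h1 h2
  -- `E1(n+1) = (n+2) e1(n+1) + o(n)`
  have hE1 : ∀ n, e1 Q (n + 1) = (n + 2) * e1 {p : Q // p ≠ e} (n + 1) + om {p : Q // p ≠ e} n := by
    intro n
    have h3 := om_succ Q n
    rw [hO (n + 1), hO n, om_succ {p : Q // p ≠ e} n] at h3
    have h4 : (n + 1 + 1) * (e1 {p : Q // p ≠ e} (n + 1) + om {p : Q // p ≠ e} n)
        = ((n + 2) * e1 {p : Q // p ≠ e} (n + 1) + om {p : Q // p ≠ e} n) + (n + 1) * om {p : Q // p ≠ e} n := by ring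
    rw [h4] at h3
    exact (Nat.add_right_cancel h3).symm
  cases n with
  | zero =>
    simp [ee_zero]
  | succ n =>
    have h5 := e1_succ Q n
    rw [← e1_eq_sum]
    cases n with
    | zero =>
      rw [hE1 0, e1_zero, om_zero, e1_succ, e1_zero] at h5
      rw [e1_zero]
      omega
    | succ n =>
      rw [hE1 (n + 1), hE1 n, om_succ {p : Q // p ≠ e} n, e1_succ {p : Q // p ≠ e} (n + 1)] at h5
      have h6 : (n + 1 + 2) * (ee {p : Q // p ≠ e} (n + 1 + 1) + e1 {p : Q // p ≠ e} (n + 1)) + (e1 {p : Q // p ≠ e} (n + 1) + om {p : Q // p ≠ e} n)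
          = ((n + 1 + 1 + 1) * ee {p : Q // p ≠ e} (n + 1 + 1) + 2 * e1 {p : Q // p ≠ e} (n + 1))
            + ((n + 2) * e1 {p : Q // p ≠ e} (n + 1) + om {p : Q // p ≠ e} n) := by ring
      rw [h6] at h5
      exact (Nat.add_right_cancel h5).symm

end Counting

/-! ## Lattice polytopes -/

section Geometry

variable {ι : Type}

/-- an integer vector as a real vector -/
def rl (z : ι → ℤ) : ι → ℝ := fun i => (z i : ℝ)

/-- the lattice polytope spanned by a finite set of integer points -/
def latPoly (S : Finset (ι → ℤ)) : Set (ι → ℝ) := convexHull ℝ (rl '' (S : Set (ι → ℤ)))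

/-- lattice points of the `n`-th dilate -/
abbrev LatT (P : Set (ι → ℝ)) (n : ℕ) : Type := {z : ι → ℤ // rl z ∈ (n : ℝ) • P}

lemma convex_latPoly (S : Finset (ι → ℤ)) : Convex ℝ (latPoly S) := convex_convexHull _ _

lemma mem_latPoly {S : Finset (ι → ℤ)} {z : ι → ℤ} (h : z ∈ S) : rl z ∈ latPoly S :=
  subset_convexHull _ _ ⟨z, h, rfl⟩

lemma smul_mono {E : Type*} [AddCommGroup E] [Module ℝ E] {P : Set E} (hP : Convex ℝ P)
    (h0 : (0 : E) ∈ P) {c c' : ℝ} (hc : 0 ≤ c) (hcc : c ≤ c') : c • P ⊆ c' • P := by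
  rintro x ⟨y, hy, rfl⟩
  rcases eq_or_lt_of_le (le_trans hc hcc) with h | h
  · have : c = 0 := by linarith
    subst this
    exact ⟨0, h0, by simp⟩
  · refine ⟨(c / c') • y, hP.smul_mem_of_zero_mem h0 hy ⟨by positivity, ?_⟩, ?_⟩
    · rw [div_le_one h]; exact hcc
    · show c' • (c / c') • y = c • y
      rw [smul_smul, mul_div_cancel₀ _ (ne_of_gt h)]

/-- the vector with `none`-coordinate `t` and remaining coordinates `x` -/
def lft {R : Type} (t : R) (x : ι → R) : Option ι → R := fun o => o.elim t x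

lemma rl_lft (t : ℤ) (x : ι → ℤ) : rl (lft t x) = lft (t : ℝ) (rl x) := by
  funext o
  cases o <;> rfl

/-- the point set of the double pyramid over a prism -/
noncomputable def splus (S : Finset (ι → ℤ)) : Finset (Option ι → ℤ) :=
  {lft 0 0, lft 3 0} ∪ S.image (lft 1) ∪ S.image (lft 2)

lemma mem_splus {S : Finset (ι → ℤ)} {z : Option ι → ℤ} :
    z ∈ splus S ↔ z = lft 0 0 ∨ z = lft 3 0 ∨ (∃ x ∈ S, lft 1 x = z) ∨ (∃ x ∈ S, lft 2 x = z) := by
  unfold splus
  simp only [Finset.mem_union, Finset.mem_insert, Finset.mem_singleton, Finset.mem_image, or_assoc]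

/-- the explicit description of the double pyramid over a prism -/
def DD (P : Set (ι → ℝ)) : Set (Option ι → ℝ) :=
  {w | 0 ≤ w none ∧ w none ≤ 3 ∧ (fun i => w (some i)) ∈ (min 1 (min (w none) (3 - w none))) • P}

lemma lft_mem_latPoly (S : Finset (ι → ℤ)) (s : ℤ) (hs : s = 1 ∨ s = 2) (y : ι → ℝ)
    (hy : y ∈ latPoly S) : lft (s : ℝ) y ∈ latPoly (splus S) := by
  have hsub : latPoly S ⊆ {y | lft (s : ℝ) y ∈ latPoly (splus S)} := by
    apply convexHull_min
    · rintro _ ⟨x, hx, rfl⟩
      show lft (s : ℝ) (rl x) ∈ latPoly (splus S)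
      rw [← rl_lft]
      apply mem_latPoly
      rw [mem_splus]
      rcases hs with rfl | rfl
      · right; right; left; exact ⟨x, hx, rfl⟩
      · right; right; right; exact ⟨x, hx, rfl⟩
    · intro y1 hy1 y2 hy2 a b ha hb hab
      show lft (s : ℝ) (a • y1 + b • y2) ∈ latPoly (splus S)
      have h1 : lft (s : ℝ) (a • y1 + b • y2) = a • lft (s : ℝ) y1 + b • lft (s : ℝ) y2 := by
        funext o
        cases o with
        | none =>
          show (s : ℝ) = a * s + b * s
          rw [← add_mul, hab, one_mul]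
        | some i => rfl
      rw [h1]
      exact convex_latPoly _ hy1 hy2 ha hb hab
  exact hsub hy

lemma latPoly_splus (S : Finset (ι → ℤ)) (h0 : (0 : ι → ℤ) ∈ S) :
    latPoly (splus S) = DD (latPoly S) := by
  have hP := convex_latPoly S
  have h0' : (0 : ι → ℝ) ∈ latPoly S := by
    have := mem_latPoly h0
    have h1 : rl (0 : ι → ℤ) = 0 := by funext i; simp [rl]
    rwa [h1] at this
  apply Set.Subset.antisymm
  · apply convexHull_min
    · rintro _ ⟨z, hz, rfl⟩
      have hz' := mem_splus.mp hz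
      have hzero : rl (0 : ι → ℤ) = 0 := by funext i; simp [rl]
      rcases hz' with rfl | rfl | ⟨x, hx, rfl⟩ | ⟨x, hx, rfl⟩
      · rw [rl_lft]
        refine ⟨?_, ?_, ?_⟩
        · show (0 : ℝ) ≤ ((0 : ℤ) : ℝ); simp
        · show ((0 : ℤ) : ℝ) ≤ 3; simp
        · refine ⟨0, h0', ?_⟩
          funext i
          simp [lft, rl]
      · rw [rl_lft]
        refine ⟨?_, ?_, ?_⟩
        · show (0 : ℝ) ≤ ((3 : ℤ) : ℝ); simp
        · show ((3 : ℤ) : ℝ) ≤ 3; simp
        · refine ⟨0, h0', ?_⟩
          funext i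
          simp [lft, rl]
      · rw [rl_lft]
        refine ⟨?_, ?_, ?_⟩
        · show (0 : ℝ) ≤ ((1 : ℤ) : ℝ); simp
        · show ((1 : ℤ) : ℝ) ≤ 3; norm_num
        · refine ⟨rl x, mem_latPoly hx, ?_⟩
          funext i
          show (min 1 (min ((1 : ℤ) : ℝ) (3 - ((1 : ℤ) : ℝ)))) • rl x i = rl x i
          norm_num
      · rw [rl_lft]
        refine ⟨?_, ?_, ?_⟩
        · show (0 : ℝ) ≤ ((2 : ℤ) : ℝ); simp
        · show ((2 : ℤ) : ℝ) ≤ 3; norm_num
        · refine ⟨rl x, mem_latPoly hx, ?_⟩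
          funext i
          show (min 1 (min ((2 : ℤ) : ℝ) (3 - ((2 : ℤ) : ℝ)))) • rl x i = rl x i
          norm_num
    · rintro w1 ⟨h11, h12, h13⟩ w2 ⟨h21, h22, h23⟩ a b ha hb hab
      set c1 := min 1 (min (w1 none) (3 - w1 none)) with hc1
      set c2 := min 1 (min (w2 none) (3 - w2 none)) with hc2
      have hc1n : 0 ≤ c1 := le_min zero_le_one (le_min h11 (by linarith))
      have hc2n : 0 ≤ c2 := le_min zero_le_one (le_min h21 (by linarith))
      have hn : (a • w1 + b • w2) none = a * w1 none + b * w2 none := rfl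
      refine ⟨?_, ?_, ?_⟩
      · rw [hn]; positivity
      · rw [hn]
        have : a * w1 none + b * w2 none ≤ a * 3 + b * 3 :=
          add_le_add (mul_le_mul_of_nonneg_left h12 ha) (mul_le_mul_of_nonneg_left h22 hb)
        linarith [this, show a * 3 + b * 3 = 3 by rw [← add_mul, hab, one_mul]]
      · have h1 : (fun i => (a • w1 + b • w2) (some i)) ∈ (a * c1 + b * c2) • latPoly S := by
          rw [hP.add_smul (mul_nonneg ha hc1n) (mul_nonneg hb hc2n)]
          refine ⟨a • (fun i => w1 (some i)), ?_, b • (fun i => w2 (some i)), ?_, rfl⟩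
          · rw [mul_smul]
            exact Set.smul_mem_smul_set h13
          · rw [mul_smul]
            exact Set.smul_mem_smul_set h23
        apply smul_mono hP h0' (add_nonneg (mul_nonneg ha hc1n) (mul_nonneg hb hc2n)) _ h1
        have e1 : c1 ≤ 1 := min_le_left _ _
        have e2 : c1 ≤ w1 none := le_trans (min_le_right _ _) (min_le_left _ _)
        have e3 : c1 ≤ 3 - w1 none := le_trans (min_le_right _ _) (min_le_right _ _)
        have f1 : c2 ≤ 1 := min_le_left _ _
        have f2 : c2 ≤ w2 none := le_trans (min_le_right _ _) (min_le_left _ _)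
        have f3 : c2 ≤ 3 - w2 none := le_trans (min_le_right _ _) (min_le_right _ _)
        rw [hn]
        refine le_min ?_ (le_min ?_ ?_)
        · nlinarith [mul_le_mul_of_nonneg_left e1 ha, mul_le_mul_of_nonneg_left f1 hb]
        · nlinarith [mul_le_mul_of_nonneg_left e2 ha, mul_le_mul_of_nonneg_left f2 hb]
        · nlinarith [mul_le_mul_of_nonneg_left e3 ha, mul_le_mul_of_nonneg_left f3 hb]
  · rintro w ⟨h1, h2, h3⟩
    have hconv := convex_latPoly (splus S)
    have hzero : rl (0 : ι → ℤ) = 0 := by funext i; simp [rl]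
    have hA0 : lft (0 : ℝ) (0 : ι → ℝ) ∈ latPoly (splus S) := by
      have : rl (lft (0 : ℤ) (0 : ι → ℤ)) ∈ latPoly (splus S) :=
        mem_latPoly (mem_splus.mpr (Or.inl rfl))
      rw [rl_lft, hzero] at this
      simpa using this
    have hA3 : lft (3 : ℝ) (0 : ι → ℝ) ∈ latPoly (splus S) := by
      have : rl (lft (3 : ℤ) (0 : ι → ℤ)) ∈ latPoly (splus S) :=
        mem_latPoly (mem_splus.mpr (Or.inr (Or.inl rfl)))
      rw [rl_lft, hzero] at this
      simpa using this
    have hL1 : ∀ y ∈ latPoly S, lft (1 : ℝ) y ∈ latPoly (splus S) := by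
      intro y hy
      have := lft_mem_latPoly S 1 (Or.inl rfl) y hy
      simpa using this
    have hL2 : ∀ y ∈ latPoly S, lft (2 : ℝ) y ∈ latPoly (splus S) := by
      intro y hy
      have := lft_mem_latPoly S 2 (Or.inr rfl) y hy
      simpa using this
    obtain ⟨y, hy, hxy⟩ := h3
    have hx : ∀ i, w (some i) = (min 1 (min (w none) (3 - w none))) * y i := by
      intro i
      exact (congrFun hxy i).symm
    set t := w none with ht
    rcases le_total t 1 with ht1 | ht1
    · have hc : min 1 (min t (3 - t)) = t := by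
        rw [min_eq_left (show t ≤ 3 - t by linarith), min_eq_right ht1]
      have hw : w = t • lft (1 : ℝ) y + (1 - t) • lft (0 : ℝ) (0 : ι → ℝ) := by
        funext o
        cases o with
        | none => show t = t * 1 + (1 - t) * 0; ring
        | some i =>
          show w (some i) = t * y i + (1 - t) * 0
          rw [hx, hc]; ring
      rw [hw]
      exact hconv (hL1 y hy) hA0 h1 (by linarith) (by ring)
    · rcases le_total t 2 with ht2 | ht2
      · have hc : min 1 (min t (3 - t)) = 1 := by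
          rw [min_eq_left]
          exact le_min ht1 (by linarith)
        have hw : w = (2 - t) • lft (1 : ℝ) y + (t - 1) • lft (2 : ℝ) y := by
          funext o
          cases o with
          | none => show t = (2 - t) * 1 + (t - 1) * 2; ring
          | some i =>
            show w (some i) = (2 - t) * y i + (t - 1) * y i
            rw [hx, hc]; ring
        rw [hw]
        exact hconv (hL1 y hy) (hL2 y hy) (by linarith) (by linarith) (by ring)
      · have hc : min 1 (min t (3 - t)) = 3 - t := by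
          rw [min_eq_right (show 3 - t ≤ t by linarith), min_eq_right (by linarith)]
        have hw : w = (3 - t) • lft (2 : ℝ) y + (t - 2) • lft (3 : ℝ) (0 : ι → ℝ) := by
          funext o
          cases o with
          | none => show t = (3 - t) * 2 + (t - 2) * 3; ring
          | some i =>
            show w (some i) = (3 - t) * y i + (t - 2) * 0
            rw [hx, hc]; ring
        rw [hw]
        exact hconv (hL2 y hy) hA3 (by linarith) (by linarith) (by ring)

lemma mem_smul_DD (P : Set (ι → ℝ)) (h0 : (0 : ι → ℝ) ∈ P) (r : ℝ) (hr : 0 ≤ r)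
    (w : Option ι → ℝ) : w ∈ r • DD P ↔ 0 ≤ w none ∧ w none ≤ 3 * r ∧
      (fun i => w (some i)) ∈ (min r (min (w none) (3 * r - w none))) • P := by
  rcases eq_or_lt_of_le hr with h | h
  · subst h
    have hne : (DD P).Nonempty := ⟨0, by
      refine ⟨le_refl _, by simp, 0, h0, ?_⟩
      funext i; simp⟩
    rw [Set.zero_smul_set hne, Set.mem_zero]
    constructor
    · rintro rfl
      refine ⟨le_refl _, by simp, 0, h0, ?_⟩
      funext i
      simp
    · rintro ⟨h1, h2, y, hy, h3⟩
      have h4 : w none = 0 := le_antisymm (by linarith) h1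
      funext o
      cases o with
      | none => exact h4
      | some i =>
        have := congrFun h3 i
        rw [h4] at this
        simp at this
        exact this.symm
  · rw [Set.mem_smul_set_iff_inv_smul_mem₀ (ne_of_gt h)]
    unfold DD
    rw [Set.mem_ofPred_eq]
    have e1 : (r⁻¹ • w) none = r⁻¹ * w none := rfl
    rw [e1]
    have e2 : (fun i => (r⁻¹ • w) (some i)) = r⁻¹ • (fun i => w (some i)) := rfl
    rw [e2]
    have e3 : r⁻¹ • (fun i => w (some i)) ∈ (min 1 (min (r⁻¹ * w none) (3 - r⁻¹ * w none))) • P ↔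
        (fun i => w (some i)) ∈ (min r (min (w none) (3 * r - w none))) • P := by
      rw [← Set.mem_smul_set_iff_inv_smul_mem₀ (ne_of_gt h), ← mul_smul]
      have e4 : r * min 1 (min (r⁻¹ * w none) (3 - r⁻¹ * w none))
          = min r (min (w none) (3 * r - w none)) := by
        rw [mul_min_of_nonneg _ _ hr, mul_min_of_nonneg _ _ hr]
        have e5 : r * (r⁻¹ * w none) = w none := by field_simp
        have e6 : r * (3 - r⁻¹ * w none) = 3 * r - w none := by field_simp
        rw [e5, e6, mul_one]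
      rw [e4]
    rw [e3]
    have e7 : 0 ≤ r⁻¹ * w none ↔ 0 ≤ w none := mul_nonneg_iff_of_pos_left (inv_pos.mpr h)
    have e8 : r⁻¹ * w none ≤ 3 ↔ w none ≤ 3 * r := by
      rw [inv_mul_le_iff₀ h, mul_comm]
    rw [e7, e8]

/-- the lattice points of the dilates of the double pyramid over the prism -/
noncomputable def latEquiv (S : Finset (ι → ℤ)) (h0 : (0 : ι → ℤ) ∈ S) (n : ℕ) :
    (Σ j : Fin (3 * n + 1), LatT (latPoly S) (min n (min (j : ℕ) (3 * n - j)))) ≃
      LatT (latPoly (splus S)) n := by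
  have h0' : (0 : ι → ℝ) ∈ latPoly S := by
    have := mem_latPoly h0
    have h1 : rl (0 : ι → ℤ) = 0 := by funext i; simp [rl]
    rwa [h1] at this
  have hcast : ∀ j : ℕ, j < 3 * n + 1 →
      ((min n (min j (3 * n - j)) : ℕ) : ℝ) = min (n : ℝ) (min (j : ℝ) (3 * (n : ℝ) - j)) := by
    intro j hj
    rw [Nat.cast_min, Nat.cast_min, Nat.cast_sub (by omega)]
    push_cast
    rfl
  have hmem : ∀ z : Option ι → ℤ, rl z ∈ (n : ℝ) • latPoly (splus S) ↔
      0 ≤ (z none : ℝ) ∧ (z none : ℝ) ≤ 3 * n ∧ (rl (fun i => z (some i))) ∈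
        (min (n : ℝ) (min (z none : ℝ) (3 * n - z none))) • latPoly S := by
    intro z
    rw [latPoly_splus S h0, mem_smul_DD _ h0' _ (Nat.cast_nonneg n)]
    rfl
  refine Equiv.ofBijective (fun p => ⟨lft ((p.1 : ℕ) : ℤ) p.2.1, ?_⟩) ⟨?_, ?_⟩
  · rw [hmem]
    obtain ⟨j, x, hx⟩ := p
    have hj := j.2
    refine ⟨?_, ?_, ?_⟩
    · show 0 ≤ ((((j : ℕ) : ℤ)) : ℝ)
      positivity
    · show ((((j : ℕ) : ℤ)) : ℝ) ≤ 3 * n
      have : (j : ℕ) ≤ 3 * n := by omega
      exact_mod_cast this
    · have h5 := hcast j hj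
      show rl x ∈ (min (n : ℝ) (min ((((j : ℕ) : ℤ)) : ℝ) (3 * n - (((j : ℕ) : ℤ) : ℝ)))) • latPoly S
      rw [Int.cast_natCast, ← h5]
      exact hx
  · rintro ⟨j, x, hx⟩ ⟨j', x', hx'⟩ h
    have h1 : lft ((j : ℕ) : ℤ) x = lft ((j' : ℕ) : ℤ) x' := congrArg Subtype.val h
    have h2 : ((j : ℕ) : ℤ) = ((j' : ℕ) : ℤ) := congrFun h1 none
    have h3 : j = j' := Fin.ext (by exact_mod_cast h2)
    subst h3
    have h4 : x = x' := by
      funext i
      exact congrFun h1 (some i)
    subst h4
    rfl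
  · rintro ⟨z, hz⟩
    have hz' := (hmem z).mp hz
    obtain ⟨h1, h2, h3⟩ := hz'
    have h1' : 0 ≤ z none := by exact_mod_cast h1
    have h2' : z none ≤ 3 * n := by exact_mod_cast h2
    have h4 : ((z none).toNat : ℤ) = z none := Int.toNat_of_nonneg h1'
    have hlt : (z none).toNat < 3 * n + 1 := by omega
    refine ⟨⟨⟨(z none).toNat, hlt⟩, ⟨fun i => z (some i), ?_⟩⟩, ?_⟩
    · rw [hcast _ hlt]
      have h5 : (((z none).toNat : ℕ) : ℝ) = (z none : ℝ) := by
        have := congrArg (Int.cast : ℤ → ℝ) h4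
        rwa [Int.cast_natCast] at this
      rw [h5]
      exact h3
    · apply Subtype.ext
      funext o
      cases o with
      | none => exact h4
      | some i => rfl

lemma sum_minmin (n : ℕ) (g : ℕ → ℕ) :
    ∑ j ∈ Finset.range (3 * n + 1), g (min n (min j (3 * n - j)))
      = (n + 1) * g n + 2 * ∑ m ∈ Finset.range n, g m := by
  have h1 : 3 * n + 1 = n + ((n + 1) + n) := by ring
  rw [h1, Finset.sum_range_add, Finset.sum_range_add]
  have e1 : ∑ j ∈ Finset.range n, g (min n (min j (3 * n - j))) = ∑ m ∈ Finset.range n, g m := by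
    apply Finset.sum_congr rfl
    intro j hj
    rw [Finset.mem_range] at hj
    congr 1
    omega
  have e2 : ∑ j ∈ Finset.range (n + 1), g (min n (min (n + j) (3 * n - (n + j)))) = (n + 1) * g n := by
    rw [Finset.sum_congr rfl (g := fun _ => g n)]
    · simp
    · intro j hj
      rw [Finset.mem_range] at hj
      congr 1
      omega
  have e3 : ∑ j ∈ Finset.range n, g (min n (min (n + (n + 1 + j)) (3 * n - (n + (n + 1 + j)))))
      = ∑ m ∈ Finset.range n, g m := by
    rw [← Finset.sum_range_reflect g n]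
    apply Finset.sum_congr rfl
    intro j hj
    rw [Finset.mem_range] at hj
    congr 1
    omega
  rw [e1, e2, e3]
  ring

lemma card_splus (S : Finset (ι → ℤ)) (h0 : (0 : ι → ℤ) ∈ S)
    (hfin : ∀ n, Finite (LatT (latPoly S) n)) (n : ℕ) :
    Finite (LatT (latPoly (splus S)) n) ∧
    Nat.card (LatT (latPoly (splus S)) n) = (n + 1) * Nat.card (LatT (latPoly S) n)
      + 2 * ∑ m ∈ Finset.range n, Nat.card (LatT (latPoly S) m) := by
  have e := latEquiv S h0 n
  refine ⟨Finite.of_equiv _ e, ?_⟩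
  rw [← Nat.card_congr e, Nat.card_sigma]
  rw [← sum_minmin n (fun m => Nat.card (LatT (latPoly S) m)), Finset.sum_range]

/-- `lft 0` as a linear map -/
def lft0 : (ι → ℝ) →ₗ[ℝ] (Option ι → ℝ) where
  toFun x := lft 0 x
  map_add' x y := by funext o; cases o <;> simp [lft]
  map_smul' c x := by funext o; cases o <;> simp [lft]

/-- restriction to the `some`-coordinates -/
def rsome : (Option ι → ℝ) →ₗ[ℝ] (ι → ℝ) where
  toFun w i := w (some i)
  map_add' _ _ := rfl
  map_smul' _ _ := rfl

lemma span_splus (S : Finset (ι → ℤ)) :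
    Submodule.span ℝ (rl '' (splus S : Set (Option ι → ℤ)))
      = (Submodule.span ℝ (rl '' (S : Set (ι → ℤ)))).comap rsome := by
  apply le_antisymm
  · rw [Submodule.span_le]
    rintro _ ⟨z, hz, rfl⟩
    have hzero : rl (0 : ι → ℤ) = 0 := by funext i; simp [rl]
    rw [SetLike.mem_coe, Submodule.mem_comap]
    rcases mem_splus.mp hz with rfl | rfl | ⟨x, hx, rfl⟩ | ⟨x, hx, rfl⟩
    · have : rsome (rl (lft (0 : ℤ) (0 : ι → ℤ))) = 0 := by funext i; simp [rsome, lft, rl]
      rw [this]; exact Submodule.zero_mem _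
    · have : rsome (rl (lft (3 : ℤ) (0 : ι → ℤ))) = 0 := by funext i; simp [rsome, lft, rl]
      rw [this]; exact Submodule.zero_mem _
    · exact Submodule.subset_span ⟨x, hx, rfl⟩
    · exact Submodule.subset_span ⟨x, hx, rfl⟩
  · intro w hw
    have hw' : rsome w ∈ Submodule.span ℝ (rl '' (S : Set (ι → ℤ))) := hw
    have hzero : rl (0 : ι → ℤ) = 0 := by funext i; simp [rl]
    have hA3 : lft (3 : ℝ) (0 : ι → ℝ) ∈ Submodule.span ℝ (rl '' (splus S : Set (Option ι → ℤ))) := by
      have : rl (lft (3 : ℤ) (0 : ι → ℤ)) ∈ Submodule.span ℝ (rl '' (splus S : Set (Option ι → ℤ))) :=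
        Submodule.subset_span ⟨_, mem_splus.mpr (Or.inr (Or.inl rfl)), rfl⟩
      rw [rl_lft, hzero] at this
      simpa using this
    have he : ∀ t : ℝ, lft t (0 : ι → ℝ) ∈ Submodule.span ℝ (rl '' (splus S : Set (Option ι → ℤ))) := by
      intro t
      have h1 : lft t (0 : ι → ℝ) = (t / 3) • lft (3 : ℝ) (0 : ι → ℝ) := by
        funext o
        cases o with
        | none => show t = t / 3 * 3; ring
        | some i => show (0 : ℝ) = t / 3 * 0; ring
      rw [h1]
      exact Submodule.smul_mem _ _ hA3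
    have hle : Submodule.span ℝ (rl '' (S : Set (ι → ℤ)))
        ≤ (Submodule.span ℝ (rl '' (splus S : Set (Option ι → ℤ)))).comap lft0 := by
      rw [Submodule.span_le]
      rintro _ ⟨x, hx, rfl⟩
      rw [SetLike.mem_coe, Submodule.mem_comap]
      show lft (0 : ℝ) (rl x) ∈ Submodule.span ℝ (rl '' (splus S : Set (Option ι → ℤ)))
      have h1 : rl (lft (1 : ℤ) x) ∈ Submodule.span ℝ (rl '' (splus S : Set (Option ι → ℤ))) :=
        Submodule.subset_span ⟨_, mem_splus.mpr (Or.inr (Or.inr (Or.inl ⟨x, hx, rfl⟩))), rfl⟩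
      have h2 : lft (0 : ℝ) (rl x) = rl (lft (1 : ℤ) x) - lft (1 : ℝ) (0 : ι → ℝ) := by
        funext o
        cases o with
        | none => show (0 : ℝ) = ((1 : ℤ) : ℝ) - 1; simp
        | some i => show (rl x i : ℝ) = (x i : ℝ) - 0; simp [rl]
      rw [h2]
      exact Submodule.sub_mem _ h1 (he 1)
    have h3 : w = lft (w none) (0 : ι → ℝ) + lft0 (rsome w) := by
      funext o
      cases o with
      | none => show w none = w none + 0; ring
      | some i => show w (some i) = 0 + w (some i); ring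
    rw [h3]
    exact Submodule.add_mem _ (he _) (hle hw')

lemma finrank_comap_rsome [Fintype ι] (W : Submodule ℝ (ι → ℝ)) :
    Module.finrank ℝ (W.comap rsome) = Module.finrank ℝ W + 1 := by
  let e : (W.comap rsome) ≃ₗ[ℝ] (W × ℝ) :=
    { toFun := fun w => (⟨rsome w.1, w.2⟩, w.1 none)
      invFun := fun p => ⟨lft p.2 p.1.1, by
        show rsome (lft p.2 p.1.1) ∈ W
        exact p.1.2⟩
      left_inv := by
        intro w
        apply Subtype.ext
        funext o
        cases o <;> rfl
      right_inv := by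
        rintro ⟨x, t⟩
        rfl
      map_add' := by intro x y; rfl
      map_smul' := by intro c x; rfl }
  rw [e.finrank_eq, Module.finrank_prod, Module.finrank_self]

end Geometry

end Pool.Agent.R135.OPDim
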