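import Mathlib
import Pool.Agent.R135.OPDim

/-!
# Order polytopes and lattice polytopes of two fewer dimensions: the projection
-/

set_option autoImplicit false
open scoped Pointwise Classical

namespace Pool.Agent.R135.OPDim

open Pool.Agent.R135.OrderPoly

section Base

variable {Q : Type} [Fintype Q] [PartialOrder Q] (a0 b0 : Q)

/-- the remaining coordinates -/
abbrev Ix : Type := {p : Q // p ≠ a0 ∧ p ≠ b0}

/-- subtract the value at `b0` on the maximal elements and the value at `a0` elsewhere -/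
noncomputable def prj {R : Type} [Sub R] (x : Q → R) : Ix a0 b0 → R :=
  fun p => x p.1 - (if IsMax p.1 then x b0 else x a0)

/-- indicator vector -/
noncomputable def ind (F : Finset Q) : Q → ℤ := fun p => if p ∈ F then 1 else 0

/-- the projected vertices -/
noncomputable def SS : Finset (Ix a0 b0 → ℤ) :=
  ((Finset.univ : Finset (Finset Q)).filter (fun F : Finset Q => IsUpperSet (F : Set Q))).image
    (fun F : Finset Q => prj a0 b0 (ind F))

lemma mem_SS (F : Finset Q) (hF : IsUpperSet (F : Set Q)) : prj a0 b0 (ind F) ∈ SS a0 b0 := by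
  unfold SS
  rw [Finset.mem_image]
  exact ⟨F, by simp [hF], rfl⟩

lemma zero_mem_SS : (0 : Ix a0 b0 → ℤ) ∈ SS a0 b0 := by
  have h := mem_SS a0 b0 (∅ : Finset Q) (by simp [isUpperSet_empty])
  have h1 : prj a0 b0 (ind (∅ : Finset Q)) = 0 := by
    funext p
    simp [prj, ind]
  rwa [h1] at h

omit [Fintype Q] in
lemma rl_prj (x : Q → ℤ) : rl (prj a0 b0 x) = prj a0 b0 (fun p => (x p : ℝ)) := by
  funext p
  unfold rl prj
  split_ifs <;> push_cast <;> rfl

lemma sum_mem_smul {E : Type*} [AddCommGroup E] [Module ℝ E] {P : Set E} (hP : Convex ℝ P)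
    (hne : P.Nonempty) (w : ℕ → E) (n : ℕ) (h : ∀ j < n, w j ∈ P) :
    ∑ j ∈ Finset.range n, w j ∈ (n : ℝ) • P := by
  induction n with
  | zero =>
    rw [Nat.cast_zero, Set.zero_smul_set hne]
    simp
  | succ n ih =>
    rw [Finset.sum_range_succ, Nat.cast_succ, hP.add_smul (Nat.cast_nonneg n) zero_le_one]
    refine ⟨_, ih (fun j hj => h j (by omega)), w n, ?_, rfl⟩
    rw [one_smul]
    exact h n (by omega)

/-- order preserving maps give lattice points -/
lemma mem_of_map (f : Q → ℕ) (hf : Monotone f) (n : ℕ) (hn : ∀ p, f p ≤ n) :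
    rl (prj a0 b0 (fun p => (f p : ℤ))) ∈ (n : ℝ) • latPoly (SS a0 b0) := by
  have h1 : rl (prj a0 b0 (fun p => (f p : ℤ)))
      = ∑ j ∈ Finset.range n, rl (prj a0 b0 (ind (Finset.univ.filter (fun p => j < f p)))) := by
    funext p
    rw [Finset.sum_apply]
    have h2 : ∀ q : Q, (f q : ℝ)
        = ∑ j ∈ Finset.range n, ((ind (Finset.univ.filter (fun p => j < f p)) q : ℤ) : ℝ) := by
      intro q
      unfold ind
      simp only [Finset.mem_filter, Finset.mem_univ, true_and]
      push_cast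
      rw [Finset.sum_ite, Finset.sum_const_zero, add_zero, Finset.sum_const]
      have : (Finset.range n).filter (fun j => j < f q) = Finset.range (f q) := by
        ext j
        simp only [Finset.mem_filter, Finset.mem_range]
        have := hn q
        omega
      rw [this]
      simp
    unfold rl prj
    split_ifs with hm
    · push_cast
      rw [Finset.sum_sub_distrib, ← h2, ← h2]
    · push_cast
      rw [Finset.sum_sub_distrib, ← h2, ← h2]
  rw [h1]
  apply sum_mem_smul (convex_latPoly _)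
  · exact ⟨_, mem_latPoly (zero_mem_SS a0 b0)⟩
  · intro j _
    apply mem_latPoly
    apply mem_SS
    intro p q hpq hp
    simp only [Finset.coe_filter, Finset.mem_univ, true_and, Set.mem_ofPred_eq] at hp ⊢
    exact lt_of_lt_of_le hp (hf hpq)

/-- points of the polytope lift to order preserving real maps -/
lemma lift_real (w : Ix a0 b0 → ℝ) (hw : w ∈ latPoly (SS a0 b0)) :
    ∃ y : Q → ℝ, Monotone y ∧ (∀ p, 0 ≤ y p ∧ y p ≤ 1) ∧ w = prj a0 b0 y := by
  have hsub : latPoly (SS a0 b0) ⊆
      {w | ∃ y : Q → ℝ, Monotone y ∧ (∀ p, 0 ≤ y p ∧ y p ≤ 1) ∧ w = prj a0 b0 y} := by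
    apply convexHull_min
    · rintro _ ⟨z, hz, rfl⟩
      have hz' : z ∈ SS a0 b0 := hz
      unfold SS at hz'
      rw [Finset.mem_image] at hz'
      obtain ⟨F, hF, rfl⟩ := hz'
      rw [Finset.mem_filter] at hF
      refine ⟨fun p => (ind F p : ℝ), ?_, ?_, rl_prj a0 b0 _⟩
      · intro p q hpq
        unfold ind
        simp only
        by_cases hp : p ∈ F
        · have hq : q ∈ F := hF.2 hpq hp
          simp [hp, hq]
        · simp only [hp, if_false]
          split_ifs <;> simp
      · intro p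
        unfold ind
        simp only
        by_cases hp : p ∈ F <;> simp [hp]
    · rintro w1 ⟨y1, h11, h12, rfl⟩ w2 ⟨y2, h21, h22, rfl⟩ a b ha hb hab
      refine ⟨a • y1 + b • y2, ?_, ?_, ?_⟩
      · intro p q hpq
        show a * y1 p + b * y2 p ≤ a * y1 q + b * y2 q
        exact add_le_add (mul_le_mul_of_nonneg_left (h11 hpq) ha)
          (mul_le_mul_of_nonneg_left (h21 hpq) hb)
      · intro p
        show 0 ≤ a * y1 p + b * y2 p ∧ a * y1 p + b * y2 p ≤ 1
        have h1 := h12 p
        have h2 := h22 p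
        constructor
        · have := mul_nonneg ha h1.1
          have := mul_nonneg hb h2.1
          linarith
        · have := mul_le_mul_of_nonneg_left h1.2 ha
          have := mul_le_mul_of_nonneg_left h2.2 hb
          linarith
      · funext p
        show a * prj a0 b0 y1 p + b * prj a0 b0 y2 p = prj a0 b0 (a • y1 + b • y2) p
        unfold prj
        split_ifs
        · show a * (y1 p.1 - y1 b0) + b * (y2 p.1 - y2 b0)
            = (a * y1 p.1 + b * y2 p.1) - (a * y1 b0 + b * y2 b0)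
          ring
        · show a * (y1 p.1 - y1 a0) + b * (y2 p.1 - y2 a0)
            = (a * y1 p.1 + b * y2 p.1) - (a * y1 a0 + b * y2 a0)
          ring
  exact hsub hw

lemma lift_real_smul (n : ℕ) (w : Ix a0 b0 → ℝ) (hw : w ∈ (n : ℝ) • latPoly (SS a0 b0)) :
    ∃ y : Q → ℝ, Monotone y ∧ (∀ p, 0 ≤ y p ∧ y p ≤ n) ∧ w = prj a0 b0 y := by
  obtain ⟨v, hv, rfl⟩ := hw
  obtain ⟨y, h1, h2, rfl⟩ := lift_real a0 b0 v hv
  refine ⟨(n : ℝ) • y, ?_, ?_, ?_⟩
  · intro p q hpq
    exact mul_le_mul_of_nonneg_left (h1 hpq) (Nat.cast_nonneg n)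
  · intro p
    show 0 ≤ (n : ℝ) * y p ∧ (n : ℝ) * y p ≤ n
    have := h2 p
    have hn : (0 : ℝ) ≤ n := Nat.cast_nonneg n
    constructor
    · exact mul_nonneg hn this.1
    · calc (n : ℝ) * y p ≤ n * 1 := mul_le_mul_of_nonneg_left this.2 hn
        _ = n := mul_one _
  · funext p
    show (n : ℝ) * prj a0 b0 y p = prj a0 b0 ((n : ℝ) • y) p
    unfold prj
    split_ifs
    · show (n : ℝ) * (y p.1 - y b0) = (n : ℝ) * y p.1 - (n : ℝ) * y b0
      ring
    · show (n : ℝ) * (y p.1 - y a0) = (n : ℝ) * y p.1 - (n : ℝ) * y a0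
      ring

/-- the normal form of a lattice point of the dilated polytope -/
lemma exists_map (ha : ¬ IsMax a0) (hb : IsMax b0) (hiso : ∀ p : Q, IsMin p → ¬ IsMax p)
    (n : ℕ) (z : Ix a0 b0 → ℤ) (hz : rl z ∈ (n : ℝ) • latPoly (SS a0 b0)) :
    ∃ f : Q → ℕ, (Monotone f ∧ (∀ p, f p ≤ n) ∧ (∃ a, f a = 0) ∧ ∃ b, f b = n) ∧
      prj a0 b0 (fun p => (f p : ℤ)) = z := by
  obtain ⟨y, hy1, hy2, hy3⟩ := lift_real_smul a0 b0 n _ hz
  let g : Q → ℤ := fun p => if h : p ≠ a0 ∧ p ≠ b0 then z ⟨p, h⟩ else 0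
  have hg : ∀ p, (g p : ℝ) = y p - (if IsMax p then y b0 else y a0) := by
    intro p
    by_cases h : p ≠ a0 ∧ p ≠ b0
    · have h1 := congrFun hy3 ⟨p, h⟩
      have h2 : g p = z ⟨p, h⟩ := by simp only [g]; rw [dif_pos h]
      rw [h2]
      exact h1
    · have h2 : g p = 0 := by simp only [g]; rw [dif_neg h]
      rw [h2]
      by_cases h3 : p = a0
      · subst h3
        rw [if_neg ha]; simp
      · have h4 : p = b0 := by
          by_contra h5
          exact h ⟨h3, h5⟩
        subst h4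
        rw [if_pos hb]; simp
  have hgN : ∀ p, ¬ IsMax p → (g p : ℝ) = y p - y a0 := by
    intro p hp; rw [hg, if_neg hp]
  have hgM : ∀ p, IsMax p → (g p : ℝ) = y p - y b0 := by
    intro p hp; rw [hg, if_pos hp]
  -- extremal elements
  obtain ⟨r, hr1, hr2⟩ := Finset.exists_min_image (Finset.univ.filter (fun p : Q => ¬ IsMax p)) g
    ⟨a0, Finset.mem_filter.mpr ⟨Finset.mem_univ _, ha⟩⟩
  obtain ⟨m, hm1, hm2⟩ := Finset.exists_max_image (Finset.univ.filter (fun p : Q => IsMax p)) g
    ⟨b0, Finset.mem_filter.mpr ⟨Finset.mem_univ _, hb⟩⟩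
  have hr1' : ¬ IsMax r := (Finset.mem_filter.mp hr1).2
  have hm1' : IsMax m := (Finset.mem_filter.mp hm1).2
  have hr3 : ∀ p, ¬ IsMax p → y r ≤ y p := by
    intro p hp
    have h1 := hr2 p (Finset.mem_filter.mpr ⟨Finset.mem_univ _, hp⟩)
    have h2 : (g r : ℝ) ≤ (g p : ℝ) := by exact_mod_cast h1
    rw [hgN r hr1', hgN p hp] at h2
    linarith
  have hm3 : ∀ p, IsMax p → y p ≤ y m := by
    intro p hp
    have h1 := hm2 p (Finset.mem_filter.mpr ⟨Finset.mem_univ _, hp⟩)
    have h2 : (g p : ℝ) ≤ (g m : ℝ) := by exact_mod_cast h1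
    rw [hgM m hm1', hgM p hp] at h2
    linarith
  let F : Q → ℤ := fun p => if IsMax p then g p - g m + n else g p - g r
  have hFN : ∀ p, ¬ IsMax p → F p = g p - g r := by
    intro p hp; simp only [F]; rw [if_neg hp]
  have hFM : ∀ p, IsMax p → F p = g p - g m + n := by
    intro p hp; simp only [F]; rw [if_pos hp]
  have hFN' : ∀ p, ¬ IsMax p → (F p : ℝ) = y p - y r := by
    intro p hp
    rw [hFN p hp]
    push_cast
    rw [hgN p hp, hgN r hr1']
    ring
  have hFM' : ∀ p, IsMax p → (F p : ℝ) = y p + (n - y m) := by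
    intro p hp
    rw [hFM p hp]
    push_cast
    rw [hgM p hp, hgM m hm1']
    ring
  have hmono : ∀ p q, p ≤ q → F p ≤ F q := by
    intro p q hpq
    have h0 := hy1 hpq
    have : (F p : ℝ) ≤ (F q : ℝ) := by
      by_cases hq : IsMax q
      · by_cases hp : IsMax p
        · have : p = q := le_antisymm hpq (hp hpq)
          rw [this]
        · rw [hFM' q hq, hFN' p hp]
          have h1 := (hy2 m).2
          have h2 := (hy2 r).1
          linarith
      · have hp : ¬ IsMax p := by
          intro hp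
          exact hq (le_antisymm hpq (hp hpq) ▸ hp)
        rw [hFN' q hq, hFN' p hp]
        linarith
    exact_mod_cast this
  have hnonneg : ∀ p, 0 ≤ F p := by
    intro p
    have hN : ∀ p, ¬ IsMax p → 0 ≤ F p := by
      intro p hp
      have h1 : (0 : ℝ) ≤ (F p : ℝ) := by
        rw [hFN' p hp]
        have := hr3 p hp
        linarith
      exact_mod_cast h1
    by_cases hp : IsMax p
    · have h1 : ¬ IsMin p := fun h => hiso p h hp
      rw [not_isMin_iff] at h1
      obtain ⟨q, hq⟩ := h1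
      have h2 : ¬ IsMax q := fun h => absurd hq (h.not_lt)
      exact le_trans (hN q h2) (hmono q p (le_of_lt hq))
    · exact hN p hp
  have hle : ∀ p, F p ≤ n := by
    have hM : ∀ p, IsMax p → F p ≤ n := by
      intro p hp
      have h1 : (F p : ℝ) ≤ (n : ℝ) := by
        rw [hFM' p hp]
        have := hm3 p hp
        linarith
      exact_mod_cast h1
    intro p
    obtain ⟨q, hpq, hq⟩ := Finite.exists_le_maximal (p := fun _ : Q => True) (a := p) trivial
    have hq' : IsMax q := by
      intro c hc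
      exact hq.2 trivial hc
    exact le_trans (hmono p q hpq) (hM q hq')
  have hcast : ∀ p, ((F p).toNat : ℤ) = F p := fun p => Int.toNat_of_nonneg (hnonneg p)
  refine ⟨fun p => (F p).toNat, ⟨?_, ?_, ⟨r, ?_⟩, ⟨m, ?_⟩⟩, ?_⟩
  · intro p q hpq
    have := hmono p q hpq
    show (F p).toNat ≤ (F q).toNat
    omega
  · intro p
    have := hle p
    show (F p).toNat ≤ n
    omega
  · show (F r).toNat = 0
    rw [hFN r hr1']
    simp
  · show (F m).toNat = n
    rw [hFM m hm1']
    simp
  · funext p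
    show ((F p.1).toNat : ℤ) - (if IsMax p.1 then ((F b0).toNat : ℤ) else ((F a0).toNat : ℤ)) = z p
    rw [hcast, hcast, hcast]
    have hgp : g p.1 = z p := by
      simp only [g]
      rw [dif_pos p.2]
    have hga : g a0 = 0 := by
      simp only [g]
      rw [dif_neg]
      simp
    have hgb : g b0 = 0 := by
      simp only [g]
      rw [dif_neg]
      simp
    split_ifs with hp
    · rw [hFM _ hp, hFM _ hb, hgp, hgb]
      ring
    · rw [hFN _ hp, hFN _ ha, hgp, hga]
      ring

/-- the normal form is unique -/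
lemma map_unique (ha : ¬ IsMax a0) (hb : IsMax b0) (hiso : ∀ p : Q, IsMin p → ¬ IsMax p)
    (n : ℕ) (f f' : Q → ℕ)
    (hf : Monotone f ∧ (∀ p, f p ≤ n) ∧ (∃ a, f a = 0) ∧ ∃ b, f b = n)
    (hf' : Monotone f' ∧ (∀ p, f' p ≤ n) ∧ (∃ a, f' a = 0) ∧ ∃ b, f' b = n)
    (h : prj a0 b0 (fun p => (f p : ℤ)) = prj a0 b0 (fun p => (f' p : ℤ))) : f = f' := by
  have hzero : ∀ g : Q → ℕ, Monotone g → (∃ a, g a = 0) → ∃ a, ¬ IsMax a ∧ g a = 0 := by
    rintro g hg ⟨a, ha⟩
    by_cases h1 : IsMax a
    · have h2 : ¬ IsMin a := fun h => hiso a h h1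
      rw [not_isMin_iff] at h2
      obtain ⟨q, hq⟩ := h2
      refine ⟨q, fun h => absurd hq (h.not_lt), ?_⟩
      have := hg (le_of_lt hq)
      omega
    · exact ⟨a, h1, ha⟩
  have hmax : ∀ g : Q → ℕ, Monotone g → (∀ p, g p ≤ n) → (∃ b, g b = n) →
      ∃ b, IsMax b ∧ g b = n := by
    rintro g hg hgn ⟨b, hb⟩
    obtain ⟨q, hpq, hq⟩ := Finite.exists_le_maximal (p := fun _ : Q => True) (a := b) trivial
    have hq' : IsMax q := by
      intro c hc
      exact hq.2 trivial hc
    refine ⟨q, hq', ?_⟩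
    have h1 := hg hpq
    have h2 := hgn q
    omega
  have hN : ∀ p, ¬ IsMax p → (f p : ℤ) - f a0 = (f' p : ℤ) - f' a0 := by
    intro p hp
    by_cases h1 : p = a0
    · subst h1; ring
    · have h2 : p ≠ b0 := by
        rintro rfl
        exact hp hb
      have h3 := congrFun h ⟨p, h1, h2⟩
      unfold prj at h3
      simpa [hp] using h3
  have hM : ∀ p, IsMax p → (f p : ℤ) - f b0 = (f' p : ℤ) - f' b0 := by
    intro p hp
    by_cases h1 : p = b0
    · subst h1; ring
    · have h2 : p ≠ a0 := by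
        rintro rfl
        exact ha hp
      have h3 := congrFun h ⟨p, h2, h1⟩
      unfold prj at h3
      simpa [hp] using h3
  obtain ⟨r, hr, hr0⟩ := hzero f hf.1 hf.2.2.1
  obtain ⟨r', hr', hr0'⟩ := hzero f' hf'.1 hf'.2.2.1
  obtain ⟨m, hm, hmn⟩ := hmax f hf.1 hf.2.1 hf.2.2.2
  obtain ⟨m', hm', hmn'⟩ := hmax f' hf'.1 hf'.2.1 hf'.2.2.2
  have hs : (f a0 : ℤ) = f' a0 := by
    have h1 := hN r hr
    have h2 := hN r' hr'
    rw [hr0] at h1
    rw [hr0'] at h2
    push_cast at h1 h2
    have h3 : (0 : ℤ) ≤ f' r := Int.natCast_nonneg _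
    have h4 : (0 : ℤ) ≤ f r' := Int.natCast_nonneg _
    linarith
  have ht : (f b0 : ℤ) = f' b0 := by
    have h1 := hM m hm
    have h2 := hM m' hm'
    rw [hmn] at h1
    rw [hmn'] at h2
    have h3 : (f' m : ℤ) ≤ n := by exact_mod_cast hf'.2.1 m
    have h4 : (f m' : ℤ) ≤ n := by exact_mod_cast hf.2.1 m'
    linarith
  funext p
  by_cases hp : IsMax p
  · have := hM p hp
    omega
  · have := hN p hp
    omega

/-- **Posets without isolated points**: the lattice points of the dilates. -/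
noncomputable def baseEquiv (ha : ¬ IsMax a0) (hb : IsMax b0)
    (hiso : ∀ p : Q, IsMin p → ¬ IsMax p) (n : ℕ) :
    EET Q n ≃ LatT (latPoly (SS a0 b0)) n :=
  Equiv.ofBijective (fun f => ⟨prj a0 b0 (fun p => (f.1 p : ℤ)),
      mem_of_map a0 b0 f.1 f.2.1 n f.2.2.1⟩)
    ⟨fun f f' h => Subtype.ext (map_unique a0 b0 ha hb hiso n f.1 f'.1 f.2 f'.2
        (congrArg Subtype.val h)),
      fun z => by
        obtain ⟨f, hf, hfz⟩ := exists_map a0 b0 ha hb hiso n z.1 z.2
        exact ⟨⟨f, hf⟩, Subtype.ext hfz⟩⟩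

lemma span_SS : Submodule.span ℝ (rl '' (SS a0 b0 : Set (Ix a0 b0 → ℤ))) = ⊤ := by
  rw [eq_top_iff]
  have h1 : ∀ p : Ix a0 b0, (Pi.single p (1 : ℝ) : Ix a0 b0 → ℝ) ∈
      Submodule.span ℝ (rl '' (SS a0 b0 : Set (Ix a0 b0 → ℤ))) := by
    intro p
    have hU1 : IsUpperSet ((Finset.univ.filter (fun q : Q => p.1 ≤ q) : Finset Q) : Set Q) := by
      intro a b hab ha
      simp only [Finset.coe_filter, Finset.mem_univ, true_and, Set.mem_ofPred_eq] at ha ⊢
      exact le_trans ha hab
    have hU2 : IsUpperSet ((Finset.univ.filter (fun q : Q => p.1 < q) : Finset Q) : Set Q) := by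
      intro a b hab ha
      simp only [Finset.coe_filter, Finset.mem_univ, true_and, Set.mem_ofPred_eq] at ha ⊢
      exact lt_of_lt_of_le ha hab
    have h2 : (Pi.single p (1 : ℝ) : Ix a0 b0 → ℝ)
        = rl (prj a0 b0 (ind (Finset.univ.filter (fun q : Q => p.1 ≤ q))))
          - rl (prj a0 b0 (ind (Finset.univ.filter (fun q : Q => p.1 < q)))) := by
      have hd : ∀ q : Q, ((ind (Finset.univ.filter (fun q : Q => p.1 ≤ q)) q : ℤ) : ℝ)
          - (ind (Finset.univ.filter (fun q : Q => p.1 < q)) q : ℤ) = if q = p.1 then 1 else 0 := by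
        intro q
        unfold ind
        simp only [Finset.mem_filter, Finset.mem_univ, true_and]
        by_cases hq : q = p.1
        · simp [hq]
        · have : (p.1 ≤ q) ↔ (p.1 < q) := by
            rw [lt_iff_le_and_ne]
            exact ⟨fun h => ⟨h, fun h' => hq h'.symm⟩, fun h => h.1⟩
          simp only [this, hq, if_false]
          ring
      funext q
      have h3 : (rl (prj a0 b0 (ind (Finset.univ.filter (fun q : Q => p.1 ≤ q))))
          - rl (prj a0 b0 (ind (Finset.univ.filter (fun q : Q => p.1 < q))))) q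
          = (((ind (Finset.univ.filter (fun q : Q => p.1 ≤ q)) q.1 : ℤ) : ℝ)
            - (ind (Finset.univ.filter (fun q : Q => p.1 < q)) q.1 : ℤ))
            - (if IsMax q.1 then
                (((ind (Finset.univ.filter (fun q : Q => p.1 ≤ q)) b0 : ℤ) : ℝ)
                  - (ind (Finset.univ.filter (fun q : Q => p.1 < q)) b0 : ℤ))
              else
                (((ind (Finset.univ.filter (fun q : Q => p.1 ≤ q)) a0 : ℤ) : ℝ)
                  - (ind (Finset.univ.filter (fun q : Q => p.1 < q)) a0 : ℤ))) := by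
        rw [Pi.sub_apply]
        unfold rl prj
        split_ifs <;> push_cast <;> ring
      rw [h3, hd, hd, hd]
      have hpa : ¬ a0 = p.1 := fun h => p.2.1 h.symm
      have hpb : ¬ b0 = p.1 := fun h => p.2.2 h.symm
      rw [if_neg hpa, if_neg hpb]
      rw [Pi.single_apply]
      by_cases hq : q = p
      · subst hq; simp
      · have : ¬ q.1 = p.1 := fun h => hq (Subtype.ext h)
        simp [hq, this]
    rw [h2]
    exact Submodule.sub_mem _ (Submodule.subset_span ⟨_, mem_SS a0 b0 _ hU1, rfl⟩)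
      (Submodule.subset_span ⟨_, mem_SS a0 b0 _ hU2, rfl⟩)
  intro x _
  have h3 : x = ∑ p : Ix a0 b0, x p • (Pi.single p (1 : ℝ) : Ix a0 b0 → ℝ) := by
    funext q
    rw [Finset.sum_apply]
    simp [Pi.single_apply]
  rw [h3]
  exact Submodule.sum_mem _ (fun p _ => Submodule.smul_mem _ _ (h1 p))

omit [PartialOrder Q] in
lemma card_Ix (h : a0 ≠ b0) : Fintype.card (Ix a0 b0) = Fintype.card Q - 2 := by
  rw [Fintype.card_subtype]
  have h1 : (Finset.univ.filter (fun p : Q => p ≠ a0 ∧ p ≠ b0)) = Finset.univ \ {a0, b0} := by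
    ext p
    simp
  rw [h1, Finset.card_sdiff_of_subset (Finset.subset_univ _), Finset.card_univ,
    Finset.card_pair h]

end Base

/-- There is a lattice polytope (containing the origin among its spanning points) of dimension
`|Q| - 2` whose `n`-th dilate has as many lattice points as there are order preserving maps
`Q → {0, …, n}` with minimum `0` and maximum `n`. -/
def Good (Q : Type) [Fintype Q] [PartialOrder Q] : Prop :=
  ∃ (ι : Type) (_ : Fintype ι) (S : Finset (ι → ℤ)), (0 : ι → ℤ) ∈ S ∧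
    Module.finrank ℝ (Submodule.span ℝ (rl '' (S : Set (ι → ℤ)))) = Fintype.card Q - 2 ∧
    ∀ n, Finite (LatT (latPoly S) n) ∧ Nat.card (LatT (latPoly S) n) = ee Q n

lemma good_base (Q : Type) [Fintype Q] [PartialOrder Q] (hne : Nonempty Q)
    (hiso : ∀ p : Q, IsMin p → ¬ IsMax p) : Good Q := by
  obtain ⟨q⟩ := hne
  obtain ⟨b0, _, hb0⟩ := Finite.exists_le_maximal (p := fun _ : Q => True) (a := q) trivial
  have hb : IsMax b0 := by
    intro c hc
    exact hb0.2 trivial hc
  have h1 : ¬ IsMin b0 := fun h => hiso b0 h hb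
  rw [not_isMin_iff] at h1
  obtain ⟨a0, ha0⟩ := h1
  have ha : ¬ IsMax a0 := fun h => absurd ha0 (h.not_lt)
  refine ⟨Ix a0 b0, inferInstance, SS a0 b0, zero_mem_SS a0 b0, ?_, ?_⟩
  · rw [span_SS, finrank_top, Module.finrank_fintype_fun_eq_card, card_Ix a0 b0 (ne_of_lt ha0)]
  · intro n
    have e := baseEquiv a0 b0 ha hb hiso n
    exact ⟨Finite.of_equiv _ e, (Nat.card_congr e).symm⟩

lemma good_all : ∀ (N : ℕ) (Q : Type) [Fintype Q] [PartialOrder Q], Fintype.card Q = N →
    (∃ a b : Q, a < b) → Good Q := by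
  intro N
  induction N with
  | zero =>
    intro Q _ _ hN ⟨a, _, _⟩
    exact (Fintype.card_eq_zero_iff.mp hN).elim a
  | succ N ih =>
    intro Q _ _ hN hab
    obtain ⟨a, b, hab⟩ := hab
    by_cases hiso : ∀ p : Q, IsMin p → ¬ IsMax p
    · exact good_base Q ⟨a⟩ hiso
    · push Not at hiso
      obtain ⟨e, he1, he2⟩ := hiso
      have h1 : ∀ p, p ≤ e → p = e := fun p hp => le_antisymm hp (he1 hp)
      have h2 : ∀ p, e ≤ p → p = e := fun p hp => le_antisymm (he2 hp) hp
      have hae : a ≠ e := by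
        rintro rfl
        exact absurd (h2 b (le_of_lt hab)) (ne_of_gt hab)
      have hbe : b ≠ e := by
        rintro rfl
        exact absurd (h1 a (le_of_lt hab)) (ne_of_lt hab)
      have hcard : Fintype.card {p : Q // p ≠ e} = N := by
        rw [Fintype.card_subtype_compl, Fintype.card_subtype_eq, hN]
        rfl
      have hlt : (⟨a, hae⟩ : {p : Q // p ≠ e}) < ⟨b, hbe⟩ := hab
      have hne : Nonempty {p : Q // p ≠ e} := ⟨⟨a, hae⟩⟩
      have hN2 : 2 ≤ N := by
        rw [← hcard]
        have : 1 < Fintype.card {p : Q // p ≠ e} := by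
          rw [Fintype.one_lt_card_iff]
          exact ⟨_, _, ne_of_lt hlt⟩
        exact this
      obtain ⟨ι, hι, S, h0, hdim, hcount⟩ := ih {p : Q // p ≠ e} hcard ⟨_, _, hlt⟩
      refine ⟨Option ι, inferInstance, splus S, ?_, ?_, ?_⟩
      · rw [mem_splus]
        left
        funext o
        cases o <;> rfl
      · rw [span_splus, finrank_comap_rsome, hdim, hcard, hN]
        omega
      · intro n
        obtain ⟨hf, hc⟩ := card_splus S h0 (fun n => (hcount n).1) n
        refine ⟨hf, ?_⟩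
        rw [hc, ee_isolated Q e h1 h2 n, (hcount n).2]
        congr 2
        apply Finset.sum_congr rfl
        intro m _
        exact (hcount m).2

/-! ## Generating functions -/

section GF

open PowerSeries

lemma one_sub_mul_mk (u v : ℕ → ℤ) (h0 : u 0 = v 0) (hs : ∀ n, u (n + 1) = v (n + 1) + u n) :
    (1 - (X : PowerSeries ℤ)) * PowerSeries.mk u = PowerSeries.mk v := by
  ext n
  rw [sub_mul, one_mul, map_sub]
  cases n with
  | zero => simp [h0]
  | succ n =>
    rw [mul_comm X (PowerSeries.mk u), PowerSeries.coeff_succ_mul_X]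
    simp only [PowerSeries.coeff_mk]
    rw [hs]; ring

lemma ee_gf (Q : Type) [Fintype Q] [PartialOrder Q] [Nonempty Q] :
    PowerSeries.mk (fun n => (ee Q n : ℤ))
      = (1 - (X : PowerSeries ℤ)) ^ 2 * PowerSeries.mk (fun n => (om Q n : ℤ)) := by
  have h1 := one_sub_mul_mk (fun n => (om Q n : ℤ)) (fun n => (e1 Q n : ℤ))
    (by simp [om_zero, e1_zero]) (fun n => by rw [om_succ]; push_cast; ring)
  have h2 := one_sub_mul_mk (fun n => (e1 Q n : ℤ)) (fun n => (ee Q n : ℤ))
    (by simp [ee_zero, e1_zero]) (fun n => by rw [e1_succ]; push_cast; ring)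
  rw [pow_two, mul_assoc, h1, h2]

/-- `∑ C(n,k) zⁿ = z^k / (1-z)^{k+1}` -/
lemma choose_gf (k : ℕ) : (1 - (X : PowerSeries ℤ)) ^ (k + 1) *
    PowerSeries.mk (fun n => (n.choose k : ℤ)) = X ^ k := by
  induction k with
  | zero =>
    have := PowerSeries.mk_one_mul_one_sub_eq_one ℤ
    rw [mul_comm] at this
    simp only [zero_add, pow_one, pow_zero, Nat.choose_zero_right, Nat.cast_one]
    exact this
  | succ k ih =>
    have h1 : (1 - (X : PowerSeries ℤ)) * PowerSeries.mk (fun n => (n.choose (k + 1) : ℤ))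
        = X * PowerSeries.mk (fun n => (n.choose k : ℤ)) := by
      ext n
      rw [sub_mul, one_mul, map_sub]
      cases n with
      | zero => simp
      | succ n =>
        rw [mul_comm X, mul_comm X, PowerSeries.coeff_succ_mul_X, PowerSeries.coeff_succ_mul_X]
        simp only [PowerSeries.coeff_mk]
        rw [Nat.choose_succ_succ]
        push_cast
        ring
    calc (1 - (X : PowerSeries ℤ)) ^ (k + 1 + 1) * PowerSeries.mk (fun n => (n.choose (k + 1) : ℤ))
        = (1 - (X : PowerSeries ℤ)) ^ (k + 1)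
          * ((1 - (X : PowerSeries ℤ)) * PowerSeries.mk (fun n => (n.choose (k + 1) : ℤ))) := by ring
      _ = X * ((1 - (X : PowerSeries ℤ)) ^ (k + 1) * PowerSeries.mk (fun n => (n.choose k : ℤ))) := by
          rw [h1]; ring
      _ = X ^ (k + 1) := by rw [ih]; ring

lemma choose_succ_gf (k : ℕ) : (1 - (X : PowerSeries ℤ)) ^ (k + 2) *
    PowerSeries.mk (fun n => ((n + 1).choose (k + 1) : ℤ)) = X ^ k := by
  have h1 : (1 - (X : PowerSeries ℤ)) * PowerSeries.mk (fun n => ((n + 1).choose (k + 1) : ℤ))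
      = PowerSeries.mk (fun n => (n.choose k : ℤ)) := by
    apply one_sub_mul_mk
    · cases k <;> simp [Nat.choose]
    · intro n
      rw [Nat.choose_succ_succ (n + 1) k]
      push_cast
      ring
  calc (1 - (X : PowerSeries ℤ)) ^ (k + 2) * PowerSeries.mk (fun n => ((n + 1).choose (k + 1) : ℤ))
      = (1 - (X : PowerSeries ℤ)) ^ (k + 1)
        * ((1 - (X : PowerSeries ℤ)) * PowerSeries.mk (fun n => ((n + 1).choose (k + 1) : ℤ))) := by
        ring
    _ = X ^ k := by rw [h1, choose_gf]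

lemma om_eq (Q : Type) [Fintype Q] [PartialOrder Q] (n : ℕ) :
    om Q n = (mono Q (n + 1)).card := by
  unfold om
  rw [← Fintype.card_coe, ← Nat.card_eq_fintype_card]
  apply Nat.card_congr
  exact
    { toFun := fun f => ⟨fun p => ⟨f.1 p, Nat.lt_succ_of_le (f.2.2 p)⟩, by
        rw [mem_mono]
        intro a b hab
        exact f.2.1 hab⟩
      invFun := fun g => ⟨fun p => (g.1 p : ℕ), by
        have hg := (mem_mono (n + 1) g.1).mp g.2
        exact ⟨fun a b hab => hg hab, fun p => Nat.lt_succ_iff.mp (g.1 p).2⟩⟩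
      left_inv := fun f => rfl
      right_inv := fun g => rfl }

/-- the `h*`-polynomial of the order polytope exists -/
lemma exists_hstar (Q : Type) [Fintype Q] [PartialOrder Q] :
    ∃ h : Polynomial ℤ, PowerSeries.mk (fun n => (om Q n : ℤ)) *
      (1 - (X : PowerSeries ℤ)) ^ (Fintype.card Q + 1) = (h : PowerSeries ℤ) := by
  set d := Fintype.card Q with hd
  let c : ℕ → Polynomial ℤ := fun k => match k with
    | 0 => (1 - Polynomial.X) ^ d
    | k + 1 => Polynomial.X ^ k * (1 - Polynomial.X) ^ (d - (k + 1))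
  refine ⟨∑ k ∈ Finset.range (d + 1), Polynomial.C ((surj Q k).card : ℤ) * c k, ?_⟩
  have h1 : PowerSeries.mk (fun n => (om Q n : ℤ)) = ∑ k ∈ Finset.range (d + 1),
      PowerSeries.C ((surj Q k).card : ℤ) * PowerSeries.mk (fun n => ((n + 1).choose k : ℤ)) := by
    ext n
    rw [map_sum, PowerSeries.coeff_mk, om_eq, card_mono']
    push_cast
    apply Finset.sum_congr rfl
    intro k _
    rw [PowerSeries.coeff_C_mul, PowerSeries.coeff_mk]
    ring
  have h2 : ((∑ k ∈ Finset.range (d + 1), Polynomial.C ((surj Q k).card : ℤ) * c k :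
      Polynomial ℤ) : PowerSeries ℤ) = ∑ k ∈ Finset.range (d + 1),
      ((Polynomial.C ((surj Q k).card : ℤ) * c k : Polynomial ℤ) : PowerSeries ℤ) :=
    map_sum (Polynomial.coeToPowerSeries.ringHom (R := ℤ))
      (fun k => Polynomial.C ((surj Q k).card : ℤ) * c k) (Finset.range (d + 1))
  rw [h1, h2, Finset.sum_mul]
  apply Finset.sum_congr rfl
  intro k hk
  rw [Finset.mem_range] at hk
  rw [Polynomial.coe_mul, Polynomial.coe_C]
  cases k with
  | zero =>
    have h3 : (1 - (X : PowerSeries ℤ)) ^ 1 * PowerSeries.mk (fun n => ((n + 1).choose 0 : ℤ)) = 1 := by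
      have := choose_gf 0
      simpa using this
    simp only [c]
    rw [Polynomial.coe_pow, Polynomial.coe_sub, Polynomial.coe_one, Polynomial.coe_X]
    calc PowerSeries.C ((surj Q 0).card : ℤ) * PowerSeries.mk (fun n => ((n + 1).choose 0 : ℤ))
          * (1 - (X : PowerSeries ℤ)) ^ (d + 1)
        = PowerSeries.C ((surj Q 0).card : ℤ) * (1 - (X : PowerSeries ℤ)) ^ d
          * ((1 - (X : PowerSeries ℤ)) ^ 1 * PowerSeries.mk (fun n => ((n + 1).choose 0 : ℤ))) := by
          ring
      _ = _ := by rw [h3, mul_one]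
  | succ k =>
    have h3 := choose_succ_gf k
    simp only [c]
    rw [Polynomial.coe_mul, Polynomial.coe_pow, Polynomial.coe_pow, Polynomial.coe_sub,
      Polynomial.coe_one, Polynomial.coe_X]
    have h4 : d + 1 = (k + 2) + (d - (k + 1)) := by omega
    rw [h4]
    have h5 : (k + 2) + (d - (k + 1)) - 1 = d := by omega
    calc PowerSeries.C ((surj Q (k + 1)).card : ℤ)
          * PowerSeries.mk (fun n => ((n + 1).choose (k + 1) : ℤ))
          * (1 - (X : PowerSeries ℤ)) ^ ((k + 2) + (d - (k + 1)))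
        = PowerSeries.C ((surj Q (k + 1)).card : ℤ) * (1 - (X : PowerSeries ℤ)) ^ (d - (k + 1))
          * ((1 - (X : PowerSeries ℤ)) ^ (k + 2)
            * PowerSeries.mk (fun n => ((n + 1).choose (k + 1) : ℤ))) := by
          rw [pow_add]; ring
      _ = PowerSeries.C ((surj Q (k + 1)).card : ℤ)
          * (X ^ k * (1 - (X : PowerSeries ℤ)) ^ (d - (k + 1))) := by
          rw [h3]; ring

end GF

/-! ## Conclusion -/

lemma ncard_orderPolytope (Q : Type) [Fintype Q] [PartialOrder Q] (n : ℕ) :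
    Set.ncard {z : Q → ℤ | (fun a => (z a : ℝ)) ∈ (n : ℝ) • orderPolytope Q} = om Q n := by
  rw [om_eq]
  exact latticeCount_eq n

lemma finrank_vectorSpan {ι : Type} [Fintype ι] (S : Finset (ι → ℤ)) (h0 : (0 : ι → ℤ) ∈ S) :
    Module.finrank ℝ (vectorSpan ℝ (latPoly S))
      = Module.finrank ℝ (Submodule.span ℝ (rl '' (S : Set (ι → ℤ)))) := by
  have hzero : rl (0 : ι → ℤ) = 0 := by funext i; simp [rl]
  have h1 : vectorSpan ℝ (latPoly S) = vectorSpan ℝ (rl '' (S : Set (ι → ℤ))) := by
    unfold latPoly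
    rw [← direction_affineSpan, affineSpan_convexHull, direction_affineSpan]
  rw [h1]
  have h2 : (0 : ι → ℝ) ∈ rl '' (S : Set (ι → ℤ)) := ⟨0, h0, hzero⟩
  rw [vectorSpan_eq_span_vsub_set_right ℝ h2]
  have h3 : (fun x : ι → ℝ => x -ᵥ (0 : ι → ℝ)) '' (rl '' (S : Set (ι → ℤ)))
      = rl '' (S : Set (ι → ℤ)) := by
    rw [Set.image_congr (g := fun x => x) (fun x _ => by rw [vsub_eq_sub, sub_zero])]
    exact Set.image_id' _
  rw [h3]

end Pool.Agent.R135.OPDim
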