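import Mathlib

set_option autoImplicit false
open scoped Pointwise


namespace Pool.Agent.R135.Oct

/-- The six vertices `e_i`, `e_i + e_j` of the octahedron (the image of the hypersimplex
`Δ_{2,4}` under the projection to the first three coordinates). -/
def V : Finset (Fin 3 → ℤ) :=
  {![1, 0, 0], ![0, 1, 0], ![0, 0, 1], ![1, 1, 0], ![1, 0, 1], ![0, 1, 1]}

/-- Cyclic permutation matrices. -/
def fm : ZMod 3 → Matrix (Fin 3) (Fin 3) ℤ :=
  ![1, !![0, 0, 1; 1, 0, 0; 0, 1, 0], !![0, 1, 0; 0, 0, 1; 1, 0, 0]]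

/-- The group homomorphism to matrices. -/
def f : Multiplicative (ZMod 3) →* Matrix (Fin 3) (Fin 3) ℤ where
  toFun g := fm (Multiplicative.toAdd g)
  map_one' := rfl
  map_mul' := by
    intro a b
    have h : ∀ a b : ZMod 3, fm (a + b) = fm a * fm b := by decide
    exact h _ _

/-- The embedding of integer vectors into real vectors. -/
def emb (v : Fin 3 → ℤ) : Fin 3 → ℝ := fun j => ((v j : ℤ) : ℝ)

/-- The octahedron. -/
def P : Set (Fin 3 → ℝ) :=
  convexHull ℝ ((fun v : Fin 3 → ℤ => fun j => ((v j : ℤ) : ℝ)) '' (V : Set (Fin 3 → ℤ)))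

lemma V_nonempty : V.Nonempty := ⟨![1, 0, 0], by decide⟩

lemma V_inv : ∀ g : Multiplicative (ZMod 3), ∀ v ∈ V, Matrix.mulVec (f g) v ∈ V := by
  have h : ∀ g : ZMod 3, ∀ v ∈ V, Matrix.mulVec (fm g) v ∈ V := by decide
  exact fun g v hv => h _ v hv

lemma convex_P : Convex ℝ P := convex_convexHull ℝ _

lemma emb_mem_P {v : Fin 3 → ℤ} (hv : v ∈ V) : emb v ∈ P :=
  subset_convexHull ℝ _ ⟨v, hv, rfl⟩

lemma P_nonempty : P.Nonempty := ⟨_, emb_mem_P V_nonempty.choose_spec⟩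

lemma P_subset : P ⊆ {y : Fin 3 → ℝ | (∀ i, 0 ≤ y i ∧ y i ≤ 1) ∧ 1 ≤ y 0 + y 1 + y 2 ∧
    y 0 + y 1 + y 2 ≤ 2} := by
  apply convexHull_min
  · rintro _ ⟨v, hv, rfl⟩
    have hv' : v ∈ V := hv
    simp only [V, Finset.mem_insert, Finset.mem_singleton] at hv'
    rcases hv' with rfl | rfl | rfl | rfl | rfl | rfl <;>
    · refine ⟨?_, ?_, ?_⟩
      · intro i; fin_cases i <;> simp
      · simp <;> norm_num
      · simp <;> norm_num
  · rintro x ⟨hx, hx1, hx2⟩ y ⟨hy, hy1, hy2⟩ a b ha hb hab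
    refine ⟨fun i => ⟨?_, ?_⟩, ?_, ?_⟩
    · have h1 := (hx i).1; have h2 := (hy i).1
      simp only [Pi.add_apply, Pi.smul_apply, smul_eq_mul]
      positivity
    · have h1 := (hx i).2; have h2 := (hy i).2
      simp only [Pi.add_apply, Pi.smul_apply, smul_eq_mul]
      nlinarith
    · simp only [Pi.add_apply, Pi.smul_apply, smul_eq_mul]
      nlinarith
    · simp only [Pi.add_apply, Pi.smul_apply, smul_eq_mul]
      nlinarith

lemma step (m a b c : ℤ) (hm : 0 ≤ m) (h0 : 0 ≤ a ∧ a ≤ m + 1) (h1 : 0 ≤ b ∧ b ≤ m + 1)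
    (h2 : 0 ≤ c ∧ c ≤ m + 1) (h3 : m + 1 ≤ a + b + c) (h4 : a + b + c ≤ 2 * (m + 1)) :
    ∃ v ∈ V, (0 ≤ a - v 0 ∧ a - v 0 ≤ m) ∧ (0 ≤ b - v 1 ∧ b - v 1 ≤ m) ∧
      (0 ≤ c - v 2 ∧ c - v 2 ≤ m) ∧ m ≤ (a - v 0) + (b - v 1) + (c - v 2) ∧
      (a - v 0) + (b - v 1) + (c - v 2) ≤ 2 * m := by
  by_cases h : a + b + c ≤ 2 * m + 1
  · by_cases ha : b ≤ a ∧ c ≤ a
    · refine ⟨![1, 0, 0], by decide, ?_⟩
      simp; omega
    · by_cases hb : c ≤ b
      · refine ⟨![0, 1, 0], by decide, ?_⟩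
        simp; omega
      · refine ⟨![0, 0, 1], by decide, ?_⟩
        simp; omega
  · by_cases ha : a ≤ b ∧ a ≤ c
    · refine ⟨![0, 1, 1], by decide, ?_⟩
      simp; omega
    · by_cases hb : b ≤ c
      · refine ⟨![1, 0, 1], by decide, ?_⟩
        simp; omega
      · refine ⟨![1, 1, 0], by decide, ?_⟩
        simp; omega

lemma mem_of_ineq (m : ℕ) : ∀ x : Fin 3 → ℤ, (∀ i, 0 ≤ x i ∧ x i ≤ m) →
    (m : ℤ) ≤ x 0 + x 1 + x 2 → x 0 + x 1 + x 2 ≤ 2 * m → emb x ∈ (m : ℝ) • P := by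
  induction m with
  | zero =>
    intro x hx _ _
    have : emb x = 0 := by
      funext i
      have h1 := hx i
      have h2 : x i = 0 := by
        have h3 := h1.1; have h4 := h1.2
        simp at h4
        omega
      simp [emb, h2]
    rw [this, Nat.cast_zero, Set.zero_smul_set P_nonempty]
    rfl
  | succ m ih =>
    intro x hx h1 h2
    push_cast at h1 h2
    obtain ⟨v, hv, a1, a2, a3, a4, a5⟩ := step m (x 0) (x 1) (x 2) (by positivity)
      (by have := hx 0; push_cast at this; exact this)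
      (by have := hx 1; push_cast at this; exact this)
      (by have := hx 2; push_cast at this; exact this) h1 h2
    have h3 := ih (x - v) (by
      intro i
      fin_cases i
      · exact a1
      · exact a2
      · exact a3) a4 a5
    rw [Nat.cast_succ, convex_P.add_smul (Nat.cast_nonneg m) zero_le_one, one_smul]
    refine ⟨emb (x - v), h3, emb v, emb_mem_P hv, ?_⟩
    funext i
    simp [emb]

lemma mem_iff (m : ℕ) (x : Fin 3 → ℤ) :
    (fun j => ((x j : ℤ) : ℝ)) ∈ (m : ℝ) • P ↔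
      (∀ i, 0 ≤ x i ∧ x i ≤ m) ∧ (m : ℤ) ≤ x 0 + x 1 + x 2 ∧ x 0 + x 1 + x 2 ≤ 2 * m := by
  constructor
  · rintro ⟨y, hy, hyx⟩
    obtain ⟨h1, h2, h3⟩ := P_subset hy
    have hc : ∀ i, ((x i : ℤ) : ℝ) = m * y i := fun i => by
      have := congrFun hyx i
      simpa using this.symm
    have hm : (0 : ℝ) ≤ m := Nat.cast_nonneg m
    refine ⟨fun i => ⟨?_, ?_⟩, ?_, ?_⟩
    · have : (0 : ℝ) ≤ ((x i : ℤ) : ℝ) := by
        rw [hc i]; exact mul_nonneg hm (h1 i).1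
      exact_mod_cast this
    · have : ((x i : ℤ) : ℝ) ≤ m := by
        rw [hc i]; nlinarith [(h1 i).2]
      exact_mod_cast this
    · have : (m : ℝ) ≤ ((x 0 : ℤ) : ℝ) + ((x 1 : ℤ) : ℝ) + ((x 2 : ℤ) : ℝ) := by
        rw [hc 0, hc 1, hc 2]; nlinarith
      exact_mod_cast this
    · have : ((x 0 : ℤ) : ℝ) + ((x 1 : ℤ) : ℝ) + ((x 2 : ℤ) : ℝ) ≤ 2 * m := by
        rw [hc 0, hc 1, hc 2]; nlinarith
      exact_mod_cast this
  · rintro ⟨h1, h2, h3⟩
    exact mem_of_ineq m x h1 h2 h3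

end Pool.Agent.R135.Oct
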