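import Pool.Agent.R135.Oct

set_option autoImplicit false
open scoped Pointwise

namespace Pool.Agent.R135.Oct

/-- lattice points of the dilated octahedron fixed by the matrix `M` -/
def fixedSet (M : Matrix (Fin 3) (Fin 3) ℤ) (m : ℕ) : Set (Fin 3 → ℤ) :=
  {x | (fun j => ((x j : ℤ) : ℝ)) ∈ (m : ℝ) • P ∧ Matrix.mulVec M x = x}

/-- The triples of natural numbers in the dilated octahedron. -/
def tri (m : ℕ) : Finset (ℕ × ℕ × ℕ) :=
  (Finset.range (m + 1) ×ˢ (Finset.range (m + 1) ×ˢ Finset.range (m + 1))).filter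
    fun t => m ≤ t.1 + t.2.1 + t.2.2 ∧ t.1 + t.2.1 + t.2.2 ≤ 2 * m

/-- triple to vector -/
def tv (t : ℕ × ℕ × ℕ) : Fin 3 → ℤ := ![(t.1 : ℤ), (t.2.1 : ℤ), (t.2.2 : ℤ)]

lemma tv_injective : Function.Injective tv := by
  rintro ⟨a, b, c⟩ ⟨a', b', c'⟩ h
  have h0 := congrFun h 0
  have h1 := congrFun h 1
  have h2 := congrFun h 2
  simp [tv] at h0 h1 h2
  simp [h0, h1, h2]

lemma fixedSet_one (m : ℕ) : fixedSet 1 m = tv '' (tri m : Set (ℕ × ℕ × ℕ)) := by
  ext x
  simp only [fixedSet, Set.mem_ofPred_eq, Matrix.one_mulVec, and_true, mem_iff, Set.mem_image,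
    Finset.mem_coe, tri, Finset.mem_filter, Finset.mem_product, Finset.mem_range]
  constructor
  · rintro ⟨h1, h2, h3⟩
    have a0 := h1 0
    have a1 := h1 1
    have a2 := h1 2
    refine ⟨((x 0).toNat, (x 1).toNat, (x 2).toNat), ?_, ?_⟩
    · simp only
      omega
    · funext i
      fin_cases i
      · simp [tv]; omega
      · simp [tv]; omega
      · simp [tv]; omega
  · rintro ⟨⟨a, b, c⟩, ⟨⟨h0, h1, h2⟩, h3, h4⟩, rfl⟩
    simp only at h0 h1 h2 h3 h4
    refine ⟨?_, ?_, ?_⟩
    · intro i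
      fin_cases i
      · simp [tv]; omega
      · simp [tv]; omega
      · simp [tv]; omega
    · simp [tv]; omega
    · simp [tv]; omega

lemma inner_count (m a b : ℕ) (ha : a ≤ m) (hb : b ≤ m) :
    ∑ c ∈ Finset.range (m + 1), (if m ≤ a + b + c ∧ a + b + c ≤ 2 * m then 1 else 0) =
      min m (2 * m - a - b) + 1 - (m - a - b) := by
  rw [← Finset.card_filter]
  have : (Finset.range (m + 1)).filter (fun c => m ≤ a + b + c ∧ a + b + c ≤ 2 * m) =
      Finset.Icc (m - a - b) (min m (2 * m - a - b)) := by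
    ext c
    simp only [Finset.mem_filter, Finset.mem_range, Finset.mem_Icc, le_min_iff]
    omega
  rw [this, Nat.card_Icc]

/-- the sum of the distances -/
def S (n : ℕ) : ℤ := ∑ a ∈ Finset.range n, ∑ b ∈ Finset.range n, |(a : ℤ) - b|

lemma sum_dist (n : ℕ) : 2 * ∑ b ∈ Finset.range n, |(n : ℤ) - b| = n * (n + 1) := by
  have h : ∀ k n : ℕ, k ≤ n →
      2 * ∑ b ∈ Finset.range k, |(n : ℤ) - b| = k * (2 * n + 1 - k) := by
    intro k n
    induction k with
    | zero => intro _; simp
    | succ k ih =>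
      intro hk
      rw [Finset.sum_range_succ, mul_add, ih (by omega), abs_of_nonneg (by omega)]
      push_cast
      ring
  rw [h n n le_rfl]
  ring

lemma S_formula (n : ℕ) : 3 * S n = n ^ 3 - n := by
  induction n with
  | zero => simp [S]
  | succ n ih =>
    have h1 := sum_dist n
    have h2 : ∑ a ∈ Finset.range n, |(a : ℤ) - n| = ∑ b ∈ Finset.range n, |(n : ℤ) - b| :=
      Finset.sum_congr rfl fun b _ => abs_sub_comm _ _
    have : S (n + 1) = S n + 2 * ∑ b ∈ Finset.range n, |(n : ℤ) - b| := by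
      unfold S
      rw [Finset.sum_range_succ]
      simp only [Finset.sum_range_succ _ n, Finset.sum_add_distrib]
      rw [h2]
      simp
      ring
    rw [this, h1, mul_add, ih]
    push_cast
    ring

lemma tri_card (m : ℕ) : 3 * ((tri m).card : ℤ) = 2 * m ^ 3 + 6 * m ^ 2 + 7 * m + 3 := by
  have h1 : (tri m).card = ∑ a ∈ Finset.range (m + 1), ∑ b ∈ Finset.range (m + 1),
      (min m (2 * m - a - b) + 1 - (m - a - b)) := by
    unfold tri
    rw [Finset.card_filter, Finset.sum_product]
    refine Finset.sum_congr rfl fun a ha => ?_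
    rw [Finset.sum_product]
    refine Finset.sum_congr rfl fun b hb => ?_
    rw [Finset.mem_range] at ha hb
    exact inner_count m a b (by omega) (by omega)
  have h2 : ((tri m).card : ℤ) = ∑ a ∈ Finset.range (m + 1), ∑ b ∈ Finset.range (m + 1),
      ((m : ℤ) + 1 - |(a : ℤ) - b|) := by
    rw [h1]
    push_cast
    refine Finset.sum_congr rfl fun a ha => ?_
    rw [← Finset.sum_range_reflect]
    refine Finset.sum_congr rfl fun b hb => ?_
    rw [Finset.mem_range] at ha hb
    have e : m + 1 - 1 - b = m - b := by omega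
    rw [e]
    rcases le_total a b with h | h
    · rw [abs_of_nonpos (by omega)]
      omega
    · rw [abs_of_nonneg (by omega)]
      omega
  have h3 := S_formula (m + 1)
  rw [h2]
  simp only [Finset.sum_sub_distrib, Finset.sum_const, Finset.card_range]
  unfold S at h3
  push_cast at h3 ⊢
  simp only [nsmul_eq_mul]
  push_cast
  linear_combination -h3

/-- The number of lattice points of the dilated octahedron. -/
def c1 (m : ℕ) : ℤ := ((tri m).card : ℤ)

lemma ncard_one (m : ℕ) : ((fixedSet 1 m).ncard : ℤ) = c1 m := by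
  rw [fixedSet_one, Set.ncard_image_of_injective _ tv_injective, Set.ncard_coe_finset, c1]

/-- The number of fixed lattice points of a rotation of order three. -/
def c3 (m : ℕ) : ℤ := ((2 * m / 3 + 1 - (m + 2) / 3 : ℕ) : ℤ)

lemma fixedSet_rot (M : Matrix (Fin 3) (Fin 3) ℤ)
    (hM : ∀ x : Fin 3 → ℤ, Matrix.mulVec M x = x ↔ x 0 = x 1 ∧ x 1 = x 2) (m : ℕ) :
    ((fixedSet M m).ncard : ℤ) = c3 m := by
  have h : fixedSet M m = (fun a : ℕ => (fun _ : Fin 3 => (a : ℤ))) ''
      (Finset.Icc ((m + 2) / 3) (2 * m / 3) : Set ℕ) := by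
    ext x
    simp only [fixedSet, Set.mem_ofPred_eq, hM, mem_iff, Set.mem_image, Finset.mem_coe,
      Finset.mem_Icc]
    constructor
    · rintro ⟨⟨h1, h2, h3⟩, h4, h5⟩
      have a0 := h1 0
      refine ⟨(x 0).toNat, by omega, ?_⟩
      funext i
      fin_cases i
      · simp; omega
      · simp; omega
      · simp; omega
    · rintro ⟨a, ⟨h1, h2⟩, rfl⟩
      refine ⟨⟨?_, ?_, ?_⟩, rfl, rfl⟩
      · intro i; simp only; omega
      · simp only; omega
      · simp only; omega
  rw [h, Set.ncard_image_of_injective, Set.ncard_coe_finset, Nat.card_Icc, c3]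
  intro a b hab
  have := congrFun hab 0
  simpa using this

end Pool.Agent.R135.Oct
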