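import Mathlib

/-!
# Finite identities behind the interval-order q-series (MP_12a8d1_co)
-/

set_option autoImplicit false

namespace Pool.Agent.R135.QSer

/-- The `q`-Pochhammer symbol `(a; b)_n = ∏_{k < n} (1 - a b^k)`. -/
def poch {S : Type*} [CommRing S] (a b : S) (n : ℕ) : S :=
  ∏ k ∈ Finset.range n, (1 - a * b ^ k)

variable {S : Type*} [CommRing S]

theorem poch_zero (a b : S) : poch a b 0 = 1 := by simp [poch]

theorem poch_succ (a b : S) (n : ℕ) : poch a b (n + 1) = poch a b n * (1 - a * b ^ n) := by
  simp [poch, Finset.prod_range_succ]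

theorem poch_succ' (a b : S) (n : ℕ) : poch a b (n + 1) = (1 - a) * poch (a * b) b n := by
  unfold poch
  rw [Finset.prod_range_succ']
  simp only [pow_zero, mul_one]
  rw [mul_comm]
  congr 1
  apply Finset.prod_congr rfl
  intro k _
  ring

/-- summand of the right-hand side of (1) and (2) -/
def rterm (P qi : S) (n : ℕ) : S := (P * qi) ^ (n + 1) * poch qi qi n

/-- summand of the left-hand side of (2) -/
def aterm (P q : S) (n : ℕ) : S := P * q ^ n * poch P q n * poch q q n

/-- recursion for the right-hand side, `P` not necessarily invertible -/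
theorem rsum_rec (P q qi : S) (hq : q * qi = 1) (N : ℕ) :
    P * (∑ n ∈ Finset.range N, rterm P qi n) =
      P + (P - 1) * (∑ n ∈ Finset.range N, rterm (P * q) qi n) - P * (P ^ N * poch qi qi N) := by
  induction N with
  | zero => simp [poch_zero]
  | succ N ih =>
    rw [Finset.sum_range_succ, Finset.sum_range_succ, mul_add, mul_add, ih]
    have h1 : P * q * qi = P := by rw [mul_assoc, hq, mul_one]
    unfold rterm
    rw [h1, poch_succ]
    ring

/-- recursion for the right-hand side, `P` invertible -/
theorem rsum_rec' (P Pi q qi : S) (hP : P * Pi = 1) (hq : q * qi = 1) (N : ℕ) :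
    (∑ n ∈ Finset.range N, rterm P qi n) =
      1 + (1 - Pi) * (∑ n ∈ Finset.range N, rterm (P * q) qi n) - P ^ N * poch qi qi N := by
  have h := rsum_rec P q qi hq N
  have h2 := congrArg (fun x => Pi * x) h
  have h3 : Pi * P = 1 := by rw [mul_comm]; exact hP
  calc (∑ n ∈ Finset.range N, rterm P qi n)
      = (Pi * P) * (∑ n ∈ Finset.range N, rterm P qi n) := by rw [h3, one_mul]
    _ = Pi * (P * (∑ n ∈ Finset.range N, rterm P qi n)) := by ring
    _ = Pi * (P + (P - 1) * (∑ n ∈ Finset.range N, rterm (P * q) qi n) -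
          P * (P ^ N * poch qi qi N)) := h2
    _ = (Pi * P) + ((Pi * P) - Pi) * (∑ n ∈ Finset.range N, rterm (P * q) qi n) -
          (Pi * P) * (P ^ N * poch qi qi N) := by ring
    _ = _ := by rw [h3]; ring

theorem asum_aux (P q : S) (N : ℕ) :
    (∑ n ∈ Finset.range N, P * q ^ n * poch P q n * poch q q n) +
      (∑ n ∈ Finset.range N, q ^ (n + 1) * poch P q (n + 1) * poch q q n) =
      1 - poch P q N * poch q q N := by
  induction N with
  | zero => simp [poch_zero]
  | succ N ih =>
    rw [Finset.sum_range_succ, Finset.sum_range_succ]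
    have : (∑ n ∈ Finset.range N, P * q ^ n * poch P q n * poch q q n) +
      P * q ^ N * poch P q N * poch q q N +
      ((∑ n ∈ Finset.range N, q ^ (n + 1) * poch P q (n + 1) * poch q q n) +
      q ^ (N + 1) * poch P q (N + 1) * poch q q N) =
      ((∑ n ∈ Finset.range N, P * q ^ n * poch P q n * poch q q n) +
      (∑ n ∈ Finset.range N, q ^ (n + 1) * poch P q (n + 1) * poch q q n)) +
      (P * q ^ N * poch P q N * poch q q N + q ^ (N + 1) * poch P q (N + 1) * poch q q N) := by
      ring
    rw [this, ih, poch_succ P q N, poch_succ q q N]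
    ring

/-- recursion for the left-hand side of (2) -/
theorem asum_rec (P q : S) (N : ℕ) :
    P * (∑ n ∈ Finset.range N, aterm P q n) =
      P + (P - 1) * (∑ n ∈ Finset.range N, aterm (P * q) q n) -
        P * (poch P q N * poch q q N) := by
  have h := asum_aux P q N
  have h2 : (P - 1) * (∑ n ∈ Finset.range N, aterm (P * q) q n) =
      - P * (∑ n ∈ Finset.range N, q ^ (n + 1) * poch P q (n + 1) * poch q q n) := by
    rw [Finset.mul_sum, Finset.mul_sum]
    apply Finset.sum_congr rfl
    intro n _
    rw [poch_succ']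
    unfold aterm
    ring
  rw [h2]
  unfold aterm
  linear_combination P * h

/-- Iterating `rsum_rec'`. -/
theorem rsum_iter (P Pi q qi : S) (hP : P * Pi = 1) (hq : q * qi = 1) (N M : ℕ) :
    (∑ n ∈ Finset.range N, rterm P qi n) =
      (∑ n ∈ Finset.range M, poch Pi qi n) +
        poch Pi qi M * (∑ n ∈ Finset.range N, rterm (P * q ^ M) qi n) -
        (∑ i ∈ Finset.range M, poch Pi qi i * (P * q ^ i) ^ N) * poch qi qi N := by
  induction M with
  | zero => simp [poch_zero]
  | succ M ih =>
    have hPM : (P * q ^ M) * (Pi * qi ^ M) = 1 := by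
      calc (P * q ^ M) * (Pi * qi ^ M) = (P * Pi) * (q * qi) ^ M := by ring
        _ = 1 := by rw [hP, hq]; simp
    have h := rsum_rec' (P * q ^ M) (Pi * qi ^ M) q qi hPM hq N
    rw [ih, h, Finset.sum_range_succ, Finset.sum_range_succ, poch_succ]
    have : P * q ^ M * q = P * q ^ (M + 1) := by ring
    rw [this]
    ring

/-- If among any `k` consecutive factors one is in the ideal `I`, then `(a; b)_n ∈ I ^ M` for
`n ≥ k M`. -/
theorem poch_mem_pow (I : Ideal S) (a b : S) (k : ℕ)
    (h : ∀ i, ∃ j, i ≤ j ∧ j < i + k ∧ 1 - a * b ^ j ∈ I) (M : ℕ) :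
    ∀ n, k * M ≤ n → poch a b n ∈ I ^ M := by
  induction M with
  | zero => intro n _; simp
  | succ M ih =>
    intro n hn
    obtain ⟨j, hj1, hj2, hj3⟩ := h (k * M)
    have hjn : j < n := by
      have : k * (M + 1) = k * M + k := by ring
      omega
    have hjn' : j + 1 ≤ n := hjn
    have h1 : poch a b n = poch a b j * (1 - a * b ^ j) *
        (∏ i ∈ Finset.Ico (j + 1) n, (1 - a * b ^ i)) := by
      rw [← poch_succ]
      unfold poch
      rw [Finset.prod_range_mul_prod_Ico _ hjn']
    rw [h1, pow_succ]
    apply Ideal.mul_mem_right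
    exact Ideal.mul_mem_mul (ih j hj1) hj3

end Pool.Agent.R135.QSer
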