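import Pool.Agent.R135.SEPExist

/-!
# Counting lattice points of dilates with bit sets

The points of the ball of radius `k ≤ 4` in the lattice `Λ ⊂ ℤ^9` are encoded as bits of one
natural number (radix `9`), so that translation by an edge vector is a shift.
-/

set_option autoImplicit false
open Finset
open scoped Pointwise

namespace Pool.Agent.R135.SEP

/-! ## Population count -/

/-- bits at the multiples of `r` below `r q` -/
noncomputable def mask (r q : ℕ) : ℕ := ((1 <<< (r * q)) - 1) / (2 ^ r - 1)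

/-- partial population count -/
noncomputable def pcAux (md M N : ℕ) : ℕ → ℕ
  | 0 => 0
  | s + 1 => pcAux md M N s + ((N >>> s) &&& M) % md

/-- population count -/
noncomputable def pc (r q N : ℕ) : ℕ := pcAux (2 ^ r - 1) (mask r q) N r

lemma pcAux_eq (md M N : ℕ) (k : ℕ) :
    pcAux md M N k = ∑ s ∈ range k, ((N >>> s) &&& M) % md := by
  induction k with
  | zero => rfl
  | succ k ih => rw [pcAux, ih, Finset.sum_range_succ]

lemma testBit_sum_pow (T : Finset ℕ) (m : ℕ) :
    (∑ i ∈ T, 2 ^ i).testBit m = true ↔ m ∈ T := by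
  have h := Finset.toFinset_bitIndices_sum_two_pow T
  rw [← Nat.mem_bitIndices, ← List.mem_toFinset, h]

lemma eq_sum_pow (N : ℕ) (T : Finset ℕ) (h : ∀ m, N.testBit m = true ↔ m ∈ T) :
    N = ∑ i ∈ T, 2 ^ i := by
  apply Nat.eq_of_testBit_eq
  intro m
  rw [Bool.eq_iff_iff, h, testBit_sum_pow]

lemma mask_testBit (r q m : ℕ) (hr : 0 < r) :
    (mask r q).testBit m = true ↔ r ∣ m ∧ m < r * q := by
  have h1 : mask r q = ∑ m ∈ (range q).image (fun k => r * k), 2 ^ m := by
    unfold mask
    rw [Finset.sum_image]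
    · rw [Nat.shiftLeft_eq, one_mul, pow_mul]
      have h2 : 2 ≤ 2 ^ r := by
        calc 2 = 2 ^ 1 := (pow_one 2).symm
          _ ≤ 2 ^ r := Nat.pow_le_pow_right (by norm_num) hr
      rw [← Nat.geomSum_eq h2]
      apply Finset.sum_congr rfl
      intro k _
      rw [pow_mul]
    · intro a _ b _ h
      exact Nat.eq_of_mul_eq_mul_left hr h
  rw [h1, testBit_sum_pow, Finset.mem_image]
  constructor
  · rintro ⟨k, hk, rfl⟩
    rw [Finset.mem_range] at hk
    exact ⟨dvd_mul_right _ _, Nat.mul_lt_mul_of_pos_left hk hr⟩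
  · rintro ⟨⟨k, rfl⟩, h⟩
    exact ⟨k, by rw [Finset.mem_range]; exact lt_of_mul_lt_mul_left h (Nat.zero_le _), rfl⟩

lemma sum_pow_mod (r q : ℕ) (T : Finset ℕ) (hT : ∀ m ∈ T, r ∣ m ∧ m < r * q)
    (hq : q < 2 ^ r - 1) : (∑ m ∈ T, 2 ^ m) % (2 ^ r - 1) = T.card := by
  have h1 : (∑ m ∈ T, 2 ^ m) ≡ ∑ m ∈ T, 1 [MOD (2 ^ r - 1)] := by
    apply Nat.ModEq.sum
    intro m hm
    obtain ⟨⟨k, rfl⟩, _⟩ := hT m hm
    rw [pow_mul]
    have h2 : 2 ^ r ≡ 1 [MOD (2 ^ r - 1)] := by
      have h3 : 1 ≤ 2 ^ r := Nat.one_le_two_pow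
      exact ((Nat.modEq_iff_dvd' h3).mpr (dvd_refl _)).symm
    calc (2 ^ r) ^ k ≡ 1 ^ k [MOD (2 ^ r - 1)] := h2.pow k
      _ = 1 := one_pow k
  rw [Finset.sum_const, smul_eq_mul, mul_one] at h1
  have h2 : T.card ≤ q := by
    have h3 : T ⊆ (range q).image (fun k => r * k) := by
      intro m hm
      obtain ⟨⟨k, rfl⟩, h4⟩ := hT m hm
      rw [Finset.mem_image]
      exact ⟨k, by rw [Finset.mem_range]; exact lt_of_mul_lt_mul_left h4 (Nat.zero_le _), rfl⟩
    calc T.card ≤ ((range q).image (fun k => r * k)).card := Finset.card_le_card h3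
      _ ≤ (range q).card := Finset.card_image_le
      _ = q := card_range q
  have h3 : T.card % (2 ^ r - 1) = T.card := Nat.mod_eq_of_lt (by omega)
  rw [← h3]
  exact h1

/-- the set of one bits below `L` -/
def bitsBelow (L N : ℕ) : Finset ℕ := (range L).filter (fun m => N.testBit m = true)

lemma pc_eq (r q N : ℕ) (hr : 0 < r) (hq : q < 2 ^ r - 1)
    (hN : ∀ m, N.testBit m = true → m < r * q) : pc r q N = (bitsBelow (r * q) N).card := by
  unfold pc
  rw [pcAux_eq]
  have h1 : ∀ s ∈ range r, ((N >>> s) &&& mask r q) % (2 ^ r - 1) =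
      ((bitsBelow (r * q) N).filter (fun m => m % r = s)).card := by
    intro s hs
    rw [Finset.mem_range] at hs
    set T : Finset ℕ := (range (r * q)).filter (fun m => r ∣ m ∧ N.testBit (m + s) = true) with hT
    have h2 : ((N >>> s) &&& mask r q) = ∑ m ∈ T, 2 ^ m := by
      apply eq_sum_pow
      intro m
      rw [Nat.testBit_and, Bool.and_eq_true, mask_testBit r q m hr, Nat.testBit_shiftRight, hT,
        Finset.mem_filter, Finset.mem_range, add_comm s m]
      tauto
    rw [h2, sum_pow_mod r q T _ hq]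
    · apply Finset.card_bij (fun m _ => m + s)
      · intro m hm
        rw [hT, Finset.mem_filter, Finset.mem_range] at hm
        unfold bitsBelow
        rw [Finset.mem_filter, Finset.mem_filter, Finset.mem_range]
        refine ⟨⟨hN _ hm.2.2, hm.2.2⟩, ?_⟩
        obtain ⟨k, hk⟩ := hm.2.1
        rw [hk, Nat.mul_add_mod, Nat.mod_eq_of_lt hs]
      · intro a _ b _ h
        exact Nat.add_right_cancel h
      · intro m hm
        unfold bitsBelow at hm
        rw [Finset.mem_filter, Finset.mem_filter, Finset.mem_range] at hm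
        have h3 : s ≤ m := by
          rw [← hm.2]
          exact Nat.mod_le _ _
        refine ⟨m - s, ?_, Nat.sub_add_cancel h3⟩
        rw [hT, Finset.mem_filter, Finset.mem_range, Nat.sub_add_cancel h3]
        refine ⟨by omega, ?_, hm.1.2⟩
        rw [← hm.2]
        exact Nat.dvd_sub_mod m
    · intro m hm
      rw [hT, Finset.mem_filter, Finset.mem_range] at hm
      exact ⟨hm.2.1, hm.1⟩
  rw [Finset.sum_congr rfl h1]
  symm
  apply Finset.card_eq_sum_card_fiberwise
  intro m _
  simp only [Finset.coe_range, Set.mem_Iio]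
  exact Nat.mod_lt _ hr

/-! ## The encoding -/

/-- weights of the coordinates -/
noncomputable def wt (i : Fin 9) : ℕ := if i.val = 8 then 0 else 9 ^ i.val

/-- the largest weight `9^7` -/
noncomputable def wmax : ℕ := 4782969

/-- the code of a vector, up to an offset -/
noncomputable def idx (z : Fin 9 → ℤ) : ℤ := pr (fun i => (wt i : ℤ)) z

/-- join with all translates: `L` is a list of pairs of lists `(A, B)`, for the translations by
`e_a - e_b`, `a ∈ A`, `b ∈ B` -/
noncomputable def stepB (L : List (List (Fin 9) × List (Fin 9))) (N : ℕ) : ℕ :=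
  L.foldl (fun acc p => (fun T => p.1.foldl (fun acc a => acc ||| (T <<< wt a)) acc)
    (p.2.foldl (fun t b => t ||| (N <<< (wmax - wt b))) 0)) 0

lemma foldl_testBit {α : Type} (l : List α) (f : α → ℕ) (T acc m : ℕ) :
    (l.foldl (fun acc a => acc ||| (T <<< f a)) acc).testBit m = true ↔
      acc.testBit m = true ∨ ∃ a ∈ l, f a ≤ m ∧ T.testBit (m - f a) = true := by
  induction l generalizing acc with
  | nil => simp
  | cons a l ih =>
    rw [List.foldl_cons, ih, Nat.testBit_or, Nat.testBit_shiftLeft]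
    simp only [Bool.or_eq_true, Bool.and_eq_true, decide_eq_true_eq, List.mem_cons,
      exists_eq_or_imp, ge_iff_le]
    exact or_assoc

lemma stepB_aux (L : List (List (Fin 9) × List (Fin 9))) (N acc m : ℕ) :
    (L.foldl (fun acc p => (fun T => p.1.foldl (fun acc a => acc ||| (T <<< wt a)) acc)
      (p.2.foldl (fun t b => t ||| (N <<< (wmax - wt b))) 0)) acc).testBit m = true ↔
      acc.testBit m = true ∨ ∃ p ∈ L, ∃ a ∈ p.1, ∃ b ∈ p.2,
        wt a + (wmax - wt b) ≤ m ∧ N.testBit (m - (wt a + (wmax - wt b))) = true := by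
  induction L generalizing acc with
  | nil => simp
  | cons p L ih =>
    rw [List.foldl_cons, ih]
    simp only [foldl_testBit, Nat.zero_testBit, Bool.false_eq_true, false_or, List.mem_cons,
      exists_eq_or_imp]
    rw [or_assoc]
    apply or_congr_right
    apply or_congr_left
    constructor
    · rintro ⟨a, ha, h1, b, hb, h2, h3⟩
      refine ⟨a, ha, b, hb, by omega, ?_⟩
      rw [Nat.sub_sub] at h3
      exact h3
    · rintro ⟨a, ha, b, hb, h1, h2⟩
      refine ⟨a, ha, by omega, b, hb, by omega, ?_⟩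
      rw [Nat.sub_sub]
      exact h2

lemma stepB_testBit (L : List (List (Fin 9) × List (Fin 9))) (N m : ℕ) :
    (stepB L N).testBit m = true ↔ ∃ p ∈ L, ∃ a ∈ p.1, ∃ b ∈ p.2,
        wt a + (wmax - wt b) ≤ m ∧ N.testBit (m - (wt a + (wmax - wt b))) = true := by
  unfold stepB
  rw [stepB_aux]
  simp

/-- counts of the balls of radius `1, …, 4` -/
noncomputable def counts (L : List (List (Fin 9) × List (Fin 9))) : List ℕ :=
  (fun N1 => (fun N2 => (fun N3 => (fun N4 =>
    [pc 21 1822084 N1, pc 21 1822084 N2, pc 21 1822084 N3, pc 21 1822084 N4])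
      (stepB L N3)) (stepB L N2)) (stepB L N1)) (stepB L 1)

/-- the closed neighbourhoods of the graph, as a list of bicliques -/
def IsBiList (G : SimpleGraph (Fin 9)) (L : List (List (Fin 9) × List (Fin 9))) : Prop :=
  ∀ a b, (a = b ∨ G.Adj a b) ↔ ∃ p ∈ L, a ∈ p.1 ∧ b ∈ p.2

/-- lattice points of the dilate -/
def ballS (G : SimpleGraph (Fin 9)) (k : ℕ) : Set (Fin 9 → ℤ) := {z | bal z ∧ nu G z ≤ k}

/-- `N` encodes the ball of radius `k` -/
def Good (G : SimpleGraph (Fin 9)) (k N : ℕ) : Prop :=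
  ∀ m : ℕ, N.testBit m = true ↔ ∃ z ∈ ballS G k, idx z + k * wmax = m

lemma wt_le (i : Fin 9) : wt i ≤ wmax := by
  unfold wt wmax
  fin_cases i <;> norm_num

lemma idx_add_ev (z : Fin 9 → ℤ) (a b : Fin 9) : idx (z + ev a b) = idx z + (wt a - wt b) := by
  unfold idx
  rw [pr_add_right, pr_ev]

lemma idx_sub_ev (z : Fin 9 → ℤ) (a b : Fin 9) : idx (z - ev a b) = idx z - (wt a - wt b) := by
  unfold idx
  rw [pr_sub_right, pr_ev]

lemma coord_le {G : SimpleGraph (Fin 9)} (hG : G.Connected) {k : ℕ} {z : Fin 9 → ℤ}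
    (hz : z ∈ ballS G k) (i : Fin 9) : -(k : ℤ) ≤ z i ∧ z i ≤ k := by
  have hl : Lip G (Pi.single i 1) := by
    intro b c _
    by_cases hb : b = i <;> by_cases hc : c = i <;> simp [hb, hc]
  have h3 : pr (Pi.single i 1) z = z i := by
    unfold pr
    simp [Pi.single_apply]
  have h4 := le_nu hG hz.1 hl
  have h5 := le_nu hG hz.1 hl.neg
  rw [pr_neg_left, h3] at h5
  rw [h3] at h4
  have := hz.2
  constructor <;> linarith

lemma idx_bound {G : SimpleGraph (Fin 9)} (hG : G.Connected) {k : ℕ} {z : Fin 9 → ℤ}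
    (hz : z ∈ ballS G k) : -((k : ℤ) * wmax) ≤ idx z ∧ idx z ≤ k * wmax := by
  induction k generalizing z with
  | zero =>
    have h1 : nu G z = 0 := le_antisymm (by exact_mod_cast hz.2) (nu_nonneg hG hz.1)
    have h2 := nu_zero_imp hG hz.1 h1
    rw [h2]
    unfold idx pr
    simp
  | succ k ih =>
    by_cases hle : nu G z ≤ k
    · have h1 := ih (z := z) ⟨hz.1, hle⟩
      have h2 : (0 : ℤ) ≤ wmax := Int.natCast_nonneg _
      push_cast
      constructor <;> linarith
    · have hpos : 0 < nu G z := by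
        have : (0 : ℤ) ≤ k := Int.natCast_nonneg _
        linarith
      obtain ⟨a, b, hab, hnu⟩ := peel hG (by norm_num) hz.1 hpos
      have hz' : z - ev a b ∈ ballS G k := by
        refine ⟨hz.1.sub (bal_ev a b), ?_⟩
        rw [hnu]
        have := hz.2
        push_cast at this
        linarith
      have h1 := ih hz'
      rw [idx_sub_ev] at h1
      have ha : (wt a : ℤ) ≤ wmax := by exact_mod_cast wt_le a
      have hb : (wt b : ℤ) ≤ wmax := by exact_mod_cast wt_le b
      have ha' : (0 : ℤ) ≤ wt a := Int.natCast_nonneg _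
      have hb' : (0 : ℤ) ≤ wt b := Int.natCast_nonneg _
      push_cast
      constructor <;> linarith

lemma idx_expand (z : Fin 9 → ℤ) : idx z = z 0 + 9 * z 1 + 81 * z 2 + 729 * z 3 + 6561 * z 4 +
    59049 * z 5 + 531441 * z 6 + 4782969 * z 7 := by
  unfold idx pr
  simp only [Fin.sum_univ_succ, wt]
  simp [Fin.succ]
  ring

lemma idx_inj {G : SimpleGraph (Fin 9)} (hG : G.Connected) {k : ℕ} (hk : k ≤ 4)
    {z z' : Fin 9 → ℤ} (hz : z ∈ ballS G k) (hz' : z' ∈ ballS G k) (h : idx z = idx z') :
    z = z' := by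
  have hk' : (k : ℤ) ≤ 4 := by exact_mod_cast hk
  have hb := hz.1
  have hb' := hz'.1
  rw [idx_expand, idx_expand] at h
  unfold bal at hb hb'
  simp only [Fin.sum_univ_succ] at hb hb'
  simp [Fin.succ] at hb hb'
  have c := coord_le hG hz
  have c' := coord_le hG hz'
  have e0 : z 0 = z' 0 := by
    have := c 0; have := c' 0
    omega
  have e1 : z 1 = z' 1 := by
    have := c 1; have := c' 1
    omega
  have e2 : z 2 = z' 2 := by
    have := c 2; have := c' 2
    omega
  have e3 : z 3 = z' 3 := by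
    have := c 3; have := c' 3
    omega
  have e4 : z 4 = z' 4 := by
    have := c 4; have := c' 4
    omega
  have e5 : z 5 = z' 5 := by
    have := c 5; have := c' 5
    omega
  have e6 : z 6 = z' 6 := by
    have := c 6; have := c' 6
    omega
  have e7 : z 7 = z' 7 := by
    have := c 7; have := c' 7
    omega
  funext i
  fin_cases i
  · exact e0
  · exact e1
  · exact e2
  · exact e3
  · exact e4
  · exact e5
  · exact e6
  · exact e7
  · show z 8 = z' 8
    omega

lemma one_testBit (m : ℕ) : (1 : ℕ).testBit m = true ↔ m = 0 := by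
  have h : (2 ^ 0 : ℕ).testBit m = decide (0 = m) := Nat.testBit_two_pow
  rw [pow_zero] at h
  rw [h, decide_eq_true_eq]
  exact eq_comm

lemma good_zero {G : SimpleGraph (Fin 9)} (hG : G.Connected) : Good G 0 1 := by
  intro m
  rw [one_testBit]
  constructor
  · rintro rfl
    refine ⟨0, ⟨bal_zero, ?_⟩, ?_⟩
    · obtain ⟨f, _, hf⟩ := nu_attained hG (bal_zero (n := 9))
      rw [← hf]
      unfold pr
      simp
    · unfold idx pr
      simp
  · rintro ⟨z, ⟨hz, hz2⟩, h⟩
    have h1 : nu G z = 0 := le_antisymm (by exact_mod_cast hz2) (nu_nonneg hG hz)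
    have h2 := nu_zero_imp hG hz h1
    rw [h2] at h
    unfold idx pr at h
    simp at h
    exact_mod_cast h.symm

lemma nu_add_ev {G : SimpleGraph (Fin 9)} (hG : G.Connected) {z : Fin 9 → ℤ} (hz : bal z)
    {a b : Fin 9} (hab : a = b ∨ G.Adj a b) : nu G (z + ev a b) ≤ nu G z + 1 := by
  obtain ⟨f, hf, h⟩ := nu_attained hG (hz.add (bal_ev a b))
  rw [← h, pr_add_right, pr_ev]
  have h1 := le_nu hG hz hf
  rcases hab with rfl | hab
  · linarith
  · have h2 := hf a b hab
    linarith

lemma good_succ {G : SimpleGraph (Fin 9)} (hG : G.Connected)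
    {L : List (List (Fin 9) × List (Fin 9))}
    (hL : IsBiList G L) {k N : ℕ} (hN : Good G k N) : Good G (k + 1) (stepB L N) := by
  intro m
  rw [stepB_testBit]
  constructor
  · rintro ⟨p, hp, a, ha, b, hb, h1, h2⟩
    have hab := (hL a b).mpr ⟨p, hp, ha, hb⟩
    obtain ⟨z, hz, hm⟩ := (hN _).mp h2
    refine ⟨z + ev a b, ⟨hz.1.add (bal_ev a b), ?_⟩, ?_⟩
    · have h3 := nu_add_ev hG hz.1 hab
      have h4 := hz.2
      push_cast
      linarith
    · rw [idx_add_ev]
      have h5 := wt_le b
      push_cast [Nat.cast_sub h1, Nat.cast_sub h5] at hm ⊢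
      linarith
  · rintro ⟨z', hz', hm⟩
    -- it suffices to find a predecessor
    have key : ∀ a b : Fin 9, (a = b ∨ G.Adj a b) → z' - ev a b ∈ ballS G k →
        ∃ p ∈ L, ∃ a ∈ p.1, ∃ b ∈ p.2, wt a + (wmax - wt b) ≤ m ∧
          N.testBit (m - (wt a + (wmax - wt b))) = true := by
      intro a b hab hz
      obtain ⟨p, hp, ha, hb⟩ := (hL a b).mp hab
      have h0 := (idx_bound hG hz).1
      have hidx := idx_sub_ev z' a b
      have h5 := wt_le b
      have h6 : wt a + (wmax - wt b) ≤ m := by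
        have h7 : ((wt a + (wmax - wt b) : ℕ) : ℤ) ≤ m := by
          push_cast [Nat.cast_sub h5] at hm ⊢
          linarith
        exact_mod_cast h7
      refine ⟨p, hp, a, ha, b, hb, h6, ?_⟩
      refine (hN _).mpr ⟨z' - ev a b, hz, ?_⟩
      push_cast [Nat.cast_sub h6, Nat.cast_sub h5] at hm ⊢
      linarith
    by_cases hle : nu G z' ≤ k
    · apply key 0 0 (Or.inl rfl)
      have h1 : ev (0 : Fin 9) 0 = 0 := by unfold ev; abel
      rw [h1, sub_zero]
      exact ⟨hz'.1, hle⟩
    · have hpos : 0 < nu G z' := by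
        have : (0 : ℤ) ≤ k := Int.natCast_nonneg _
        linarith
      obtain ⟨a, b, hab, hnu⟩ := peel hG (by norm_num) hz'.1 hpos
      apply key a b (Or.inr hab)
      refine ⟨hz'.1.sub (bal_ev a b), ?_⟩
      rw [hnu]
      have := hz'.2
      push_cast at this
      linarith

/-- the population count of an encoding is the number of lattice points -/
lemma good_count {G : SimpleGraph (Fin 9)} (hG : G.Connected) {k N : ℕ} (hk : k ≤ 4)
    (hN : Good G k N) : pc 21 1822084 N = (ballS G k).ncard := by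
  have hk' : (k : ℤ) ≤ 4 := by exact_mod_cast hk
  have hw : (wmax : ℤ) = 4782969 := rfl
  have hb : ∀ m, N.testBit m = true → m < 21 * 1822084 := by
    intro m hm
    obtain ⟨z, hz, hzm⟩ := (hN m).mp hm
    have h1 := (idx_bound hG hz).2
    rw [hw] at h1 hzm
    have h2 : (m : ℤ) ≤ 8 * 4782969 := by rw [← hzm]; linarith
    have h3 : m ≤ 8 * 4782969 := by exact_mod_cast h2
    omega
  rw [pc_eq 21 1822084 N (by norm_num) (by norm_num) hb, ← Set.ncard_coe_finset]
  symm
  apply Set.ncard_congr (fun z _ => (idx z + k * wmax).toNat)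
  · intro z hz
    have h1 := idx_bound hG hz
    have h2 : N.testBit (idx z + k * wmax).toNat = true :=
      (hN _).mpr ⟨z, hz, (Int.toNat_of_nonneg (by linarith [h1.1])).symm⟩
    unfold bitsBelow
    rw [Finset.mem_coe, Finset.mem_filter, Finset.mem_range]
    exact ⟨hb _ h2, h2⟩
  · intro z z' hz hz' h
    have h1 := idx_bound hG hz
    have h2 := idx_bound hG hz'
    exact idx_inj hG hk hz hz' (by omega)
  · intro m hm
    unfold bitsBelow at hm
    rw [Finset.mem_coe, Finset.mem_filter] at hm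
    obtain ⟨z, hz, hzm⟩ := (hN m).mp hm.2
    exact ⟨z, hz, by rw [hzm]; simp⟩

/-- the counts of the balls -/
theorem counts_eq {G : SimpleGraph (Fin 9)} (hG : G.Connected)
    {L : List (List (Fin 9) × List (Fin 9))} (hL : IsBiList G L) : counts L =
      [(ballS G 1).ncard, (ballS G 2).ncard, (ballS G 3).ncard, (ballS G 4).ncard] := by
  unfold counts
  beta_reduce
  have g0 := good_zero hG
  have g1 := good_succ hG hL g0
  have g2 := good_succ hG hL g1
  have g3 := good_succ hG hL g2
  have g4 := good_succ hG hL g3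
  rw [good_count hG (by norm_num) g1, good_count hG (by norm_num) g2,
    good_count hG (by norm_num) g3, good_count hG (by norm_num) g4]

end Pool.Agent.R135.SEP
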