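import Pool.Agent.R135.SEPGeo

/-!
# Linear algebra of a cell: a linearly independent set of `n - 1` oriented edges
-/

set_option autoImplicit false
open Finset
open scoped Pointwise

namespace Pool.Agent.R135.SEP

variable {n : ℕ}

/-- linear independence over the reals -/
def RLI (σ : Finset (Fin n → ℤ)) : Prop :=
  ∀ r : (Fin n → ℤ) → ℝ, ∑ v ∈ σ, r v • toR v = 0 → ∀ v ∈ σ, r v = 0

lemma RLI.eq {σ : Finset (Fin n → ℤ)} (h : RLI σ) {r r' : (Fin n → ℤ) → ℝ}
    (hr : ∑ v ∈ σ, r v • toR v = ∑ v ∈ σ, r' v • toR v) : ∀ v ∈ σ, r v = r' v := by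
  intro v hv
  have h1 := h (fun v => r v - r' v) (by
    simp only [sub_smul]
    rw [Finset.sum_sub_distrib, hr, sub_self]) v hv
  linarith

/-- extension by zero -/
noncomputable def ext0 (σ : Finset (Fin n → ℤ)) (c : σ → ℝ) : (Fin n → ℤ) → ℝ := by
  classical
  exact fun v => if h : v ∈ σ then c ⟨v, h⟩ else 0

lemma ext0_apply (σ : Finset (Fin n → ℤ)) (c : σ → ℝ) (v : σ) : ext0 σ c v = c v := by
  unfold ext0
  rw [dif_pos v.2]

lemma sum_ext0 (σ : Finset (Fin n → ℤ)) (c : σ → ℝ) :
    ∑ v ∈ σ, ext0 σ c v • toR v = ∑ v : σ, c v • toR (v : Fin n → ℤ) := by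
  rw [← Finset.sum_coe_sort]
  apply Finset.sum_congr rfl
  intro v _
  rw [ext0_apply]

/-- the sum functional -/
noncomputable def sumL (n : ℕ) : (Fin n → ℝ) →ₗ[ℝ] ℝ where
  toFun := sm
  map_add' := by intro x y; rw [sm_eq, sm_eq, sm_eq, rp_add]
  map_smul' := by intro c x; rw [sm_eq, sm_eq, rp_smul]; rfl

lemma mem_ker_sumL (x : Fin n → ℝ) : x ∈ LinearMap.ker (sumL n) ↔ sm x = 0 := Iff.rfl

lemma finrank_ker_sumL (hn : 0 < n) : Module.finrank ℝ (LinearMap.ker (sumL n)) = n - 1 := by
  have h1 := LinearMap.finrank_range_add_finrank_ker (sumL n)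
  have h2 : LinearMap.range (sumL n) = ⊤ := by
    rw [LinearMap.range_eq_top]
    intro c
    refine ⟨c • Pi.single ⟨0, hn⟩ 1, ?_⟩
    show sm _ = c
    rw [sm_eq, rp_smul]
    unfold rp
    simp [Pi.single_apply]
  rw [h2, finrank_top, Module.finrank_self, Module.finrank_fin_fun] at h1
  omega

lemma span_cell {σ : Finset (Fin n → ℤ)} (hn : 0 < n) (hcard : σ.card = n - 1)
    (hbal : ∀ v ∈ σ, bal v) (h : RLI σ) (x : Fin n → ℝ) (hx : sm x = 0) :
    ∃ r : (Fin n → ℤ) → ℝ, ∑ v ∈ σ, r v • toR v = x := by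
  have hli : LinearIndependent ℝ (fun v : σ => toR (v : Fin n → ℤ)) := by
    rw [Fintype.linearIndependent_iff]
    intro c hc v
    have h1 := h (ext0 σ c) (by rw [sum_ext0]; exact hc) v v.2
    rwa [ext0_apply] at h1
  have h1 : Submodule.span ℝ (Set.range (fun v : σ => toR (v : Fin n → ℤ))) =
      LinearMap.ker (sumL n) := by
    apply Submodule.eq_of_le_of_finrank_eq
    · rw [Submodule.span_le]
      rintro _ ⟨v, rfl⟩
      exact (sm_toR_iff _).mpr (hbal v v.2)
    · rw [finrank_span_eq_card hli, finrank_ker_sumL hn, Fintype.card_coe, hcard]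
  have h2 : x ∈ Submodule.span ℝ (Set.range (fun v : σ => toR (v : Fin n → ℤ))) := by
    rw [h1]; exact hx
  rw [Submodule.mem_span_range_iff_exists_fun] at h2
  obtain ⟨c, hc⟩ := h2
  exact ⟨ext0 σ c, by rw [sum_ext0]; exact hc⟩

lemma sm_ev (a b : Fin n) : sm (toR (ev a b)) = 0 := (sm_toR_iff _).mpr (bal_ev a b)

lemma const_cell {σ : Finset (Fin n → ℤ)} (hn : 0 < n) (hcard : σ.card = n - 1)
    (hbal : ∀ v ∈ σ, bal v) (h : RLI σ) (g : Fin n → ℝ) (hg : ∀ v ∈ σ, rp g (toR v) = 0)
    (a b : Fin n) : g a = g b := by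
  obtain ⟨r, hr⟩ := span_cell hn hcard hbal h (toR (ev a b)) (sm_ev a b)
  have h1 := rp_ev g a b
  rw [← hr, rp_sum, Finset.sum_eq_zero] at h1
  · linarith
  · intro v hv
    rw [rp_smul, hg v hv, mul_zero]

lemma decomp_base (p0 : Fin n) (x : Fin n → ℝ) (hx : sm x = 0) :
    ∑ p, x p • toR (ev p p0) = x := by
  funext c
  rw [Finset.sum_apply]
  have h1 : ∀ p, (x p • toR (ev p p0)) c = x p * (if c = p then 1 else 0) -
      x p * (if c = p0 then 1 else 0) := by
    intro p
    rw [toR_ev]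
    simp only [Pi.smul_apply, Pi.sub_apply, smul_eq_mul, Pi.single_apply]
    ring
  rw [Finset.sum_congr rfl (fun p _ => h1 p), Finset.sum_sub_distrib, ← Finset.sum_mul]
  unfold sm at hx
  rw [hx, zero_mul, sub_zero]
  simp

/-- integrality of the potential -/
lemma integral_cell {G : SimpleGraph (Fin n)} {σ : Finset (Fin n → ℤ)} (hn : 0 < n)
    (hcard : σ.card = n - 1) (hedge : ∀ v ∈ σ, ∃ a b, G.Adj a b ∧ v = ev a b) (h : RLI σ)
    (y : Fin n → ℝ) (hy : ∀ v ∈ σ, rp y (toR v) = 1) :
    ∃ f : Fin n → ℤ, ∀ p q, ((f p : ℝ) - f q) = y p - y q := by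
  classical
  have hbal : ∀ v ∈ σ, bal v := by
    intro v hv
    obtain ⟨a, b, _, rfl⟩ := hedge v hv
    exact bal_ev a b
  set p0 : Fin n := ⟨0, hn⟩
  have key : ∀ p, ∃ k : ℤ, y p - y p0 = k := by
    intro p
    set g : Fin n → ℝ := fun p => if ∃ k : ℤ, y p - y p0 = k then 1 else 0 with hg
    have h1 : ∀ v ∈ σ, rp g (toR v) = 0 := by
      intro v hv
      obtain ⟨a, b, _, rfl⟩ := hedge v hv
      have h2 := hy _ hv
      rw [rp_ev] at h2 ⊢
      have h3 : (∃ k : ℤ, y a - y p0 = k) ↔ ∃ k : ℤ, y b - y p0 = k := by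
        constructor
        · rintro ⟨k, hk⟩
          exact ⟨k - 1, by push_cast; linarith⟩
        · rintro ⟨k, hk⟩
          exact ⟨k + 1, by push_cast; linarith⟩
      simp only [hg, h3, sub_self]
    have h4 := const_cell hn hcard hbal h g h1 p p0
    have h5 : g p0 = 1 := by
      simp only [hg]
      rw [if_pos ⟨0, by simp⟩]
    rw [h5] at h4
    by_contra hcon
    simp only [hg] at h4
    rw [if_neg hcon] at h4
    norm_num at h4
  choose f hf using key
  refine ⟨f, fun p q => ?_⟩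
  rw [← hf p, ← hf q]
  ring

/-- the coordinates are subset sums -/
lemma exists_sub {G : SimpleGraph (Fin n)} {σ : Finset (Fin n → ℤ)} (hn : 0 < n)
    (hcard : σ.card = n - 1) (hedge : ∀ v ∈ σ, ∃ a b, G.Adj a b ∧ v = ev a b) (h : RLI σ) :
    ∃ A : (Fin n → ℤ) → Finset (Fin n), (∀ v ∈ σ, (A v).Nonempty ∧ A v ≠ univ) ∧
      ∀ x : Fin n → ℝ, sm x = 0 → ∑ v ∈ σ, (∑ p ∈ A v, x p) • toR v = x := by
  classical
  have hbal : ∀ v ∈ σ, bal v := by
    intro v hv
    obtain ⟨a, b, _, rfl⟩ := hedge v hv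
    exact bal_ev a b
  set p0 : Fin n := ⟨0, hn⟩
  have : Nonempty (Fin n) := ⟨p0⟩
  choose R hR using fun a : Fin n => span_cell hn hcard hbal h (toR (ev a p0)) (sm_ev a p0)
  have key : ∀ a b, ev a b ∈ σ → ∀ w ∈ σ, R a w - R b w = if w = ev a b then 1 else 0 := by
    intro a b hab
    have h1 : ∑ w ∈ σ, (R a w - R b w) • toR w =
        ∑ w ∈ σ, (if w = ev a b then (1 : ℝ) else 0) • toR w := by
      simp only [sub_smul]
      rw [Finset.sum_sub_distrib, hR, hR, ← toR_sub]
      have h2 : ev a p0 - ev b p0 = ev a b := by unfold ev; abel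
      rw [h2]
      simp only [ite_smul, one_smul, zero_smul]
      rw [Finset.sum_ite_eq' σ (ev a b) toR, if_pos hab]
    exact h.eq h1
  choose! a b hab using hedge
  have key2 : ∀ v ∈ σ, R (a v) v - R (b v) v = 1 := by
    intro v hv
    have h1 := key (a v) (b v) (by rw [← (hab v hv).2]; exact hv) v hv
    rwa [if_pos (hab v hv).2] at h1
  have key3 : ∀ v ∈ σ, ∀ p, R p v = R (a v) v ∨ R p v = R (b v) v := by
    intro v hv p
    set g : Fin n → ℝ := fun p => if R p v = R (a v) v ∨ R p v = R (b v) v then 1 else 0 with hg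
    have h1 : ∀ w ∈ σ, rp g (toR w) = 0 := by
      intro w hw
      have hw2 := (hab w hw).2
      rw [hw2, rp_ev]
      by_cases hwv : w = v
      · rw [hwv]
        simp only [hg, true_or, or_true, if_true, sub_self]
      · have h2 := key (a w) (b w) (by rw [← hw2]; exact hw) v hv
        rw [if_neg (by rw [← hw2]; exact fun h => hwv h.symm)] at h2
        have h3 : R (a w) v = R (b w) v := by linarith
        simp only [hg, h3, sub_self]
    have h4 := const_cell hn hcard hbal h g h1 p (a v)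
    have h5 : g (a v) = 1 := by
      simp only [hg, true_or, if_true]
    rw [h5] at h4
    by_contra hcon
    simp only [hg] at h4
    rw [if_neg hcon] at h4
    norm_num at h4
  refine ⟨fun v => univ.filter (fun p => R p v = R (a v) v), ?_, ?_⟩
  · intro v hv
    refine ⟨⟨a v, by rw [Finset.mem_filter]; exact ⟨Finset.mem_univ _, rfl⟩⟩, ?_⟩
    intro h1
    have h1' : univ.filter (fun p => R p v = R (a v) v) = univ := h1
    have h2 : b v ∈ univ.filter (fun p => R p v = R (a v) v) := by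
      rw [h1']; exact Finset.mem_univ _
    rw [Finset.mem_filter] at h2
    have h3 := key2 v hv
    rw [h2.2] at h3
    norm_num at h3
  · intro x hx
    conv_rhs => rw [← decomp_base p0 x hx]
    have h1 : ∀ p ∈ (univ : Finset (Fin n)), x p • toR (ev p p0) =
        ∑ v ∈ σ, (x p * R p v) • toR v := by
      intro p _
      rw [← hR p, Finset.smul_sum]
      apply Finset.sum_congr rfl
      intro v _
      rw [smul_smul]
    rw [Finset.sum_congr rfl h1, Finset.sum_comm]
    apply Finset.sum_congr rfl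
    intro v hv
    rw [← Finset.sum_smul]
    congr 1
    have h2 : ∀ p ∈ (univ : Finset (Fin n)), x p * R p v =
        R (b v) v * x p + if R p v = R (a v) v then x p else 0 := by
      intro p _
      have h3 := key2 v hv
      split_ifs with h4
      · rw [h4]
        have : R (a v) v = R (b v) v + 1 := by linarith
        rw [this]; ring
      · rcases key3 v hv p with h5 | h5
        · exact absurd h5 h4
        · rw [h5]; ring
    rw [Finset.sum_congr rfl h2, Finset.sum_add_distrib, ← Finset.mul_sum, Finset.sum_filter]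
    unfold sm at hx
    rw [hx, mul_zero, zero_add]

end Pool.Agent.R135.SEP
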