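import Pool.Agent.R135.SEPBits

/-!
# Lattice point counts (kernel computation)
-/

set_option autoImplicit false

namespace Pool.Agent.R135.SEP

/-- closed neighbourhoods in the graph `G`, in the form (vertices, their closed
neighbourhood) -/
def listG : List (List (Fin 9) × List (Fin 9)) :=
  [([0, 1], [0, 1, 2, 3, 7]),
   ([2, 3], [0, 1, 2, 3, 8]),
   ([4, 5, 6], [4, 5, 6, 7, 8]),
   ([7], [0, 1, 4, 5, 6, 7]),
   ([8], [2, 3, 4, 5, 6, 8])]

theorem countsG : counts listG = [39, 639, 5715, 33595] := by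
  decide +kernel

/-- closed neighbourhoods in the graph `G` minus the edge `01`, in the form (vertices, their closed
neighbourhood) -/
def listA : List (List (Fin 9) × List (Fin 9)) :=
  [([0], [0, 2, 3, 7]),
   ([1], [1, 2, 3, 7]),
   ([2, 3], [0, 1, 2, 3, 8]),
   ([4, 5, 6], [4, 5, 6, 7, 8]),
   ([7], [0, 1, 4, 5, 6, 7]),
   ([8], [2, 3, 4, 5, 6, 8])]

theorem countsA : counts listA = [37, 581, 5063, 29319] := by
  decide +kernel

end Pool.Agent.R135.SEP
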