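import Pool.Agent.R135.SEPBits

/-!
# Lattice point counts (kernel computation)
-/

set_option autoImplicit false

namespace Pool.Agent.R135.SEP

/-- closed neighbourhoods in the graph `G` minus the edge `02`, in the form (vertices, their closed
neighbourhood) -/
def listB : List (List (Fin 9) × List (Fin 9)) :=
  [([0], [0, 1, 3, 7]),
   ([1], [0, 1, 2, 3, 7]),
   ([2], [1, 2, 3, 8]),
   ([3], [0, 1, 2, 3, 8]),
   ([4, 5, 6], [4, 5, 6, 7, 8]),
   ([7], [0, 1, 4, 5, 6, 7]),
   ([8], [2, 3, 4, 5, 6, 8])]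

theorem countsB : counts listB = [37, 585, 5149, 30041] := by
  decide +kernel

/-- closed neighbourhoods in the graph `G` minus the edge `07`, in the form (vertices, their closed
neighbourhood) -/
def listC : List (List (Fin 9) × List (Fin 9)) :=
  [([0], [0, 1, 2, 3]),
   ([1], [0, 1, 2, 3, 7]),
   ([2, 3], [0, 1, 2, 3, 8]),
   ([4, 5, 6], [4, 5, 6, 7, 8]),
   ([7], [1, 4, 5, 6, 7]),
   ([8], [2, 3, 4, 5, 6, 8])]

theorem countsC : counts listC = [37, 577, 5023, 29103] := by
  decide +kernel

end Pool.Agent.R135.SEP
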