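import Pool.Agent.R135.SEPBits

/-!
# Lattice point counts (kernel computation)
-/

set_option autoImplicit false

namespace Pool.Agent.R135.SEP

/-- closed neighbourhoods in the graph `G` minus the edge `47`, in the form (vertices, their closed
neighbourhood) -/
def listD : List (List (Fin 9) × List (Fin 9)) :=
  [([0, 1], [0, 1, 2, 3, 7]),
   ([2, 3], [0, 1, 2, 3, 8]),
   ([4], [4, 5, 6, 8]),
   ([5, 6], [4, 5, 6, 7, 8]),
   ([7], [0, 1, 5, 6, 7]),
   ([8], [2, 3, 4, 5, 6, 8])]

theorem countsD : counts listD = [37, 583, 5129, 29935] := by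
  decide +kernel

/-- closed neighbourhoods in the graph `G` minus the edge `45`, in the form (vertices, their closed
neighbourhood) -/
def listE : List (List (Fin 9) × List (Fin 9)) :=
  [([0, 1], [0, 1, 2, 3, 7]),
   ([2, 3], [0, 1, 2, 3, 8]),
   ([4], [4, 6, 7, 8]),
   ([5], [5, 6, 7, 8]),
   ([6], [4, 5, 6, 7, 8]),
   ([7], [0, 1, 4, 5, 6, 7]),
   ([8], [2, 3, 4, 5, 6, 8])]

theorem countsE : counts listE = [37, 585, 5131, 29843] := by
  decide +kernel

end Pool.Agent.R135.SEP
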