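import Pool.Agent.R135.SEPBits

/-!
# Gamma vectors of symmetric edge polytopes on nine vertices from lattice point counts
-/

set_option autoImplicit false
open Finset
open scoped Pointwise

namespace Pool.Agent.R135.SEP

variable {n : ℕ}

/-- `γ` is the `γ`-vector of `h` (with center `d / 2`):
`h(t) = ∑_{j=0}^{⌊d/2⌋} γ_j t^j (1 + t)^{d - 2j}`. -/
def IsGammaVector (d : ℕ) (h : PowerSeries ℤ) (γ : ℕ → ℤ) : Prop :=
  h = ((∑ j ∈ range (d / 2 + 1), Polynomial.C (γ j) * Polynomial.X ^ j *
    (1 + Polynomial.X) ^ (d - 2 * j) : Polynomial ℤ) : PowerSeries ℤ)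

/-- number of lattice points of the dilates -/
lemma ehrhart_ball {G : SimpleGraph (Fin 9)} (hG : G.Connected) (m : ℕ) :
    PowerSeries.coeff m (ehrhartSeries (edgePolytope G)) = ((ballS G m).ncard : ℤ) := by
  unfold ehrhartSeries
  rw [PowerSeries.coeff_mk]
  congr 1
  rw [← Nat.card_coe_set_eq]
  apply Nat.card_congr
  apply Equiv.subtypeEquivRight
  intro z
  exact mem_dilate hG (by norm_num) z m

lemma ball_zero {G : SimpleGraph (Fin 9)} (hG : G.Connected) : (ballS G 0).ncard = 1 := by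
  have h : ballS G 0 = {0} := by
    ext z
    rw [Set.mem_singleton_iff]
    constructor
    · rintro ⟨hz, hz2⟩
      exact nu_zero_imp hG hz (le_antisymm (by exact_mod_cast hz2) (nu_nonneg hG hz))
    · rintro rfl
      refine ⟨bal_zero, ?_⟩
      obtain ⟨f, _, hf⟩ := nu_attained hG (bal_zero (n := 9))
      rw [← hf]
      unfold pr
      simp
  rw [h, Set.ncard_singleton]

/-- the `γ`-vector in terms of the counts -/
def gam (L1 L2 L3 L4 : ℤ) : ℕ → ℤ
  | 0 => 1
  | 1 => L1 - 17
  | 2 => L2 - 15 * L1 + 110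
  | 3 => L3 - 13 * L2 + 81 * L1 - 325
  | 4 => L4 - 11 * L3 + 56 * L2 - 176 * L1 + 386
  | _ => 0

lemma hStar_coeff {G : SimpleGraph (Fin 9)} (hG : G.Connected) (L : ℕ → ℤ)
    (hL : ∀ m, L m = ((ballS G m).ncard : ℤ)) :
    PowerSeries.coeff 0 (hStar 8 (edgePolytope G)) = L 0 ∧
    PowerSeries.coeff 1 (hStar 8 (edgePolytope G)) = L 1 - 9 * L 0 ∧
    PowerSeries.coeff 2 (hStar 8 (edgePolytope G)) = L 2 - 9 * L 1 + 36 * L 0 ∧
    PowerSeries.coeff 3 (hStar 8 (edgePolytope G)) = L 3 - 9 * L 2 + 36 * L 1 - 84 * L 0 ∧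
    PowerSeries.coeff 4 (hStar 8 (edgePolytope G)) =
      L 4 - 9 * L 3 + 36 * L 2 - 84 * L 1 + 126 * L 0 := by
  set P := ehrhartSeries (edgePolytope G) with hP
  have hc : ∀ m, PowerSeries.coeff m P = L m := fun m => by rw [hL, hP, ehrhart_ball hG]
  have hexp : hStar 8 (edgePolytope G) = P - PowerSeries.C 9 * (PowerSeries.X ^ 1 * P) +
      PowerSeries.C 36 * (PowerSeries.X ^ 2 * P) - PowerSeries.C 84 * (PowerSeries.X ^ 3 * P) +
      PowerSeries.C 126 * (PowerSeries.X ^ 4 * P) - PowerSeries.C 126 * (PowerSeries.X ^ 5 * P) +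
      PowerSeries.C 84 * (PowerSeries.X ^ 6 * P) - PowerSeries.C 36 * (PowerSeries.X ^ 7 * P) +
      PowerSeries.C 9 * (PowerSeries.X ^ 8 * P) - (PowerSeries.X ^ 9 * P) := by
    unfold hStar
    rw [← hP]
    have e9 : (PowerSeries.C (9 : ℤ)) = 9 := by simp
    have e36 : (PowerSeries.C (36 : ℤ)) = 36 := by simp
    have e84 : (PowerSeries.C (84 : ℤ)) = 84 := by simp
    have e126 : (PowerSeries.C (126 : ℤ)) = 126 := by simp
    rw [e9, e36, e84, e126]
    ring
  rw [hexp]
  refine ⟨?_, ?_, ?_, ?_, ?_⟩ <;>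
  · simp only [map_add, map_sub, PowerSeries.coeff_C_mul, PowerSeries.coeff_X_pow_mul', hc]
    norm_num

lemma gamma_of_counts {G : SimpleGraph (Fin 9)} (hG : G.Connected) {L1 L2 L3 L4 : ℕ}
    (h1 : (ballS G 1).ncard = L1) (h2 : (ballS G 2).ncard = L2) (h3 : (ballS G 3).ncard = L3)
    (h4 : (ballS G 4).ncard = L4) :
    IsGammaVector 8 (hStar 8 (edgePolytope G)) (gam L1 L2 L3 L4) := by
  obtain ⟨h, hh, hdeg, hpal⟩ := hStar_palindromic hG (by norm_num)
  norm_num at hh hdeg hpal
  obtain ⟨c0, c1, c2, c3, c4⟩ := hStar_coeff hG (fun m => ((ballS G m).ncard : ℤ)) (fun _ => rfl)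
  rw [ball_zero hG] at c0 c1 c2 c3 c4
  simp only [h1, h2, h3, h4] at c0 c1 c2 c3 c4
  rw [hh, Polynomial.coeff_coe] at c0 c1 c2 c3 c4
  unfold IsGammaVector
  rw [hh]
  congr 1
  ext k
  rw [Polynomial.finsetSum_coeff]
  have hterm : ∀ j : ℕ, (Polynomial.C (gam L1 L2 L3 L4 j) * Polynomial.X ^ j *
      (1 + Polynomial.X) ^ (8 - 2 * j) : Polynomial ℤ).coeff k =
      if j ≤ k then gam L1 L2 L3 L4 j * ((8 - 2 * j).choose (k - j) : ℤ) else 0 := by
    intro j
    rw [mul_assoc, Polynomial.coeff_C_mul, Polynomial.coeff_X_pow_mul']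
    split_ifs
    · rw [Polynomial.coeff_one_add_X_pow]
    · rw [mul_zero]
  rw [Finset.sum_congr rfl (fun j _ => hterm j)]
  by_cases hk : 8 < k
  · rw [Polynomial.coeff_eq_zero_of_natDegree_lt (by omega)]
    symm
    apply Finset.sum_eq_zero
    intro j hj
    rw [Finset.mem_range] at hj
    split_ifs
    · rw [Nat.choose_eq_zero_of_lt (by omega)]
      simp
    · rfl
  · have hk' : k ≤ 8 := by omega
    have p8 := hpal 8 (by norm_num)
    have p7 := hpal 7 (by norm_num)
    have p6 := hpal 6 (by norm_num)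
    have p5 := hpal 5 (by norm_num)
    norm_num at p8 p7 p6 p5
    simp only [Finset.sum_range_succ, Finset.sum_range_zero, gam]
    interval_cases k
    · rw [c0]; norm_num [Nat.choose]
    · rw [c1]; norm_num [Nat.choose]; ring
    · rw [c2]; norm_num [Nat.choose]; ring
    · rw [c3]; norm_num [Nat.choose]; ring
    · rw [c4]; norm_num [Nat.choose]; ring
    · rw [p5, c3]; norm_num [Nat.choose]; ring
    · rw [p6, c2]; norm_num [Nat.choose]; ring
    · rw [p7, c1]; norm_num [Nat.choose]; ring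
    · rw [p8, c0]; norm_num [Nat.choose]

/-- invariance of the counts under isomorphism -/
lemma ball_iso {G H : SimpleGraph (Fin 9)} (hG : G.Connected) (hH : H.Connected)
    (π : Equiv.Perm (Fin 9)) (h : ∀ a b, G.Adj a b ↔ H.Adj (π a) (π b)) (k : ℕ) :
    (ballS G k).ncard = (ballS H k).ncard := by
  have key : ∀ {G H : SimpleGraph (Fin 9)}, G.Connected → H.Connected →
      ∀ π : Equiv.Perm (Fin 9), (∀ a b, G.Adj a b ↔ H.Adj (π a) (π b)) →
      ∀ z ∈ ballS H k, (fun a => z (π a)) ∈ ballS G k := by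
    intro G H hG hH π h z hz
    have hb : bal (fun a => z (π a)) := by
      unfold bal
      rw [Equiv.sum_comp π z]
      exact hz.1
    refine ⟨hb, ?_⟩
    obtain ⟨f, hf, hfz⟩ := nu_attained hG hb
    have h1 : Lip H (fun a => f (π.symm a)) := by
      intro a b hab
      apply hf
      rw [h, Equiv.apply_symm_apply, Equiv.apply_symm_apply]
      exact hab
    have h2 := le_nu hH hz.1 h1
    have h3 : pr (fun a => f (π.symm a)) z = pr f (fun a => z (π a)) := by
      unfold pr
      rw [← Equiv.sum_comp π]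
      simp
    rw [← hfz, ← h3]
    exact h2.trans hz.2
  apply le_antisymm
  · have hfin : (ballS H k).Finite := by
      have h1 : ballS H k ⊆
          ⋃ m ∈ Finset.range (k + 1), {z | z ∈ {x : Fin 9 → ℤ | bal x} ∧ nu H z = (m : ℕ)} := by
        rintro z ⟨hz, hzm⟩
        have h2 := nu_nonneg hH hz
        rw [Set.mem_iUnion₂]
        refine ⟨(nu H z).toNat, ?_, hz, ?_⟩
        · rw [Finset.mem_range]
          omega
        · omega
      exact (Set.Finite.biUnion (Finset.finite_toSet _) (fun k _ => nu_LF hH k)).subset h1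
    apply Set.ncard_le_ncard_of_injOn (fun z => fun a => z (π.symm a)) _ _ hfin
    · intro z hz
      exact key hH hG π.symm (fun a b => by rw [h]; simp) z hz
    · intro z _ z' _ hzz
      funext a
      have := congrFun hzz (π a)
      simpa using this
  · have hfin : (ballS G k).Finite := by
      have h1 : ballS G k ⊆
          ⋃ m ∈ Finset.range (k + 1), {z | z ∈ {x : Fin 9 → ℤ | bal x} ∧ nu G z = (m : ℕ)} := by
        rintro z ⟨hz, hzm⟩
        have h2 := nu_nonneg hG hz
        rw [Set.mem_iUnion₂]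
        refine ⟨(nu G z).toNat, ?_, hz, ?_⟩
        · rw [Finset.mem_range]
          omega
        · omega
      exact (Set.Finite.biUnion (Finset.finite_toSet _) (fun k _ => nu_LF hG k)).subset h1
    apply Set.ncard_le_ncard_of_injOn (fun z => fun a => z (π a)) _ _ hfin
    · intro z hz
      exact key hG hH π h z hz
    · intro z _ z' _ hzz
      funext a
      have := congrFun hzz (π.symm a)
      simpa using this

/-- counts from the kernel computation -/
lemma ball_of_counts {G : SimpleGraph (Fin 9)} (hG : G.Connected)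
    {E : List (List (Fin 9) × List (Fin 9))}
    (hE : IsBiList G E) {L1 L2 L3 L4 : ℕ} (h : counts E = [L1, L2, L3, L4]) :
    (ballS G 1).ncard = L1 ∧ (ballS G 2).ncard = L2 ∧ (ballS G 3).ncard = L3 ∧
      (ballS G 4).ncard = L4 := by
  rw [counts_eq hG hE] at h
  simpa using h

end Pool.Agent.R135.SEP
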