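import Pool.Agent.R135.SEPFinal
import Pool.Agent.R135.SEPGamma
import Pool.Agent.R135.SEPCnt1
import Pool.Agent.R135.SEPCnt2
import Pool.Agent.R135.SEPCnt3

/-!
# The counterexample: a graph with nine vertices and nineteen edges
-/

set_option autoImplicit false
open Finset
open scoped Pointwise

namespace Pool.Agent.R135.SEP

/-- the graph with the given list of edges -/
def listGraph (E : List (Fin 9 × Fin 9)) : SimpleGraph (Fin 9) where
  Adj a b := a ≠ b ∧ ((a, b) ∈ E ∨ (b, a) ∈ E)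
  symm := ⟨fun _ _ h => ⟨h.1.symm, h.2.symm⟩⟩
  loopless := ⟨fun _ h => h.1 rfl⟩

instance (E : List (Fin 9 × Fin 9)) : DecidableRel (listGraph E).Adj :=
  fun a b => inferInstanceAs (Decidable (a ≠ b ∧ ((a, b) ∈ E ∨ (b, a) ∈ E)))

/-- the edges of the counterexample -/
def cexList : List (Fin 9 × Fin 9) :=
  [(0, 1), (0, 2), (1, 2), (0, 3), (1, 3), (2, 3), (4, 5), (4, 6), (5, 6), (0, 7), (1, 7), (4, 7), (5, 7), (6, 7), (2, 8), (3, 8), (4, 8), (5, 8), (6, 8)]

/-- the counterexample -/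
def cex : SimpleGraph (Fin 9) := listGraph cexList

instance : DecidableRel cex.Adj := inferInstanceAs (DecidableRel (listGraph cexList).Adj)

lemma conn_of_parent (G : SimpleGraph (Fin 9)) (r : Fin 9) (p : Fin 9 → Fin 9)
    (rk : Fin 9 → ℕ) (h : ∀ a, a ≠ r → G.Adj a (p a) ∧ rk (p a) < rk a) : G.Connected := by
  have key : ∀ (k : ℕ) (a : Fin 9), rk a ≤ k → G.Reachable a r := by
    intro k
    induction k with
    | zero =>
      intro a ha
      by_cases har : a = r
      · rw [har]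
      · have := (h a har).2
        omega
    | succ k ih =>
      intro a ha
      by_cases har : a = r
      · rw [har]
      · obtain ⟨h1, h2⟩ := h a har
        exact h1.reachable.trans (ih (p a) (by omega))
  have : Nonempty (Fin 9) := ⟨r⟩
  exact ⟨fun a b => (key _ a le_rfl).trans (key _ b le_rfl).symm⟩

lemma conn_induce_of_parent (G : SimpleGraph (Fin 9)) (v r : Fin 9) (hr : r ≠ v)
    (p : Fin 9 → Fin 9) (rk : Fin 9 → ℕ)
    (h : ∀ a, a ≠ v → a ≠ r → G.Adj a (p a) ∧ p a ≠ v ∧ rk (p a) < rk a) :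
    (G.induce {v}ᶜ).Connected := by
  have key : ∀ (k : ℕ) (a : Fin 9) (ha : a ≠ v), rk a ≤ k →
      (G.induce {v}ᶜ).Reachable ⟨a, ha⟩ ⟨r, hr⟩ := by
    intro k
    induction k with
    | zero =>
      intro a hav ha
      by_cases har : a = r
      · subst har
        exact SimpleGraph.Reachable.refl _
      · have := (h a hav har).2.2
        omega
    | succ k ih =>
      intro a hav ha
      by_cases har : a = r
      · subst har
        exact SimpleGraph.Reachable.refl _
      · obtain ⟨h1, h2, h3⟩ := h a hav har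
        have h4 : (G.induce {v}ᶜ).Adj ⟨a, hav⟩ ⟨p a, h2⟩ := h1
        exact h4.reachable.trans (ih (p a) h2 (by omega))
  have : Nonempty (({v}ᶜ : Set (Fin 9))) := ⟨⟨r, hr⟩⟩
  exact ⟨fun a b => (key _ a.1 a.2 le_rfl).trans (key _ b.1 b.2 le_rfl).symm⟩

lemma cex_two : TwoConnected cex := by
  refine ⟨by norm_num, ?_, ?_⟩
  · exact conn_of_parent cex 0 ![0, 0, 0, 0, 7, 7, 7, 0, 2] ![0, 1, 1, 1, 2, 2, 2, 1, 2]
      (by decide +kernel)
  · intro v
    fin_cases v
    · exact conn_induce_of_parent cex 0 1 (by decide) ![1, 1, 1, 1, 7, 7, 7, 1, 2] ![0, 0, 1, 1, 2, 2, 2, 1, 2] (by decide +kernel)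
    · exact conn_induce_of_parent cex 1 0 (by decide) ![0, 0, 0, 0, 7, 7, 7, 0, 2] ![0, 0, 1, 1, 2, 2, 2, 1, 2] (by decide +kernel)
    · exact conn_induce_of_parent cex 2 0 (by decide) ![0, 0, 0, 0, 7, 7, 7, 0, 3] ![0, 1, 0, 1, 2, 2, 2, 1, 2] (by decide +kernel)
    · exact conn_induce_of_parent cex 3 0 (by decide) ![0, 0, 0, 0, 7, 7, 7, 0, 2] ![0, 1, 1, 0, 2, 2, 2, 1, 2] (by decide +kernel)
    · exact conn_induce_of_parent cex 4 0 (by decide) ![0, 0, 0, 0, 0, 7, 7, 0, 2] ![0, 1, 1, 1, 0, 2, 2, 1, 2] (by decide +kernel)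
    · exact conn_induce_of_parent cex 5 0 (by decide) ![0, 0, 0, 0, 7, 0, 7, 0, 2] ![0, 1, 1, 1, 2, 0, 2, 1, 2] (by decide +kernel)
    · exact conn_induce_of_parent cex 6 0 (by decide) ![0, 0, 0, 0, 7, 7, 0, 0, 2] ![0, 1, 1, 1, 2, 2, 0, 1, 2] (by decide +kernel)
    · exact conn_induce_of_parent cex 7 0 (by decide) ![0, 0, 0, 0, 8, 8, 8, 0, 2] ![0, 1, 1, 1, 3, 3, 3, 0, 2] (by decide +kernel)
    · exact conn_induce_of_parent cex 8 0 (by decide) ![0, 0, 0, 0, 7, 7, 7, 0, 0] ![0, 1, 1, 1, 2, 2, 2, 1, 0] (by decide +kernel)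

/-- the `γ`-vector after deleting one edge, by transport to a representative edge -/
lemma edge_case {a b c d : Fin 9} (hab : cex.Adj a b) (hcd : cex.Adj c d)
    (π : Equiv.Perm (Fin 9))
    (hπ : ∀ x y, (cex.Adj x y ∧ s(x, y) ≠ s(a, b)) ↔ (cex.Adj (π x) (π y) ∧
      s(π x, π y) ≠ s(c, d)))
    {E : List (List (Fin 9) × List (Fin 9))}
    (hE : ∀ x y, (x = y ∨ (cex.Adj x y ∧ s(x, y) ≠ s(c, d))) ↔ ∃ p ∈ E, x ∈ p.1 ∧ y ∈ p.2)
    {L1 L2 L3 L4 : ℕ} (hcnt : counts E = [L1, L2, L3, L4]) :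
    IsGammaVector 8 (hStar 8 (edgePolytope (cex.deleteEdges {s(a, b)}))) (gam L1 L2 L3 L4) := by
  have hconn := cex_two.deleteEdges hab
  have hconn' := cex_two.deleteEdges hcd
  have hadj : ∀ {u v : Fin 9} (x y : Fin 9), (cex.deleteEdges {s(u, v)}).Adj x y ↔
      (cex.Adj x y ∧ s(x, y) ≠ s(u, v)) := by
    intro u v x y
    rw [SimpleGraph.deleteEdges_adj, Set.mem_singleton_iff]
  have hiso : ∀ x y, (cex.deleteEdges {s(a, b)}).Adj x y ↔
      (cex.deleteEdges {s(c, d)}).Adj (π x) (π y) := by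
    intro x y
    rw [hadj, hadj]
    exact hπ x y
  have hE' : IsBiList (cex.deleteEdges {s(c, d)}) E := by
    intro x y
    rw [hadj]
    exact hE x y
  obtain ⟨h1, h2, h3, h4⟩ := ball_of_counts hconn' hE' hcnt
  apply gamma_of_counts hconn
  · rw [ball_iso hconn hconn' π hiso, h1]
  · rw [ball_iso hconn hconn' π hiso, h2]
  · rw [ball_iso hconn hconn' π hiso, h3]
  · rw [ball_iso hconn hconn' π hiso, h4]

lemma cex_gamma : IsGammaVector 8 (hStar 8 (edgePolytope cex)) (gam 39 639 5715 33595) := by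
  have hE : IsBiList cex listG := by
    unfold IsBiList
    decide +kernel
  obtain ⟨h1, h2, h3, h4⟩ := ball_of_counts cex_two.2.1 hE countsG
  exact gamma_of_counts cex_two.2.1 h1 h2 h3 h4

lemma repA : ∀ x y, (x = y ∨ (cex.Adj x y ∧ s(x, y) ≠ s((0 : Fin 9), 1))) ↔
    ∃ p ∈ listA, x ∈ p.1 ∧ y ∈ p.2 := by
  decide +kernel

lemma repB : ∀ x y, (x = y ∨ (cex.Adj x y ∧ s(x, y) ≠ s((0 : Fin 9), 2))) ↔
    ∃ p ∈ listB, x ∈ p.1 ∧ y ∈ p.2 := by
  decide +kernel

lemma repC : ∀ x y, (x = y ∨ (cex.Adj x y ∧ s(x, y) ≠ s((0 : Fin 9), 7))) ↔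
    ∃ p ∈ listC, x ∈ p.1 ∧ y ∈ p.2 := by
  decide +kernel

lemma repD : ∀ x y, (x = y ∨ (cex.Adj x y ∧ s(x, y) ≠ s((4 : Fin 9), 7))) ↔
    ∃ p ∈ listD, x ∈ p.1 ∧ y ∈ p.2 := by
  decide +kernel

lemma repE : ∀ x y, (x = y ∨ (cex.Adj x y ∧ s(x, y) ≠ s((4 : Fin 9), 5))) ↔
    ∃ p ∈ listE, x ∈ p.1 ∧ y ∈ p.2 := by
  decide +kernel

lemma caseA {a b : Fin 9} (hab : cex.Adj a b) (π : Equiv.Perm (Fin 9))
    (hπ : ∀ x y, (cex.Adj x y ∧ s(x, y) ≠ s(a, b)) ↔ (cex.Adj (π x) (π y) ∧
      s(π x, π y) ≠ s(0, 1))) :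
    IsGammaVector 8 (hStar 8 (edgePolytope (cex.deleteEdges {s(a, b)})))
      (gam 37 581 5063 29319) := by
  have h := edge_case hab (c := 0) (d := 1) (by decide +kernel) π hπ repA countsA
  simpa only [Nat.cast_ofNat] using h

lemma caseB {a b : Fin 9} (hab : cex.Adj a b) (π : Equiv.Perm (Fin 9))
    (hπ : ∀ x y, (cex.Adj x y ∧ s(x, y) ≠ s(a, b)) ↔ (cex.Adj (π x) (π y) ∧
      s(π x, π y) ≠ s(0, 2))) :
    IsGammaVector 8 (hStar 8 (edgePolytope (cex.deleteEdges {s(a, b)})))
      (gam 37 585 5149 30041) := by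
  have h := edge_case hab (c := 0) (d := 2) (by decide +kernel) π hπ repB countsB
  simpa only [Nat.cast_ofNat] using h

lemma caseC {a b : Fin 9} (hab : cex.Adj a b) (π : Equiv.Perm (Fin 9))
    (hπ : ∀ x y, (cex.Adj x y ∧ s(x, y) ≠ s(a, b)) ↔ (cex.Adj (π x) (π y) ∧
      s(π x, π y) ≠ s(0, 7))) :
    IsGammaVector 8 (hStar 8 (edgePolytope (cex.deleteEdges {s(a, b)})))
      (gam 37 577 5023 29103) := by
  have h := edge_case hab (c := 0) (d := 7) (by decide +kernel) π hπ repC countsC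
  simpa only [Nat.cast_ofNat] using h

lemma caseD {a b : Fin 9} (hab : cex.Adj a b) (π : Equiv.Perm (Fin 9))
    (hπ : ∀ x y, (cex.Adj x y ∧ s(x, y) ≠ s(a, b)) ↔ (cex.Adj (π x) (π y) ∧
      s(π x, π y) ≠ s(4, 7))) :
    IsGammaVector 8 (hStar 8 (edgePolytope (cex.deleteEdges {s(a, b)})))
      (gam 37 583 5129 29935) := by
  have h := edge_case hab (c := 4) (d := 7) (by decide +kernel) π hπ repD countsD
  simpa only [Nat.cast_ofNat] using h

lemma caseE {a b : Fin 9} (hab : cex.Adj a b) (π : Equiv.Perm (Fin 9))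
    (hπ : ∀ x y, (cex.Adj x y ∧ s(x, y) ≠ s(a, b)) ↔ (cex.Adj (π x) (π y) ∧
      s(π x, π y) ≠ s(4, 5))) :
    IsGammaVector 8 (hStar 8 (edgePolytope (cex.deleteEdges {s(a, b)})))
      (gam 37 585 5131 29843) := by
  have h := edge_case hab (c := 4) (d := 5) (by decide +kernel) π hπ repE countsE
  simpa only [Nat.cast_ofNat] using h

/-- the `γ`-vectors after deleting an edge -/
def gamE (e : Sym2 (Fin 9)) : ℕ → ℤ :=
  if e ∈ ({s(0, 1), s(2, 3)} : Finset (Sym2 (Fin 9))) then gam 37 581 5063 29319 else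
  if e ∈ ({s(0, 2), s(1, 2), s(0, 3), s(1, 3)} : Finset (Sym2 (Fin 9))) then gam 37 585 5149 30041 else
  if e ∈ ({s(0, 7), s(1, 7), s(2, 8), s(3, 8)} : Finset (Sym2 (Fin 9))) then gam 37 577 5023 29103 else
  if e ∈ ({s(4, 7), s(5, 7), s(6, 7), s(4, 8), s(5, 8), s(6, 8)} : Finset (Sym2 (Fin 9))) then gam 37 583 5129 29935 else
  gam 37 585 5131 29843

lemma cex_edges (e : Sym2 (Fin 9)) (he : e ∈ cex.edgeSet) :
    IsGammaVector 8 (hStar 8 (edgePolytope (cex.deleteEdges {e}))) (gamE e) := by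
  induction e with
  | _ a b =>
  rw [SimpleGraph.mem_edgeSet] at he
  have h1 : (a, b) ∈ cexList ∨ (b, a) ∈ cexList := he.2
  have key : ∀ a b, (a, b) ∈ cexList → IsGammaVector 8
      (hStar 8 (edgePolytope (cex.deleteEdges {s(a, b)}))) (gamE s(a, b)) := by
    intro a b hq
    simp only [cexList, List.mem_cons, List.not_mem_nil, or_false, Prod.mk.injEq] at hq
    rcases hq with ⟨rfl, rfl⟩ | ⟨rfl, rfl⟩ | ⟨rfl, rfl⟩ | ⟨rfl, rfl⟩ | ⟨rfl, rfl⟩ | ⟨rfl, rfl⟩ | ⟨rfl, rfl⟩ | ⟨rfl, rfl⟩ | ⟨rfl, rfl⟩ | ⟨rfl, rfl⟩ | ⟨rfl, rfl⟩ | ⟨rfl, rfl⟩ | ⟨rfl, rfl⟩ | ⟨rfl, rfl⟩ | ⟨rfl, rfl⟩ | ⟨rfl, rfl⟩ | ⟨rfl, rfl⟩ | ⟨rfl, rfl⟩ | ⟨rfl, rfl⟩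
    · have h2 : gamE s(0, 1) = gam 37 581 5063 29319 := by
        unfold gamE
        repeat' first | rw [if_pos (by decide)] | rw [if_neg (by decide)]
      rw [h2]
      exact caseA (by decide +kernel) (1) (by decide +kernel)
    · have h2 : gamE s(0, 2) = gam 37 585 5149 30041 := by
        unfold gamE
        repeat' first | rw [if_pos (by decide)] | rw [if_neg (by decide)]
      rw [h2]
      exact caseB (by decide +kernel) (1) (by decide +kernel)
    · have h2 : gamE s(1, 2) = gam 37 585 5149 30041 := by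
        unfold gamE
        repeat' first | rw [if_pos (by decide)] | rw [if_neg (by decide)]
      rw [h2]
      exact caseB (by decide +kernel) (Equiv.swap (0 : Fin 9) 1) (by decide +kernel)
    · have h2 : gamE s(0, 3) = gam 37 585 5149 30041 := by
        unfold gamE
        repeat' first | rw [if_pos (by decide)] | rw [if_neg (by decide)]
      rw [h2]
      exact caseB (by decide +kernel) (Equiv.swap (2 : Fin 9) 3) (by decide +kernel)
    · have h2 : gamE s(1, 3) = gam 37 585 5149 30041 := by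
        unfold gamE
        repeat' first | rw [if_pos (by decide)] | rw [if_neg (by decide)]
      rw [h2]
      exact caseB (by decide +kernel) (Equiv.swap (0 : Fin 9) 1 * Equiv.swap (2 : Fin 9) 3) (by decide +kernel)
    · have h2 : gamE s(2, 3) = gam 37 581 5063 29319 := by
        unfold gamE
        repeat' first | rw [if_pos (by decide)] | rw [if_neg (by decide)]
      rw [h2]
      exact caseA (by decide +kernel) (Equiv.swap (0 : Fin 9) 2 * Equiv.swap (1 : Fin 9) 3 * Equiv.swap (7 : Fin 9) 8) (by decide +kernel)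
    · have h2 : gamE s(4, 5) = gam 37 585 5131 29843 := by
        unfold gamE
        repeat' first | rw [if_pos (by decide)] | rw [if_neg (by decide)]
      rw [h2]
      exact caseE (by decide +kernel) (1) (by decide +kernel)
    · have h2 : gamE s(4, 6) = gam 37 585 5131 29843 := by
        unfold gamE
        repeat' first | rw [if_pos (by decide)] | rw [if_neg (by decide)]
      rw [h2]
      exact caseE (by decide +kernel) (Equiv.swap (5 : Fin 9) 6) (by decide +kernel)
    · have h2 : gamE s(5, 6) = gam 37 585 5131 29843 := by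
        unfold gamE
        repeat' first | rw [if_pos (by decide)] | rw [if_neg (by decide)]
      rw [h2]
      exact caseE (by decide +kernel) (Equiv.swap (4 : Fin 9) 6) (by decide +kernel)
    · have h2 : gamE s(0, 7) = gam 37 577 5023 29103 := by
        unfold gamE
        repeat' first | rw [if_pos (by decide)] | rw [if_neg (by decide)]
      rw [h2]
      exact caseC (by decide +kernel) (1) (by decide +kernel)
    · have h2 : gamE s(1, 7) = gam 37 577 5023 29103 := by
        unfold gamE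
        repeat' first | rw [if_pos (by decide)] | rw [if_neg (by decide)]
      rw [h2]
      exact caseC (by decide +kernel) (Equiv.swap (0 : Fin 9) 1) (by decide +kernel)
    · have h2 : gamE s(4, 7) = gam 37 583 5129 29935 := by
        unfold gamE
        repeat' first | rw [if_pos (by decide)] | rw [if_neg (by decide)]
      rw [h2]
      exact caseD (by decide +kernel) (1) (by decide +kernel)
    · have h2 : gamE s(5, 7) = gam 37 583 5129 29935 := by
        unfold gamE
        repeat' first | rw [if_pos (by decide)] | rw [if_neg (by decide)]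
      rw [h2]
      exact caseD (by decide +kernel) (Equiv.swap (4 : Fin 9) 5) (by decide +kernel)
    · have h2 : gamE s(6, 7) = gam 37 583 5129 29935 := by
        unfold gamE
        repeat' first | rw [if_pos (by decide)] | rw [if_neg (by decide)]
      rw [h2]
      exact caseD (by decide +kernel) (Equiv.swap (4 : Fin 9) 6) (by decide +kernel)
    · have h2 : gamE s(2, 8) = gam 37 577 5023 29103 := by
        unfold gamE
        repeat' first | rw [if_pos (by decide)] | rw [if_neg (by decide)]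
      rw [h2]
      exact caseC (by decide +kernel) (Equiv.swap (0 : Fin 9) 2 * Equiv.swap (1 : Fin 9) 3 * Equiv.swap (7 : Fin 9) 8) (by decide +kernel)
    · have h2 : gamE s(3, 8) = gam 37 577 5023 29103 := by
        unfold gamE
        repeat' first | rw [if_pos (by decide)] | rw [if_neg (by decide)]
      rw [h2]
      exact caseC (by decide +kernel) (Equiv.swap (0 : Fin 9) 3 * Equiv.swap (1 : Fin 9) 2 * Equiv.swap (7 : Fin 9) 8) (by decide +kernel)
    · have h2 : gamE s(4, 8) = gam 37 583 5129 29935 := by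
        unfold gamE
        repeat' first | rw [if_pos (by decide)] | rw [if_neg (by decide)]
      rw [h2]
      exact caseD (by decide +kernel) (Equiv.swap (0 : Fin 9) 2 * Equiv.swap (1 : Fin 9) 3 * Equiv.swap (7 : Fin 9) 8) (by decide +kernel)
    · have h2 : gamE s(5, 8) = gam 37 583 5129 29935 := by
        unfold gamE
        repeat' first | rw [if_pos (by decide)] | rw [if_neg (by decide)]
      rw [h2]
      exact caseD (by decide +kernel) (Equiv.swap (0 : Fin 9) 2 * Equiv.swap (1 : Fin 9) 3 * Equiv.swap (4 : Fin 9) 5 * Equiv.swap (7 : Fin 9) 8) (by decide +kernel)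
    · have h2 : gamE s(6, 8) = gam 37 583 5129 29935 := by
        unfold gamE
        repeat' first | rw [if_pos (by decide)] | rw [if_neg (by decide)]
      rw [h2]
      exact caseD (by decide +kernel) (Equiv.swap (0 : Fin 9) 2 * Equiv.swap (1 : Fin 9) 3 * Equiv.swap (4 : Fin 9) 6 * Equiv.swap (7 : Fin 9) 8) (by decide +kernel)
  rcases h1 with h1 | h1
  · exact key a b h1
  · have h2 : s(a, b) = s(b, a) := Sym2.eq_swap
    rw [h2]
    exact key b a h1

lemma cex_sum : (∑ e ∈ cex.edgeFinset, (gam 39 639 5715 33595 0 - gamE e 0) = 0) ∧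
    (∑ e ∈ cex.edgeFinset, (gam 39 639 5715 33595 1 - gamE e 1) = 38) ∧
    (∑ e ∈ cex.edgeFinset, (gam 39 639 5715 33595 2 - gamE e 2) = 508) ∧
    (∑ e ∈ cex.edgeFinset, (gam 39 639 5715 33595 3 - gamE e 3) = 668) ∧
    (∑ e ∈ cex.edgeFinset, (gam 39 639 5715 33595 4 - gamE e 4) = -12) := by
  decide +kernel

end Pool.Agent.R135.SEP
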