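import Mathlib

/-!
# Symmetric edge polytopes, visible facets, lattice distances: definitions
-/

set_option autoImplicit false
open Finset
open scoped Pointwise

namespace Pool.Agent.R135.SEP

variable {n : ℕ}

/-- The real vector with the same (integer) coordinates. -/
def toR (x : Fin n → ℤ) : Fin n → ℝ := fun a => (x a : ℝ)

/-- The symmetric edge polytope `P_G`: the convex hull of the vectors `e_a - e_b`, over all ordered
pairs `(a, b)` of adjacent vertices. -/
def edgePolytope (G : SimpleGraph (Fin n)) : Set (Fin n → ℝ) :=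
  convexHull ℝ {x | ∃ a b, G.Adj a b ∧ x = Pi.single a 1 - Pi.single b 1}

/-- The Ehrhart series `∑_m |mP ∩ ℤ^n| t^m`. (For `m = 0` and `P` nonempty the coefficient
is `1`.) -/
noncomputable def ehrhartSeries (P : Set (Fin n → ℝ)) : PowerSeries ℤ :=
  PowerSeries.mk fun m : ℕ => (Nat.card {z : Fin n → ℤ // toR z ∈ (m : ℝ) • P} : ℤ)

/-- `h^*_P(t) = (1 - t)^{d+1} ∑_m |mP ∩ ℤ^n| t^m`. -/
noncomputable def hStar (d : ℕ) (P : Set (Fin n → ℝ)) : PowerSeries ℤ :=
  (1 - PowerSeries.X) ^ (d + 1) * ehrhartSeries P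

/-- `W` is a facet of the `d`-dimensional polytope `P` (with `d = n - 1`) visible from `e`: it is
the face `{x ∈ P : u(x) = c}` of dimension `d - 1 = n - 2` cut out by a linear inequality
`u(x) ≤ c` valid on `P` and violated by `e`. -/
def IsVisibleFacet (P : Set (Fin n → ℝ)) (e : Fin n → ℝ) (W : Set (Fin n → ℝ)) : Prop :=
  ∃ (u : Fin n → ℝ) (c : ℝ), (∀ x ∈ P, ∑ a, u a * x a ≤ c) ∧ c < ∑ a, u a * e a ∧
    W = {x | x ∈ P ∧ ∑ a, u a * x a = c} ∧ Module.finrank ℝ (vectorSpan ℝ W) = n - 2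

/-- The union of the facets of `P` visible from `e`. -/
def visibleRegion (P : Set (Fin n → ℝ)) (e : Fin n → ℝ) : Set (Fin n → ℝ) :=
  {x | ∃ W, IsVisibleFacet P e W ∧ x ∈ W}

/-- `Γ` is the set of facets of a pure `(n - 2)`-dimensional simplicial complex with integer
vertices that triangulates `U`: every `σ ∈ Γ` is the vertex set of an `(n - 2)`-dimensional
simplex, any two of the simplices meet in the simplex spanned by their common vertices, and their
union is `U`. -/
structure IsTriangulation (Γ : Finset (Finset (Fin n → ℤ))) (U : Set (Fin n → ℝ)) : Prop where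
  card : ∀ σ ∈ Γ, σ.card = n - 1
  indep : ∀ σ ∈ Γ, AffineIndependent ℝ (fun v : σ => toR (v : Fin n → ℤ))
  inter : ∀ σ ∈ Γ, ∀ τ ∈ Γ, convexHull ℝ (toR '' (σ : Set (Fin n → ℤ))) ∩
    convexHull ℝ (toR '' (τ : Set (Fin n → ℤ))) =
      convexHull ℝ (toR '' ((σ : Set (Fin n → ℤ)) ∩ (τ : Set (Fin n → ℤ))))
  cover : (⋃ σ ∈ Γ, convexHull ℝ (toR '' (σ : Set (Fin n → ℤ)))) = U

/-- `h` is the lattice distance from `e` of the affine hull of `σ`: the affine hull is
`{x : ∑ x_a = 0, u(x) = c}` for an integral functional `u` which is primitive on the lattice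
`Λ = {z ∈ ℤ^n : ∑ z_a = 0}` (it takes the value `1` there), and `h = |u(e) - c|`. -/
def IsLatticeDistance (σ : Finset (Fin n → ℤ)) (e : Fin n → ℤ) (h : ℕ) : Prop :=
  ∃ (u : Fin n → ℤ) (c : ℤ), (∃ z : Fin n → ℤ, ∑ a, z a = 0 ∧ ∑ a, u a * z a = 1) ∧
    (affineSpan ℝ (toR '' (σ : Set (Fin n → ℤ))) : Set (Fin n → ℝ)) =
      {x | ∑ a, x a = 0 ∧ ∑ a, (u a : ℝ) * x a = c} ∧
    (h : ℤ) = |∑ a, u a * e a - c|

/-- The lattice distance of `e` from the affine hull of `σ`. -/
noncomputable def latticeDistance (σ : Finset (Fin n → ℤ)) (e : Fin n → ℤ) : ℕ :=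
  sInf {h | IsLatticeDistance σ e h}

/-- The faces of the simplicial complex generated by the simplices in `A`. (There are none if `A`
is empty.) -/
def subcomplex (A : Finset (Finset (Fin n → ℤ))) : Finset (Finset (Fin n → ℤ)) :=
  A.biUnion Finset.powerset

/-- `h_Δ(t) = ∑_{i=0}^d f_{i-1} t^i (1 - t)^{d-i}`, for the complex `Δ` generated by `A`, where
`f_{i-1}` is the number of faces with `i` vertices. (It is `0` if `A` is empty.) -/
noncomputable def hPolynomial (d : ℕ) (A : Finset (Finset (Fin n → ℤ))) : Polynomial ℤ :=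
  ∑ i ∈ range (d + 1), (((subcomplex A).filter (fun τ => τ.card = i)).card : Polynomial ℤ) *
    Polynomial.X ^ i * (1 - Polynomial.X) ^ (d - i)

/-- `D = h_{Γ_{≥ a}} - h_{Γ_{> a}}`, where `Γ_{≥ a}` (`Γ_{> a}`) is the subcomplex generated by the
facets at lattice distance at least `a` (greater than `a`) from `e`. -/
noncomputable def dPolynomial (d : ℕ) (Γ : Finset (Finset (Fin n → ℤ))) (e : Fin n → ℤ) (a : ℕ) :
    Polynomial ℤ :=
  hPolynomial d (Γ.filter (fun σ => a ≤ latticeDistance σ e)) -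
    hPolynomial d (Γ.filter (fun σ => a < latticeDistance σ e))

/-- `q = D (1 + t + ⋯ + t^{a-1})`. -/
noncomputable def qPolynomial (d : ℕ) (Γ : Finset (Finset (Fin n → ℤ))) (e : Fin n → ℤ) (a : ℕ) :
    Polynomial ℤ :=
  dPolynomial d Γ e a * ∑ m ∈ range a, Polynomial.X ^ m

/-- The polynomial `p` has nonnegative coefficients. -/
def HasNonnegCoeffs (p : Polynomial ℤ) : Prop := ∀ k, 0 ≤ p.coeff k

/-- The polynomial `p` is palindromic with center `d / 2`: `p(t) = t^d p(1/t)`. -/
def IsPalindromic (d : ℕ) (p : Polynomial ℤ) : Prop :=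
  p.natDegree ≤ d ∧ ∀ k ≤ d, p.coeff k = p.coeff (d - k)

/-- `G` is `2`-connected: it has at least three vertices, it is connected, and it stays connected
when any vertex is deleted. -/
def TwoConnected (G : SimpleGraph (Fin n)) : Prop :=
  3 ≤ n ∧ G.Connected ∧ ∀ v : Fin n, (G.induce {v}ᶜ).Connected

end Pool.Agent.R135.SEP
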