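import Pool.Agent.R135.SEPFull

/-!
# Existence of the triangulation data: cells of generic minimal representations
-/

set_option autoImplicit false
open Finset
open scoped Pointwise

namespace Pool.Agent.R135.SEP

variable {n : ℕ}

/-- generic weights -/
structure GenW (W : (Fin n → ℤ) → ℕ) : Prop where
  indep : ∀ (S : Finset (Fin n → ℤ)) (b : (Fin n → ℤ) → ℤ), (∀ v ∈ S, |b v| ≤ 1) →
    ∑ v ∈ S, b v * (W v : ℤ) = 0 → ∀ v ∈ S, b v = 0

lemma exists_genW : ∃ W : (Fin n → ℤ) → ℕ, GenW W := by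
  classical
  obtain ⟨r, hr⟩ := Countable.exists_injective_nat (Fin n → ℤ)
  refine ⟨fun v => 3 ^ r v, ⟨?_⟩⟩
  intro S b hb h
  by_contra hcon
  push Not at hcon
  obtain ⟨v1, hv1, hbv1⟩ := hcon
  obtain ⟨v0, hv0, hmin⟩ := Finset.exists_min_image (S.filter (fun v => b v ≠ 0)) r
    ⟨v1, by rw [Finset.mem_filter]; exact ⟨hv1, hbv1⟩⟩
  rw [Finset.mem_filter] at hv0
  have h1 : (3 : ℤ) ^ (r v0 + 1) ∣ b v0 * 3 ^ r v0 := by
    have h2 : b v0 * 3 ^ r v0 = - ∑ v ∈ S.erase v0, b v * ((3 ^ r v : ℕ) : ℤ) := by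
      rw [← Finset.add_sum_erase S _ hv0.1] at h
      push_cast at h ⊢
      linarith
    rw [h2]
    apply Dvd.dvd.neg_right
    apply Finset.dvd_sum
    intro v hv
    rw [Finset.mem_erase] at hv
    by_cases hbv : b v = 0
    · rw [hbv, zero_mul]
      exact dvd_zero _
    · have h3 := hmin v (by rw [Finset.mem_filter]; exact ⟨hv.2, hbv⟩)
      have h4 : r v0 ≠ r v := fun h5 => hv.1 (hr h5).symm
      have h5 : r v0 + 1 ≤ r v := by omega
      push_cast
      exact Dvd.dvd.mul_left (pow_dvd_pow 3 h5) _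
  rw [pow_succ, mul_comm (b v0)] at h1
  have h2 : (3 : ℤ) ∣ b v0 := by
    apply (mul_dvd_mul_iff_left (show (3 : ℤ) ^ r v0 ≠ 0 by positivity)).mp h1
  have h3 := abs_le.mp (hb v0 hv0.1)
  have h4 := hv0.2
  omega

/-- all oriented edges -/
noncomputable def oedges (G : SimpleGraph (Fin n)) : Finset (Fin n → ℤ) := by
  classical
  exact ((univ : Finset (Fin n × Fin n)).filter (fun p => G.Adj p.1 p.2)).image
    (fun p => ev p.1 p.2)

lemma mem_oedges {G : SimpleGraph (Fin n)} {v : Fin n → ℤ} :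
    v ∈ oedges G ↔ ∃ a b, G.Adj a b ∧ v = ev a b := by
  classical
  unfold oedges
  simp only [Finset.mem_image, Finset.mem_filter, Finset.mem_univ, true_and, Prod.exists]
  constructor
  · rintro ⟨a, b, h, rfl⟩
    exact ⟨a, b, h, rfl⟩
  · rintro ⟨a, b, h, rfl⟩
    exact ⟨a, b, h, rfl⟩

/-- a shortest representation -/
structure IsRep (G : SimpleGraph (Fin n)) (z : Fin n → ℤ) (c : (Fin n → ℤ) → ℕ) : Prop where
  sum : ∑ v ∈ oedges G, (c v : ℤ) • v = z
  len : ∑ v ∈ oedges G, (c v : ℤ) = nu G z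

lemma rep_exists {G : SimpleGraph (Fin n)} (hG : G.Connected) (hn : 2 ≤ n) {z : Fin n → ℤ}
    (hz : bal z) : ∃ c, IsRep G z c := by
  classical
  have key : ∀ (k : ℕ) (z : Fin n → ℤ), bal z → nu G z = k → ∃ c, IsRep G z c := by
    intro k
    induction k with
    | zero =>
      intro z hz h
      have h1 := nu_zero_imp hG hz h
      refine ⟨fun _ => 0, ?_, ?_⟩
      · rw [h1]; simp
      · rw [h]; simp
    | succ k ih =>
      intro z hz h
      obtain ⟨a, b, hab, h1⟩ := peel hG hn hz (by rw [h]; positivity)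
      obtain ⟨c, hc⟩ := ih (z - ev a b) (hz.sub (bal_ev a b)) (by rw [h1, h]; push_cast; ring)
      have hmem : ev a b ∈ oedges G := mem_oedges.mpr ⟨a, b, hab, rfl⟩
      refine ⟨fun v => c v + if v = ev a b then 1 else 0, ?_, ?_⟩
      · have h2 : ∀ v ∈ oedges G, (((c v + if v = ev a b then 1 else 0 : ℕ)) : ℤ) • v =
            (c v : ℤ) • v + if v = ev a b then ev a b else 0 := by
          intro v _
          split_ifs with h3
          · rw [h3]
            push_cast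
            rw [add_smul, one_smul]
          · push_cast
            rw [add_zero, add_zero]
        rw [Finset.sum_congr rfl h2, Finset.sum_add_distrib, hc.sum, Finset.sum_ite_eq',
          if_pos hmem, sub_add_cancel]
      · have h2 : ∀ v ∈ oedges G, (((c v + if v = ev a b then 1 else 0 : ℕ)) : ℤ) =
            (c v : ℤ) + if v = ev a b then 1 else 0 := by
          intro v _
          split_ifs with h3 <;> push_cast <;> ring
        rw [Finset.sum_congr rfl h2, Finset.sum_add_distrib, hc.len, Finset.sum_ite_eq',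
          if_pos hmem, h1]
        ring
  have h0 := nu_nonneg hG hz
  exact key (nu G z).toNat z hz (by omega)

/-- cells with respect to the weights `W` -/
structure WCell (G : SimpleGraph (Fin n)) (W : (Fin n → ℤ) → ℕ) (σ : Finset (Fin n → ℤ))
    (f y : Fin n → ℤ) : Prop where
  card : σ.card = n - 1
  rli : RLI σ
  edge : ∀ v ∈ σ, ∃ a b, G.Adj a b ∧ v = ev a b
  lip : Lip G f
  one : ∀ v ∈ σ, pr f v = 1
  pot : ∀ v ∈ σ, pr y v = W v
  lt : ∀ w ∈ oedges G, pr f w = 1 → w ∉ σ → pr y w < W w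

lemma pr_sum_nat (f : Fin n → ℤ) (τ : Finset (Fin n → ℤ)) (c : (Fin n → ℤ) → ℕ) :
    pr f (∑ v ∈ τ, (c v : ℤ) • v) = ∑ v ∈ τ, (c v : ℤ) * pr f v :=
  pr_sum_right f τ (fun v => (c v : ℤ))

lemma wcell_gauge {G : SimpleGraph (Fin n)} (hG : G.Connected) {W : (Fin n → ℤ) → ℕ}
    {σ : Finset (Fin n → ℤ)} {f y : Fin n → ℤ} (h : WCell G W σ f y)
    (c : (Fin n → ℤ) → ℕ) : nu G (∑ v ∈ σ, (c v : ℤ) • v) = ∑ v ∈ σ, (c v : ℤ) := by
  have hb : bal (∑ v ∈ σ, (c v : ℤ) • v) := bal_sum _ (fun v => (c v : ℤ)) (fun v hv => by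
    obtain ⟨a, b, _, rfl⟩ := h.edge v hv
    exact bal_ev a b)
  have h1 : pr f (∑ v ∈ σ, (c v : ℤ) • v) = ∑ v ∈ σ, (c v : ℤ) := by
    rw [pr_sum_nat]
    apply Finset.sum_congr rfl
    intro v hv
    rw [h.one v hv, mul_one]
  apply le_antisymm
  · obtain ⟨g, hg, h3⟩ := nu_attained hG hb
    rw [← h3, pr_sum_nat]
    apply Finset.sum_le_sum
    intro v hv
    obtain ⟨a, b, hab, hv2⟩ := h.edge v hv
    have h4 : pr g v ≤ 1 := by
      rw [hv2, pr_ev]
      exact hg a b hab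
    calc (c v : ℤ) * pr g v ≤ (c v : ℤ) * 1 :=
          mul_le_mul_of_nonneg_left h4 (Int.natCast_nonneg _)
      _ = c v := mul_one _
  · rw [← h1]
    exact le_nu hG hb h.lip

/-- one half of uniqueness: the cost comparison -/
lemma wcell_half {G : SimpleGraph (Fin n)} (hG : G.Connected) {W : (Fin n → ℤ) → ℕ}
    {σ τ : Finset (Fin n → ℤ)} {f y f' y' : Fin n → ℤ} (hσ : WCell G W σ f y)
    (hτ : WCell G W τ f' y') (c c' : (Fin n → ℤ) → ℕ)
    (h : ∑ v ∈ σ, (c v : ℤ) • v = ∑ v ∈ τ, (c' v : ℤ) • v) :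
    (∀ v ∈ τ, (c' v : ℤ) * pr y v ≤ c' v * W v) ∧
    (∀ v ∈ τ, 0 < c' v → v ∉ σ → (c' v : ℤ) * pr y v < c' v * W v) ∧
    ∑ v ∈ σ, (c v : ℤ) * W v = ∑ v ∈ τ, (c' v : ℤ) * pr y v := by
  have h1 := wcell_gauge hG hσ c
  have h2 := wcell_gauge hG hτ c'
  rw [h, h2] at h1
  -- `f` is tight on the support of `c'`
  have hedge' : ∀ v ∈ τ, pr f v ≤ 1 := by
    intro v hv
    obtain ⟨a, b, hab, hv2⟩ := hτ.edge v hv
    rw [hv2, pr_ev]
    exact hσ.lip a b hab
  have h3 : ∑ v ∈ τ, (c' v : ℤ) * (1 - pr f v) = 0 := by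
    have h4 : pr f (∑ v ∈ σ, (c v : ℤ) • v) = ∑ v ∈ σ, (c v : ℤ) := by
      rw [pr_sum_nat]
      apply Finset.sum_congr rfl
      intro v hv
      rw [hσ.one v hv, mul_one]
    rw [h, pr_sum_nat, ← h1] at h4
    simp only [mul_sub, mul_one]
    rw [Finset.sum_sub_distrib, h4, sub_self]
  have h5 : ∀ v ∈ τ, (c' v : ℤ) * (1 - pr f v) = 0 :=
    (Finset.sum_eq_zero_iff_of_nonneg (fun v hv => mul_nonneg (Int.natCast_nonneg _) (by
      have := hedge' v hv; linarith))).mp h3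
  have htight : ∀ v ∈ τ, 0 < c' v → pr f v = 1 := by
    intro v hv hc
    rcases mul_eq_zero.mp (h5 v hv) with h6 | h6
    · exfalso
      have : (0 : ℤ) < c' v := by exact_mod_cast hc
      linarith
    · linarith
  have hlt : ∀ v ∈ τ, 0 < c' v → v ∉ σ → (c' v : ℤ) * pr y v < c' v * W v := by
    intro v hv hc hvσ
    obtain ⟨a, b, hab, hv2⟩ := hτ.edge v hv
    have h6 := hσ.lt v (mem_oedges.mpr ⟨a, b, hab, hv2⟩) (htight v hv hc) hvσ
    exact mul_lt_mul_of_pos_left h6 (by exact_mod_cast hc)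
  refine ⟨?_, hlt, ?_⟩
  · intro v hv
    rcases Nat.eq_zero_or_pos (c' v) with hc | hc
    · rw [hc]; simp
    · by_cases hvσ : v ∈ σ
      · rw [hσ.pot v hvσ]
      · exact (hlt v hv hc hvσ).le
  · have h6 := congrArg (pr y) h
    rw [pr_sum_nat, pr_sum_nat] at h6
    rw [← h6]
    apply Finset.sum_congr rfl
    intro v hv
    rw [hσ.pot v hv]

lemma wcell_uniq {G : SimpleGraph (Fin n)} (hG : G.Connected) {W : (Fin n → ℤ) → ℕ}
    {σ τ : Finset (Fin n → ℤ)} {f y f' y' : Fin n → ℤ} (hσ : WCell G W σ f y)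
    (hτ : WCell G W τ f' y') (c c' : (Fin n → ℤ) → ℕ)
    (h : ∑ v ∈ σ, (c v : ℤ) • v = ∑ v ∈ τ, (c' v : ℤ) • v) :
    ∀ v ∈ σ, 0 < c v → v ∈ τ ∧ c' v = c v := by
  classical
  obtain ⟨h1, h2, h3⟩ := wcell_half hG hσ hτ c c' h
  obtain ⟨h1', h2', h3'⟩ := wcell_half hG hτ hσ c' c h.symm
  have h4 := Finset.sum_le_sum h1
  have h5 := Finset.sum_le_sum h1'
  rw [← h3] at h4
  rw [← h3'] at h5
  have h6 : ∑ v ∈ τ, (c' v : ℤ) * pr y v = ∑ v ∈ τ, (c' v : ℤ) * W v := by
    rw [← h3]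
    exact le_antisymm h4 h5
  have h6' : ∑ v ∈ σ, (c v : ℤ) * pr y' v = ∑ v ∈ σ, (c v : ℤ) * W v := by
    rw [← h3']
    exact le_antisymm h5 h4
  have h7 := (Finset.sum_eq_sum_iff_of_le h1).mp h6
  have h7' := (Finset.sum_eq_sum_iff_of_le h1').mp h6'
  have hsub : ∀ v ∈ τ, 0 < c' v → v ∈ σ := by
    intro v hv hc
    by_contra hvσ
    exact absurd (h7 v hv) (ne_of_lt (h2 v hv hc hvσ))
  have hsub' : ∀ v ∈ σ, 0 < c v → v ∈ τ := by
    intro v hv hc
    by_contra hvτ
    exact absurd (h7' v hv) (ne_of_lt (h2' v hv hc hvτ))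
  -- compare the coefficients on `σ`
  have h8 : ∑ v ∈ τ, (c' v : ℤ) • v = ∑ v ∈ σ, ((if v ∈ τ then c' v else 0 : ℕ) : ℤ) • v := by
    have h9 : ∑ v ∈ τ, (c' v : ℤ) • v = ∑ v ∈ τ ∩ σ, (c' v : ℤ) • v := by
      symm
      apply Finset.sum_subset Finset.inter_subset_left
      intro v hv hv2
      have h10 : c' v = 0 := by
        by_contra h11
        exact hv2 (Finset.mem_inter.mpr ⟨hv, hsub v hv (by omega)⟩)
      rw [h10, Nat.cast_zero, zero_smul]
    rw [h9]
    rw [← Finset.sum_subset (Finset.inter_subset_right : τ ∩ σ ⊆ σ)]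
    · apply Finset.sum_congr rfl
      intro v hv
      rw [if_pos (Finset.mem_inter.mp hv).1]
    · intro v hv hv2
      have h10 : v ∉ τ := fun h11 => hv2 (Finset.mem_inter.mpr ⟨h11, hv⟩)
      rw [if_neg h10, Nat.cast_zero, zero_smul]
  rw [h8] at h
  have h9 := congrArg toR h
  have e1 := toR_sum σ (fun v => (c v : ℤ))
  have e2 := toR_sum σ (fun v => ((if v ∈ τ then c' v else 0 : ℕ) : ℤ))
  rw [e1, e2] at h9
  have h10 := hσ.rli.eq h9
  intro v hv hc
  have hvτ := hsub' v hv hc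
  refine ⟨hvτ, ?_⟩
  have h11 := h10 v hv
  rw [if_pos hvτ] at h11
  have h12 : (c v : ℝ) = c' v := by exact_mod_cast h11
  exact_mod_cast h12.symm

/-- subset sums of an oriented edge -/
lemma ev_subsum (a b : Fin n) (A : Finset (Fin n)) :
    |∑ p ∈ A, ev a b p| ≤ 1 := by
  classical
  have h1 : ∑ p ∈ A, ev a b p = (if a ∈ A then 1 else 0) - (if b ∈ A then 1 else 0) := by
    unfold ev
    simp only [Pi.sub_apply, Finset.sum_sub_distrib, Pi.single_apply]
    rw [Finset.sum_ite_eq', Finset.sum_ite_eq']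
  rw [h1]
  split_ifs <;> simp

/-- the change of representation given by an edge outside an independent set -/
lemma exchange_data {G : SimpleGraph (Fin n)} {τ : Finset (Fin n → ℤ)} (hτ : τ ⊆ oedges G)
    (A : (Fin n → ℤ) → Finset (Fin n))
    (hA : ∀ x : Fin n → ℝ, sm x = 0 → ∑ v ∈ τ, (∑ p ∈ A v, x p) • toR v = x)
    {f : Fin n → ℤ} (hf : ∀ v ∈ τ, pr f v = 1) {w : Fin n → ℤ} (hw : w ∈ oedges G)
    (hfw : pr f w = 1) (hwτ : w ∉ τ) :
    ∃ b : (Fin n → ℤ) → ℤ, b w = 1 ∧ (∀ v ∈ τ, b v = - ∑ p ∈ A v, w p) ∧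
      (∀ v, v ≠ w → v ∉ τ → b v = 0) ∧ (∀ v, |b v| ≤ 1) ∧
      ∑ v ∈ oedges G, b v • v = 0 ∧ ∑ v ∈ oedges G, b v = 0 ∧
      ∀ W : (Fin n → ℤ) → ℤ, ∑ v ∈ oedges G, b v * W v =
        W w - ∑ v ∈ τ, (∑ p ∈ A v, w p) * W v := by
  classical
  obtain ⟨p, q, hpq, hwpq⟩ := mem_oedges.mp hw
  have hbw : bal w := by rw [hwpq]; exact bal_ev p q
  have hrepw : ∑ v ∈ τ, (∑ p ∈ A v, w p) • v = w := by
    apply toR_inj
    rw [toR_sum]
    have h1 := hA (toR w) ((sm_toR_iff w).mpr hbw)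
    rw [← h1]
    apply Finset.sum_congr rfl
    intro v _
    congr 1
    unfold toR
    push_cast
    rfl
  refine ⟨fun v => if v = w then 1 else if v ∈ τ then - ∑ p ∈ A v, w p else 0, ?_, ?_, ?_, ?_, ?_,
    ?_, ?_⟩
  · simp
  · intro v hv
    have hvw : v ≠ w := fun h => hwτ (h ▸ hv)
    simp only
    rw [if_neg hvw, if_pos hv]
  · intro v hv hv2
    simp only
    rw [if_neg hv, if_neg hv2]
  · intro v
    simp only
    split_ifs
    · simp
    · rw [abs_neg, hwpq]
      exact ev_subsum p q _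
    · simp
  all_goals
    have key : ∀ {M : Type} [AddCommGroup M] (g : ℤ → (Fin n → ℤ) → M),
        (∀ v, g 0 v = 0) → ∑ v ∈ oedges G,
        g (if v = w then 1 else if v ∈ τ then - ∑ p ∈ A v, w p else 0) v =
        g 1 w + ∑ v ∈ τ, g (- ∑ p ∈ A v, w p) v := by
      intro M _ g hg
      rw [← Finset.sum_subset (Finset.insert_subset_iff.mpr ⟨hw, hτ⟩ : insert w τ ⊆ oedges G)]
      · rw [Finset.sum_insert hwτ, if_pos rfl]
        congr 1
        apply Finset.sum_congr rfl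
        intro v hv
        have hvw : v ≠ w := fun h => hwτ (h ▸ hv)
        rw [if_neg hvw, if_pos hv]
      · intro v _ hv
        rw [Finset.mem_insert, not_or] at hv
        rw [if_neg hv.1, if_neg hv.2, hg]
  · have h1 := key (fun (t : ℤ) (v : Fin n → ℤ) => t • v) (fun v => zero_smul _ _)
    simp only at h1 ⊢
    rw [h1, one_smul]
    simp only [neg_smul]
    rw [Finset.sum_neg_distrib, hrepw, add_neg_cancel]
  · have h1 := key (fun (t : ℤ) (_ : Fin n → ℤ) => t) (fun v => rfl)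
    simp only at h1 ⊢
    rw [h1, Finset.sum_neg_distrib]
    have h2 : ∑ v ∈ τ, ∑ p ∈ A v, w p = 1 := by
      rw [← hfw]
      conv_rhs => rw [← hrepw]
      rw [pr_sum_right]
      apply Finset.sum_congr rfl
      intro v hv
      rw [hf v hv, mul_one]
    rw [h2]
    ring
  · intro W
    have h1 := key (fun (t : ℤ) (v : Fin n → ℤ) => t * W v) (fun v => zero_mul _)
    simp only at h1 ⊢
    rw [h1, one_mul, sub_eq_add_neg, ← Finset.sum_neg_distrib]
    congr 1
    apply Finset.sum_congr rfl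
    intro v _
    ring

/-- a minimal representation of a generic vector gives a cell -/
lemma cell_of_min {G : SimpleGraph (Fin n)} (hG : G.Connected) (hn : 2 ≤ n)
    {W : (Fin n → ℤ) → ℕ} (hW : GenW W) {z : Fin n → ℤ} (hz : bal z) (hgen : Gen z) :
    ∃ (σ : Finset (Fin n → ℤ)) (f y : Fin n → ℤ) (c : (Fin n → ℤ) → ℕ), WCell G W σ f y ∧
      ∑ v ∈ σ, (c v : ℤ) • v = z := by
  classical
  have hn0 : 0 < n := by omega
  -- the minimal representation
  obtain ⟨c, hc, hmin⟩ : ∃ c, IsRep G z c ∧ ∀ c', IsRep G z c' →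
      ∑ v ∈ oedges G, c v * W v ≤ ∑ v ∈ oedges G, c' v * W v := by
    obtain ⟨c0, hc0⟩ := rep_exists hG hn hz
    obtain ⟨c, hc, hmin⟩ := (measure (fun c : (Fin n → ℤ) → ℕ =>
      ∑ v ∈ oedges G, c v * W v)).wf.has_min {c | IsRep G z c} ⟨c0, hc0⟩
    refine ⟨c, hc, fun c' hc' => ?_⟩
    by_contra hcon
    exact hmin c' hc' (not_le.mp hcon)
  obtain ⟨f, hf⟩ := nu_attained hG hz
  -- exchange
  have hexch : ∀ b : (Fin n → ℤ) → ℤ, (∀ v ∈ oedges G, 0 ≤ (c v : ℤ) + b v) →
      ∑ v ∈ oedges G, b v • v = 0 → ∑ v ∈ oedges G, b v = 0 →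
      0 ≤ ∑ v ∈ oedges G, b v * (W v : ℤ) := by
    intro b h1 h2 h3
    have h4 : IsRep G z (fun v => ((c v : ℤ) + b v).toNat) := by
      constructor
      · have h5 : ∀ v ∈ oedges G, ((((c v : ℤ) + b v).toNat : ℕ) : ℤ) • v =
            (c v : ℤ) • v + b v • v := by
          intro v hv
          rw [Int.toNat_of_nonneg (h1 v hv), add_smul]
        rw [Finset.sum_congr rfl h5, Finset.sum_add_distrib, hc.sum, h2, add_zero]
      · have h5 : ∀ v ∈ oedges G, ((((c v : ℤ) + b v).toNat : ℕ) : ℤ) = (c v : ℤ) + b v := by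
          intro v hv
          rw [Int.toNat_of_nonneg (h1 v hv)]
        rw [Finset.sum_congr rfl h5, Finset.sum_add_distrib, hc.len, h3, add_zero]
    have h5 := hmin _ h4
    have h6 : ((∑ v ∈ oedges G, c v * W v : ℕ) : ℤ) ≤
        ((∑ v ∈ oedges G, ((c v : ℤ) + b v).toNat * W v : ℕ) : ℤ) := by exact_mod_cast h5
    push_cast at h6
    have h7 : ∀ v ∈ oedges G, ((((c v : ℤ) + b v).toNat : ℕ) : ℤ) * (W v : ℤ) =
        (c v : ℤ) * W v + b v * W v := by
      intro v hv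
      rw [Int.toNat_of_nonneg (h1 v hv), add_mul]
    rw [Finset.sum_congr rfl h7, Finset.sum_add_distrib] at h6
    linarith
  set τ := (oedges G).filter (fun v => 0 < c v) with hτdef
  have hτsub : τ ⊆ oedges G := Finset.filter_subset _ _
  have hτedge : ∀ v ∈ τ, ∃ a b, G.Adj a b ∧ v = ev a b := fun v hv => mem_oedges.mp (hτsub hv)
  have hτbal : ∀ v ∈ τ, bal v := by
    intro v hv
    obtain ⟨a, b, _, rfl⟩ := hτedge v hv
    exact bal_ev a b
  have hsumτ : ∑ v ∈ τ, (c v : ℤ) • v = z := by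
    rw [← hc.sum]
    apply Finset.sum_subset hτsub
    intro v hv hv2
    have : c v = 0 := by
      by_contra h
      exact hv2 (Finset.mem_filter.mpr ⟨hv, by omega⟩)
    rw [this, Nat.cast_zero, zero_smul]
  -- `f` is tight on `τ`
  have htight : ∀ v ∈ τ, pr f v = 1 := by
    intro v hv
    have hle : ∀ v ∈ oedges G, pr f v ≤ 1 := by
      intro v hv
      obtain ⟨a, b, hab, rfl⟩ := mem_oedges.mp hv
      rw [pr_ev]
      exact hf.1 a b hab
    have h1 : ∑ v ∈ oedges G, (c v : ℤ) * (1 - pr f v) = 0 := by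
      have h2 := hf.2
      rw [← hc.len, ← hc.sum, pr_sum_nat] at h2
      simp only [mul_sub, mul_one]
      rw [Finset.sum_sub_distrib, h2, sub_self]
    have h2 := (Finset.sum_eq_zero_iff_of_nonneg (fun v hv => mul_nonneg (Int.natCast_nonneg _)
      (by have := hle v hv; linarith))).mp h1 v (hτsub hv)
    have h3 := (Finset.mem_filter.mp hv).2
    rcases mul_eq_zero.mp h2 with h4 | h4
    · exfalso
      have : (0 : ℤ) < c v := by exact_mod_cast h3
      linarith
    · linarith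
  -- `τ` spans
  set T : Submodule ℝ (Fin n → ℝ) :=
    Submodule.span ℝ (Set.range (fun v : τ => toR (v : Fin n → ℤ))) with hT
  have hmemT : ∀ v ∈ τ, toR v ∈ T := fun v hv => Submodule.subset_span ⟨⟨v, hv⟩, rfl⟩
  have hall : ∀ a b, toR (ev a b) ∈ T := by
    intro a
    by_contra hcon
    push Not at hcon
    obtain ⟨b, hb⟩ := hcon
    set A := univ.filter (fun b => toR (ev a b) ∈ T) with hA
    have hA1 : A.Nonempty := ⟨a, by
      rw [hA, Finset.mem_filter]
      refine ⟨Finset.mem_univ _, ?_⟩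
      have : ev a a = 0 := by unfold ev; abel
      rw [this, toR_zero]
      exact T.zero_mem⟩
    have hA2 : A ≠ univ := by
      intro h3
      have h4 : b ∈ A := by rw [h3]; exact Finset.mem_univ _
      exact hb (Finset.mem_filter.mp h4).2
    have h5 := hgen A hA1 hA2
    apply h5
    rw [← hsumτ]
    simp only [Finset.sum_apply, Pi.smul_apply, smul_eq_mul]
    rw [Finset.sum_comm]
    apply Finset.sum_eq_zero
    intro v hv
    rw [← Finset.mul_sum]
    obtain ⟨p, q, hpq, rfl⟩ := hτedge v hv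
    have h6 := hmemT _ hv
    have h7 : p ∈ A ↔ q ∈ A := by
      rw [hA, Finset.mem_filter, Finset.mem_filter]
      simp only [Finset.mem_univ, true_and]
      constructor
      · intro hp
        have h8 : ev a q = ev a p + ev p q := by unfold ev; abel
        rw [h8, toR_add]
        exact T.add_mem hp h6
      · intro hq
        have h8 : ev a p = ev a q - ev p q := by unfold ev; abel
        rw [h8, toR_sub]
        exact T.sub_mem hq h6
    have h8 : ∑ x ∈ A, ev p q x = 0 := by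
      unfold ev
      simp only [Pi.sub_apply, Finset.sum_sub_distrib, Pi.single_apply]
      rw [Finset.sum_ite_eq', Finset.sum_ite_eq']
      simp only [h7, sub_self]
    rw [h8, mul_zero]
  have hTker : T = LinearMap.ker (sumL n) := by
    apply le_antisymm
    · rw [hT, Submodule.span_le]
      rintro _ ⟨v, rfl⟩
      exact (sm_toR_iff _).mpr (hτbal v v.2)
    · intro x hx
      rw [← decomp_base ⟨0, hn0⟩ x hx]
      exact Submodule.sum_mem _ (fun p _ => T.smul_mem _ (hall p _))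
  -- an independent subset of full size
  obtain ⟨τ', hτ', hcard', hrli'⟩ : ∃ τ' : Finset (Fin n → ℤ), τ' ⊆ τ ∧ τ'.card = n - 1 ∧
      RLI τ' := by
    obtain ⟨κ, a, ha, hspan, hli⟩ := exists_linearIndependent' ℝ
      (fun v : τ => toR (v : Fin n → ℤ))
    have : Finite κ := Finite.of_injective a ha
    have : Fintype κ := Fintype.ofFinite κ
    have hinj : Function.Injective (fun k : κ => ((a k : τ) : Fin n → ℤ)) := by
      intro k l h
      exact ha (Subtype.ext h)
    refine ⟨univ.image (fun k : κ => ((a k : τ) : Fin n → ℤ)), ?_, ?_, ?_⟩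
    · intro v hv
      obtain ⟨k, _, rfl⟩ := Finset.mem_image.mp hv
      exact (a k).2
    · rw [Finset.card_image_of_injective _ hinj, Finset.card_univ, ← finrank_span_eq_card hli,
        hspan, ← finrank_ker_sumL hn0, ← hTker]
    · intro r hr v hv
      obtain ⟨k, _, rfl⟩ := Finset.mem_image.mp hv
      rw [Finset.sum_image (fun k _ l _ h => hinj h)] at hr
      exact Fintype.linearIndependent_iff.mp hli (fun k => r ((a k : τ) : Fin n → ℤ)) hr k
  have hedge' : ∀ v ∈ τ', ∃ a b, G.Adj a b ∧ v = ev a b := fun v hv => hτedge v (hτ' hv)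
  obtain ⟨A, hA1, hA2⟩ := exists_sub hn0 hcard' hedge' hrli'
  have hτ'sub : τ' ⊆ oedges G := hτ'.trans hτsub
  have htight' : ∀ v ∈ τ', pr f v = 1 := fun v hv => htight v (hτ' hv)
  have hcpos : ∀ v ∈ τ, (1 : ℤ) ≤ c v := by
    intro v hv
    have := (Finset.mem_filter.mp hv).2
    exact_mod_cast this
  -- `τ' = τ`
  have hττ : τ' = τ := by
    apply Finset.Subset.antisymm hτ'
    intro w hw
    by_contra hwτ'
    obtain ⟨b, hb1, hb2, hb3, hb4, hb5, hb6, hb7⟩ := exchange_data hτ'sub A hA2 htight'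
      (hτsub hw) (htight w hw) hwτ'
    have hsupp : ∀ v, v ∉ τ → b v = 0 := by
      intro v hv
      apply hb3 v
      · rintro rfl; exact hv hw
      · exact fun h => hv (hτ' h)
    have hnn : ∀ v, -(c v : ℤ) ≤ b v ∧ b v ≤ c v := by
      intro v
      by_cases hv : v ∈ τ
      · have h1 := hcpos v hv
        have h2 := abs_le.mp (hb4 v)
        constructor <;> linarith
      · rw [hsupp v hv]
        have h1 : (0 : ℤ) ≤ c v := Int.natCast_nonneg _
        constructor <;> linarith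
    have h1 := hexch b (fun v _ => by have := (hnn v).1; linarith) hb5 hb6
    have h2 := hexch (fun v => - b v) (fun v _ => by have := (hnn v).2; linarith)
      (by simp only [neg_smul]; rw [Finset.sum_neg_distrib, hb5, neg_zero])
      (by rw [Finset.sum_neg_distrib, hb6, neg_zero])
    simp only [neg_mul] at h2
    rw [Finset.sum_neg_distrib] at h2
    have h3 := hW.indep (oedges G) b (fun v _ => hb4 v) (by linarith) w (hτsub hw)
    rw [hb1] at h3
    norm_num at h3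
  rw [hττ] at hcard' hrli' hA1 hA2
  -- the potential
  set y : Fin n → ℤ := fun p => ∑ v ∈ τ, if p ∈ A v then (W v : ℤ) else 0 with hy
  have hpry : ∀ x, pr y x = ∑ v ∈ τ, (∑ p ∈ A v, x p) * (W v : ℤ) := by
    intro x
    unfold pr
    simp only [hy, Finset.sum_mul]
    rw [Finset.sum_comm]
    apply Finset.sum_congr rfl
    intro v _
    rw [← Finset.sum_filter_add_sum_filter_not univ (fun p => p ∈ A v)]
    have h1 : ∑ p ∈ univ.filter (fun p => ¬ p ∈ A v), (if p ∈ A v then (W v : ℤ) else 0) * x p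
        = 0 := by
      apply Finset.sum_eq_zero
      intro p hp
      rw [if_neg (Finset.mem_filter.mp hp).2, zero_mul]
    rw [h1, add_zero, Finset.filter_mem_eq_inter, Finset.univ_inter]
    apply Finset.sum_congr rfl
    intro p hp
    rw [if_pos hp, mul_comm]
  refine ⟨τ, f, y, c, ⟨hcard', hrli', hτedge, hf.1, htight, ?_, ?_⟩, hsumτ⟩
  · intro w hw
    rw [hpry]
    have hdual : ∀ v ∈ τ, ((∑ p ∈ A v, w p : ℤ) : ℝ) = if v = w then 1 else 0 := by
      apply hrli'.eq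
      have h1 := hA2 (toR w) ((sm_toR_iff w).mpr (hτbal w hw))
      have h2 : ∑ v ∈ τ, ((∑ p ∈ A v, w p : ℤ) : ℝ) • toR v = toR w := by
        rw [← h1]
        apply Finset.sum_congr rfl
        intro v _
        congr 1
        unfold toR
        push_cast
        rfl
      rw [h2]
      simp only [ite_smul, one_smul, zero_smul]
      rw [Finset.sum_ite_eq' τ w toR, if_pos hw]
    have h1 : ∀ v ∈ τ, (∑ p ∈ A v, w p) * (W v : ℤ) = if v = w then (W w : ℤ) else 0 := by
      intro v hv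
      have h2 := hdual v hv
      split_ifs with h3
      · rw [if_pos h3] at h2
        have h4 : (∑ p ∈ A v, w p) = 1 := by exact_mod_cast h2
        rw [h4, one_mul, h3]
      · rw [if_neg h3] at h2
        have h4 : (∑ p ∈ A v, w p) = 0 := by exact_mod_cast h2
        rw [h4, zero_mul]
    rw [Finset.sum_congr rfl h1, Finset.sum_ite_eq', if_pos hw]
  · intro w hw hfw hwτ
    obtain ⟨b, hb1, hb2, hb3, hb4, hb5, hb6, hb7⟩ := exchange_data hτsub A hA2 htight
      hw hfw hwτ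
    have hnn : ∀ v, 0 ≤ (c v : ℤ) + b v := by
      intro v
      by_cases hv : v ∈ τ
      · have h1 := hcpos v hv
        have h2 := abs_le.mp (hb4 v)
        linarith
      · have h1 : (0 : ℤ) ≤ c v := Int.natCast_nonneg _
        by_cases hvw : v = w
        · rw [hvw, hb1]
          have h2 : (0 : ℤ) ≤ c w := Int.natCast_nonneg _
          linarith
        · rw [hb3 v hvw hv]
          linarith
    have h1 := hexch b (fun v _ => hnn v) hb5 hb6
    have h2 := hb7 (fun v => (W v : ℤ))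
    rw [hpry]
    rcases lt_or_eq_of_le h1 with h3 | h3
    · rw [h2] at h3
      linarith
    · exfalso
      have h4 := hW.indep (oedges G) b (fun v _ => hb4 v) h3.symm w hw
      rw [hb1] at h4
      norm_num at h4

/-- existence of the triangulation data -/
theorem full_exists {G : SimpleGraph (Fin n)} (hG : G.Connected) (hn : 2 ≤ n) :
    ∃ Γ F co, Full G Γ F co := by
  classical
  have hn0 : 0 < n := by omega
  obtain ⟨W, hW⟩ := exists_genW (n := n)
  set Γ : Finset (Finset (Fin n → ℤ)) :=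
    (oedges G).powerset.filter (fun σ => ∃ f y, WCell G W σ f y) with hΓ
  have hmem : ∀ σ ∈ Γ, ∃ f y, WCell G W σ f y := fun σ hσ => (Finset.mem_filter.mp hσ).2
  have h1 : ∀ σ, ∃ f, σ ∈ Γ → ∃ y, WCell G W σ f y := by
    intro σ
    by_cases hσ : σ ∈ Γ
    · obtain ⟨f, y, h⟩ := hmem σ hσ
      exact ⟨f, fun _ => ⟨y, h⟩⟩
    · exact ⟨0, fun h => absurd h hσ⟩
  choose F hF using h1
  have h2 : ∀ σ, ∃ A : (Fin n → ℤ) → Finset (Fin n), σ ∈ Γ →
      (∀ v ∈ σ, (A v).Nonempty ∧ A v ≠ univ) ∧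
      ∀ x : Fin n → ℝ, sm x = 0 → ∑ v ∈ σ, (∑ p ∈ A v, x p) • toR v = x := by
    intro σ
    by_cases hσ : σ ∈ Γ
    · obtain ⟨y, h⟩ := hF σ hσ
      obtain ⟨A, hA⟩ := exists_sub hn0 h.card h.edge h.rli
      exact ⟨A, fun _ => hA⟩
    · exact ⟨fun _ => ∅, fun h => absurd h hσ⟩
  choose A hA using h2
  have hrep : ∀ σ ∈ Γ, ∀ x, bal x → ∑ v ∈ σ, ((∑ p ∈ A σ v, x p : ℤ) : ℝ) • toR v = toR x := by
    intro σ hσ x hx
    have h3 := (hA σ hσ).2 (toR x) ((sm_toR_iff x).mpr hx)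
    rw [← h3]
    apply Finset.sum_congr rfl
    intro v _
    congr 1
    unfold toR
    push_cast
    rfl
  refine ⟨Γ, F, fun σ v x => ∑ p ∈ A σ v, x p, ⟨hG, ?_, ?_, ?_, ?_, ?_, ?_, ?_, ?_, ?_⟩⟩
  · intro σ hσ
    obtain ⟨y, h⟩ := hF σ hσ
    exact h.card
  · intro σ hσ
    obtain ⟨y, h⟩ := hF σ hσ
    exact h.edge
  · intro σ hσ
    obtain ⟨y, h⟩ := hF σ hσ
    exact h.lip
  · intro σ hσ
    obtain ⟨y, h⟩ := hF σ hσ
    exact h.one
  · intro σ hσ x hx
    apply toR_inj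
    rw [toR_sum]
    exact hrep σ hσ x hx
  · intro σ hσ c hc v hv
    obtain ⟨y, h⟩ := hF σ hσ
    have h3 : ∑ v ∈ σ, (c v : ℝ) • toR v = 0 := by
      rw [← toR_sum, hc, toR_zero]
    have h4 := h.rli _ h3 v hv
    exact_mod_cast h4
  · intro σ hσ v hv
    exact ⟨A σ v, ((hA σ hσ).1 v hv).1, ((hA σ hσ).1 v hv).2, fun x _ => rfl⟩
  · intro σ hσ τ hτ c c' h
    obtain ⟨y, hy⟩ := hF σ hσ
    obtain ⟨y', hy'⟩ := hF τ hτ
    exact wcell_uniq hG hy hy' c c' h
  · intro z hz hgen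
    obtain ⟨σ, f, y, c, hcell, hcz⟩ := cell_of_min hG hn hW hz hgen
    have hσ : σ ∈ Γ := by
      rw [hΓ, Finset.mem_filter, Finset.mem_powerset]
      exact ⟨fun v hv => mem_oedges.mpr (hcell.edge v hv), f, y, hcell⟩
    refine ⟨σ, hσ, fun v hv => ?_⟩
    have h3 : ∑ v ∈ σ, ((∑ p ∈ A σ v, z p : ℤ) : ℝ) • toR v =
        ∑ v ∈ σ, (((c v : ℕ) : ℤ) : ℝ) • toR v := by
      rw [hrep σ hσ z hz, ← toR_sum σ (fun v => (c v : ℤ)), hcz]
    have h4 := hcell.rli.eq h3 v hv
    have h5 : (∑ p ∈ A σ v, z p : ℤ) = (c v : ℤ) := by exact_mod_cast h4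
    show 0 ≤ ∑ p ∈ A σ v, z p
    rw [h5]
    exact Int.natCast_nonneg _

/-- **Palindromicity** of the `h^*`-polynomial of `P_G`. -/
theorem hStar_palindromic {G : SimpleGraph (Fin n)} (hG : G.Connected) (hn : 2 ≤ n) :
    ∃ h : Polynomial ℤ, hStar (n - 1) (edgePolytope G) = (h : PowerSeries ℤ) ∧
      h.natDegree ≤ n - 1 ∧ ∀ k ≤ n - 1, h.coeff k = h.coeff (n - 1 - k) := by
  obtain ⟨Γ, F, co, D⟩ := full_exists hG hn
  obtain ⟨h, h1, h2, h3⟩ := D.palindromic (by omega)
  refine ⟨h, ?_, h2, h3⟩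
  rw [← h1, ← ehrhart_eq hG hn]
  unfold hStar
  rw [pow_succ]
  ring

end Pool.Agent.R135.SEP
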