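import Pool.Agent.R135.SEPHalf

/-!
# The decomposition of the difference of the two gauge series
-/

set_option autoImplicit false
open Finset
open scoped Pointwise

namespace Pool.Agent.R135.SEP

variable {n : ℕ}

/-- faces of the complex generated by `A` -/
def faces (A : Finset (Finset (Fin n → ℤ))) : Finset (Finset (Fin n → ℤ)) :=
  A.biUnion Finset.powerset

lemma mem_faces {A : Finset (Finset (Fin n → ℤ))} {τ : Finset (Fin n → ℤ)} :
    τ ∈ faces A ↔ ∃ σ ∈ A, τ ⊆ σ := by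
  unfold faces
  simp

/-- `h`-polynomial of the complex generated by `A` -/
noncomputable def hPol (d : ℕ) (A : Finset (Finset (Fin n → ℤ))) : Polynomial ℤ :=
  ∑ τ ∈ faces A, Polynomial.X ^ τ.card * (1 - Polynomial.X) ^ (d - τ.card)

/-- lattice distance, in terms of the potential -/
def lev (F : Finset (Fin n → ℤ) → (Fin n → ℤ)) (i j : Fin n) (σ : Finset (Fin n → ℤ)) : ℕ :=
  (pr (F σ) (ev i j) - 1).toNat

variable {G G₀ : SimpleGraph (Fin n)} {i j : Fin n} {Γ : Finset (Finset (Fin n → ℤ))}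
    {F : Finset (Fin n → ℤ) → (Fin n → ℤ)}
    {co : Finset (Fin n → ℤ) → (Fin n → ℤ) → (Fin n → ℤ) → ℤ}

/-- vectors with prescribed right slope -/
def Sp (G : SimpleGraph (Fin n)) (i j : Fin n) (a : ℕ) : Set (Fin n → ℤ) :=
  {x | bal x ∧ sp G i j x = a + 1}

/-- vectors with prescribed left slope -/
def Sm (G : SimpleGraph (Fin n)) (i j : Fin n) (a : ℕ) : Set (Fin n → ℤ) :=
  {x | bal x ∧ sp G i j (x - ev i j) = a + 1}

/-- vectors with right slope at least `a + 1` -/
def Spge (G : SimpleGraph (Fin n)) (i j : Fin n) (a : ℕ) : Set (Fin n → ℤ) :=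
  {x | bal x ∧ (a : ℤ) + 1 ≤ sp G i j x}

/-- vectors with left slope at least `a + 1` -/
def Smge (G : SimpleGraph (Fin n)) (i j : Fin n) (a : ℕ) : Set (Fin n → ℤ) :=
  {x | bal x ∧ (a : ℤ) + 1 ≤ sp G i j (x - ev i j)}

/-- the polynomials `D_a` -/
noncomputable def Dp (Γ : Finset (Finset (Fin n → ℤ))) (F : Finset (Fin n → ℤ) → (Fin n → ℤ))
    (i j : Fin n) (a : ℕ) : Polynomial ℤ :=
  hPol (n - 1) (Γ.filter (fun σ => a ≤ lev F i j σ)) -
    hPol (n - 1) (Γ.filter (fun σ => a + 1 ≤ lev F i j σ))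

namespace Data

lemma lev_eq (D : Data G i j Γ F co) {σ : Finset (Fin n → ℤ)} (hσ : σ ∈ Γ) :
    ((lev F i j σ : ℕ) : ℤ) + 1 = pr (F σ) (ev i j) := by
  unfold lev
  have := D.vis σ hσ
  omega

lemma lev_pos (D : Data G i j Γ F co) {σ : Finset (Fin n → ℤ)} (hσ : σ ∈ Γ) :
    1 ≤ lev F i j σ := by
  have h1 := D.vis σ hσ
  have h2 := D.lev_eq hσ
  omega

lemma piece_bal (D : Data G i j Γ F co) {σ τ N : Finset (Fin n → ℤ)} (hσ : σ ∈ Γ) (hτ : τ ⊆ σ)
    {x : Fin n → ℤ} (hx : x ∈ piece τ N) : bal x := by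
  obtain ⟨c, _, rfl⟩ := hx
  exact bal_sum _ _ (fun v hv => D.balv hσ (hτ hv))

lemma piece_opt (D : Data G i j Γ F co) {σ τ N : Finset (Fin n → ℤ)} (hσ : σ ∈ Γ) (hτ : τ ⊆ σ)
    {x : Fin n → ℤ} (hx : x ∈ piece τ N) : Opt G x (F σ) := by
  obtain ⟨c, _, rfl⟩ := hx
  exact (D.gauge hσ hτ _ (fun v _ => Int.natCast_nonneg _)).1

lemma gf_piece (D : Data G i j Γ F co) {σ τ N : Finset (Fin n → ℤ)} (hσ : σ ∈ Γ) (hτ : τ ⊆ σ)
    (hN : N ⊆ τ) :
    (1 - PowerSeries.X) ^ τ.card * gf (nu G) (piece τ N) = PowerSeries.X ^ N.card := by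
  apply SEP.gf_piece _ _ _ hN
  · intro c c' h v hv
    have := D.inj hσ hτ _ _ h v hv
    exact_mod_cast this
  · intro c
    exact (D.gauge hσ hτ _ (fun v _ => Int.natCast_nonneg _)).2

/-- the right slope is a maximal slope -/
lemma sp_data (D : Data G i j Γ F co) {x : Fin n → ℤ} (hx : bal x) :
    ∃ g, Opt G x g ∧ pr g (ev i j) = sp G i j x ∧
      ∀ f, Opt G x f → (1 : ℤ) * pr f (ev i j) ≤ 1 * pr g (ev i j) := by
  obtain ⟨g, hg, h⟩ := sp_spec D.conn hx i j
  refine ⟨g, hg, h, fun f hf => ?_⟩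
  rw [one_mul, one_mul, h]
  exact sp_le D.conn hx i j hf

lemma sm_data (D : Data G i j Γ F co) {x : Fin n → ℤ} (hx : bal x) :
    ∃ g, Opt G x g ∧ pr g (ev i j) = sp G i j (x - ev i j) ∧
      ∀ f, Opt G x f → (-1 : ℤ) * pr f (ev i j) ≤ -1 * pr g (ev i j) := by
  obtain ⟨g, hg, _, h⟩ := sm_spec D.conn hx i j
  refine ⟨g, hg, h, fun f hf => ?_⟩
  have := sm_le D.conn hx i j hf
  rw [h]
  linarith

lemma Sp_gf (D : Data G i j Γ F co) {E : Fin n → ℤ} (hE : Dir G i j E) {a : ℕ} (ha : 1 ≤ a) :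
    (1 - PowerSeries.X) ^ (n - 1) * gf (nu G) (Sp G i j a) =
      ∑ σ ∈ Γ.filter (fun σ => lev F i j σ = a), PowerSeries.X ^ (neg co σ 1 E).card := by
  classical
  have hLF : LF (nu G) (Sp G i j a) := (nu_LF D.conn).mono (fun x hx => hx.1)
  rw [gf_biUnion (Γ.filter (fun σ => lev F i j σ = a)) (fun σ => piece σ (neg co σ 1 E)) hLF,
    Finset.mul_sum]
  · apply Finset.sum_congr rfl
    intro σ hσ
    rw [Finset.mem_filter] at hσ
    rw [← D.card σ hσ.1]
    exact D.gf_piece hσ.1 (Finset.Subset.refl _) (Finset.filter_subset _ _)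
  · intro x
    constructor
    · rintro ⟨hx, hsx⟩
      obtain ⟨g, hg, hg2, hmax⟩ := D.sp_data hx
      obtain ⟨σ, hσ, h1, h2⟩ := D.half_exists hE (Or.inl rfl) hx hg hmax (by
        rw [hg2, hsx]; omega)
      refine ⟨σ, ?_, h2⟩
      rw [Finset.mem_filter]
      refine ⟨hσ, ?_⟩
      have h3 := D.lev_eq hσ
      omega
    · rintro ⟨σ, hσ, hx⟩
      rw [Finset.mem_filter] at hσ
      have hb := D.piece_bal hσ.1 (Finset.Subset.refl _) hx
      obtain ⟨g, hg, hg2, hmax⟩ := D.sp_data hb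
      have h1 := D.half_slope hE (Or.inl rfl) hb hg hmax hσ.1 hx
      refine ⟨hb, ?_⟩
      have h3 := D.lev_eq hσ.1
      rw [hσ.2] at h3
      omega
  · intro σ hσ τ hτ x hxσ hxτ
    rw [Finset.mem_filter] at hσ hτ
    exact D.half_unique hE (Or.inl rfl) (D.piece_bal hσ.1 (Finset.Subset.refl _) hxσ) hσ.1 hτ.1
      hxσ hxτ

lemma Sm_gf (D : Data G i j Γ F co) {E : Fin n → ℤ} (hE : Dir G i j E) {a : ℕ} (ha : 1 ≤ a) :
    (1 - PowerSeries.X) ^ (n - 1) * gf (nu G) (Sm G i j a) =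
      ∑ σ ∈ Γ.filter (fun σ => lev F i j σ = a), PowerSeries.X ^ (neg co σ (-1) E).card := by
  classical
  have hLF : LF (nu G) (Sm G i j a) := (nu_LF D.conn).mono (fun x hx => hx.1)
  rw [gf_biUnion (Γ.filter (fun σ => lev F i j σ = a)) (fun σ => piece σ (neg co σ (-1) E)) hLF,
    Finset.mul_sum]
  · apply Finset.sum_congr rfl
    intro σ hσ
    rw [Finset.mem_filter] at hσ
    rw [← D.card σ hσ.1]
    exact D.gf_piece hσ.1 (Finset.Subset.refl _) (Finset.filter_subset _ _)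
  · intro x
    constructor
    · rintro ⟨hx, hsx⟩
      obtain ⟨g, hg, hg2, hmax⟩ := D.sm_data hx
      obtain ⟨σ, hσ, h1, h2⟩ := D.half_exists hE (Or.inr rfl) hx hg hmax (by
        rw [hg2, hsx]; omega)
      refine ⟨σ, ?_, h2⟩
      rw [Finset.mem_filter]
      refine ⟨hσ, ?_⟩
      have h3 := D.lev_eq hσ
      omega
    · rintro ⟨σ, hσ, hx⟩
      rw [Finset.mem_filter] at hσ
      have hb := D.piece_bal hσ.1 (Finset.Subset.refl _) hx
      obtain ⟨g, hg, hg2, hmax⟩ := D.sm_data hb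
      have h1 := D.half_slope hE (Or.inr rfl) hb hg hmax hσ.1 hx
      refine ⟨hb, ?_⟩
      have h3 := D.lev_eq hσ.1
      rw [hσ.2] at h3
      omega
  · intro σ hσ τ hτ x hxσ hxτ
    rw [Finset.mem_filter] at hσ hτ
    exact D.half_unique hE (Or.inr rfl) (D.piece_bal hσ.1 (Finset.Subset.refl _) hxσ) hσ.1 hτ.1
      hxσ hxτ

/-- closed cones -/
lemma Spge_gf (D : Data G i j Γ F co) {a : ℕ} (ha : 1 ≤ a) :
    (1 - PowerSeries.X) ^ (n - 1) * gf (nu G) (Spge G i j a) =
      ((hPol (n - 1) (Γ.filter (fun σ => a ≤ lev F i j σ)) : Polynomial ℤ) : PowerSeries ℤ) := by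
  classical
  obtain ⟨E, hE⟩ := exists_dir G i j
  have hLF : LF (nu G) (Spge G i j a) := (nu_LF D.conn).mono (fun x hx => hx.1)
  rw [gf_biUnion (faces (Γ.filter (fun σ => a ≤ lev F i j σ))) (fun τ => piece τ τ) hLF,
    Finset.mul_sum]
  · unfold hPol
    rw [← Polynomial.coeToPowerSeries.ringHom_apply, map_sum]
    apply Finset.sum_congr rfl
    intro τ hτ
    rw [mem_faces] at hτ
    obtain ⟨σ, hσ, hτσ⟩ := hτ
    rw [Finset.mem_filter] at hσ
    have h1 := D.gf_piece hσ.1 hτσ (Finset.Subset.refl τ)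
    have h2 : τ.card ≤ n - 1 := by
      rw [← D.card σ hσ.1]
      exact Finset.card_le_card hτσ
    rw [Polynomial.coeToPowerSeries.ringHom_apply, Polynomial.coe_mul, Polynomial.coe_pow,
      Polynomial.coe_pow, Polynomial.coe_sub, Polynomial.coe_one, Polynomial.coe_X, ← h1]
    have h3 : n - 1 = (n - 1 - τ.card) + τ.card := by omega
    conv_lhs => rw [h3, pow_add]
    ring
  · intro x
    constructor
    · rintro ⟨hx, hsx⟩
      obtain ⟨g, hg, hg2, hmax⟩ := D.sp_data hx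
      obtain ⟨σ, hσ, h1, c, hc, hcx⟩ := D.half_exists hE (Or.inl rfl) hx hg hmax (by
        rw [hg2]; omega)
      refine ⟨σ.filter (fun v => 1 ≤ c v), ?_, c, ?_, ?_⟩
      · rw [mem_faces]
        refine ⟨σ, ?_, Finset.filter_subset _ _⟩
        rw [Finset.mem_filter]
        refine ⟨hσ, ?_⟩
        have h3 := D.lev_eq hσ
        omega
      · intro v hv
        exact (Finset.mem_filter.mp hv).2
      · rw [← hcx]
        apply Finset.sum_subset (Finset.filter_subset _ _)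
        intro v hv hv2
        rw [Finset.mem_filter] at hv2
        have : c v = 0 := by
          by_contra h
          exact hv2 ⟨hv, by omega⟩
        rw [this, Nat.cast_zero, zero_smul]
    · rintro ⟨τ, hτ, hx⟩
      rw [mem_faces] at hτ
      obtain ⟨σ, hσ, hτσ⟩ := hτ
      rw [Finset.mem_filter] at hσ
      have hb := D.piece_bal hσ.1 hτσ hx
      refine ⟨hb, ?_⟩
      have h1 := sp_le D.conn hb i j (D.piece_opt hσ.1 hτσ hx)
      have h3 := D.lev_eq hσ.1
      have h4 := hσ.2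
      have h5 : (a : ℤ) ≤ (lev F i j σ : ℕ) := by exact_mod_cast h4
      linarith
  · have key : ∀ τ ∈ faces (Γ.filter (fun σ => a ≤ lev F i j σ)),
        ∀ τ' ∈ faces (Γ.filter (fun σ => a ≤ lev F i j σ)), ∀ x, x ∈ piece τ τ → x ∈ piece τ' τ' →
        τ ⊆ τ' := by
      rintro τ hτ τ' hτ' x ⟨c, hc, hcx⟩ ⟨c', hc', hcx'⟩ v hv
      rw [mem_faces] at hτ hτ'
      obtain ⟨σ, hσ, hτσ⟩ := hτ
      obtain ⟨σ', hσ', hτσ'⟩ := hτ'
      rw [Finset.mem_filter] at hσ hσ'
      have ext0 : ∀ {σ τ : Finset (Fin n → ℤ)} (hτσ : τ ⊆ σ) (c : (Fin n → ℤ) → ℕ),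
          ∑ v ∈ σ, ((if v ∈ τ then c v else 0 : ℕ) : ℤ) • v = ∑ v ∈ τ, (c v : ℤ) • v := by
        intro σ τ hτσ c
        rw [← Finset.sum_subset hτσ]
        · apply Finset.sum_congr rfl
          intro v hv
          rw [if_pos hv]
        · intro v _ hv
          rw [if_neg hv, Nat.cast_zero, zero_smul]
      have h1 : ∑ v ∈ σ, ((if v ∈ τ then c v else 0 : ℕ) : ℤ) • v =
          ∑ v ∈ σ', ((if v ∈ τ' then c' v else 0 : ℕ) : ℤ) • v := by
        rw [ext0 hτσ, ext0 hτσ', hcx, hcx']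
      have h2 := D.uniq σ hσ.1 σ' hσ'.1 _ _ h1 v (hτσ hv) (by
        rw [if_pos hv]; exact hc v hv)
      by_contra hcon
      have h3 := h2.2
      rw [if_neg hcon, if_pos hv] at h3
      have h4 := hc v hv
      omega
    intro τ hτ τ' hτ' x hx hx'
    exact Finset.Subset.antisymm (key τ hτ τ' hτ' x hx hx') (key τ' hτ' τ hτ x hx' hx)

lemma Spge_succ (D : Data G i j Γ F co) (a : ℕ) :
    gf (nu G) (Spge G i j a) = gf (nu G) (Sp G i j a) + gf (nu G) (Spge G i j (a + 1)) := by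
  have h1 : Spge G i j a = Sp G i j a ∪ Spge G i j (a + 1) := by
    ext x
    constructor
    · rintro ⟨hx, h⟩
      rcases eq_or_lt_of_le h with h | h
      · exact Or.inl ⟨hx, h.symm⟩
      · exact Or.inr ⟨hx, by push_cast; linarith⟩
    · rintro (⟨hx, h⟩ | ⟨hx, h⟩)
      · exact ⟨hx, h.symm.le⟩
      · refine ⟨hx, ?_⟩
        push_cast at h
        linarith
  rw [h1, gf_union ((nu_LF D.conn).mono (fun x hx => hx.1))
    ((nu_LF D.conn).mono (fun x hx => hx.1))]
  rw [Set.disjoint_left]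
  rintro x ⟨_, h2⟩ ⟨_, h3⟩
  push_cast at h3
  linarith

lemma Dp_gf (D : Data G i j Γ F co) {a : ℕ} (ha : 1 ≤ a) :
    (1 - PowerSeries.X) ^ (n - 1) * gf (nu G) (Sp G i j a) =
      ((Dp Γ F i j a : Polynomial ℤ) : PowerSeries ℤ) := by
  have h1 := D.Spge_gf ha
  have h2 := D.Spge_gf (show 1 ≤ a + 1 by omega)
  rw [D.Spge_succ a, mul_add, h2] at h1
  unfold Dp
  rw [Polynomial.coe_sub, ← h1]
  ring

lemma Dp_eq (D : Data G i j Γ F co) {E : Fin n → ℤ} (hE : Dir G i j E) {a : ℕ} (ha : 1 ≤ a) :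
    Dp Γ F i j a =
      ∑ σ ∈ Γ.filter (fun σ => lev F i j σ = a), Polynomial.X ^ (neg co σ 1 E).card := by
  apply Polynomial.coe_injective ℤ
  rw [← D.Dp_gf ha, D.Sp_gf hE ha]
  conv_rhs => rw [← Polynomial.coeToPowerSeries.ringHom_apply, map_sum]
  apply Finset.sum_congr rfl
  intro σ _
  rw [Polynomial.coeToPowerSeries.ringHom_apply, Polynomial.coe_pow, Polynomial.coe_X]

lemma Sm_shift (D : Data G i j Γ F co) (a : ℕ) :
    gf (nu G) (Sm G i j a) = PowerSeries.X ^ (a + 1) * gf (nu G) (Sp G i j a) := by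
  apply gf_bij (fun x => x + ev i j) (a + 1)
  · intro x y h
    exact add_right_cancel h
  · intro y
    constructor
    · rintro ⟨hy, h⟩
      exact ⟨y - ev i j, ⟨hy.sub (bal_ev i j), h⟩, sub_add_cancel _ _⟩
    · rintro ⟨x, ⟨hx, h⟩, rfl⟩
      refine ⟨hx.add (bal_ev i j), ?_⟩
      simp only [add_sub_cancel_right]
      exact h
  · rintro x ⟨hx, h⟩
    unfold sp at h
    push_cast
    linarith
  · rintro x ⟨hx, _⟩
    exact nu_nonneg D.conn hx

lemma card_neg (D : Data G i j Γ F co) {E : Fin n → ℤ} (hE : Dir G i j E)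
    {σ : Finset (Fin n → ℤ)} (hσ : σ ∈ Γ) :
    (neg co σ (-1) E).card + (neg co σ 1 E).card = n - 1 := by
  rw [← D.card σ hσ]
  have h1 : neg co σ (-1) E = σ.filter (fun v => ¬ (1 * co σ v E < 0)) := by
    unfold neg
    apply Finset.filter_congr
    intro v hv
    have := D.co_ne hσ hv hE.bal hE.gen
    omega
  rw [h1]
  unfold neg
  rw [add_comm]
  exact Finset.card_filter_add_card_filter_not _

/-- symmetry of `D_a` -/
lemma Dp_symm (D : Data G i j Γ F co) {E : Fin n → ℤ} (hE : Dir G i j E) {a : ℕ} (ha : 1 ≤ a) :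
    Polynomial.X ^ (a + 1) * Dp Γ F i j a =
      ∑ σ ∈ Γ.filter (fun σ => lev F i j σ = a),
        Polynomial.X ^ (n - 1 - (neg co σ 1 E).card) := by
  apply Polynomial.coe_injective ℤ
  rw [Polynomial.coe_mul, ← D.Dp_gf ha, Polynomial.coe_pow, Polynomial.coe_X]
  have h1 := D.Sm_gf hE ha
  rw [D.Sm_shift] at h1
  conv_rhs => rw [← Polynomial.coeToPowerSeries.ringHom_apply, map_sum]
  have h2 : ∀ σ ∈ Γ.filter (fun σ => lev F i j σ = a),
      Polynomial.coeToPowerSeries.ringHom (R := ℤ)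
        (Polynomial.X ^ (n - 1 - (neg co σ 1 E).card)) =
      PowerSeries.X ^ (neg co σ (-1) E).card := by
    intro σ hσ
    rw [Finset.mem_filter] at hσ
    rw [Polynomial.coeToPowerSeries.ringHom_apply, Polynomial.coe_pow, Polynomial.coe_X]
    have := D.card_neg hE hσ.1
    congr 1
    omega
  rw [Finset.sum_congr rfl h2, ← h1]
  ring

/-- the coefficients of `D_a` -/
lemma Dp_coeff (D : Data G i j Γ F co) {E : Fin n → ℤ} (hE : Dir G i j E) {a : ℕ} (ha : 1 ≤ a)
    (k : ℕ) : (Dp Γ F i j a).coeff k =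
      ((Γ.filter (fun σ => lev F i j σ = a)).filter (fun σ => k = (neg co σ 1 E).card)).card := by
  rw [D.Dp_eq hE ha, Polynomial.finsetSum_coeff]
  simp only [Polynomial.coeff_X_pow]
  rw [Finset.sum_boole]

lemma Dp_coeff' (D : Data G i j Γ F co) {E : Fin n → ℤ} (hE : Dir G i j E) {a : ℕ} (ha : 1 ≤ a)
    (k : ℕ) : (Dp Γ F i j a).coeff k =
      ((Γ.filter (fun σ => lev F i j σ = a)).filter
        (fun σ => k + (a + 1) = n - 1 - (neg co σ 1 E).card)).card := by
  have h1 := D.Dp_symm hE ha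
  have h2 := congrArg (fun p => Polynomial.coeff p (k + (a + 1))) h1
  simp only [Polynomial.coeff_X_pow_mul] at h2
  rw [h2, Polynomial.finsetSum_coeff]
  simp only [Polynomial.coeff_X_pow]
  rw [Finset.sum_boole]

lemma Dp_nonneg (D : Data G i j Γ F co) {a : ℕ} (ha : 1 ≤ a) (k : ℕ) :
    0 ≤ (Dp Γ F i j a).coeff k := by
  obtain ⟨E, hE⟩ := exists_dir G i j
  rw [D.Dp_coeff hE ha]
  exact Int.natCast_nonneg _

lemma neg_card_le (D : Data G i j Γ F co) {σ : Finset (Fin n → ℤ)} (hσ : σ ∈ Γ) (s : ℤ)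
    (E : Fin n → ℤ) : (neg co σ s E).card ≤ n - 1 := by
  rw [← D.card σ hσ]
  exact Finset.card_le_card (Finset.filter_subset _ _)

/-- `D_a` is palindromic with center `(d - a - 1) / 2` -/
lemma Dp_pal (D : Data G i j Γ F co) {a : ℕ} (ha : 1 ≤ a) (k l : ℕ)
    (h : k + l + a + 1 = n - 1) : (Dp Γ F i j a).coeff k = (Dp Γ F i j a).coeff l := by
  obtain ⟨E, hE⟩ := exists_dir G i j
  rw [D.Dp_coeff' hE ha k, D.Dp_coeff hE ha l]
  congr 2
  apply Finset.filter_congr
  intro σ hσ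
  rw [Finset.mem_filter] at hσ
  have := D.neg_card_le hσ.1 1 E
  omega

lemma Dp_deg (D : Data G i j Γ F co) {a : ℕ} (ha : 1 ≤ a) (k : ℕ)
    (h : n - 1 < k + a + 1) : (Dp Γ F i j a).coeff k = 0 := by
  obtain ⟨E, hE⟩ := exists_dir G i j
  rw [D.Dp_coeff' hE ha k]
  rw [Finset.filter_false_of_mem]
  · simp
  · intro σ hσ
    omega

/-- `q_a` has nonnegative coefficients -/
lemma q_nonneg (D : Data G i j Γ F co) {a : ℕ} (ha : 1 ≤ a) (k : ℕ) :
    0 ≤ (Dp Γ F i j a * ∑ m ∈ range a, Polynomial.X ^ m).coeff k := by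
  rw [Finset.mul_sum, Polynomial.finsetSum_coeff]
  apply Finset.sum_nonneg
  intro m _
  rw [Polynomial.coeff_mul_X_pow']
  split_ifs
  · exact D.Dp_nonneg ha _
  · exact le_refl _

/-- `2 t q_a` is palindromic with center `d / 2` -/
lemma q_pal (D : Data G i j Γ F co) {a : ℕ} (ha : 1 ≤ a) (k : ℕ) (hk : k ≤ n - 1) :
    (2 * Polynomial.X * (Dp Γ F i j a * ∑ m ∈ range a, Polynomial.X ^ m)).coeff k =
      (2 * Polynomial.X * (Dp Γ F i j a * ∑ m ∈ range a, Polynomial.X ^ m)).coeff (n - 1 - k) := by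
  have key : ∀ k, (2 * Polynomial.X * (Dp Γ F i j a * ∑ m ∈ range a, Polynomial.X ^ m)).coeff k =
      2 * ∑ m ∈ range a, if m + 1 ≤ k then (Dp Γ F i j a).coeff (k - (m + 1)) else 0 := by
    intro k
    have h1 : 2 * Polynomial.X * (Dp Γ F i j a * ∑ m ∈ range a, Polynomial.X ^ m) =
        Polynomial.C 2 * ∑ m ∈ range a, Dp Γ F i j a * Polynomial.X ^ (m + 1) := by
      rw [Finset.mul_sum, Finset.mul_sum, Finset.mul_sum]
      apply Finset.sum_congr rfl
      intro m _
      rw [pow_succ]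
      have : (Polynomial.C (2 : ℤ)) = 2 := by simp
      rw [this]
      ring
    rw [h1, Polynomial.coeff_C_mul, Polynomial.finsetSum_coeff]
    congr 1
    apply Finset.sum_congr rfl
    intro m _
    rw [Polynomial.coeff_mul_X_pow']
  rw [key, key]
  congr 1
  rw [← Finset.sum_range_reflect]
  apply Finset.sum_congr rfl
  intro m hm
  rw [Finset.mem_range] at hm
  by_cases h1 : a - 1 - m + 1 ≤ k
  · rw [if_pos h1]
    by_cases h2 : m + 1 ≤ n - 1 - k
    · rw [if_pos h2]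
      exact D.Dp_pal ha _ _ (by omega)
    · rw [if_neg h2]
      exact D.Dp_deg ha _ (by omega)
  · rw [if_neg h1]
    by_cases h2 : m + 1 ≤ n - 1 - k
    · rw [if_pos h2]
      exact (D.Dp_deg ha _ (by omega)).symm
    · rw [if_neg h2]

lemma q_deg (D : Data G i j Γ F co) {a : ℕ} (ha : 1 ≤ a) (k : ℕ) (hk : n - 1 < k) :
    (2 * Polynomial.X * (Dp Γ F i j a * ∑ m ∈ range a, Polynomial.X ^ m)).coeff k = 0 := by
  have h1 : 2 * Polynomial.X * (Dp Γ F i j a * ∑ m ∈ range a, Polynomial.X ^ m) =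
      Polynomial.C 2 * ∑ m ∈ range a, Dp Γ F i j a * Polynomial.X ^ (m + 1) := by
    rw [Finset.mul_sum, Finset.mul_sum, Finset.mul_sum]
    apply Finset.sum_congr rfl
    intro m _
    rw [pow_succ]
    have : (Polynomial.C (2 : ℤ)) = 2 := by simp
    rw [this]
    ring
  rw [h1, Polynomial.coeff_C_mul, Polynomial.finsetSum_coeff]
  rw [Finset.sum_eq_zero, mul_zero]
  intro m hm
  rw [Finset.mem_range] at hm
  rw [Polynomial.coeff_mul_X_pow']
  split_ifs with h
  · exact D.Dp_deg ha _ (by omega)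
  · rfl

/-- only finitely many slopes at least two occur -/
lemma slope_mem (D : Data G i j Γ F co) {x : Fin n → ℤ} (hx : bal x) (h : 2 ≤ sp G i j x) :
    ∃ a ∈ Γ.image (lev F i j), x ∈ Sp G i j a := by
  obtain ⟨E, hE⟩ := exists_dir G i j
  obtain ⟨g, hg, hg2, hmax⟩ := D.sp_data hx
  obtain ⟨σ, hσ, h1, h2⟩ := D.half_exists hE (Or.inl rfl) hx hg hmax (by
    rw [hg2]; exact h)
  refine ⟨lev F i j σ, Finset.mem_image_of_mem _ hσ, hx, ?_⟩
  rw [← hg2, ← h1, D.lev_eq hσ]

lemma Spge_one (D : Data G i j Γ F co) :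
    gf (nu G) (Spge G i j 1) = ∑ a ∈ Γ.image (lev F i j), gf (nu G) (Sp G i j a) := by
  classical
  apply gf_biUnion
  · exact (nu_LF D.conn).mono (fun x hx => hx.1)
  · intro x
    constructor
    · rintro ⟨hx, h⟩
      push_cast at h
      exact D.slope_mem hx (by linarith)
    · rintro ⟨a, ha, hx, h⟩
      obtain ⟨σ, hσ, rfl⟩ := Finset.mem_image.mp ha
      refine ⟨hx, ?_⟩
      rw [h]
      have : (1 : ℤ) ≤ (lev F i j σ : ℕ) := by exact_mod_cast D.lev_pos hσ
      push_cast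
      linarith
  · rintro a _ b _ x ⟨_, h1⟩ ⟨_, h2⟩
    rw [h1] at h2
    have : (a : ℤ) = b := by linarith
    exact_mod_cast this

lemma Smge_one (D : Data G i j Γ F co) :
    gf (nu G) (Smge G i j 1) =
      ∑ a ∈ Γ.image (lev F i j), PowerSeries.X ^ (a + 1) * gf (nu G) (Sp G i j a) := by
  classical
  have h0 : gf (nu G) (Smge G i j 1) = ∑ a ∈ Γ.image (lev F i j), gf (nu G) (Sm G i j a) := by
    apply gf_biUnion
    · exact (nu_LF D.conn).mono (fun x hx => hx.1)
    · intro x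
      constructor
      · rintro ⟨hx, h⟩
        push_cast at h
        obtain ⟨a, ha, h1, h2⟩ := D.slope_mem (hx.sub (bal_ev i j)) (by linarith)
        exact ⟨a, ha, hx, h2⟩
      · rintro ⟨a, ha, hx, h⟩
        obtain ⟨σ, hσ, rfl⟩ := Finset.mem_image.mp ha
        refine ⟨hx, ?_⟩
        rw [h]
        have : (1 : ℤ) ≤ (lev F i j σ : ℕ) := by exact_mod_cast D.lev_pos hσ
        push_cast
        linarith
    · rintro a _ b _ x ⟨_, h1⟩ ⟨_, h2⟩
      rw [h1] at h2
      have : (a : ℤ) = b := by linarith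
      exact_mod_cast this
  rw [h0]
  apply Finset.sum_congr rfl
  intro a _
  exact D.Sm_shift a

end Data

section adding

variable {G' : SimpleGraph (Fin n)}

/-- the two gauge series restricted to the right region -/
lemma right_region (D : Data G' i j Γ F co) (h : Del G G' i j) :
    (1 - PowerSeries.X) * (gf (nu G) (Smge G' i j 1) - gf (nu G') (Smge G' i j 1)) =
      PowerSeries.X * gf (nu G') (Spge G' i j 1) - gf (nu G') (Smge G' i j 1) := by
  have hG' := D.conn
  have hG := h.connected hG'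
  have h1 : gf (nu G) (Smge G' i j 1) = PowerSeries.X ^ 1 * gf (nu G) (Spge G' i j 1) := by
    apply gf_bij (fun x => x + ev i j) 1
    · intro x y h
      exact add_right_cancel h
    · intro y
      constructor
      · rintro ⟨hy, h⟩
        exact ⟨y - ev i j, ⟨hy.sub (bal_ev i j), h⟩, sub_add_cancel _ _⟩
      · rintro ⟨x, ⟨hx, h⟩, rfl⟩
        refine ⟨hx.add (bal_ev i j), ?_⟩
        simp only [add_sub_cancel_right]
        exact h
    · rintro x ⟨hx, hs⟩
      have h2 := h.right hG' (hx.add (bal_ev i j)) (by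
        rw [add_sub_cancel_right]
        push_cast at hs
        linarith)
      rw [add_sub_cancel_right] at h2
      push_cast
      exact h2
    · rintro x ⟨hx, _⟩
      exact nu_nonneg hG hx
  have hsplit : ∀ H : SimpleGraph (Fin n), H.Connected →
      gf (nu H) (Spge G' i j 1) = gf (nu H) (Smge G' i j 1) +
        gf (nu H) (Spge G' i j 1 \ Smge G' i j 1) := by
    intro H hH
    rw [← gf_union ((nu_LF hH).mono (fun x hx => hx.1)) ((nu_LF hH).mono (fun x hx => hx.1.1))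
      Set.disjoint_sdiff_right]
    congr 1
    symm
    apply Set.union_sdiff_cancel
    rintro x ⟨hx, hs⟩
    exact ⟨hx, hs.trans (sm_le_sp hG' hx i j)⟩
  have h2 := hsplit G hG
  have h3 := hsplit G' hG'
  have h4 : gf (nu G) (Spge G' i j 1 \ Smge G' i j 1) =
      gf (nu G') (Spge G' i j 1 \ Smge G' i j 1) := by
    apply gf_congr
    rintro x ⟨⟨hx, h5⟩, h6⟩
    have h7 : ¬ ((1 : ℕ) : ℤ) + 1 ≤ sp G' i j (x - ev i j) := fun h7 => h6 ⟨hx, h7⟩
    push_cast at h5 h7
    exact h.middle hG' hx (by omega) (by omega)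
  rw [pow_one] at h1
  rw [h4] at h2
  linear_combination h1 + PowerSeries.X * h2 - PowerSeries.X * h3

lemma gf_neg (ν : (Fin n → ℤ) → ℤ) (S T : Set (Fin n → ℤ)) (hST : ∀ y, y ∈ T ↔ -y ∈ S)
    (hν : ∀ x ∈ S, ν (-x) = ν x) (h0 : ∀ x ∈ S, 0 ≤ ν x) : gf ν T = gf ν S := by
  rw [gf_bij (fun x => -x) 0 neg_injective (T := T) (S := S) (ν := ν) (ν' := ν)]
  · rw [pow_zero, one_mul]
  · intro y
    rw [hST]
    constructor
    · intro h
      exact ⟨-y, h, neg_neg y⟩
    · rintro ⟨x, hx, rfl⟩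
      rwa [neg_neg]
  · intro x hx
    rw [hν x hx]
    simp
  · exact h0

/-- the difference of the gauge series -/
lemma diff_series (D : Data G' i j Γ F co) (h : Del G G' i j) :
    gf (nu G) {x | bal x} - gf (nu G') {x | bal x} =
      2 * (gf (nu G) (Smge G' i j 1) - gf (nu G') (Smge G' i j 1)) := by
  have hG' := D.conn
  have hG := h.connected hG'
  set L : Set (Fin n → ℤ) := {x | bal x ∧ sp G' i j x ≤ -2} with hL
  set M : Set (Fin n → ℤ) := {x | bal x ∧ sp G' i j (x - ev i j) ≤ 1 ∧ -1 ≤ sp G' i j x} with hM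
  have hLR : ∀ y, y ∈ L ↔ -y ∈ Smge G' i j 1 := by
    intro y
    constructor
    · rintro ⟨hy, hs⟩
      refine ⟨hy.neg, ?_⟩
      have h1 := sp_neg hG' hy.neg i j
      rw [neg_neg] at h1
      push_cast
      linarith
    · rintro ⟨hy, hs⟩
      have hy' := hy.neg
      rw [neg_neg] at hy'
      refine ⟨hy', ?_⟩
      have h1 := sp_neg hG' hy i j
      rw [neg_neg] at h1
      push_cast at hs
      linarith
  have hsplit : ∀ H : SimpleGraph (Fin n), H.Connected →
      gf (nu H) {x | bal x} = gf (nu H) (Smge G' i j 1) + (gf (nu H) L + gf (nu H) M) := by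
    intro H hH
    rw [← gf_union ((nu_LF hH).mono (fun x hx => hx.1)) ((nu_LF hH).mono (fun x hx => hx.1)),
      ← gf_union ((nu_LF hH).mono (fun x hx => hx.1))]
    · congr 1
      ext x
      constructor
      · intro hx
        by_cases h1 : 2 ≤ sp G' i j (x - ev i j)
        · exact Or.inl ⟨hx, by push_cast; linarith⟩
        · by_cases h2 : sp G' i j x ≤ -2
          · exact Or.inr (Or.inl ⟨hx, h2⟩)
          · exact Or.inr (Or.inr ⟨hx, by omega, by omega⟩)
      · rintro (hx | hx | hx)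
        · exact hx.1
        · exact hx.1
        · exact hx.1
    · apply (nu_LF hH).mono
      rintro x (hx | hx)
      · exact hx.1
      · exact hx.1
    · rw [Set.disjoint_left]
      rintro x ⟨hx, hs⟩ (⟨_, h2⟩ | ⟨_, h2, _⟩)
      · have h3 := sm_le_sp hG' hx i j
        push_cast at hs
        linarith
      · push_cast at hs
        linarith
    · rw [Set.disjoint_left]
      rintro x ⟨hx, hs⟩ ⟨_, _, h2⟩
      linarith
  have hLeq : ∀ H : SimpleGraph (Fin n), H.Connected →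
      gf (nu H) L = gf (nu H) (Smge G' i j 1) := by
    intro H hH
    apply gf_neg _ _ _ hLR
    · rintro x ⟨hx, _⟩
      exact nu_neg hH hx
    · rintro x ⟨hx, _⟩
      exact nu_nonneg hH hx
  have hMeq : gf (nu G) M = gf (nu G') M := by
    apply gf_congr
    rintro x ⟨hx, h1, h2⟩
    exact h.middle hG' hx h1 h2
  rw [hsplit G hG, hsplit G' hG', hLeq G hG, hLeq G' hG', hMeq]
  ring

/-- the decomposition of the difference of the gauge series -/
theorem decomposition (D : Data G' i j Γ F co) (h : Del G G' i j) :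
    (1 - PowerSeries.X) ^ (n - 1) * (gf (nu G) {x | bal x} - gf (nu G') {x | bal x}) =
      ((2 * Polynomial.X * ∑ a ∈ Γ.image (lev F i j),
        Dp Γ F i j a * ∑ m ∈ range a, Polynomial.X ^ m : Polynomial ℤ) : PowerSeries ℤ) := by
  have h1 := right_region D h
  rw [D.Spge_one] at h1
  have h2 : (1 - PowerSeries.X) * (gf (nu G) (Smge G' i j 1) - gf (nu G') (Smge G' i j 1)) =
      (1 - PowerSeries.X) * (PowerSeries.X * ∑ a ∈ Γ.image (lev F i j),
        (∑ m ∈ range a, PowerSeries.X ^ m) * gf (nu G') (Sp G' i j a)) := by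
    rw [h1]
    conv_lhs => rw [D.Smge_one]
    rw [Finset.mul_sum, Finset.mul_sum, Finset.mul_sum, ← Finset.sum_sub_distrib]
    apply Finset.sum_congr rfl
    intro a _
    have h3 : (∑ m ∈ range a, (PowerSeries.X : PowerSeries ℤ) ^ m) * (1 - PowerSeries.X) =
        1 - PowerSeries.X ^ a := geom_sum_mul_neg _ _
    linear_combination (-PowerSeries.X * gf (nu G') (Sp G' i j a)) * h3
  have hne : (1 - PowerSeries.X : PowerSeries ℤ) ≠ 0 := by
    intro h4
    have h5 := congrArg (PowerSeries.coeff 0) h4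
    simp at h5
  have h3 := mul_left_cancel₀ hne h2
  rw [diff_series D h, h3]
  rw [Polynomial.coe_mul, Polynomial.coe_mul, Polynomial.coe_X]
  conv_rhs => rw [← Polynomial.coeToPowerSeries.ringHom_apply (φ := ∑ a ∈ _, _), map_sum]
  have h6 : ((2 : Polynomial ℤ) : PowerSeries ℤ) = 2 := by
    rw [← Polynomial.coeToPowerSeries.ringHom_apply]
    exact map_ofNat _ 2
  rw [h6]
  have h7 : ∀ a ∈ Γ.image (lev F i j), Polynomial.coeToPowerSeries.ringHom (R := ℤ)
      (Dp Γ F i j a * ∑ m ∈ range a, Polynomial.X ^ m) =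
      (1 - PowerSeries.X) ^ (n - 1) * ((∑ m ∈ range a, PowerSeries.X ^ m) *
        gf (nu G') (Sp G' i j a)) := by
    intro a ha
    obtain ⟨σ, hσ, rfl⟩ := Finset.mem_image.mp ha
    rw [map_mul, map_sum, Polynomial.coeToPowerSeries.ringHom_apply, ← D.Dp_gf (D.lev_pos hσ)]
    have h8 : ∀ m ∈ range (lev F i j σ), Polynomial.coeToPowerSeries.ringHom (R := ℤ)
        (Polynomial.X ^ m) = PowerSeries.X ^ m := by
      intro m _
      rw [Polynomial.coeToPowerSeries.ringHom_apply, Polynomial.coe_pow, Polynomial.coe_X]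
    rw [Finset.sum_congr rfl h8]
    ring
  rw [Finset.sum_congr rfl h7, ← Finset.mul_sum]
  ring

end adding

end Pool.Agent.R135.SEP
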