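import Pool.Agent.R135.SEPTri
import Pool.Agent.R135.SEPMain

/-!
# Lattice distances and the final assembly
-/

set_option autoImplicit false
open Finset
open scoped Pointwise

namespace Pool.Agent.R135.SEP

variable {n : ℕ}

/-- the affine hull of a cell -/
lemma affineSpan_cell {G : SimpleGraph (Fin n)} (hn : 2 ≤ n) {i j : Fin n}
    {σ : Finset (Fin n → ℤ)} {f : Fin n → ℤ} (hσ : IsCell G i j σ f) (x : Fin n → ℝ) :
    x ∈ affineSpan ℝ (toR '' (σ : Set (Fin n → ℤ))) ↔ sm x = 0 ∧ rp (toR f) x = 1 := by
  have hbal : ∀ v ∈ σ, bal v := by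
    intro v hv
    obtain ⟨a, b, _, rfl⟩ := hσ.edge v hv
    exact bal_ev a b
  have hone : ∀ v ∈ σ, rp (toR f) (toR v) = 1 := by
    intro v hv
    rw [rp_toR, hσ.one v hv]
    norm_num
  constructor
  · intro hx
    obtain ⟨s, w, hs, hw, hxw⟩ := eq_affineCombination_of_mem_affineSpan_image hx
    rw [Finset.affineCombination_eq_linear_combination _ _ _ hw] at hxw
    constructor
    · rw [hxw, sm_eq, rp_sum]
      apply Finset.sum_eq_zero
      intro v hv
      rw [rp_smul, ← sm_eq, (sm_toR_iff v).mpr (hbal v (hs hv)), mul_zero]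
    · rw [hxw, rp_sum, ← hw]
      apply Finset.sum_congr rfl
      intro v hv
      rw [rp_smul, hone v (hs hv), mul_one]
  · rintro ⟨hx, hfx⟩
    obtain ⟨r, hr⟩ := span_cell (by omega) hσ.card hbal hσ.rli x hx
    have h1 : ∑ v ∈ σ, r v = 1 := by
      rw [← hfx, ← hr, rp_sum]
      apply Finset.sum_congr rfl
      intro v hv
      rw [rp_smul, hone v hv, mul_one]
    rw [← hr, ← Finset.affineCombination_eq_linear_combination _ _ _ h1]
    exact affineCombination_mem_affineSpan_image h1 (fun v hv hv' => absurd hv hv') _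

lemma latticeDistance_eq {G : SimpleGraph (Fin n)} (hn : 2 ≤ n) {i j : Fin n}
    {Γ : Finset (Finset (Fin n → ℤ))} {F : Finset (Fin n → ℤ) → (Fin n → ℤ)}
    {co : Finset (Fin n → ℤ) → (Fin n → ℤ) → (Fin n → ℤ) → ℤ} (D : Data G i j Γ F co)
    {σ : Finset (Fin n → ℤ)} (hσ : σ ∈ Γ) (hc : IsCell G i j σ (F σ)) :
    latticeDistance σ (ev i j) = lev F i j σ := by
  have hlev := D.lev_eq hσ
  have hset : {h | IsLatticeDistance σ (ev i j) h} = {lev F i j σ} := by
    ext h
    rw [Set.mem_singleton_iff, Set.mem_ofPred_eq]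
    constructor
    · rintro ⟨u, c, ⟨z, hz, huz⟩, hspan, hh⟩
      have huz' : pr u z = 1 := huz
      have huv : ∀ v ∈ σ, pr u v = c := by
        intro v hv
        have h1 : toR v ∈ (affineSpan ℝ (toR '' (σ : Set (Fin n → ℤ))) : Set (Fin n → ℝ)) :=
          subset_affineSpan ℝ _ ⟨v, hv, rfl⟩
        rw [hspan] at h1
        have h2 : rp (toR u) (toR v) = c := h1.2
        rw [rp_toR] at h2
        exact_mod_cast h2
      have key : ∀ x, bal x → pr u x = c * pr (F σ) x := by
        intro x hx
        have h1 := D.rep σ hσ x hx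
        rw [← h1, pr_sum_right, pr_sum_right, Finset.mul_sum]
        apply Finset.sum_congr rfl
        intro v hv
        rw [huv v hv, D.one σ hσ v hv]
        ring
      have h1 := key z hz
      rw [huz'] at h1
      have h2 := Int.eq_one_or_neg_one_of_mul_eq_one h1.symm
      have h3 : ∑ a, u a * ev i j a = c * pr (F σ) (ev i j) := key _ (bal_ev i j)
      rw [h3] at hh
      have h4 := D.vis σ hσ
      rcases h2 with rfl | rfl
      · rw [one_mul, abs_of_nonneg (by linarith)] at hh
        omega
      · rw [abs_of_nonpos (by linarith)] at hh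
        omega
    · rintro rfl
      have hne : σ.Nonempty := by
        rw [← Finset.card_pos, hc.card]
        omega
      obtain ⟨v, hv⟩ := hne
      refine ⟨F σ, 1, ⟨v, D.balv hσ hv, D.one σ hσ v hv⟩, ?_, ?_⟩
      · ext x
        have h1 := affineSpan_cell hn hc x
        rw [SetLike.mem_coe, h1]
        unfold sm rp toR
        rw [Set.mem_ofPred_eq]
        push_cast
        exact Iff.rfl
      · have h4 := D.vis σ hσ
        have h5 : ∑ a, F σ a * ev i j a = pr (F σ) (ev i j) := rfl
        rw [h5, abs_of_nonneg (by linarith)]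
        omega
  unfold latticeDistance
  rw [hset, csInf_singleton]

lemma hPolynomial_eq (d : ℕ) (A : Finset (Finset (Fin n → ℤ))) (hA : ∀ σ ∈ A, σ.card ≤ d) :
    hPolynomial d A = hPol d A := by
  unfold hPolynomial hPol
  have h1 : subcomplex A = faces A := rfl
  rw [h1, ← Finset.sum_fiberwise_of_maps_to (s := faces A) (t := range (d + 1))
    (g := fun τ => τ.card)]
  · apply Finset.sum_congr rfl
    intro i _
    have h2 : ∀ τ ∈ (faces A).filter (fun τ => τ.card = i),
        (Polynomial.X : Polynomial ℤ) ^ τ.card * (1 - Polynomial.X) ^ (d - τ.card) =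
        Polynomial.X ^ i * (1 - Polynomial.X) ^ (d - i) := by
      intro τ hτ
      rw [(Finset.mem_filter.mp hτ).2]
    rw [Finset.sum_congr rfl h2, Finset.sum_const, nsmul_eq_mul]
    ring
  · intro τ hτ
    obtain ⟨σ, hσ, hτσ⟩ := mem_faces.mp hτ
    rw [Finset.mem_range]
    have := Finset.card_le_card hτσ
    have := hA σ hσ
    omega

/-- a `2`-connected graph stays connected when an edge is deleted -/
lemma TwoConnected.deleteEdges {G : SimpleGraph (Fin n)} (hG : TwoConnected G) {i j : Fin n}
    (hij : G.Adj i j) : (G.deleteEdges {s(i, j)}).Connected := by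
  obtain ⟨hn, hconn, hv⟩ := hG
  have key : ∀ k : Fin n, (k = i ∨ k = j) → ∀ a b : Fin n, a ≠ k → b ≠ k →
      (G.deleteEdges {s(i, j)}).Reachable a b := by
    intro k hk a b ha hb
    have h1 : (G.induce {k}ᶜ).Reachable ⟨a, ha⟩ ⟨b, hb⟩ := (hv k).preconnected _ _
    let φ : G.induce {k}ᶜ →g G.deleteEdges {s(i, j)} :=
      { toFun := fun x => x.1
        map_rel' := by
          rintro ⟨x, hx⟩ ⟨y, hy⟩ hxy
          rw [SimpleGraph.deleteEdges_adj]
          refine ⟨hxy, ?_⟩
          intro h2
          rw [Set.mem_singleton_iff, Sym2.eq_iff] at h2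
          have hx' : x ≠ k := hx
          have hy' : y ≠ k := hy
          rcases hk with rfl | rfl
          · rcases h2 with ⟨h3, h4⟩ | ⟨h3, h4⟩
            · exact hx' h3
            · exact hy' h4
          · rcases h2 with ⟨h3, h4⟩ | ⟨h3, h4⟩
            · exact hy' h4
            · exact hx' h3 }
    exact h1.map φ
  obtain ⟨k, hki, hkj⟩ : ∃ k : Fin n, k ≠ i ∧ k ≠ j := by
    by_contra hcon
    push Not at hcon
    have h1 : (univ : Finset (Fin n)) ⊆ {i, j} := by
      intro k _
      rw [Finset.mem_insert, Finset.mem_singleton]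
      by_cases h : k = i
      · exact Or.inl h
      · exact Or.inr (hcon k h)
    have h2 := Finset.card_le_card h1
    rw [Finset.card_univ, Fintype.card_fin] at h2
    have h3 : ({i, j} : Finset (Fin n)).card ≤ 2 := Finset.card_le_two
    omega
  have hall : ∀ a, (G.deleteEdges {s(i, j)}).Reachable a k := by
    intro a
    by_cases ha : a = i
    · exact key j (Or.inr rfl) a k (by rw [ha]; exact hij.ne) hkj
    · exact key i (Or.inl rfl) a k ha hki
  have : Nonempty (Fin n) := ⟨i⟩
  exact ⟨fun a b => (hall a).trans (hall b).symm⟩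

/-- the decomposition, for every edge whose deletion leaves the graph connected -/
theorem decomposition_of_connected (G : SimpleGraph (Fin n)) (hn : 2 ≤ n) (i j : Fin n)
    (hij : G.Adj i j) (hconn : (G.deleteEdges {s(i, j)}).Connected)
    (Γ : Finset (Finset (Fin n → ℤ)))
    (hΓ : IsTriangulation Γ (visibleRegion (edgePolytope (G.deleteEdges {s(i, j)}))
      (toR (ev i j)))) :
    hStar (n - 1) (edgePolytope G) - hStar (n - 1) (edgePolytope (G.deleteEdges {s(i, j)})) =
      ((2 * Polynomial.X * ∑ a ∈ Γ.image (fun σ => latticeDistance σ (ev i j)),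
        qPolynomial (n - 1) Γ (ev i j) a : Polynomial ℤ) : PowerSeries ℤ) ∧
    ∀ a ∈ Γ.image (fun σ => latticeDistance σ (ev i j)),
      HasNonnegCoeffs (qPolynomial (n - 1) Γ (ev i j) a) ∧
      IsPalindromic (n - 1) (2 * Polynomial.X * qPolynomial (n - 1) Γ (ev i j) a) := by
  set G' := G.deleteEdges {s(i, j)} with hG'
  have hdel : Del G G' i j := by
    constructor
    intro a b
    rw [hG', SimpleGraph.deleteEdges_adj, Set.mem_singleton_iff, Sym2.eq_iff]
    constructor
    · intro h
      by_cases h1 : (a = i ∧ b = j) ∨ (a = j ∧ b = i)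
      · exact Or.inr h1
      · exact Or.inl ⟨h, h1⟩
    · rintro (⟨h, _⟩ | ⟨rfl, rfl⟩ | ⟨rfl, rfl⟩)
      · exact h
      · exact hij
      · exact hij.symm
  obtain ⟨F, co, D, hcell⟩ := data_exists hconn hn hΓ
  have hlat : ∀ σ ∈ Γ, latticeDistance σ (ev i j) = lev F i j σ :=
    fun σ hσ => latticeDistance_eq hn D hσ (hcell σ hσ)
  have himg : Γ.image (fun σ => latticeDistance σ (ev i j)) = Γ.image (lev F i j) :=
    Finset.image_congr hlat
  have hq : ∀ a, qPolynomial (n - 1) Γ (ev i j) a =
      Dp Γ F i j a * ∑ m ∈ range a, Polynomial.X ^ m := by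
    intro a
    unfold qPolynomial dPolynomial Dp
    have h1 : Γ.filter (fun σ => a ≤ latticeDistance σ (ev i j)) =
        Γ.filter (fun σ => a ≤ lev F i j σ) := by
      apply Finset.filter_congr
      intro σ hσ
      rw [hlat σ hσ]
    have h2 : Γ.filter (fun σ => a < latticeDistance σ (ev i j)) =
        Γ.filter (fun σ => a + 1 ≤ lev F i j σ) := by
      apply Finset.filter_congr
      intro σ hσ
      rw [hlat σ hσ]
      exact Nat.lt_iff_add_one_le
    rw [h1, h2, hPolynomial_eq, hPolynomial_eq]
    · intro σ hσ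
      exact (hcell σ (Finset.mem_filter.mp hσ).1).card.le
    · intro σ hσ
      exact (hcell σ (Finset.mem_filter.mp hσ).1).card.le
  refine ⟨?_, ?_⟩
  · have h1 := decomposition D hdel
    rw [← ehrhart_eq (hdel.connected hconn) hn, ← ehrhart_eq hconn hn] at h1
    rw [himg]
    simp only [hq]
    rw [← h1]
    unfold hStar
    rw [pow_succ]
    ring
  · intro a ha
    rw [himg] at ha
    obtain ⟨σ, hσ, rfl⟩ := Finset.mem_image.mp ha
    have h1 := D.lev_pos hσ
    rw [hq]
    refine ⟨fun k => D.q_nonneg h1 k, ?_, fun k hk => D.q_pal h1 k hk⟩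
    rw [Polynomial.natDegree_le_iff_coeff_eq_zero]
    intro k hk
    exact D.q_deg h1 k hk

end Pool.Agent.R135.SEP
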