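import Pool.Agent.R135.SEPCell

/-!
# Unimodular triangulations of the boundary of the symmetric edge polytope, and the symmetry of
its `h^*`-polynomial
-/

set_option autoImplicit false
open Finset
open scoped Pointwise

namespace Pool.Agent.R135.SEP

variable {n : ℕ}

/-! ## Half-open decompositions -/

/-- combinatorial data of a unimodular triangulation of the boundary -/
structure Full (G : SimpleGraph (Fin n)) (Γ : Finset (Finset (Fin n → ℤ)))
    (F : Finset (Fin n → ℤ) → (Fin n → ℤ))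
    (co : Finset (Fin n → ℤ) → (Fin n → ℤ) → (Fin n → ℤ) → ℤ) : Prop where
  conn : G.Connected
  card : ∀ σ ∈ Γ, σ.card = n - 1
  edge : ∀ σ ∈ Γ, ∀ v ∈ σ, ∃ a b, G.Adj a b ∧ v = ev a b
  lip : ∀ σ ∈ Γ, Lip G (F σ)
  one : ∀ σ ∈ Γ, ∀ v ∈ σ, pr (F σ) v = 1
  rep : ∀ σ ∈ Γ, ∀ x, bal x → ∑ v ∈ σ, co σ v x • v = x
  indep : ∀ σ ∈ Γ, ∀ c : (Fin n → ℤ) → ℤ, ∑ v ∈ σ, c v • v = 0 → ∀ v ∈ σ, c v = 0
  sub : ∀ σ ∈ Γ, ∀ v ∈ σ, ∃ A : Finset (Fin n), A.Nonempty ∧ A ≠ univ ∧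
    ∀ x, bal x → co σ v x = ∑ p ∈ A, x p
  uniq : ∀ σ ∈ Γ, ∀ τ ∈ Γ, ∀ c c' : (Fin n → ℤ) → ℕ,
    ∑ v ∈ σ, (c v : ℤ) • v = ∑ v ∈ τ, (c' v : ℤ) • v → ∀ v ∈ σ, 0 < c v → v ∈ τ ∧ c' v = c v
  cover : ∀ y, bal y → Gen y → ∃ σ ∈ Γ, ∀ v ∈ σ, 0 ≤ co σ v y

variable {G : SimpleGraph (Fin n)} {Γ : Finset (Finset (Fin n → ℤ))}
    {F : Finset (Fin n → ℤ) → (Fin n → ℤ)}
    {co : Finset (Fin n → ℤ) → (Fin n → ℤ) → (Fin n → ℤ) → ℤ}

namespace Full

lemma balv (D : Full G Γ F co) {σ : Finset (Fin n → ℤ)} (hσ : σ ∈ Γ) {v : Fin n → ℤ}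
    (hv : v ∈ σ) : bal v := by
  obtain ⟨a, b, _, rfl⟩ := D.edge σ hσ v hv
  exact bal_ev a b

lemma inj (D : Full G Γ F co) {σ : Finset (Fin n → ℤ)} (hσ : σ ∈ Γ)
    (c c' : (Fin n → ℤ) → ℤ) (h : ∑ v ∈ σ, c v • v = ∑ v ∈ σ, c' v • v) :
    ∀ v ∈ σ, c v = c' v := by
  intro v hv
  have h3 := D.indep σ hσ (fun v => c v - c' v) (by
    simp only [sub_smul]
    rw [Finset.sum_sub_distrib, h, sub_self]) v hv
  linarith

lemma co_sum (D : Full G Γ F co) {σ : Finset (Fin n → ℤ)} (hσ : σ ∈ Γ)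
    (c : (Fin n → ℤ) → ℤ) : ∀ v ∈ σ, co σ v (∑ w ∈ σ, c w • w) = c v := by
  have h1 := D.rep σ hσ (∑ w ∈ σ, c w • w) (bal_sum _ _ (fun v hv => D.balv hσ hv))
  exact D.inj hσ _ _ h1

lemma gauge (D : Full G Γ F co) {σ : Finset (Fin n → ℤ)} (hσ : σ ∈ Γ)
    (c : (Fin n → ℤ) → ℤ) (hc : ∀ v ∈ σ, 0 ≤ c v) :
    nu G (∑ v ∈ σ, c v • v) = ∑ v ∈ σ, c v := by
  have hb : bal (∑ v ∈ σ, c v • v) := bal_sum _ _ (fun v hv => D.balv hσ hv)
  have h1 : pr (F σ) (∑ v ∈ σ, c v • v) = ∑ v ∈ σ, c v := by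
    rw [pr_sum_right]
    apply Finset.sum_congr rfl
    intro v hv
    rw [D.one σ hσ v hv, mul_one]
  apply le_antisymm
  · obtain ⟨f, hf, h3⟩ := nu_attained D.conn hb
    rw [← h3, pr_sum_right]
    apply Finset.sum_le_sum
    intro v hv
    obtain ⟨a, b, hab, hv2⟩ := D.edge σ hσ v hv
    have h4 : pr f v ≤ 1 := by
      rw [hv2, pr_ev]
      exact hf a b hab
    calc c v * pr f v ≤ c v * 1 := mul_le_mul_of_nonneg_left h4 (hc v hv)
      _ = c v := mul_one _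
  · rw [← h1]
    exact le_nu D.conn hb (D.lip σ hσ)

lemma co_pert (D : Full G Γ F co) {σ : Finset (Fin n → ℤ)} (hσ : σ ∈ Γ) {v : Fin n → ℤ}
    (hv : v ∈ σ) {E x : Fin n → ℤ} (hE : bal E) (hx : bal x) (K s : ℤ) :
    co σ v (pert K s E x) = K * co σ v x + s * co σ v E := by
  obtain ⟨A, _, _, h⟩ := D.sub σ hσ v hv
  rw [h (pert K s E x) ((hx.smul _).add (hE.smul _)), h _ hx, h _ hE]
  unfold pert
  simp only [Pi.add_apply, Pi.smul_apply, smul_eq_mul, Finset.sum_add_distrib, Finset.mul_sum]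

lemma co_le (D : Full G Γ F co) {σ : Finset (Fin n → ℤ)} (hσ : σ ∈ Γ) {v : Fin n → ℤ}
    (hv : v ∈ σ) {E : Fin n → ℤ} (hE : bal E) : |co σ v E| ≤ nrm E := by
  obtain ⟨A, _, _, h⟩ := D.sub σ hσ v hv
  rw [h _ hE]
  exact subsum_le E A

lemma co_ne (D : Full G Γ F co) {σ : Finset (Fin n → ℤ)} (hσ : σ ∈ Γ) {v : Fin n → ℤ}
    (hv : v ∈ σ) {E : Fin n → ℤ} (hE : bal E) (hgen : Gen E) : co σ v E ≠ 0 := by
  obtain ⟨A, hA, hA', h⟩ := D.sub σ hσ v hv
  rw [h _ hE]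
  exact hgen A hA hA'

lemma half_exists (D : Full G Γ F co) {E : Fin n → ℤ} (hE : bal E) (hEg : Gen E) {s : ℤ}
    (hs : s = 1 ∨ s = -1) {x : Fin n → ℤ} (hx : bal x) :
    ∃ σ ∈ Γ, x ∈ piece σ (neg co σ s E) := by
  set K : ℤ := 1 + nrm E with hK
  have hnn := nrm_nonneg E
  have hs0 : s ≠ 0 := by rcases hs with rfl | rfl <;> norm_num
  have hy : bal (pert K s E x) := (hx.smul _).add (hE.smul _)
  have hnrm : nrm (s • E) = nrm E := by
    unfold nrm
    apply Finset.sum_congr rfl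
    intro p _
    rcases hs with rfl | rfl <;> simp
  have hygen : Gen (pert K s E x) :=
    gen_add (gen_smul hEg hs0) (by rw [hnrm]; linarith)
  obtain ⟨σ, hσ, hc⟩ := D.cover _ hy hygen
  have h6 : ∀ v ∈ σ, 0 ≤ co σ v x ∧ (s * co σ v E < 0 → 1 ≤ co σ v x) := by
    intro v hv
    have h7 := hc v hv
    rw [D.co_pert hσ hv hE hx] at h7
    have h8 := abs_le.mp (D.co_le hσ hv hE)
    have h9 : s * co σ v E ≤ nrm E := by rcases hs with rfl | rfl <;> linarith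
    have h10 : 0 ≤ co σ v x := by
      by_contra hneg
      have h11 : K * co σ v x ≤ K * (-1) := mul_le_mul_of_nonneg_left (by omega) (by linarith)
      linarith
    refine ⟨h10, fun h11 => ?_⟩
    by_contra h12
    have h13 : co σ v x = 0 := by omega
    rw [h13, mul_zero, zero_add] at h7
    linarith
  refine ⟨σ, hσ, fun v => (co σ v x).toNat, ?_, ?_⟩
  · intro v hv
    unfold neg at hv
    rw [Finset.mem_filter] at hv
    have := (h6 v hv.1).2 hv.2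
    show 1 ≤ (co σ v x).toNat
    omega
  · conv_rhs => rw [← D.rep σ hσ x hx]
    apply Finset.sum_congr rfl
    intro v hv
    rw [Int.toNat_of_nonneg (h6 v hv).1]

lemma half_pos (D : Full G Γ F co) {E : Fin n → ℤ} (hE : bal E) (hEg : Gen E) {s : ℤ}
    (hs : s = 1 ∨ s = -1) {x : Fin n → ℤ} (hx : bal x) {σ : Finset (Fin n → ℤ)} (hσ : σ ∈ Γ)
    (hxσ : x ∈ piece σ (neg co σ s E)) {K : ℤ} (hK : nrm E < K) :
    ∀ v ∈ σ, 0 < co σ v (pert K s E x) := by
  intro v hv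
  obtain ⟨c, hc, hcx⟩ := hxσ
  rw [D.co_pert hσ hv hE hx]
  have h1 : co σ v x = c v := by
    rw [← hcx]
    exact D.co_sum hσ (fun w => (c w : ℤ)) v hv
  rw [h1]
  have h8 := abs_le.mp (D.co_le hσ hv hE)
  have hnn := nrm_nonneg E
  rcases Nat.eq_zero_or_pos (c v) with h2 | h2
  · rw [h2, Nat.cast_zero, mul_zero, zero_add]
    have h3 : ¬ s * co σ v E < 0 := by
      intro h4
      have h5 := hc v (by unfold neg; rw [Finset.mem_filter]; exact ⟨hv, h4⟩)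
      omega
    have h4 := D.co_ne hσ hv hE hEg
    have h5 : s * co σ v E ≠ 0 := by
      rcases hs with rfl | rfl
      · simpa using h4
      · simpa using h4
    omega
  · have h9 : -nrm E ≤ s * co σ v E := by rcases hs with rfl | rfl <;> linarith
    have h10 : K * 1 ≤ K * (c v : ℤ) :=
      mul_le_mul_of_nonneg_left (by exact_mod_cast h2) (by linarith)
    linarith

lemma half_unique (D : Full G Γ F co) {E : Fin n → ℤ} (hE : bal E) (hEg : Gen E) {s : ℤ}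
    (hs : s = 1 ∨ s = -1) {x : Fin n → ℤ} (hx : bal x)
    {σ τ : Finset (Fin n → ℤ)} (hσ : σ ∈ Γ) (hτ : τ ∈ Γ) (hxσ : x ∈ piece σ (neg co σ s E))
    (hxτ : x ∈ piece τ (neg co τ s E)) : σ = τ := by
  set K : ℤ := 1 + nrm E with hK
  have hnn := nrm_nonneg E
  have hy : bal (pert K s E x) := (hx.smul _).add (hE.smul _)
  have h1 := D.half_pos hE hEg hs hx hσ hxσ (show nrm E < K by linarith)
  have h2 := D.half_pos hE hEg hs hx hτ hxτ (show nrm E < K by linarith)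
  have key : ∀ {σ τ : Finset (Fin n → ℤ)}, σ ∈ Γ → τ ∈ Γ →
      (∀ v ∈ σ, 0 < co σ v (pert K s E x)) → (∀ v ∈ τ, 0 < co τ v (pert K s E x)) → σ ⊆ τ := by
    intro σ τ hσ hτ h1 h2 v hv
    have h3 : ∑ v ∈ σ, (((co σ v (pert K s E x)).toNat : ℕ) : ℤ) • v =
        ∑ v ∈ τ, (((co τ v (pert K s E x)).toNat : ℕ) : ℤ) • v := by
      have h4 : ∀ v ∈ σ, (((co σ v (pert K s E x)).toNat : ℕ) : ℤ) • v =
          co σ v (pert K s E x) • v := by
        intro v hv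
        rw [Int.toNat_of_nonneg (h1 v hv).le]
      have h5 : ∀ v ∈ τ, (((co τ v (pert K s E x)).toNat : ℕ) : ℤ) • v =
          co τ v (pert K s E x) • v := by
        intro v hv
        rw [Int.toNat_of_nonneg (h2 v hv).le]
      rw [Finset.sum_congr rfl h4, Finset.sum_congr rfl h5, D.rep σ hσ _ hy, D.rep τ hτ _ hy]
    exact (D.uniq σ hσ τ hτ _ _ h3 v hv (by have := h1 v hv; omega)).1
  exact Finset.Subset.antisymm (key hσ hτ h1 h2) (key hτ hσ h2 h1)

lemma gf_all (D : Full G Γ F co) {E : Fin n → ℤ} (hE : bal E) (hEg : Gen E) {s : ℤ}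
    (hs : s = 1 ∨ s = -1) :
    (1 - PowerSeries.X) ^ (n - 1) * gf (nu G) {x | bal x} =
      ∑ σ ∈ Γ, PowerSeries.X ^ (neg co σ s E).card := by
  classical
  rw [gf_biUnion Γ (fun σ => piece σ (neg co σ s E)) (nu_LF D.conn), Finset.mul_sum]
  · apply Finset.sum_congr rfl
    intro σ hσ
    rw [← D.card σ hσ]
    apply SEP.gf_piece _ _ _ (Finset.filter_subset _ _)
    · intro c c' h v hv
      have := D.inj hσ _ _ h v hv
      exact_mod_cast this
    · intro c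
      exact D.gauge hσ _ (fun v _ => Int.natCast_nonneg _)
  · intro x
    constructor
    · intro hx
      exact D.half_exists hE hEg hs hx
    · rintro ⟨σ, hσ, c, _, rfl⟩
      exact bal_sum _ _ (fun v hv => D.balv hσ hv)
  · intro σ hσ τ hτ x hxσ hxτ
    have hx : bal x := by
      obtain ⟨c, _, rfl⟩ := hxσ
      exact bal_sum _ _ (fun v hv => D.balv hσ hv)
    exact D.half_unique hE hEg hs hx hσ hτ hxσ hxτ

lemma card_neg (D : Full G Γ F co) {E : Fin n → ℤ} (hE : bal E) (hEg : Gen E)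
    {σ : Finset (Fin n → ℤ)} (hσ : σ ∈ Γ) :
    (neg co σ (-1) E).card + (neg co σ 1 E).card = n - 1 := by
  rw [← D.card σ hσ]
  have h1 : neg co σ (-1) E = σ.filter (fun v => ¬ (1 * co σ v E < 0)) := by
    unfold neg
    apply Finset.filter_congr
    intro v hv
    have := D.co_ne hσ hv hE hEg
    omega
  rw [h1]
  unfold neg
  rw [add_comm]
  exact Finset.card_filter_add_card_filter_not _

/-- the `h^*`-polynomial is palindromic of degree at most `n - 1` -/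
lemma palindromic (D : Full G Γ F co) (hn : 0 < n) :
    ∃ h : Polynomial ℤ, (1 - PowerSeries.X) ^ (n - 1) * gf (nu G) {x | bal x} =
      (h : PowerSeries ℤ) ∧ h.natDegree ≤ n - 1 ∧
      ∀ k ≤ n - 1, h.coeff k = h.coeff (n - 1 - k) := by
  classical
  obtain ⟨E, hE, hEg⟩ := exists_gen hn
  set h : Polynomial ℤ := ∑ σ ∈ Γ, Polynomial.X ^ (neg co σ 1 E).card with hh
  have hcoe : ∀ s : ℤ, ((∑ σ ∈ Γ, Polynomial.X ^ (neg co σ s E).card : Polynomial ℤ) :
      PowerSeries ℤ) = ∑ σ ∈ Γ, PowerSeries.X ^ (neg co σ s E).card := by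
    intro s
    rw [← Polynomial.coeToPowerSeries.ringHom_apply, map_sum]
    apply Finset.sum_congr rfl
    intro σ _
    rw [Polynomial.coeToPowerSeries.ringHom_apply, Polynomial.coe_pow, Polynomial.coe_X]
  have h1 : (1 - PowerSeries.X) ^ (n - 1) * gf (nu G) {x | bal x} = (h : PowerSeries ℤ) := by
    rw [D.gf_all hE hEg (Or.inl rfl), hh, hcoe]
  have h2 : h = ∑ σ ∈ Γ, Polynomial.X ^ (neg co σ (-1) E).card := by
    apply Polynomial.coe_injective ℤ
    rw [← h1, D.gf_all hE hEg (Or.inr rfl), hcoe]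
  have hle : ∀ σ ∈ Γ, (neg co σ 1 E).card ≤ n - 1 := by
    intro σ hσ
    have := D.card_neg hE hEg hσ
    omega
  have hc1 : ∀ k, h.coeff k = ((Γ.filter (fun σ => k = (neg co σ 1 E).card)).card : ℤ) := by
    intro k
    rw [hh, Polynomial.finsetSum_coeff]
    simp only [Polynomial.coeff_X_pow]
    rw [Finset.sum_boole]
  have hc2 : ∀ k, h.coeff k = ((Γ.filter (fun σ => k = (neg co σ (-1) E).card)).card : ℤ) := by
    intro k
    rw [h2, Polynomial.finsetSum_coeff]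
    simp only [Polynomial.coeff_X_pow]
    rw [Finset.sum_boole]
  refine ⟨h, h1, ?_, ?_⟩
  · rw [Polynomial.natDegree_le_iff_coeff_eq_zero]
    intro k hk
    rw [hc1, Finset.filter_false_of_mem]
    · simp
    · intro σ hσ h3
      have := hle σ hσ
      omega
  · intro k hk
    rw [hc1, hc2]
    congr 2
    apply Finset.filter_congr
    intro σ hσ
    have := D.card_neg hE hEg hσ
    omega

end Full

end Pool.Agent.R135.SEP
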