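import Pool.Agent.R135.SEPLip

/-!
# Generating functions of lattice points with respect to a gauge
-/

set_option autoImplicit false
open Finset
open scoped Pointwise

namespace Pool.Agent.R135.SEP

variable {n : ℕ}

/-- generating function of the points of `S` by the value of `ν` -/
noncomputable def gf (ν : (Fin n → ℤ) → ℤ) (S : Set (Fin n → ℤ)) : PowerSeries ℤ :=
  PowerSeries.mk fun m : ℕ => (Set.ncard {x | x ∈ S ∧ ν x = m} : ℤ)

/-- locally finite -/
def LF (ν : (Fin n → ℤ) → ℤ) (S : Set (Fin n → ℤ)) : Prop :=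
  ∀ m : ℕ, {x | x ∈ S ∧ ν x = m}.Finite

lemma LF.mono {ν : (Fin n → ℤ) → ℤ} {S T : Set (Fin n → ℤ)} (h : LF ν S) (hT : T ⊆ S) :
    LF ν T := fun m => (h m).subset (fun _ hx => ⟨hT hx.1, hx.2⟩)

lemma coeff_gf (ν : (Fin n → ℤ) → ℤ) (S : Set (Fin n → ℤ)) (m : ℕ) :
    PowerSeries.coeff m (gf ν S) = (Set.ncard {x | x ∈ S ∧ ν x = m} : ℤ) :=
  PowerSeries.coeff_mk _ _

lemma gf_union {ν : (Fin n → ℤ) → ℤ} {S T : Set (Fin n → ℤ)} (hS : LF ν S) (hT : LF ν T)
    (hd : Disjoint S T) : gf ν (S ∪ T) = gf ν S + gf ν T := by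
  ext m
  rw [map_add, coeff_gf, coeff_gf, coeff_gf]
  have h1 : {x | x ∈ S ∪ T ∧ ν x = m} = {x | x ∈ S ∧ ν x = m} ∪ {x | x ∈ T ∧ ν x = m} := by
    ext x
    constructor
    · rintro ⟨h1 | h1, h2⟩
      · exact Or.inl ⟨h1, h2⟩
      · exact Or.inr ⟨h1, h2⟩
    · rintro (⟨h1, h2⟩ | ⟨h1, h2⟩)
      · exact ⟨Or.inl h1, h2⟩
      · exact ⟨Or.inr h1, h2⟩
  rw [h1, Set.ncard_union_eq _ (hS m) (hT m)]
  · push_cast; rfl
  · rw [Set.disjoint_left] at hd ⊢
    intro x hx hx'
    exact hd hx.1 hx'.1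

lemma gf_congr {ν ν' : (Fin n → ℤ) → ℤ} {S : Set (Fin n → ℤ)} (h : ∀ x ∈ S, ν x = ν' x) :
    gf ν S = gf ν' S := by
  ext m
  rw [coeff_gf, coeff_gf]
  have h1 : {x | x ∈ S ∧ ν x = m} = {x | x ∈ S ∧ ν' x = m} := by
    ext x
    constructor
    · rintro ⟨h1, h2⟩
      exact ⟨h1, by rw [← h x h1]; exact h2⟩
    · rintro ⟨h1, h2⟩
      exact ⟨h1, by rw [h x h1]; exact h2⟩
  rw [h1]

lemma gf_empty (ν : (Fin n → ℤ) → ℤ) : gf ν ∅ = 0 := by
  ext m
  rw [coeff_gf, map_zero]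
  have h1 : {x | x ∈ (∅ : Set (Fin n → ℤ)) ∧ ν x = m} = ∅ := by
    ext x
    constructor
    · rintro ⟨h1, _⟩
      exact h1
    · intro h
      exact absurd h (Set.notMem_empty x)
  rw [h1, Set.ncard_empty]
  rfl

/-- shifting -/
lemma gf_bij {ν ν' : (Fin n → ℤ) → ℤ} {S T : Set (Fin n → ℤ)} (φ : (Fin n → ℤ) → (Fin n → ℤ))
    (s : ℕ) (hφ : Function.Injective φ) (hT : ∀ y, y ∈ T ↔ ∃ x ∈ S, φ x = y)
    (hν : ∀ x ∈ S, ν (φ x) = ν' x + s) (h0 : ∀ x ∈ S, 0 ≤ ν' x) :
    gf ν T = PowerSeries.X ^ s * gf ν' S := by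
  ext m
  rw [PowerSeries.coeff_X_pow_mul', coeff_gf]
  split_ifs with h
  · rw [coeff_gf]
    have h1 : {y | y ∈ T ∧ ν y = m} = φ '' {x | x ∈ S ∧ ν' x = ((m - s : ℕ) : ℤ)} := by
      ext y
      constructor
      · rintro ⟨h1, h2⟩
        obtain ⟨x, hx, rfl⟩ := (hT y).mp h1
        refine ⟨x, ⟨hx, ?_⟩, rfl⟩
        rw [hν x hx] at h2
        push_cast [Nat.cast_sub h]
        linarith
      · rintro ⟨x, ⟨hx, hx2⟩, rfl⟩
        refine ⟨(hT _).mpr ⟨x, hx, rfl⟩, ?_⟩
        rw [hν x hx, hx2]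
        push_cast [Nat.cast_sub h]
        ring
    rw [h1, Set.ncard_image_of_injective _ hφ]
  · have h1 : {y | y ∈ T ∧ ν y = m} = ∅ := by
      ext y
      constructor
      · rintro ⟨h1, h2⟩
        exfalso
        obtain ⟨x, hx, rfl⟩ := (hT y).mp h1
        rw [hν x hx] at h2
        have h3 := h0 x hx
        apply h
        have : (s : ℤ) ≤ m := by linarith
        exact_mod_cast this
      · intro h
        exact absurd h (Set.notMem_empty y)
    rw [h1, Set.ncard_empty]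
    rfl

lemma gf_biUnion {ι : Type} [DecidableEq ι] {ν : (Fin n → ℤ) → ℤ} (I : Finset ι)
    (P : ι → Set (Fin n → ℤ)) {S : Set (Fin n → ℤ)} (hLF : LF ν S)
    (hS : ∀ x, x ∈ S ↔ ∃ i ∈ I, x ∈ P i)
    (hd : ∀ i ∈ I, ∀ j ∈ I, ∀ x, x ∈ P i → x ∈ P j → i = j) :
    gf ν S = ∑ i ∈ I, gf ν (P i) := by
  induction I using Finset.induction_on generalizing S with
  | empty =>
    rw [Finset.sum_empty]
    have : S = ∅ := by
      ext x
      rw [hS]
      simp
    rw [this, gf_empty]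
  | insert a I ha ih =>
    rw [Finset.sum_insert ha]
    have h1 : S = P a ∪ {x | ∃ i ∈ I, x ∈ P i} := by
      ext x
      rw [hS]
      constructor
      · rintro ⟨i, hi, hx⟩
        rcases Finset.mem_insert.mp hi with rfl | hi
        · exact Or.inl hx
        · exact Or.inr ⟨i, hi, hx⟩
      · rintro (hx | ⟨i, hi, hx⟩)
        · exact ⟨a, Finset.mem_insert_self _ _, hx⟩
        · exact ⟨i, Finset.mem_insert_of_mem hi, hx⟩
    have h2 : LF ν (P a) := hLF.mono (by rw [h1]; exact Set.subset_union_left)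
    have h3 : LF ν {x | ∃ i ∈ I, x ∈ P i} := hLF.mono (by rw [h1]; exact Set.subset_union_right)
    rw [h1, gf_union h2 h3]
    · rw [ih h3 (fun x => Iff.rfl) (fun i hi j hj => hd i (Finset.mem_insert_of_mem hi) j
        (Finset.mem_insert_of_mem hj))]
    · rw [Set.disjoint_left]
      rintro x hx ⟨i, hi, hx'⟩
      have := hd a (Finset.mem_insert_self _ _) i (Finset.mem_insert_of_mem hi) x hx hx'
      rw [this] at ha
      exact ha hi

/-- the vectors `Σ_{v∈τ} c_v v`, `c_v ≥ 0`, and `c_v ≥ 1` for `v ∈ N` -/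
def piece (τ N : Finset (Fin n → ℤ)) : Set (Fin n → ℤ) :=
  {x | ∃ c : (Fin n → ℤ) → ℕ, (∀ v ∈ N, 1 ≤ c v) ∧ ∑ v ∈ τ, (c v : ℤ) • v = x}

lemma gf_piece (ν : (Fin n → ℤ) → ℤ) (τ N : Finset (Fin n → ℤ)) (hN : N ⊆ τ)
    (hinj : ∀ c c' : (Fin n → ℤ) → ℕ, ∑ v ∈ τ, (c v : ℤ) • v = ∑ v ∈ τ, (c' v : ℤ) • v →
      ∀ v ∈ τ, c v = c' v)
    (hν : ∀ c : (Fin n → ℤ) → ℕ, ν (∑ v ∈ τ, (c v : ℤ) • v) = ∑ v ∈ τ, (c v : ℤ)) :
    (1 - PowerSeries.X) ^ τ.card * gf ν (piece τ N) = PowerSeries.X ^ N.card := by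
  classical
  set F : (Fin n → ℤ) → PowerSeries ℤ := fun v =>
    PowerSeries.mk (fun k => if v ∈ N → 1 ≤ k then (1 : ℤ) else 0) with hF
  have h1 : gf ν (piece τ N) = ∏ v ∈ τ, F v := by
    ext m
    rw [coeff_gf, PowerSeries.coeff_prod]
    have h2 : ∀ l ∈ τ.finsuppAntidiag m, (∏ v ∈ τ, PowerSeries.coeff (l v) (F v)) =
        if (∀ v ∈ τ, v ∈ N → 1 ≤ l v) then (1 : ℤ) else 0 := by
      intro l _
      simp only [hF, PowerSeries.coeff_mk]
      rw [Finset.prod_ite_zero]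
      simp
    rw [Finset.sum_congr rfl h2, Finset.sum_boole]
    congr 1
    have h3 : {x | x ∈ piece τ N ∧ ν x = m} =
        (((τ.finsuppAntidiag m).filter (fun l => ∀ v ∈ τ, v ∈ N → 1 ≤ l v)).image
          (fun l : (Fin n → ℤ) →₀ ℕ => ∑ v ∈ τ, (l v : ℤ) • v) : Set (Fin n → ℤ)) := by
      ext x
      rw [Finset.mem_coe, Finset.mem_image]
      constructor
      · rintro ⟨⟨c, hc, rfl⟩, hx⟩
        rw [hν] at hx
        refine ⟨Finsupp.onFinset τ (fun v => if v ∈ τ then c v else 0) ?_, ?_, ?_⟩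
        · intro v hv
          by_contra hcon
          rw [if_neg hcon] at hv
          exact hv rfl
        · rw [Finset.mem_filter, Finset.mem_finsuppAntidiag]
          refine ⟨⟨?_, ?_⟩, ?_⟩
          · have : ∑ v ∈ τ, c v = m := by exact_mod_cast hx
            rw [← this]
            apply Finset.sum_congr rfl
            intro v hv
            rw [Finsupp.onFinset_apply, if_pos hv]
          · exact Finsupp.support_onFinset_subset
          · intro v hv hvN
            rw [Finsupp.onFinset_apply, if_pos hv]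
            exact hc v hvN
        · apply Finset.sum_congr rfl
          intro v hv
          rw [Finsupp.onFinset_apply, if_pos hv]
      · rintro ⟨l, hl, rfl⟩
        rw [Finset.mem_filter, Finset.mem_finsuppAntidiag] at hl
        refine ⟨⟨l, fun v hv => hl.2 v (hN hv) hv, rfl⟩, ?_⟩
        rw [hν]
        exact_mod_cast hl.1.1
    rw [h3, Set.ncard_coe_finset, Finset.card_image_of_injOn]
    intro l hl l' hl' h
    have h4 := hinj l l' h
    rw [Finset.mem_coe, Finset.mem_filter, Finset.mem_finsuppAntidiag] at hl hl'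
    ext v
    by_cases hv : v ∈ τ
    · exact h4 v hv
    · have h5 : l v = 0 := by
        by_contra h6
        exact hv (hl.1.2 (Finsupp.mem_support_iff.mpr h6))
      have h6 : l' v = 0 := by
        by_contra h7
        exact hv (hl'.1.2 (Finsupp.mem_support_iff.mpr h7))
      rw [h5, h6]
  have h2 : ∀ v, (1 - PowerSeries.X) * F v = if v ∈ N then PowerSeries.X else 1 := by
    intro v
    ext k
    rw [sub_mul, one_mul, map_sub]
    cases k with
    | zero =>
      rw [PowerSeries.coeff_zero_X_mul]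
      simp only [hF, PowerSeries.coeff_mk]
      by_cases hv : v ∈ N <;> simp [hv]
    | succ k =>
      rw [PowerSeries.coeff_succ_X_mul]
      simp only [hF, PowerSeries.coeff_mk]
      by_cases hv : v ∈ N
      · simp only [hv, true_imp_iff, if_true, PowerSeries.coeff_X]
        cases k with
        | zero => simp
        | succ k => simp
      · simp [hv, PowerSeries.coeff_one]
  rw [h1, ← Finset.prod_const, ← Finset.prod_mul_distrib, Finset.prod_congr rfl (fun v _ => h2 v),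
    Finset.prod_ite, Finset.prod_const, Finset.prod_const_one, mul_one]
  congr 2
  ext v
  rw [Finset.mem_filter]
  exact ⟨fun h => h.2, fun h => ⟨hN h, h⟩⟩

/-- the gauge is locally finite on balanced vectors -/
lemma nu_LF {G : SimpleGraph (Fin n)} (hG : G.Connected) : LF (nu G) {x | bal x} := by
  intro m
  apply Set.Finite.subset (Fintype.piFinset (fun _ : Fin n => Finset.Icc (-(m : ℤ)) m)).finite_toSet
  rintro x ⟨hx, hxm⟩
  rw [Finset.mem_coe, Fintype.mem_piFinset]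
  intro a
  have hl : Lip G (Pi.single a 1) := by
    intro b c _
    by_cases hb : b = a <;> by_cases hc : c = a <;> simp [hb, hc]
  have h3 : pr (Pi.single a 1) x = x a := by
    unfold pr
    simp [Pi.single_apply]
  have h4 := le_nu hG hx hl
  have h5 := le_nu hG hx hl.neg
  rw [pr_neg_left, h3] at h5
  rw [h3] at h4
  rw [Finset.mem_Icc]
  rw [hxm] at h4 h5
  constructor <;> linarith

end Pool.Agent.R135.SEP
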