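import Pool.Agent.R135.SEPGen

/-!
# Half-open decompositions of the visible cone
-/

set_option autoImplicit false
open Finset
open scoped Pointwise

namespace Pool.Agent.R135.SEP

variable {n : ℕ}

/-- sum of the absolute values of the coordinates -/
def nrm (x : Fin n → ℤ) : ℤ := ∑ p, |x p|

lemma nrm_nonneg (x : Fin n → ℤ) : 0 ≤ nrm x := Finset.sum_nonneg (fun _ _ => abs_nonneg _)

lemma subsum_le (x : Fin n → ℤ) (A : Finset (Fin n)) : |∑ p ∈ A, x p| ≤ nrm x :=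
  (Finset.abs_sum_le_sum_abs _ _).trans
    (Finset.sum_le_sum_of_subset_of_nonneg (Finset.subset_univ _) (fun _ _ _ => abs_nonneg _))

/-- all proper subset sums are nonzero -/
def Gen (x : Fin n → ℤ) : Prop := ∀ A : Finset (Fin n), A.Nonempty → A ≠ univ → ∑ p ∈ A, x p ≠ 0

lemma gen_add {q x : Fin n → ℤ} (hq : Gen q) {K : ℤ} (hK : nrm q < K) : Gen (K • x + q) := by
  intro A hA hA' h
  have h1 : ∑ p ∈ A, (K • x + q) p = K * ∑ p ∈ A, x p + ∑ p ∈ A, q p := by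
    simp only [Pi.add_apply, Pi.smul_apply, smul_eq_mul, Finset.sum_add_distrib, Finset.mul_sum]
  rw [h1] at h
  have h2 := abs_le.mp (subsum_le q A)
  have h0 := nrm_nonneg q
  rcases lt_trichotomy (∑ p ∈ A, x p) 0 with h3 | h3 | h3
  · have : K * ∑ p ∈ A, x p ≤ K * (-1) := mul_le_mul_of_nonneg_left (by omega) (by linarith)
    linarith
  · rw [h3, mul_zero, zero_add] at h
    exact hq A hA hA' h
  · have : K * 1 ≤ K * ∑ p ∈ A, x p := mul_le_mul_of_nonneg_left (by omega) (by linarith)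
    linarith

lemma gen_smul {q : Fin n → ℤ} (hq : Gen q) {s : ℤ} (hs : s ≠ 0) : Gen (s • q) := by
  intro A hA hA' h
  simp only [Pi.smul_apply, smul_eq_mul, ← Finset.mul_sum] at h
  rcases mul_eq_zero.mp h with h | h
  · exact hs h
  · exact hq A hA hA' h

lemma exists_gen (hn : 0 < n) : ∃ q : Fin n → ℤ, bal q ∧ Gen q := by
  obtain ⟨m, rfl⟩ : ∃ m, n = m + 1 := ⟨n - 1, by omega⟩
  set q : Fin (m + 1) → ℤ := Fin.snoc (fun p : Fin m => (2 : ℤ) ^ (p : ℕ))
    (-∑ p : Fin m, (2 : ℤ) ^ (p : ℕ)) with hq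
  have hbal : bal q := by
    unfold bal
    rw [Fin.sum_univ_castSucc]
    simp [hq]
  have hpos : ∀ A : Finset (Fin (m + 1)), A.Nonempty → Fin.last m ∉ A → 0 < ∑ p ∈ A, q p := by
    intro A hA hl
    apply Finset.sum_pos _ hA
    intro p hp
    have hp' : p ≠ Fin.last m := fun h => hl (h ▸ hp)
    obtain ⟨p', rfl⟩ : ∃ p' : Fin m, p = p'.castSucc := ⟨p.castPred hp', by simp⟩
    simp [hq]
  refine ⟨q, hbal, fun A hA hA' h => ?_⟩
  by_cases hl : Fin.last m ∈ A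
  · have h1 : (Aᶜ).Nonempty := by
      rw [Finset.nonempty_iff_ne_empty]
      intro h2
      apply hA'
      rw [Finset.compl_eq_empty_iff] at h2
      exact h2
    have h2 := hpos Aᶜ h1 (by simpa using hl)
    have h3 : ∑ p ∈ A, q p + ∑ p ∈ Aᶜ, q p = 0 := by
      rw [Finset.sum_add_sum_compl]; exact hbal
    linarith
  · exact absurd h (ne_of_gt (hpos A hA hl))

/-- the combinatorial data of the triangulated visible region -/
structure Data (G : SimpleGraph (Fin n)) (i j : Fin n) (Γ : Finset (Finset (Fin n → ℤ)))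
    (F : Finset (Fin n → ℤ) → (Fin n → ℤ))
    (co : Finset (Fin n → ℤ) → (Fin n → ℤ) → (Fin n → ℤ) → ℤ) : Prop where
  conn : G.Connected
  card : ∀ σ ∈ Γ, σ.card = n - 1
  edge : ∀ σ ∈ Γ, ∀ v ∈ σ, ∃ a b, G.Adj a b ∧ v = ev a b
  lip : ∀ σ ∈ Γ, Lip G (F σ)
  one : ∀ σ ∈ Γ, ∀ v ∈ σ, pr (F σ) v = 1
  vis : ∀ σ ∈ Γ, 2 ≤ pr (F σ) (ev i j)
  rep : ∀ σ ∈ Γ, ∀ x, bal x → ∑ v ∈ σ, co σ v x • v = x
  indep : ∀ σ ∈ Γ, ∀ c : (Fin n → ℤ) → ℤ, ∑ v ∈ σ, c v • v = 0 → ∀ v ∈ σ, c v = 0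
  sub : ∀ σ ∈ Γ, ∀ v ∈ σ, ∃ A : Finset (Fin n), A.Nonempty ∧ A ≠ univ ∧
    ∀ x, bal x → co σ v x = ∑ p ∈ A, x p
  uniq : ∀ σ ∈ Γ, ∀ τ ∈ Γ, ∀ c c' : (Fin n → ℤ) → ℕ,
    ∑ v ∈ σ, (c v : ℤ) • v = ∑ v ∈ τ, (c' v : ℤ) • v → ∀ v ∈ σ, 0 < c v → v ∈ τ ∧ c' v = c v
  cover : ∀ y, bal y → Gen y → ∀ f, Opt G y f → 2 ≤ pr f (ev i j) →
    ∃ σ ∈ Γ, ∀ v ∈ σ, 0 ≤ co σ v y

variable {G : SimpleGraph (Fin n)} {i j : Fin n} {Γ : Finset (Finset (Fin n → ℤ))}
    {F : Finset (Fin n → ℤ) → (Fin n → ℤ)}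
    {co : Finset (Fin n → ℤ) → (Fin n → ℤ) → (Fin n → ℤ) → ℤ}

lemma pr_sum_right (f : Fin n → ℤ) (τ : Finset (Fin n → ℤ)) (c : (Fin n → ℤ) → ℤ) :
    pr f (∑ v ∈ τ, c v • v) = ∑ v ∈ τ, c v * pr f v := by
  classical
  induction τ using Finset.induction_on with
  | empty =>
    rw [Finset.sum_empty, Finset.sum_empty]
    unfold pr
    simp
  | insert a τ ha ih =>
    rw [Finset.sum_insert ha, Finset.sum_insert ha, pr_add_right, ih, pr_smul_right]

lemma bal_sum (τ : Finset (Fin n → ℤ)) (c : (Fin n → ℤ) → ℤ) (h : ∀ v ∈ τ, bal v) :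
    bal (∑ v ∈ τ, c v • v) := by
  classical
  induction τ using Finset.induction_on with
  | empty => rw [Finset.sum_empty]; exact bal_zero
  | insert a τ ha ih =>
    rw [Finset.sum_insert ha]
    exact ((h a (Finset.mem_insert_self _ _)).smul _).add
      (ih (fun v hv => h v (Finset.mem_insert_of_mem hv)))

namespace Data

lemma balv (D : Data G i j Γ F co) {σ : Finset (Fin n → ℤ)} (hσ : σ ∈ Γ) {v : Fin n → ℤ}
    (hv : v ∈ σ) : bal v := by
  obtain ⟨a, b, _, rfl⟩ := D.edge σ hσ v hv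
  exact bal_ev a b

lemma inj (D : Data G i j Γ F co) {σ τ : Finset (Fin n → ℤ)} (hσ : σ ∈ Γ) (hτ : τ ⊆ σ)
    (c c' : (Fin n → ℤ) → ℤ) (h : ∑ v ∈ τ, c v • v = ∑ v ∈ τ, c' v • v) :
    ∀ v ∈ τ, c v = c' v := by
  classical
  intro v hv
  have h1 : ∑ v ∈ σ, (if v ∈ τ then c v - c' v else 0) • v = 0 := by
    have h2 : ∀ v ∈ σ, (if v ∈ τ then c v - c' v else 0) • v =
        if v ∈ τ then (c v - c' v) • v else 0 := by
      intro v _
      split_ifs
      · rfl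
      · rw [zero_smul]
    rw [Finset.sum_congr rfl h2, ← Finset.sum_filter, Finset.filter_mem_eq_inter,
      Finset.inter_eq_right.mpr hτ]
    simp only [sub_smul]
    rw [Finset.sum_sub_distrib, h, sub_self]
  have h3 := D.indep σ hσ _ h1 v (hτ hv)
  rw [if_pos hv] at h3
  linarith

lemma co_sum (D : Data G i j Γ F co) {σ : Finset (Fin n → ℤ)} (hσ : σ ∈ Γ)
    (c : (Fin n → ℤ) → ℤ) : ∀ v ∈ σ, co σ v (∑ w ∈ σ, c w • w) = c v := by
  have h1 := D.rep σ hσ (∑ w ∈ σ, c w • w) (bal_sum _ _ (fun v hv => D.balv hσ hv))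
  exact D.inj hσ (Finset.Subset.refl _) _ _ h1

/-- the gauge is additive on the cone over a cell -/
lemma gauge (D : Data G i j Γ F co) {σ τ : Finset (Fin n → ℤ)} (hσ : σ ∈ Γ) (hτ : τ ⊆ σ)
    (c : (Fin n → ℤ) → ℤ) (hc : ∀ v ∈ τ, 0 ≤ c v) :
    Opt G (∑ v ∈ τ, c v • v) (F σ) ∧ nu G (∑ v ∈ τ, c v • v) = ∑ v ∈ τ, c v := by
  have hb : bal (∑ v ∈ τ, c v • v) := bal_sum _ _ (fun v hv => D.balv hσ (hτ hv))
  have h1 : pr (F σ) (∑ v ∈ τ, c v • v) = ∑ v ∈ τ, c v := by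
    rw [pr_sum_right]
    apply Finset.sum_congr rfl
    intro v hv
    rw [D.one σ hσ v (hτ hv), mul_one]
  have h2 : nu G (∑ v ∈ τ, c v • v) ≤ ∑ v ∈ τ, c v := by
    obtain ⟨f, hf, h3⟩ := nu_attained D.conn hb
    rw [← h3, pr_sum_right]
    apply Finset.sum_le_sum
    intro v hv
    obtain ⟨a, b, hab, hv2⟩ := D.edge σ hσ v (hτ hv)
    have h4 : pr f v ≤ 1 := by
      rw [hv2, pr_ev]
      exact hf a b hab
    calc c v * pr f v ≤ c v * 1 := mul_le_mul_of_nonneg_left h4 (hc v hv)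
      _ = c v := mul_one _
  have h5 : nu G (∑ v ∈ τ, c v • v) = ∑ v ∈ τ, c v := by
    apply le_antisymm h2
    rw [← h1]
    exact le_nu D.conn hb (D.lip σ hσ)
  exact ⟨⟨D.lip σ hσ, by rw [h1, h5]⟩, h5⟩

end Data

lemma abs_pr_le {G : SimpleGraph (Fin n)} (hG : G.Connected) {x : Fin n → ℤ} (hx : bal x)
    {f : Fin n → ℤ} (hf : Lip G f) : |pr f x| ≤ nu G x := by
  rw [abs_le]
  have h1 := le_nu hG hx hf
  have h2 := le_nu hG hx hf.neg
  rw [pr_neg_left] at h2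
  constructor <;> linarith

/-- a direction adapted to the edge -/
structure Dir (G : SimpleGraph (Fin n)) (i j : Fin n) (E : Fin n → ℤ) : Prop where
  bal : bal E
  gen : Gen E
  big : ∃ (K : ℤ) (q : Fin n → ℤ), SEP.bal q ∧ E = K • ev i j + q ∧ 2 * nu G q < K

lemma exists_dir (G : SimpleGraph (Fin n)) (i j : Fin n) : ∃ E, Dir G i j E := by
  have hn : 0 < n := by have := i.isLt; omega
  obtain ⟨q, hq1, hq2⟩ := exists_gen hn
  refine ⟨(1 + nrm q + |2 * nu G q|) • ev i j + q, ?_, ?_, ?_⟩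
  · exact ((bal_ev i j).smul _).add hq1
  · apply gen_add hq2
    have := abs_nonneg (2 * nu G q)
    linarith
  · refine ⟨_, q, hq1, rfl, ?_⟩
    have := le_abs_self (2 * nu G q)
    have := nrm_nonneg q
    linarith

/-- the perturbed vector -/
def pert (K s : ℤ) (E x : Fin n → ℤ) : Fin n → ℤ := K • x + s • E

lemma slope (hG : G.Connected) {E : Fin n → ℤ} (hE : Dir G i j E) {s : ℤ} (hs : s = 1 ∨ s = -1)
    {x : Fin n → ℤ} (hx : bal x) {K : ℤ} (hK : 2 * nu G E < K) {g : Fin n → ℤ} (hg : Opt G x g)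
    (hmax : ∀ f, Opt G x f → s * pr f (ev i j) ≤ s * pr g (ev i j)) {f : Fin n → ℤ}
    (hf : Opt G (pert K s E x) f) : Opt G x f ∧ pr f (ev i j) = pr g (ev i j) := by
  have hy : bal (pert K s E x) := (hx.smul _).add (hE.bal.smul _)
  have h1 := le_nu hG hy hg.1
  rw [← hf.2] at h1
  unfold pert at h1
  rw [pr_add_right, pr_add_right, pr_smul_right, pr_smul_right, pr_smul_right, pr_smul_right,
    hg.2] at h1
  have hfE := abs_le.mp (abs_pr_le hG hE.bal hf.1)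
  have hgE := abs_le.mp (abs_pr_le hG hE.bal hg.1)
  have hnE := nu_nonneg hG hE.bal
  have hfx := le_nu hG hx hf.1
  have h2 : s * pr f E - s * pr g E ≤ 2 * nu G E := by
    rcases hs with rfl | rfl <;> linarith
  have h3 : pr f x = nu G x := by
    by_contra hne
    have h4 : pr f x ≤ nu G x - 1 := by omega
    have h5 : K * pr f x ≤ K * (nu G x - 1) := mul_le_mul_of_nonneg_left h4 (by linarith)
    linarith
  have hfo : Opt G x f := ⟨hf.1, h3⟩
  refine ⟨hfo, ?_⟩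
  have h6 := hmax f hfo
  rw [h3] at h1
  obtain ⟨K', q, hq, hEq, hK'⟩ := hE.big
  rw [hEq, pr_add_right, pr_add_right, pr_smul_right, pr_smul_right] at h1
  have hfq := abs_le.mp (abs_pr_le hG hq hf.1)
  have hgq := abs_le.mp (abs_pr_le hG hq hg.1)
  have hnq := nu_nonneg hG hq
  rcases hs with rfl | rfl
  · have h7 : pr f (ev i j) ≤ pr g (ev i j) := by linarith
    by_contra hne
    have h8 : pr f (ev i j) ≤ pr g (ev i j) - 1 := by omega
    have h9 : K' * pr f (ev i j) ≤ K' * (pr g (ev i j) - 1) :=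
      mul_le_mul_of_nonneg_left h8 (by linarith)
    linarith
  · have h7 : pr g (ev i j) ≤ pr f (ev i j) := by linarith
    by_contra hne
    have h8 : pr g (ev i j) ≤ pr f (ev i j) - 1 := by omega
    have h9 : K' * pr g (ev i j) ≤ K' * (pr f (ev i j) - 1) :=
      mul_le_mul_of_nonneg_left h8 (by linarith)
    linarith

/-- the vertices whose coordinate functional is negative on `s E` -/
noncomputable def neg (co : Finset (Fin n → ℤ) → (Fin n → ℤ) → (Fin n → ℤ) → ℤ)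
    (σ : Finset (Fin n → ℤ)) (s : ℤ) (E : Fin n → ℤ) : Finset (Fin n → ℤ) :=
  σ.filter (fun v => s * co σ v E < 0)

namespace Data

lemma co_pert (D : Data G i j Γ F co) {σ : Finset (Fin n → ℤ)} (hσ : σ ∈ Γ) {v : Fin n → ℤ}
    (hv : v ∈ σ) {E x : Fin n → ℤ} (hE : bal E) (hx : bal x) (K s : ℤ) :
    co σ v (pert K s E x) = K * co σ v x + s * co σ v E := by
  obtain ⟨A, _, _, h⟩ := D.sub σ hσ v hv
  rw [h (pert K s E x) ((hx.smul _).add (hE.smul _)), h _ hx, h _ hE]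
  unfold pert
  simp only [Pi.add_apply, Pi.smul_apply, smul_eq_mul, Finset.sum_add_distrib, Finset.mul_sum]

lemma co_le (D : Data G i j Γ F co) {σ : Finset (Fin n → ℤ)} (hσ : σ ∈ Γ) {v : Fin n → ℤ}
    (hv : v ∈ σ) {E : Fin n → ℤ} (hE : bal E) : |co σ v E| ≤ nrm E := by
  obtain ⟨A, _, _, h⟩ := D.sub σ hσ v hv
  rw [h _ hE]
  exact subsum_le E A

lemma co_ne (D : Data G i j Γ F co) {σ : Finset (Fin n → ℤ)} (hσ : σ ∈ Γ) {v : Fin n → ℤ}
    (hv : v ∈ σ) {E : Fin n → ℤ} (hE : bal E) (hgen : Gen E) : co σ v E ≠ 0 := by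
  obtain ⟨A, hA, hA', h⟩ := D.sub σ hσ v hv
  rw [h _ hE]
  exact hgen A hA hA'

/-- every visible vector lies in a half-open cone with the right slope -/
lemma half_exists (D : Data G i j Γ F co) {E : Fin n → ℤ} (hE : Dir G i j E) {s : ℤ}
    (hs : s = 1 ∨ s = -1) {x : Fin n → ℤ} (hx : bal x) {g : Fin n → ℤ} (hg : Opt G x g)
    (hmax : ∀ f, Opt G x f → s * pr f (ev i j) ≤ s * pr g (ev i j)) (h2 : 2 ≤ pr g (ev i j)) :
    ∃ σ ∈ Γ, pr (F σ) (ev i j) = pr g (ev i j) ∧ x ∈ piece σ (neg co σ s E) := by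
  set K : ℤ := 1 + 2 * nu G E + nrm E with hK
  have hnE := nu_nonneg D.conn hE.bal
  have hnn := nrm_nonneg E
  have hs0 : s ≠ 0 := by rcases hs with rfl | rfl <;> norm_num
  have hy : bal (pert K s E x) := (hx.smul _).add (hE.bal.smul _)
  have hnrm : nrm (s • E) = nrm E := by
    unfold nrm
    apply Finset.sum_congr rfl
    intro p _
    rcases hs with rfl | rfl <;> simp
  have hygen : Gen (pert K s E x) :=
    gen_add (gen_smul hE.gen hs0) (by rw [hnrm]; linarith)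
  obtain ⟨f, hf⟩ := nu_attained D.conn hy
  have h3 := slope D.conn hE hs hx (show 2 * nu G E < K by linarith) hg hmax hf
  obtain ⟨σ, hσ, hc⟩ := D.cover _ hy hygen f hf (by rw [h3.2]; exact h2)
  have h4 : Opt G (pert K s E x) (F σ) := by
    have h5 := (D.gauge hσ (Finset.Subset.refl σ) (fun v => co σ v (pert K s E x)) hc).1
    rwa [D.rep σ hσ _ hy] at h5
  have h5 := slope D.conn hE hs hx (show 2 * nu G E < K by linarith) hg hmax h4
  have h6 : ∀ v ∈ σ, 0 ≤ co σ v x ∧ (s * co σ v E < 0 → 1 ≤ co σ v x) := by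
    intro v hv
    have h7 := hc v hv
    rw [D.co_pert hσ hv hE.bal hx] at h7
    have h8 := abs_le.mp (D.co_le hσ hv hE.bal)
    have h9 : s * co σ v E ≤ nrm E := by rcases hs with rfl | rfl <;> linarith
    have h10 : 0 ≤ co σ v x := by
      by_contra hneg
      have h11 : K * co σ v x ≤ K * (-1) := mul_le_mul_of_nonneg_left (by omega) (by linarith)
      linarith
    refine ⟨h10, fun h11 => ?_⟩
    by_contra h12
    have h13 : co σ v x = 0 := by omega
    rw [h13, mul_zero, zero_add] at h7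
    linarith
  refine ⟨σ, hσ, h5.2, fun v => (co σ v x).toNat, ?_, ?_⟩
  · intro v hv
    unfold neg at hv
    rw [Finset.mem_filter] at hv
    have := (h6 v hv.1).2 hv.2
    show 1 ≤ (co σ v x).toNat
    omega
  · conv_rhs => rw [← D.rep σ hσ x hx]
    apply Finset.sum_congr rfl
    intro v hv
    rw [Int.toNat_of_nonneg (h6 v hv).1]

lemma half_pos (D : Data G i j Γ F co) {E : Fin n → ℤ} (hE : Dir G i j E) {s : ℤ}
    (hs : s = 1 ∨ s = -1) {x : Fin n → ℤ} (hx : bal x) {σ : Finset (Fin n → ℤ)} (hσ : σ ∈ Γ)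
    (hxσ : x ∈ piece σ (neg co σ s E)) {K : ℤ} (hK : nrm E < K) :
    ∀ v ∈ σ, 0 < co σ v (pert K s E x) := by
  intro v hv
  obtain ⟨c, hc, hcx⟩ := hxσ
  rw [D.co_pert hσ hv hE.bal hx]
  have h1 : co σ v x = c v := by
    rw [← hcx]
    exact D.co_sum hσ (fun w => (c w : ℤ)) v hv
  rw [h1]
  have h8 := abs_le.mp (D.co_le hσ hv hE.bal)
  have hnn := nrm_nonneg E
  rcases Nat.eq_zero_or_pos (c v) with h2 | h2
  · rw [h2, Nat.cast_zero, mul_zero, zero_add]
    have h3 : ¬ s * co σ v E < 0 := by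
      intro h4
      have h5 := hc v (by unfold neg; rw [Finset.mem_filter]; exact ⟨hv, h4⟩)
      omega
    have h4 := D.co_ne hσ hv hE.bal hE.gen
    have h5 : s * co σ v E ≠ 0 := by
      rcases hs with rfl | rfl
      · simpa using h4
      · simpa using h4
    omega
  · have h9 : -nrm E ≤ s * co σ v E := by rcases hs with rfl | rfl <;> linarith
    have h10 : K * 1 ≤ K * (c v : ℤ) :=
      mul_le_mul_of_nonneg_left (by exact_mod_cast h2) (by linarith)
    linarith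

lemma half_slope (D : Data G i j Γ F co) {E : Fin n → ℤ} (hE : Dir G i j E) {s : ℤ}
    (hs : s = 1 ∨ s = -1) {x : Fin n → ℤ} (hx : bal x) {g : Fin n → ℤ} (hg : Opt G x g)
    (hmax : ∀ f, Opt G x f → s * pr f (ev i j) ≤ s * pr g (ev i j))
    {σ : Finset (Fin n → ℤ)} (hσ : σ ∈ Γ) (hxσ : x ∈ piece σ (neg co σ s E)) :
    pr (F σ) (ev i j) = pr g (ev i j) := by
  set K : ℤ := 1 + 2 * nu G E + nrm E with hK
  have hnE := nu_nonneg D.conn hE.bal
  have hnn := nrm_nonneg E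
  have hy : bal (pert K s E x) := (hx.smul _).add (hE.bal.smul _)
  have h1 := D.half_pos hE hs hx hσ hxσ (show nrm E < K by linarith)
  have h4 : Opt G (pert K s E x) (F σ) := by
    have h5 := (D.gauge hσ (Finset.Subset.refl σ) (fun v => co σ v (pert K s E x))
      (fun v hv => (h1 v hv).le)).1
    rwa [D.rep σ hσ _ hy] at h5
  exact (slope D.conn hE hs hx (show 2 * nu G E < K by linarith) hg hmax h4).2

lemma half_unique (D : Data G i j Γ F co) {E : Fin n → ℤ} (hE : Dir G i j E) {s : ℤ}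
    (hs : s = 1 ∨ s = -1) {x : Fin n → ℤ} (hx : bal x)
    {σ τ : Finset (Fin n → ℤ)} (hσ : σ ∈ Γ) (hτ : τ ∈ Γ) (hxσ : x ∈ piece σ (neg co σ s E))
    (hxτ : x ∈ piece τ (neg co τ s E)) : σ = τ := by
  set K : ℤ := 1 + nrm E with hK
  have hnn := nrm_nonneg E
  have hy : bal (pert K s E x) := (hx.smul _).add (hE.bal.smul _)
  have h1 := D.half_pos hE hs hx hσ hxσ (show nrm E < K by linarith)
  have h2 := D.half_pos hE hs hx hτ hxτ (show nrm E < K by linarith)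
  have key : ∀ {σ τ : Finset (Fin n → ℤ)}, σ ∈ Γ → τ ∈ Γ →
      (∀ v ∈ σ, 0 < co σ v (pert K s E x)) → (∀ v ∈ τ, 0 < co τ v (pert K s E x)) → σ ⊆ τ := by
    intro σ τ hσ hτ h1 h2 v hv
    have h3 : ∑ v ∈ σ, (((co σ v (pert K s E x)).toNat : ℕ) : ℤ) • v =
        ∑ v ∈ τ, (((co τ v (pert K s E x)).toNat : ℕ) : ℤ) • v := by
      have h4 : ∀ v ∈ σ, (((co σ v (pert K s E x)).toNat : ℕ) : ℤ) • v =
          co σ v (pert K s E x) • v := by
        intro v hv
        rw [Int.toNat_of_nonneg (h1 v hv).le]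
      have h5 : ∀ v ∈ τ, (((co τ v (pert K s E x)).toNat : ℕ) : ℤ) • v =
          co τ v (pert K s E x) • v := by
        intro v hv
        rw [Int.toNat_of_nonneg (h2 v hv).le]
      rw [Finset.sum_congr rfl h4, Finset.sum_congr rfl h5, D.rep σ hσ _ hy, D.rep τ hτ _ hy]
    exact (D.uniq σ hσ τ hτ _ _ h3 v hv (by have := h1 v hv; omega)).1
  exact Finset.Subset.antisymm (key hσ hτ h1 h2) (key hτ hσ h2 h1)

end Data

end Pool.Agent.R135.SEP
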