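import Pool.Agent.R135.SEPDefs
import Pool.Agent.R135.SEPHalf

/-!
# Geometry of the symmetric edge polytope and of its visible facets
-/

set_option autoImplicit false
open Finset
open scoped Pointwise

namespace Pool.Agent.R135.SEP

variable {n : ℕ}

/-! ## Real vectors -/

/-- real pairing -/
def rp (u x : Fin n → ℝ) : ℝ := ∑ a, u a * x a

lemma rp_add (u x y : Fin n → ℝ) : rp u (x + y) = rp u x + rp u y := by
  unfold rp
  rw [← Finset.sum_add_distrib]
  apply Finset.sum_congr rfl
  intro a _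
  simp only [Pi.add_apply]; ring

lemma rp_smul (u : Fin n → ℝ) (c : ℝ) (x : Fin n → ℝ) : rp u (c • x) = c * rp u x := by
  unfold rp
  rw [Finset.mul_sum]
  apply Finset.sum_congr rfl
  intro a _
  simp only [Pi.smul_apply, smul_eq_mul]; ring

lemma rp_neg (u x : Fin n → ℝ) : rp u (-x) = - rp u x := by
  unfold rp
  rw [← Finset.sum_neg_distrib]
  apply Finset.sum_congr rfl
  intro a _
  simp only [Pi.neg_apply]; ring

lemma rp_sub (u x y : Fin n → ℝ) : rp u (x - y) = rp u x - rp u y := by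
  rw [sub_eq_add_neg, rp_add, rp_neg]; ring

lemma rp_zero (u : Fin n → ℝ) : rp u 0 = 0 := by
  unfold rp; simp

lemma rp_sum {ι : Type} (u : Fin n → ℝ) (s : Finset ι) (x : ι → Fin n → ℝ) :
    rp u (∑ v ∈ s, x v) = ∑ v ∈ s, rp u (x v) := by
  classical
  induction s using Finset.induction_on with
  | empty => rw [Finset.sum_empty, Finset.sum_empty, rp_zero]
  | insert a s ha ih => rw [Finset.sum_insert ha, Finset.sum_insert ha, rp_add, ih]

/-- sum of coordinates -/
def sm (x : Fin n → ℝ) : ℝ := ∑ a, x a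

lemma sm_eq (x : Fin n → ℝ) : sm x = rp (fun _ => 1) x := by
  unfold sm rp; simp

lemma rp_toR (f x : Fin n → ℤ) : rp (toR f) (toR x) = (pr f x : ℝ) := by
  unfold rp pr toR
  push_cast
  rfl

lemma toR_inj : Function.Injective (toR : (Fin n → ℤ) → (Fin n → ℝ)) := by
  intro x y h
  funext a
  have := congrFun h a
  unfold toR at this
  exact_mod_cast this

lemma toR_add (x y : Fin n → ℤ) : toR (x + y) = toR x + toR y := by
  funext a; simp [toR]

lemma toR_sub (x y : Fin n → ℤ) : toR (x - y) = toR x - toR y := by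
  funext a; simp [toR]

lemma toR_neg (x : Fin n → ℤ) : toR (-x) = - toR x := by
  funext a; simp [toR]

lemma toR_zero : toR (0 : Fin n → ℤ) = 0 := by
  funext a; simp [toR]

lemma toR_smul (c : ℤ) (x : Fin n → ℤ) : toR (c • x) = (c : ℝ) • toR x := by
  funext a; simp [toR]

lemma toR_sum (s : Finset (Fin n → ℤ)) (c : (Fin n → ℤ) → ℤ) :
    toR (∑ v ∈ s, c v • v) = ∑ v ∈ s, (c v : ℝ) • toR v := by
  classical
  induction s using Finset.induction_on with
  | empty => rw [Finset.sum_empty, Finset.sum_empty, toR_zero]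
  | insert a s ha ih => rw [Finset.sum_insert ha, Finset.sum_insert ha, toR_add, ih, toR_smul]

lemma sm_toR (x : Fin n → ℤ) : sm (toR x) = ((∑ a, x a : ℤ) : ℝ) := by
  unfold sm toR
  push_cast
  rfl

lemma sm_toR_iff (x : Fin n → ℤ) : sm (toR x) = 0 ↔ bal x := by
  rw [sm_toR]
  unfold bal
  exact_mod_cast Iff.rfl

lemma toR_ev (a b : Fin n) : toR (ev a b) = Pi.single a 1 - Pi.single b 1 := by
  funext c
  unfold toR ev
  simp [Pi.single_apply]

lemma rp_ev (u : Fin n → ℝ) (a b : Fin n) : rp u (toR (ev a b)) = u a - u b := by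
  rw [toR_ev, rp_sub]
  unfold rp
  simp [Pi.single_apply]

/-! ## The polytope -/

lemma mem_edge {G : SimpleGraph (Fin n)} {a b : Fin n} (h : G.Adj a b) :
    toR (ev a b) ∈ edgePolytope G := by
  rw [toR_ev]
  exact subset_convexHull ℝ _ ⟨a, b, h, rfl⟩

lemma convex_poly (G : SimpleGraph (Fin n)) : Convex ℝ (edgePolytope G) := convex_convexHull ℝ _

lemma rp_le {G : SimpleGraph (Fin n)} {u : Fin n → ℝ} {c : ℝ}
    (h : ∀ a b, G.Adj a b → u a - u b ≤ c) {x : Fin n → ℝ} (hx : x ∈ edgePolytope G) :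
    rp u x ≤ c := by
  have h1 : edgePolytope G ⊆ {x | rp u x ≤ c} := by
    apply convexHull_min
    · rintro x ⟨a, b, hab, rfl⟩
      rw [Set.mem_ofPred_eq, ← toR_ev, rp_ev]
      exact h a b hab
    · intro x hx y hy s t hs ht hst
      rw [Set.mem_ofPred_eq] at hx hy ⊢
      rw [rp_add, rp_smul, rp_smul]
      calc s * rp u x + t * rp u y ≤ s * c + t * c :=
            add_le_add (mul_le_mul_of_nonneg_left hx hs) (mul_le_mul_of_nonneg_left hy ht)
        _ = c := by rw [← add_mul, hst, one_mul]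
  exact h1 hx

lemma sm_poly {G : SimpleGraph (Fin n)} {x : Fin n → ℝ} (hx : x ∈ edgePolytope G) : sm x = 0 := by
  rw [sm_eq]
  apply le_antisymm
  · exact rp_le (fun a b _ => by simp) hx
  · have h1 : rp (fun _ => (-1 : ℝ)) x ≤ 0 := rp_le (fun a b _ => by simp) hx
    have h2 : rp (fun _ => (-1 : ℝ)) x = - rp (fun _ => (1 : ℝ)) x := by
      unfold rp
      rw [← Finset.sum_neg_distrib]
      apply Finset.sum_congr rfl
      intro a _; ring
    linarith

lemma neg_poly {G : SimpleGraph (Fin n)} {x : Fin n → ℝ} (hx : x ∈ edgePolytope G) :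
    -x ∈ edgePolytope G := by
  have h1 : edgePolytope G ⊆ {x | -x ∈ edgePolytope G} := by
    apply convexHull_min
    · rintro x ⟨a, b, hab, rfl⟩
      rw [Set.mem_ofPred_eq, ← toR_ev, ← toR_neg, ← ev_swap]
      exact mem_edge hab.symm
    · intro x hx y hy s t hs ht hst
      rw [Set.mem_ofPred_eq] at hx hy ⊢
      rw [neg_add, ← smul_neg, ← smul_neg]
      exact convex_poly G hx hy hs ht hst
  exact h1 hx

lemma exists_adj {G : SimpleGraph (Fin n)} (hG : G.Connected) (hn : 2 ≤ n) :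
    ∃ a b, G.Adj a b := by
  by_contra hcon
  push Not at hcon
  have h0 : (⟨0, by omega⟩ : Fin n) ≠ ⟨1, by omega⟩ := by
    intro h
    have := Fin.mk.inj_iff.mp h
    omega
  obtain ⟨p⟩ := hG.preconnected (⟨0, by omega⟩ : Fin n) ⟨1, by omega⟩
  cases p with
  | cons h _ => exact hcon _ _ h

lemma zero_poly {G : SimpleGraph (Fin n)} (hG : G.Connected) (hn : 2 ≤ n) :
    (0 : Fin n → ℝ) ∈ edgePolytope G := by
  obtain ⟨a, b, hab⟩ := exists_adj hG hn
  have h1 := mem_edge hab
  have h2 := neg_poly h1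
  have h3 := convex_poly G h1 h2 (show (0 : ℝ) ≤ 1 / 2 by norm_num)
    (show (0 : ℝ) ≤ 1 / 2 by norm_num) (by norm_num)
  have h4 : (1 / 2 : ℝ) • toR (ev a b) + (1 / 2 : ℝ) • -toR (ev a b) = 0 := by
    rw [smul_neg, add_neg_cancel]
  rwa [h4] at h3

/-- lattice points of the dilates -/
lemma mem_dilate {G : SimpleGraph (Fin n)} (hG : G.Connected) (hn : 2 ≤ n) (z : Fin n → ℤ)
    (m : ℕ) : toR z ∈ (m : ℝ) • edgePolytope G ↔ bal z ∧ nu G z ≤ m := by
  constructor
  · intro h
    obtain ⟨p, hp, hpz⟩ := Set.mem_smul_set.mp h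
    have hb : bal z := by
      rw [← sm_toR_iff, ← hpz, sm_eq, rp_smul, ← sm_eq, sm_poly hp, mul_zero]
    refine ⟨hb, ?_⟩
    obtain ⟨f, hf, hfz⟩ := nu_attained hG hb
    rw [← hfz]
    have h1 : rp (toR f) p ≤ 1 := by
      apply rp_le _ hp
      intro a b hab
      have := hf a b hab
      unfold toR
      exact_mod_cast this
    have h2 : (pr f z : ℝ) ≤ m := by
      rw [← rp_toR, ← hpz, rp_smul]
      calc (m : ℝ) * rp (toR f) p ≤ m * 1 := mul_le_mul_of_nonneg_left h1 (Nat.cast_nonneg _)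
        _ = m := mul_one _
    exact_mod_cast h2
  · rintro ⟨hb, hm⟩
    induction m generalizing z with
    | zero =>
      have h1 : nu G z = 0 := le_antisymm (by exact_mod_cast hm) (nu_nonneg hG hb)
      have h2 := nu_zero_imp hG hb h1
      rw [h2, toR_zero]
      exact Set.mem_smul_set.mpr ⟨0, zero_poly hG hn, smul_zero _⟩
    | succ m ih =>
      rcases lt_or_eq_of_le (nu_nonneg hG hb) with h1 | h1
      · obtain ⟨a, b, hab, h2⟩ := peel hG hn hb h1
        have h3 := ih (z - ev a b) (hb.sub (bal_ev a b)) (by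
          push_cast at hm
          linarith)
        have h4 : ((m + 1 : ℕ) : ℝ) • edgePolytope G =
            (m : ℝ) • edgePolytope G + (1 : ℝ) • edgePolytope G := by
          rw [← (convex_poly G).add_smul (Nat.cast_nonneg m) zero_le_one]
          push_cast
          rfl
        rw [h4, one_smul]
        refine Set.mem_add.mpr ⟨_, h3, _, mem_edge hab, ?_⟩
        rw [← toR_add, sub_add_cancel]
      · have h2 := nu_zero_imp hG hb h1.symm
        rw [h2, toR_zero]
        exact Set.mem_smul_set.mpr ⟨0, zero_poly hG hn, smul_zero _⟩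

/-- the Ehrhart series in terms of the gauge -/
lemma ehrhart_eq {G : SimpleGraph (Fin n)} (hG : G.Connected) (hn : 2 ≤ n) :
    (1 - PowerSeries.X) * ehrhartSeries (edgePolytope G) = gf (nu G) {x | bal x} := by
  have hset : ∀ m : ℕ, (Nat.card {z : Fin n → ℤ // toR z ∈ (m : ℝ) • edgePolytope G}) =
      Set.ncard {z | bal z ∧ nu G z ≤ m} := by
    intro m
    rw [← Nat.card_coe_set_eq]
    apply Nat.card_congr
    apply Equiv.subtypeEquivRight
    intro z
    exact mem_dilate hG hn z m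
  have hfin : ∀ m : ℕ, {z : Fin n → ℤ | bal z ∧ nu G z ≤ m}.Finite := by
    intro m
    have h1 : {z : Fin n → ℤ | bal z ∧ nu G z ≤ m} ⊆
        ⋃ k ∈ Finset.range (m + 1), {z | z ∈ {x : Fin n → ℤ | bal x} ∧ nu G z = (k : ℕ)} := by
      rintro z ⟨hz, hzm⟩
      have h2 := nu_nonneg hG hz
      rw [Set.mem_iUnion₂]
      refine ⟨(nu G z).toNat, ?_, hz, ?_⟩
      · rw [Finset.mem_range]
        omega
      · omega
    exact (Set.Finite.biUnion (Finset.finite_toSet _) (fun k _ => nu_LF hG k)).subset h1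
  ext m
  rw [sub_mul, one_mul, map_sub, coeff_gf]
  unfold ehrhartSeries
  cases m with
  | zero =>
    rw [PowerSeries.coeff_zero_X_mul, sub_zero, PowerSeries.coeff_mk, hset]
    congr 2
    ext z
    constructor
    · rintro ⟨h1, h2⟩
      exact ⟨h1, le_antisymm h2 (nu_nonneg hG h1)⟩
    · rintro ⟨h1, h2⟩
      exact ⟨h1, h2.le⟩
  | succ m =>
    rw [PowerSeries.coeff_succ_X_mul, PowerSeries.coeff_mk, PowerSeries.coeff_mk, hset, hset]
    have h1 : {z : Fin n → ℤ | bal z ∧ nu G z ≤ ((m + 1 : ℕ) : ℤ)} =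
        {z | bal z ∧ nu G z ≤ m} ∪ {z | z ∈ {x : Fin n → ℤ | bal x} ∧ nu G z = ((m + 1 : ℕ) : ℤ)} := by
      ext z
      constructor
      · rintro ⟨h1, h2⟩
        rcases lt_or_eq_of_le h2 with h3 | h3
        · refine Or.inl ⟨h1, ?_⟩
          push_cast at h3
          omega
        · exact Or.inr ⟨h1, h3⟩
      · rintro (⟨h1, h2⟩ | ⟨h1, h2⟩)
        · exact ⟨h1, by push_cast; linarith⟩
        · exact ⟨h1, h2.le⟩
    rw [h1, Set.ncard_union_eq _ (hfin m) (nu_LF hG _)]
    · push_cast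
      ring
    · rw [Set.disjoint_left]
      rintro z ⟨_, h2⟩ ⟨_, h3⟩
      rw [h3] at h2
      push_cast at h2
      linarith

end Pool.Agent.R135.SEP
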