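import Mathlib

/-!
# Symmetric edge polytopes: Lipschitz potentials

For a connected graph `G` on `Fin n`, `nu G x` is the maximum of `⟨f, x⟩` over integer functions
`f` with `f a - f b ≤ 1` for adjacent `a, b`.
-/

set_option autoImplicit false
open Finset
open scoped Pointwise

namespace Pool.Agent.R135.SEP

variable {n : ℕ}

/-- pairing -/
def pr (f x : Fin n → ℤ) : ℤ := ∑ a, f a * x a

lemma pr_add_left (f g x : Fin n → ℤ) : pr (f + g) x = pr f x + pr g x := by
  unfold pr
  rw [← Finset.sum_add_distrib]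
  apply Finset.sum_congr rfl
  intro a _
  simp only [Pi.add_apply]; ring

lemma pr_sub_left (f g x : Fin n → ℤ) : pr (f - g) x = pr f x - pr g x := by
  unfold pr
  rw [← Finset.sum_sub_distrib]
  apply Finset.sum_congr rfl
  intro a _
  simp only [Pi.sub_apply]; ring

lemma pr_add_right (f x y : Fin n → ℤ) : pr f (x + y) = pr f x + pr f y := by
  unfold pr
  rw [← Finset.sum_add_distrib]
  apply Finset.sum_congr rfl
  intro a _
  simp only [Pi.add_apply]; ring

lemma pr_sub_right (f x y : Fin n → ℤ) : pr f (x - y) = pr f x - pr f y := by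
  unfold pr
  rw [← Finset.sum_sub_distrib]
  apply Finset.sum_congr rfl
  intro a _
  simp only [Pi.sub_apply]; ring

lemma pr_neg_left (f x : Fin n → ℤ) : pr (-f) x = - pr f x := by
  unfold pr
  rw [← Finset.sum_neg_distrib]
  apply Finset.sum_congr rfl
  intro a _
  simp only [Pi.neg_apply]; ring

lemma pr_neg_right (f x : Fin n → ℤ) : pr f (-x) = - pr f x := by
  unfold pr
  rw [← Finset.sum_neg_distrib]
  apply Finset.sum_congr rfl
  intro a _
  simp only [Pi.neg_apply]; ring

lemma pr_zero_left (x : Fin n → ℤ) : pr 0 x = 0 := by simp [pr]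

lemma pr_smul_right (c : ℤ) (f x : Fin n → ℤ) : pr f (c • x) = c * pr f x := by
  unfold pr
  rw [Finset.mul_sum]
  apply Finset.sum_congr rfl
  intro a _
  simp only [Pi.smul_apply, smul_eq_mul]; ring

/-- coordinate sum zero -/
def bal (x : Fin n → ℤ) : Prop := ∑ a, x a = 0

lemma bal.add {x y : Fin n → ℤ} (hx : bal x) (hy : bal y) : bal (x + y) := by
  unfold bal at *
  simp only [Pi.add_apply, Finset.sum_add_distrib, hx, hy, add_zero]

lemma bal.sub {x y : Fin n → ℤ} (hx : bal x) (hy : bal y) : bal (x - y) := by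
  unfold bal at *
  simp only [Pi.sub_apply, Finset.sum_sub_distrib, hx, hy, sub_zero]

lemma bal.neg {x : Fin n → ℤ} (hx : bal x) : bal (-x) := by
  unfold bal at *
  simp only [Pi.neg_apply, Finset.sum_neg_distrib, hx, neg_zero]

lemma bal_zero : bal (0 : Fin n → ℤ) := by simp [bal]

lemma bal.smul {x : Fin n → ℤ} (c : ℤ) (hx : bal x) : bal (c • x) := by
  unfold bal at *
  simp only [Pi.smul_apply, smul_eq_mul]
  rw [← Finset.mul_sum, hx, mul_zero]

/-- the vector `e_i - e_j` -/
def ev (i j : Fin n) : Fin n → ℤ := Pi.single i 1 - Pi.single j 1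

lemma bal_ev (i j : Fin n) : bal (ev i j) := by
  unfold bal ev
  simp only [Pi.sub_apply, Finset.sum_sub_distrib]
  simp

lemma pr_ev (f : Fin n → ℤ) (i j : Fin n) : pr f (ev i j) = f i - f j := by
  unfold pr ev
  simp only [Pi.sub_apply, mul_sub, Finset.sum_sub_distrib]
  simp [Pi.single_apply]

lemma ev_swap (i j : Fin n) : ev j i = - ev i j := by
  unfold ev; abel

/-- adding a constant does not change the pairing with a balanced vector -/
lemma pr_const (c : ℤ) (x : Fin n → ℤ) (hx : bal x) : pr (fun _ => c) x = 0 := by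
  unfold pr
  rw [← Finset.mul_sum, hx, mul_zero]

/-- Lipschitz potentials -/
def Lip (G : SimpleGraph (Fin n)) (f : Fin n → ℤ) : Prop := ∀ a b, G.Adj a b → f a - f b ≤ 1

lemma Lip.neg {G : SimpleGraph (Fin n)} {f : Fin n → ℤ} (h : Lip G f) : Lip G (-f) := by
  intro a b hab
  have := h b a hab.symm
  simp only [Pi.neg_apply]
  linarith

lemma Lip_zero (G : SimpleGraph (Fin n)) : Lip G 0 := by
  intro a b _; simp

/-- indicator function of the superlevel set -/
def ind (w : Fin n → ℤ) (α : ℤ) : Fin n → ℤ := fun a => if α ≤ w a then 1 else 0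

/-- the exchange property -/
lemma exchange_up {G : SimpleGraph (Fin n)} {f g : Fin n → ℤ} (hf : Lip G f) (hg : Lip G g)
    (α : ℤ) : Lip G (f + ind (g - f) α) := by
  intro a b hab
  have h1 := hf a b hab
  have h2 := hg a b hab
  simp only [Pi.add_apply, ind, Pi.sub_apply]
  split_ifs with h3 h4 h4 <;> omega

lemma exchange_down {G : SimpleGraph (Fin n)} {f g : Fin n → ℤ} (hf : Lip G f) (hg : Lip G g)
    (α : ℤ) : Lip G (g - ind (g - f) α) := by
  intro a b hab
  have h1 := hf a b hab
  have h2 := hg a b hab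
  simp only [ind, Pi.sub_apply]
  split_ifs with h3 h4 h4 <;> omega

/-- differences of potentials are bounded by lengths of walks -/
lemma Lip.walk {G : SimpleGraph (Fin n)} {f : Fin n → ℤ} (h : Lip G f) {a b : Fin n}
    (p : G.Walk a b) : f a - f b ≤ p.length := by
  induction p with
  | nil => simp
  | cons hab _ ih =>
    have h1 := h _ _ hab
    rw [SimpleGraph.Walk.length_cons]
    push_cast
    linarith

lemma bdd (G : SimpleGraph (Fin n)) (hG : G.Connected) (x : Fin n → ℤ) (hx : bal x) :
    ∃ B : ℤ, ∀ f, Lip G f → pr f x ≤ B := by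
  obtain ⟨a0⟩ := hG.nonempty
  have hw : ∀ a, ∃ B : ℤ, 0 ≤ B ∧ ∀ f, Lip G f → |f a - f a0| ≤ B := by
    intro a
    obtain ⟨p⟩ := hG.preconnected a a0
    refine ⟨p.length, Int.natCast_nonneg _, fun f hf => ?_⟩
    rw [abs_le]
    constructor
    · have := hf.walk p.reverse
      rw [SimpleGraph.Walk.length_reverse] at this
      linarith
    · exact hf.walk p
  choose B hB0 hB using hw
  refine ⟨∑ a, |x a| * B a, fun f hf => ?_⟩
  have h1 : pr f x = ∑ a, x a * (f a - f a0) := by
    have h2 := pr_const (f a0) x hx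
    unfold pr at h2 ⊢
    have : ∑ a, x a * (f a - f a0) = ∑ a, f a * x a - ∑ a, f a0 * x a := by
      rw [← Finset.sum_sub_distrib]
      apply Finset.sum_congr rfl
      intro a _; ring
    rw [this, h2, sub_zero]
  rw [h1]
  apply Finset.sum_le_sum
  intro a _
  calc x a * (f a - f a0) ≤ |x a * (f a - f a0)| := le_abs_self _
    _ = |x a| * |f a - f a0| := abs_mul _ _
    _ ≤ |x a| * B a := mul_le_mul_of_nonneg_left (hB a f hf) (abs_nonneg _)

/-- the gauge -/
noncomputable def nu (G : SimpleGraph (Fin n)) (x : Fin n → ℤ) : ℤ :=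
  sSup {k | ∃ f, Lip G f ∧ pr f x = k}

lemma nu_bdd (G : SimpleGraph (Fin n)) (hG : G.Connected) (x : Fin n → ℤ) (hx : bal x) :
    BddAbove {k | ∃ f, Lip G f ∧ pr f x = k} := by
  obtain ⟨B, hB⟩ := bdd G hG x hx
  exact ⟨B, by rintro k ⟨f, hf, rfl⟩; exact hB f hf⟩

lemma le_nu {G : SimpleGraph (Fin n)} (hG : G.Connected) {x : Fin n → ℤ} (hx : bal x)
    {f : Fin n → ℤ} (hf : Lip G f) : pr f x ≤ nu G x :=
  le_csSup (nu_bdd G hG x hx) ⟨f, hf, rfl⟩

lemma nu_attained {G : SimpleGraph (Fin n)} (hG : G.Connected) {x : Fin n → ℤ} (hx : bal x) :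
    ∃ f, Lip G f ∧ pr f x = nu G x := by
  have h : nu G x ∈ {k | ∃ f, Lip G f ∧ pr f x = k} :=
    Int.csSup_mem ⟨0, 0, Lip_zero G, pr_zero_left x⟩ (nu_bdd G hG x hx)
  exact h

lemma nu_nonneg {G : SimpleGraph (Fin n)} (hG : G.Connected) {x : Fin n → ℤ} (hx : bal x) :
    0 ≤ nu G x := by
  have := le_nu hG hx (Lip_zero G)
  rwa [pr_zero_left] at this

/-- optimal potentials -/
def Opt (G : SimpleGraph (Fin n)) (x f : Fin n → ℤ) : Prop := Lip G f ∧ pr f x = nu G x

lemma nu_neg {G : SimpleGraph (Fin n)} (hG : G.Connected) {x : Fin n → ℤ} (hx : bal x) :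
    nu G (-x) = nu G x := by
  apply le_antisymm
  · obtain ⟨f, hf, h⟩ := nu_attained hG hx.neg
    rw [← h, pr_neg_right, ← pr_neg_left]
    exact le_nu hG hx hf.neg
  · obtain ⟨f, hf, h⟩ := nu_attained hG hx
    have h1 := le_nu hG hx.neg hf.neg
    rw [pr_neg_left, pr_neg_right, neg_neg, h] at h1
    exact h1

lemma nu_zero_imp {G : SimpleGraph (Fin n)} (hG : G.Connected) {x : Fin n → ℤ} (hx : bal x)
    (h : nu G x = 0) : x = 0 := by
  have h1 : ∀ a, x a ≤ 0 := by
    intro a
    have hl : Lip G (Pi.single a 1) := by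
      intro b c _
      by_cases hb : b = a <;> by_cases hc : c = a <;> simp [hb, hc]
    have h2 := le_nu hG hx hl
    rw [h] at h2
    have h3 : pr (Pi.single a 1) x = x a := by
      unfold pr
      simp [Pi.single_apply]
    rwa [h3] at h2
  funext a
  have h2 : ∑ b, (- x b) = 0 := by
    rw [Finset.sum_neg_distrib]
    unfold bal at hx
    rw [hx, neg_zero]
  have h3 := (Finset.sum_eq_zero_iff_of_nonneg (fun b _ => by have := h1 b; linarith)).mp h2 a
    (Finset.mem_univ a)
  simp only [Pi.zero_apply]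
  linarith

/-- there is a potential optimal at both `x` and `x + (e_i - e_j)` -/
lemma common_opt {G : SimpleGraph (Fin n)} (hG : G.Connected) {x : Fin n → ℤ} (hx : bal x)
    (i j : Fin n) : ∃ f, Opt G x f ∧ Opt G (x + ev i j) f := by
  -- choose `f` optimal at `x` with maximal slope
  have hbd : BddAbove {k | ∃ f, Opt G x f ∧ pr f (ev i j) = k} := by
    obtain ⟨B, hB⟩ := bdd G hG (ev i j) (bal_ev i j)
    exact ⟨B, by rintro k ⟨f, hf, rfl⟩; exact hB f hf.1⟩
  have hne : {k | ∃ f, Opt G x f ∧ pr f (ev i j) = k}.Nonempty := by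
    obtain ⟨f, hf⟩ := nu_attained hG hx
    exact ⟨_, f, hf, rfl⟩
  obtain ⟨f, hf, hmax⟩ := Int.csSup_mem hne hbd
  have hmax' : ∀ g, Opt G x g → pr g (ev i j) ≤ pr f (ev i j) := by
    intro g hg
    rw [hmax]
    exact le_csSup hbd ⟨g, hg, rfl⟩
  have key : ∀ (k : ℕ) (g : Fin n → ℤ), Lip G g → (g i - f i) - (g j - f j) ≤ k →
      pr g (x + ev i j) ≤ pr f (x + ev i j) := by
    intro k
    induction k with
    | zero =>
      intro g hg hk
      rw [pr_add_right, pr_add_right]
      have h1 := le_nu hG hx hg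
      rw [← hf.2] at h1
      rw [pr_ev, pr_ev]
      push_cast at hk
      linarith
    | succ k ih =>
      intro g hg hk
      by_cases hδ : (g i - f i) - (g j - f j) ≤ k
      · exact ih g hg hδ
      · have hgt : g j - f j < g i - f i := by
          push_cast at hk
          have : (0 : ℤ) ≤ k := Int.natCast_nonneg _
          omega
        set S := ind (g - f) (g i - f i) with hS
        have hSi : S i = 1 := by simp [hS, ind]
        have hSj : S j = 0 := by
          simp only [hS, ind, Pi.sub_apply]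
          rw [if_neg (by omega)]
        have hf' : Lip G (f + S) := exchange_up hf.1 hg _
        have hg' : Lip G (g - S) := exchange_down hf.1 hg _
        have hslope : pr (f + S) (ev i j) = pr f (ev i j) + 1 := by
          rw [pr_add_left, pr_ev S, hSi, hSj]; ring
        have hnot : pr S x ≤ -1 := by
          have h1 := le_nu hG hx hf'
          rw [pr_add_left, hf.2] at h1
          rcases lt_or_eq_of_le (show pr S x ≤ 0 by linarith) with h2 | h2
          · omega
          · exfalso
            have h3 : Opt G x (f + S) := ⟨hf', by rw [pr_add_left, h2, hf.2]; ring⟩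
            have h4 := hmax' _ h3
            omega
        have h5 := ih (g - S) hg' (by
          simp only [Pi.sub_apply]
          rw [hSi, hSj]
          push_cast at hk
          linarith)
        have h6 : pr (g - S) (x + ev i j) = pr g (x + ev i j) - pr S x - 1 := by
          rw [pr_sub_left, pr_add_right S, pr_ev S, hSi, hSj]; ring
        linarith
  refine ⟨f, hf, hf.1, ?_⟩
  apply le_antisymm (le_nu hG (hx.add (bal_ev i j)) hf.1)
  obtain ⟨g, hg, hg2⟩ := nu_attained hG (hx.add (bal_ev i j))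
  rw [← hg2]
  exact key ((g i - f i) - (g j - f j)).toNat g hg (Int.self_le_toNat _)

/-- right slope -/
noncomputable def sp (G : SimpleGraph (Fin n)) (i j : Fin n) (x : Fin n → ℤ) : ℤ :=
  nu G (x + ev i j) - nu G x

lemma sp_spec {G : SimpleGraph (Fin n)} (hG : G.Connected) {x : Fin n → ℤ} (hx : bal x)
    (i j : Fin n) : ∃ f, Opt G x f ∧ pr f (ev i j) = sp G i j x := by
  obtain ⟨f, h1, h2⟩ := common_opt hG hx i j
  refine ⟨f, h1, ?_⟩
  unfold sp
  rw [← h2.2, ← h1.2, pr_add_right]
  ring

lemma sp_le {G : SimpleGraph (Fin n)} (hG : G.Connected) {x : Fin n → ℤ} (hx : bal x)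
    (i j : Fin n) {f : Fin n → ℤ} (hf : Opt G x f) : pr f (ev i j) ≤ sp G i j x := by
  have h1 := le_nu hG (hx.add (bal_ev i j)) hf.1
  rw [pr_add_right, hf.2] at h1
  unfold sp
  linarith

/-- the left slope at `x` is the right slope at `x - e` -/
lemma sm_spec {G : SimpleGraph (Fin n)} (hG : G.Connected) {x : Fin n → ℤ} (hx : bal x)
    (i j : Fin n) : ∃ f, Opt G x f ∧ Opt G (x - ev i j) f ∧
      pr f (ev i j) = sp G i j (x - ev i j) := by
  obtain ⟨f, h1, h2⟩ := common_opt hG (hx.sub (bal_ev i j)) i j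
  rw [sub_add_cancel] at h2
  refine ⟨f, h2, h1, ?_⟩
  unfold sp
  rw [sub_add_cancel, ← h2.2, ← h1.2, pr_sub_right]
  ring

lemma sm_le {G : SimpleGraph (Fin n)} (hG : G.Connected) {x : Fin n → ℤ} (hx : bal x)
    (i j : Fin n) {f : Fin n → ℤ} (hf : Opt G x f) : sp G i j (x - ev i j) ≤ pr f (ev i j) := by
  have h1 := le_nu hG (hx.sub (bal_ev i j)) hf.1
  rw [pr_sub_right, hf.2] at h1
  unfold sp
  rw [sub_add_cancel]
  linarith

lemma sm_le_sp {G : SimpleGraph (Fin n)} (hG : G.Connected) {x : Fin n → ℤ} (hx : bal x)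
    (i j : Fin n) : sp G i j (x - ev i j) ≤ sp G i j x := by
  obtain ⟨f, hf, h⟩ := sp_spec hG hx i j
  rw [← h]
  exact sm_le hG hx i j hf

/-- intermediate slopes are attained -/
lemma opt_intermediate {G : SimpleGraph (Fin n)} (hG : G.Connected) {x : Fin n → ℤ} (hx : bal x)
    (i j : Fin n) {f g : Fin n → ℤ} (hf : Opt G x f) (hg : Opt G x g)
    (h : pr f (ev i j) < pr g (ev i j)) :
    ∃ f', Opt G x f' ∧ pr f' (ev i j) = pr f (ev i j) + 1 := by
  rw [pr_ev, pr_ev] at h
  set S := ind (g - f) (g i - f i) with hS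
  have hSi : S i = 1 := by simp [hS, ind]
  have hSj : S j = 0 := by
    simp only [hS, ind, Pi.sub_apply]
    rw [if_neg (by omega)]
  have hf' : Lip G (f + S) := exchange_up hf.1 hg.1 _
  have hg' : Lip G (g - S) := exchange_down hf.1 hg.1 _
  have h1 := le_nu hG hx hf'
  have h2 := le_nu hG hx hg'
  rw [pr_add_left, hf.2] at h1
  rw [pr_sub_left, hg.2] at h2
  refine ⟨f + S, ⟨hf', ?_⟩, ?_⟩
  · rw [pr_add_left, hf.2]; linarith
  · rw [pr_add_left, pr_ev S, hSi, hSj]; ring

/-- Hermite's identity -/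
lemma hermite (q : ℕ) (hq : 0 < q) (F : ℤ) : ∑ l ∈ range q, (F + l) / (q : ℤ) = F := by
  have hq' : (0 : ℤ) < q := by exact_mod_cast hq
  -- write `F = q * a + r`
  obtain ⟨a, r, hr0, hrq, hF⟩ : ∃ a r : ℤ, 0 ≤ r ∧ r < q ∧ F = q * a + r :=
    ⟨F / q, F % q, Int.emod_nonneg _ (ne_of_gt hq'), Int.emod_lt_of_pos _ hq',
      (Int.mul_ediv_add_emod F q).symm⟩
  obtain ⟨r', rfl⟩ : ∃ r' : ℕ, r = r' := ⟨r.toNat, (Int.toNat_of_nonneg hr0).symm⟩
  have hr'q : r' < q := by exact_mod_cast hrq
  have h1 : ∀ l ∈ range q, (F + l) / (q : ℤ) = a + (if q - r' ≤ l then 1 else 0) := by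
    intro l hl
    rw [Finset.mem_range] at hl
    have h2 : F + l = (r' + l) + a * q := by rw [hF]; ring
    rw [h2, Int.add_mul_ediv_right _ _ (ne_of_gt hq')]
    have h3 : ((r' : ℤ) + l) / q = if q - r' ≤ l then 1 else 0 := by
      split_ifs with h4
      · rw [Int.ediv_eq_iff_of_pos hq']
        constructor
        · have : q ≤ r' + l := by omega
          have : (q : ℤ) ≤ r' + l := by exact_mod_cast this
          linarith
        · have : r' + l < 2 * q := by omega
          have : (r' : ℤ) + l < 2 * q := by exact_mod_cast this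
          linarith
      · rw [Int.ediv_eq_iff_of_pos hq']
        constructor
        · have h9 : (0 : ℤ) ≤ (r' : ℤ) := Int.natCast_nonneg _
          have h10 : (0 : ℤ) ≤ (l : ℤ) := Int.natCast_nonneg _
          linarith
        · have : r' + l < q := by omega
          have : (r' : ℤ) + l < q := by exact_mod_cast this
          linarith
    rw [h3]; ring
  rw [Finset.sum_congr rfl h1, Finset.sum_add_distrib, Finset.sum_const, card_range,
    Finset.sum_boole]
  have h5 : (range q).filter (fun l => q - r' ≤ l) = Finset.Ico (q - r') q := by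
    ext l
    simp only [Finset.mem_filter, Finset.mem_range, Finset.mem_Ico]
    omega
  rw [h5, Nat.card_Ico, hF]
  have h6 : q - (q - r') = r' := by omega
  rw [h6]
  simp only [nsmul_eq_mul]

/-- peeling off an edge -/
lemma peel {G : SimpleGraph (Fin n)} (hG : G.Connected) (hn : 2 ≤ n) {x : Fin n → ℤ} (hx : bal x)
    (hpos : 0 < nu G x) : ∃ a b, G.Adj a b ∧ nu G (x - ev a b) = nu G x - 1 := by
  by_contra hcon
  push Not at hcon
  -- for every edge there is an optimal potential with nonpositive slope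
  obtain ⟨f0, hf0⟩ := nu_attained hG hx
  have h1 : ∀ p : Fin n × Fin n, ∃ f, Opt G x f ∧ (G.Adj p.1 p.2 → f p.1 - f p.2 ≤ 0) := by
    rintro ⟨a, b⟩
    by_cases hab : G.Adj a b
    · obtain ⟨f, hf1, hf2, hf3⟩ := sm_spec hG hx a b
      refine ⟨f, hf1, fun _ => ?_⟩
      have h2 := hcon a b hab
      have h3 : nu G (x - ev a b) = nu G x - (f a - f b) := by
        rw [← hf2.2, ← hf1.2, pr_sub_right, pr_ev]
      rw [h3] at h2
      have h4 := hf1.1 a b hab
      simp only
      omega
    · exact ⟨f0, hf0, fun h => absurd h hab⟩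
  choose f hf1 hf2 using h1
  set K : ℕ := n * n - 1 with hK
  have hK1 : 0 < K := by
    have : 4 ≤ n * n := by nlinarith
    omega
  have hK2 : (Fintype.card (Fin n × Fin n) : ℤ) = K + 1 := by
    rw [Fintype.card_prod, Fintype.card_fin]
    have : n * n = K + 1 := by
      have : 4 ≤ n * n := by nlinarith
      omega
    rw [this]; push_cast; ring
  set F : Fin n → ℤ := ∑ p : Fin n × Fin n, f p with hF
  have hFapp : ∀ a, F a = ∑ p : Fin n × Fin n, f p a := by
    intro a; rw [hF, Finset.sum_apply]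
  have hFlip : ∀ a b, G.Adj a b → F a - F b ≤ K := by
    intro a b hab
    rw [hFapp, hFapp, ← Finset.sum_sub_distrib]
    rw [← Finset.add_sum_erase _ _ (Finset.mem_univ (a, b))]
    have h3 := hf2 (a, b) hab
    simp only at h3
    have h4 : ∑ p ∈ (univ : Finset (Fin n × Fin n)).erase (a, b), (f p a - f p b)
        ≤ ∑ p ∈ (univ : Finset (Fin n × Fin n)).erase (a, b), (1 : ℤ) := by
      apply Finset.sum_le_sum
      intro p _
      exact (hf1 p).1 a b hab
    rw [Finset.sum_const, Finset.card_erase_of_mem (Finset.mem_univ _), Finset.card_univ] at h4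
    have h5 : ((Fintype.card (Fin n × Fin n) - 1 : ℕ) : ℤ) = K := by
      have : Fintype.card (Fin n × Fin n) = K + 1 := by exact_mod_cast hK2
      rw [this]; simp
    rw [nsmul_eq_mul, mul_one, h5] at h4
    linarith
  have hprF : pr F x = (K + 1) * nu G x := by
    have h6 : pr F x = ∑ p : Fin n × Fin n, pr (f p) x := by
      unfold pr
      rw [Finset.sum_comm]
      apply Finset.sum_congr rfl
      intro a _
      rw [hFapp, Finset.sum_mul]
    rw [h6, Finset.sum_congr rfl (fun p _ => (hf1 p).2), Finset.sum_const, Finset.card_univ,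
      nsmul_eq_mul, hK2]
  have hFl : ∀ l : ℕ, Lip G (fun a => (F a + l) / (K : ℤ)) := by
    intro l a b hab
    have h7 := hFlip a b hab
    have hK' : (0 : ℤ) < K := by exact_mod_cast hK1
    have h8 : (F a + l) / (K : ℤ) ≤ ((F b + l) + 1 * K) / (K : ℤ) := by
      apply Int.ediv_le_ediv hK'
      linarith
    rw [Int.add_mul_ediv_right _ _ (ne_of_gt hK')] at h8
    linarith
  have hsum : pr F x = ∑ l ∈ range K, pr (fun a => (F a + l) / (K : ℤ)) x := by
    unfold pr
    rw [Finset.sum_comm]
    apply Finset.sum_congr rfl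
    intro a _
    rw [← Finset.sum_mul, hermite K hK1]
  have hle : pr F x ≤ K * nu G x := by
    rw [hsum]
    calc ∑ l ∈ range K, pr (fun a => (F a + l) / (K : ℤ)) x ≤ ∑ l ∈ range K, nu G x :=
          Finset.sum_le_sum (fun l _ => le_nu hG hx (hFl l))
      _ = K * nu G x := by rw [Finset.sum_const, card_range, nsmul_eq_mul]
  rw [hprF] at hle
  linarith

/-! ## Adding an edge -/

/-- `G'` is obtained from `G` by deleting the edge `ij` -/
structure Del (G G' : SimpleGraph (Fin n)) (i j : Fin n) : Prop where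
  adj : ∀ a b, G.Adj a b ↔ G'.Adj a b ∨ (a = i ∧ b = j) ∨ (a = j ∧ b = i)

lemma Del.lip {G G' : SimpleGraph (Fin n)} {i j : Fin n} (h : Del G G' i j) (f : Fin n → ℤ) :
    Lip G f ↔ Lip G' f ∧ -1 ≤ pr f (ev i j) ∧ pr f (ev i j) ≤ 1 := by
  rw [pr_ev]
  constructor
  · intro hf
    refine ⟨fun a b hab => hf a b ((h.adj a b).mpr (Or.inl hab)), ?_, ?_⟩
    · have := hf j i ((h.adj j i).mpr (Or.inr (Or.inr ⟨rfl, rfl⟩)))
      linarith
    · exact hf i j ((h.adj i j).mpr (Or.inr (Or.inl ⟨rfl, rfl⟩)))
  · rintro ⟨h1, h2, h3⟩ a b hab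
    rcases (h.adj a b).mp hab with h4 | ⟨rfl, rfl⟩ | ⟨rfl, rfl⟩
    · exact h1 a b h4
    · exact h3
    · linarith

lemma Del.connected {G G' : SimpleGraph (Fin n)} {i j : Fin n} (h : Del G G' i j)
    (hG' : G'.Connected) : G.Connected :=
  hG'.mono (fun a b hab => (h.adj a b).mpr (Or.inl hab))

lemma Del.nu_le {G G' : SimpleGraph (Fin n)} {i j : Fin n} (h : Del G G' i j)
    (hG' : G'.Connected) {x : Fin n → ℤ} (hx : bal x) : nu G x ≤ nu G' x := by
  obtain ⟨f, hf, hfx⟩ := nu_attained (h.connected hG') hx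
  rw [← hfx]
  exact le_nu hG' hx ((h.lip f).mp hf).1

/-- in the middle region the two gauges agree -/
lemma Del.middle {G G' : SimpleGraph (Fin n)} {i j : Fin n} (h : Del G G' i j)
    (hG' : G'.Connected) {x : Fin n → ℤ} (hx : bal x) (h1 : sp G' i j (x - ev i j) ≤ 1)
    (h2 : -1 ≤ sp G' i j x) : nu G x = nu G' x := by
  apply le_antisymm (h.nu_le hG' hx)
  -- an optimal potential with slope in `[-1, 1]`
  have key : ∀ (k : ℕ) (f : Fin n → ℤ), Opt G' x f → pr f (ev i j) ≤ 1 →
      -1 - pr f (ev i j) ≤ k → ∃ f', Opt G' x f' ∧ -1 ≤ pr f' (ev i j) ∧ pr f' (ev i j) ≤ 1 := by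
    intro k
    induction k with
    | zero =>
      intro f hf h3 h4
      push_cast at h4
      exact ⟨f, hf, by linarith, h3⟩
    | succ k ih =>
      intro f hf h3 h4
      by_cases h5 : -1 ≤ pr f (ev i j)
      · exact ⟨f, hf, h5, h3⟩
      · obtain ⟨g, hg, hg2⟩ := sp_spec hG' hx i j
        obtain ⟨f', hf', h6⟩ := opt_intermediate hG' hx i j hf hg (by linarith)
        push_cast at h4
        exact ih f' hf' (by omega) (by omega)
  obtain ⟨f, hf, _, hf3⟩ := sm_spec hG' hx i j
  obtain ⟨f', hf', h3, h4⟩ := key (-1 - pr f (ev i j)).toNat f hf (by linarith)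
    (Int.self_le_toNat _)
  rw [← hf'.2]
  exact le_nu (h.connected hG') hx ((h.lip f').mpr ⟨hf'.1, h3, h4⟩)

/-- in the right region the new gauge grows by one -/
lemma Del.right {G G' : SimpleGraph (Fin n)} {i j : Fin n} (h : Del G G' i j)
    (hG' : G'.Connected) {x : Fin n → ℤ} (hx : bal x) (h1 : 2 ≤ sp G' i j (x - ev i j)) :
    nu G x = nu G (x - ev i j) + 1 := by
  have hG := h.connected hG'
  have hxe := hx.sub (bal_ev i j)
  apply le_antisymm
  · obtain ⟨f, hf, hfx⟩ := nu_attained hG hx
    rw [← hfx]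
    have h2 := le_nu hG hxe hf
    rw [pr_sub_right] at h2
    have h3 := ((h.lip f).mp hf).2.2
    linarith
  · obtain ⟨f, hf1, hf2, hf3⟩ := sm_spec hG' hx i j
    -- a `G`-optimal potential at `x - e` with slope one
    have key : ∀ (k : ℕ) (g : Fin n → ℤ), Opt G (x - ev i j) g → 1 - pr g (ev i j) ≤ k →
        ∃ g', Opt G (x - ev i j) g' ∧ pr g' (ev i j) = 1 := by
      intro k
      induction k with
      | zero =>
        intro g hg h4
        push_cast at h4
        have h5 := ((h.lip g).mp hg.1).2.2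
        exact ⟨g, hg, by linarith⟩
      | succ k ih =>
        intro g hg h4
        obtain ⟨hl, hg3, hg4⟩ := (h.lip g).mp hg.1
        by_cases h5 : pr g (ev i j) = 1
        · exact ⟨g, hg, h5⟩
        · have hpf : 2 ≤ pr f (ev i j) := by rw [hf3]; exact h1
          have hlt : g i - g j < f i - f j := by
            rw [pr_ev] at hpf hg4
            omega
          set S := ind (f - g) (f i - g i) with hS
          have hSi : S i = 1 := by simp [hS, ind]
          have hSj : S j = 0 := by
            simp only [hS, ind, Pi.sub_apply]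
            rw [if_neg (by omega)]
          have hg' : Lip G' (g + S) := exchange_up hl hf1.1 _
          have hf' : Lip G' (f - S) := exchange_down hl hf1.1 _
          have h6 : pr (g + S) (ev i j) = pr g (ev i j) + 1 := by
            rw [pr_add_left, pr_ev S, hSi, hSj]; ring
          have h7 : Lip G (g + S) := (h.lip _).mpr ⟨hg', by omega, by omega⟩
          have h8 := le_nu hG' hxe hf'
          rw [pr_sub_left, hf2.2] at h8
          have h9 := le_nu hG hxe h7
          rw [pr_add_left, hg.2] at h9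
          have h10 : Opt G (x - ev i j) (g + S) := ⟨h7, by
            rw [pr_add_left, hg.2]; linarith⟩
          push_cast at h4
          exact ih (g + S) h10 (by omega)
    obtain ⟨g, hg⟩ := nu_attained hG hxe
    obtain ⟨g', hg', h4⟩ := key (1 - pr g (ev i j)).toNat g hg (Int.self_le_toNat _)
    have h5 := le_nu hG hx hg'.1
    have h6 : pr g' x = pr g' (x - ev i j) + pr g' (ev i j) := by rw [pr_sub_right]; ring
    rw [h6, hg'.2, h4] at h5
    exact h5

lemma sp_neg {G : SimpleGraph (Fin n)} (hG : G.Connected) {x : Fin n → ℤ} (hx : bal x)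
    (i j : Fin n) : sp G i j (-x) = - sp G i j (x - ev i j) := by
  unfold sp
  rw [sub_add_cancel, nu_neg hG hx]
  have : -x + ev i j = -(x - ev i j) := by abel
  rw [this, nu_neg hG (hx.sub (bal_ev i j))]
  ring

end Pool.Agent.R135.SEP
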