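import Pool.Agent.R135.SEPCell

/-!
# Triangulations of the visible region give combinatorial data
-/

set_option autoImplicit false
open Finset
open scoped Pointwise

namespace Pool.Agent.R135.SEP

variable {n : ℕ}

lemma mem_hull_iff (σ : Finset (Fin n → ℤ)) (x : Fin n → ℝ) :
    x ∈ convexHull ℝ (toR '' (σ : Set (Fin n → ℤ))) ↔
      ∃ r : (Fin n → ℤ) → ℝ, (∀ v ∈ σ, 0 ≤ r v) ∧ ∑ v ∈ σ, r v = 1 ∧
        ∑ v ∈ σ, r v • toR v = x := by
  classical
  rw [← Finset.coe_image, Finset.mem_convexHull']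
  constructor
  · rintro ⟨w, h1, h2, h3⟩
    refine ⟨fun v => w (toR v), ?_, ?_, ?_⟩
    · intro v hv
      exact h1 _ (Finset.mem_image_of_mem _ hv)
    · rw [Finset.sum_image (fun a _ b _ h => toR_inj h)] at h2
      exact h2
    · rw [Finset.sum_image (fun a _ b _ h => toR_inj h)] at h3
      exact h3
  · rintro ⟨r, h1, h2, h3⟩
    have hinv : ∀ v : Fin n → ℤ, Function.invFun toR (toR v) = v :=
      Function.leftInverse_invFun toR_inj
    refine ⟨fun y => r (Function.invFun toR y), ?_, ?_, ?_⟩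
    · intro y hy
      obtain ⟨v, hv, rfl⟩ := Finset.mem_image.mp hy
      simp only [hinv]
      exact h1 v hv
    · rw [Finset.sum_image (fun a _ b _ h => toR_inj h)]
      simp only [hinv]
      exact h2
    · rw [Finset.sum_image (fun a _ b _ h => toR_inj h)]
      simp only [hinv]
      exact h3

lemma gauge_aux {G : SimpleGraph (Fin n)} (hG : G.Connected) {σ : Finset (Fin n → ℤ)}
    {f : Fin n → ℤ} (hedge : ∀ v ∈ σ, ∃ a b, G.Adj a b ∧ v = ev a b) (hlip : Lip G f)
    (hone : ∀ v ∈ σ, pr f v = 1) (c : (Fin n → ℤ) → ℤ) (hc : ∀ v ∈ σ, 0 ≤ c v) :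
    nu G (∑ v ∈ σ, c v • v) = ∑ v ∈ σ, c v := by
  have hb : bal (∑ v ∈ σ, c v • v) := bal_sum _ _ (fun v hv => by
    obtain ⟨a, b, _, rfl⟩ := hedge v hv
    exact bal_ev a b)
  have h1 : pr f (∑ v ∈ σ, c v • v) = ∑ v ∈ σ, c v := by
    rw [pr_sum_right]
    apply Finset.sum_congr rfl
    intro v hv
    rw [hone v hv, mul_one]
  apply le_antisymm
  · obtain ⟨g, hg, h3⟩ := nu_attained hG hb
    rw [← h3, pr_sum_right]
    apply Finset.sum_le_sum
    intro v hv
    obtain ⟨a, b, hab, hv2⟩ := hedge v hv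
    have h4 : pr g v ≤ 1 := by
      rw [hv2, pr_ev]
      exact hg a b hab
    calc c v * pr g v ≤ c v * 1 := mul_le_mul_of_nonneg_left h4 (hc v hv)
      _ = c v := mul_one _
  · rw [← h1]
    exact le_nu hG hb hlip

/-- potentials of a cell -/
structure IsCell (G : SimpleGraph (Fin n)) (i j : Fin n) (σ : Finset (Fin n → ℤ))
    (f : Fin n → ℤ) : Prop where
  card : σ.card = n - 1
  rli : RLI σ
  edge : ∀ v ∈ σ, ∃ a b, G.Adj a b ∧ v = ev a b
  lip : Lip G f
  one : ∀ v ∈ σ, pr f v = 1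
  vis : 2 ≤ pr f (ev i j)

lemma uniq_aux {G : SimpleGraph (Fin n)} (hG : G.Connected) {i j : Fin n}
    {σ τ : Finset (Fin n → ℤ)} {f g : Fin n → ℤ} (hσ : IsCell G i j σ f) (hτ : IsCell G i j τ g)
    (hint : convexHull ℝ (toR '' (σ : Set (Fin n → ℤ))) ∩
      convexHull ℝ (toR '' (τ : Set (Fin n → ℤ))) =
      convexHull ℝ (toR '' ((σ : Set (Fin n → ℤ)) ∩ (τ : Set (Fin n → ℤ)))))
    (c c' : (Fin n → ℤ) → ℕ) (h : ∑ v ∈ σ, (c v : ℤ) • v = ∑ v ∈ τ, (c' v : ℤ) • v) :
    ∀ v ∈ σ, 0 < c v → v ∈ τ ∧ c' v = c v := by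
  classical
  intro v hv hcv
  have h1 := gauge_aux hG hσ.edge hσ.lip hσ.one (fun v => (c v : ℤ))
    (fun v _ => Int.natCast_nonneg _)
  have h2 := gauge_aux hG hτ.edge hτ.lip hτ.one (fun v => (c' v : ℤ))
    (fun v _ => Int.natCast_nonneg _)
  rw [h, h2] at h1
  set m : ℕ := ∑ v ∈ σ, c v with hm
  have hmpos : 0 < m := by
    have : c v ≤ m := Finset.single_le_sum (f := c) (fun _ _ => Nat.zero_le _) hv
    omega
  have hm' : ∑ v ∈ τ, c' v = m := by
    rw [hm]
    exact_mod_cast h1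
  have hmR : (0 : ℝ) < m := by exact_mod_cast hmpos
  set x : Fin n → ℝ := ∑ v ∈ σ, ((c v : ℝ) / m) • toR v with hx
  have hx' : x = ∑ v ∈ τ, ((c' v : ℝ) / m) • toR v := by
    have h3 := congrArg toR h
    rw [toR_sum, toR_sum] at h3
    have h4 : ∀ (s : Finset (Fin n → ℤ)) (c : (Fin n → ℤ) → ℕ),
        ∑ v ∈ s, ((c v : ℝ) / m) • toR v =
        (1 / (m : ℝ)) • ∑ v ∈ s, (((c v : ℕ) : ℤ) : ℝ) • toR v := by
      intro s c
      rw [Finset.smul_sum]
      apply Finset.sum_congr rfl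
      intro v _
      rw [smul_smul]
      congr 1
      push_cast
      ring
    rw [hx, h4, h4, h3]
  have hxσ : x ∈ convexHull ℝ (toR '' (σ : Set (Fin n → ℤ))) := by
    rw [mem_hull_iff]
    refine ⟨fun v => (c v : ℝ) / m, fun v _ => by positivity, ?_, rfl⟩
    rw [← Finset.sum_div, hm]
    push_cast
    rw [div_self]
    have : ((∑ v ∈ σ, c v : ℕ) : ℝ) ≠ 0 := by
      rw [← hm]; exact ne_of_gt hmR
    push_cast at this
    exact this
  have hxτ : x ∈ convexHull ℝ (toR '' (τ : Set (Fin n → ℤ))) := by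
    rw [mem_hull_iff]
    refine ⟨fun v => (c' v : ℝ) / m, fun v _ => by positivity, ?_, hx'.symm⟩
    rw [← Finset.sum_div]
    have : (∑ v ∈ τ, (c' v : ℝ)) = m := by
      rw [← hm']
      push_cast
      rfl
    rw [this, div_self (ne_of_gt hmR)]
  have hxi : x ∈ convexHull ℝ (toR '' ((σ ∩ τ : Finset (Fin n → ℤ)) : Set (Fin n → ℤ))) := by
    rw [Finset.coe_inter, ← hint]
    exact ⟨hxσ, hxτ⟩
  rw [mem_hull_iff] at hxi
  obtain ⟨r, _, _, hr⟩ := hxi
  have key : ∀ {s : Finset (Fin n → ℤ)}, σ ∩ τ ⊆ s → ∑ v ∈ s, (if v ∈ σ ∩ τ then r v else 0) • toR v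
      = x := by
    intro s hs
    rw [← hr, ← Finset.sum_subset hs]
    · apply Finset.sum_congr rfl
      intro v hv
      rw [if_pos hv]
    · intro v _ hv
      rw [if_neg hv, zero_smul]
  have h5 := hσ.rli.eq ((key Finset.inter_subset_left).trans hx) v hv
  have hvpos : (0 : ℝ) < (c v : ℝ) / m := div_pos (by exact_mod_cast hcv) hmR
  have hvi : v ∈ σ ∩ τ := by
    by_contra hcon
    rw [if_neg hcon] at h5
    linarith
  have hvτ : v ∈ τ := (Finset.mem_inter.mp hvi).2
  refine ⟨hvτ, ?_⟩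
  have h6 := hτ.rli.eq ((key Finset.inter_subset_right).trans hx') v hvτ
  rw [if_pos hvi] at h5 h6
  rw [h5] at h6
  have h7 : (c v : ℝ) = c' v := by
    field_simp at h6
    exact h6
  exact_mod_cast h7.symm

/-- the linear functional `rp u` -/
noncomputable def rpL (u : Fin n → ℝ) : (Fin n → ℝ) →ₗ[ℝ] ℝ where
  toFun := rp u
  map_add' := rp_add u
  map_smul' := fun c x => rp_smul u c x

/-- tight edges cross every cut -/
lemma tight_cross {G : SimpleGraph (Fin n)} (hG : G.Connected) {y : Fin n → ℤ} (hy : bal y)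
    (hgen : Gen y) {f : Fin n → ℤ} (hf : Opt G y f) (A : Finset (Fin n)) (hA : A.Nonempty)
    (hA' : A ≠ univ) :
    ∃ p q, G.Adj p q ∧ f p - f q = 1 ∧ ((p ∈ A ∧ q ∉ A) ∨ (p ∉ A ∧ q ∈ A)) := by
  classical
  by_contra hcon
  push Not at hcon
  set S : Fin n → ℤ := fun p => if p ∈ A then 1 else 0 with hS
  have hprS : pr S y = ∑ p ∈ A, y p := by
    unfold pr
    simp only [hS, ite_mul, one_mul, zero_mul]
    rw [← Finset.sum_filter, Finset.filter_mem_eq_inter, Finset.univ_inter]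
  have h1 : Lip G (f + S) := by
    intro p q hpq
    have h2 := hf.1 p q hpq
    have h3 := hcon p q hpq
    simp only [Pi.add_apply, hS]
    by_cases h4 : f p - f q = 1
    · have h5 := h3 h4
      by_cases hp : p ∈ A
      · have hq : q ∈ A := h5.1 hp
        rw [if_pos hp, if_pos hq]; linarith
      · have hq : q ∉ A := h5.2 hp
        rw [if_neg hp, if_neg hq]; linarith
    · have h5 : f p - f q ≤ 0 := by omega
      split_ifs <;> linarith
  have h1' : Lip G (f - S) := by
    intro p q hpq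
    have h2 := hf.1 p q hpq
    have h3 := hcon p q hpq
    simp only [Pi.sub_apply, hS]
    by_cases h4 : f p - f q = 1
    · have h5 := h3 h4
      by_cases hp : p ∈ A
      · have hq : q ∈ A := h5.1 hp
        rw [if_pos hp, if_pos hq]; linarith
      · have hq : q ∉ A := h5.2 hp
        rw [if_neg hp, if_neg hq]; linarith
    · have h5 : f p - f q ≤ 0 := by omega
      split_ifs <;> linarith
  have h2 := le_nu hG hy h1
  have h2' := le_nu hG hy h1'
  rw [pr_add_left, hf.2] at h2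
  rw [pr_sub_left, hf.2] at h2'
  have h3 : pr S y = 0 := by linarith
  rw [hprS] at h3
  exact hgen A hA hA' h3

lemma visible_of_gen {G : SimpleGraph (Fin n)} (hG : G.Connected) (hn : 2 ≤ n) {i j : Fin n}
    {y : Fin n → ℤ} (hy : bal y) (hgen : Gen y) {f : Fin n → ℤ} (hf : Opt G y f)
    (h2 : 2 ≤ pr f (ev i j)) :
    0 < nu G y ∧ (1 / (nu G y : ℝ)) • toR y ∈ visibleRegion (edgePolytope G) (toR (ev i j)) := by
  classical
  have hy0 : 0 < nu G y := by
    rcases lt_or_eq_of_le (nu_nonneg hG hy) with h | h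
    · exact h
    · exfalso
      have h1 := nu_zero_imp hG hy h.symm
      have h3 := hgen {i} (Finset.singleton_nonempty i) (by
        intro h4
        have h5 := congrArg Finset.card h4
        rw [Finset.card_singleton, Finset.card_univ, Fintype.card_fin] at h5
        omega)
      rw [h1] at h3
      simp at h3
  have hyR : (0 : ℝ) < nu G y := by exact_mod_cast hy0
  refine ⟨hy0, ?_⟩
  set x : Fin n → ℝ := (1 / (nu G y : ℝ)) • toR y with hx
  have hxP : x ∈ edgePolytope G := by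
    have h1 : toR y ∈ (((nu G y).toNat : ℕ) : ℝ) • edgePolytope G :=
      (mem_dilate hG hn y _).mpr ⟨hy, by omega⟩
    obtain ⟨p, hp, hpy⟩ := Set.mem_smul_set.mp h1
    have h3 : (((nu G y).toNat : ℕ) : ℝ) = (nu G y : ℝ) := by
      have : (((nu G y).toNat : ℕ) : ℤ) = nu G y := Int.toNat_of_nonneg hy0.le
      exact_mod_cast this
    rw [h3] at hpy
    have h4 : x = p := by
      rw [hx, ← hpy, smul_smul, one_div, inv_mul_cancel₀ (ne_of_gt hyR), one_smul]
    rw [h4]; exact hp
  have hfx : rp (toR f) x = 1 := by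
    rw [hx, rp_smul, rp_toR, hf.2, one_div, inv_mul_cancel₀ (ne_of_gt hyR)]
  set W : Set (Fin n → ℝ) := {x | x ∈ edgePolytope G ∧ ∑ a, toR f a * x a = 1} with hW
  have hxW : x ∈ W := ⟨hxP, hfx⟩
  have hrank : Module.finrank ℝ (vectorSpan ℝ W) = n - 2 := by
    -- upper bound
    have hn0 : 0 < n := by omega
    have hK : vectorSpan ℝ W ≤ LinearMap.ker (sumL n) ⊓ LinearMap.ker (rpL (toR f)) := by
      rw [vectorSpan_def, Submodule.span_le]
      rintro _ ⟨a, ha, b, hb, rfl⟩
      refine ⟨?_, ?_⟩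
      · show sm (a - b) = 0
        rw [sm_eq, rp_sub, ← sm_eq, ← sm_eq, sm_poly ha.1, sm_poly hb.1, sub_self]
      · show rp (toR f) (a - b) = 0
        have ha2 : rp (toR f) a = 1 := ha.2
        have hb2 : rp (toR f) b = 1 := hb.2
        rw [rp_sub, ha2, hb2, sub_self]
    have hlt : LinearMap.ker (sumL n) ⊓ LinearMap.ker (rpL (toR f)) < LinearMap.ker (sumL n) := by
      apply lt_of_le_of_ne inf_le_left
      intro h3
      have h4 : x ∈ LinearMap.ker (sumL n) := sm_poly hxP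
      rw [← h3] at h4
      have h5 : rp (toR f) x = 0 := h4.2
      rw [hfx] at h5
      norm_num at h5
    have hup : Module.finrank ℝ (vectorSpan ℝ W) < n - 1 := by
      rw [← finrank_ker_sumL hn0]
      exact lt_of_le_of_lt (Submodule.finrank_mono hK) (Submodule.finrank_lt_finrank_of_lt hlt)
    -- lower bound
    set T : Submodule ℝ (Fin n → ℝ) := vectorSpan ℝ W ⊔ Submodule.span ℝ {x} with hT
    have htight : ∀ p q, G.Adj p q → f p - f q = 1 → toR (ev p q) ∈ T := by
      intro p q hpq hfpq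
      have h3 : toR (ev p q) ∈ W := by
        refine ⟨mem_edge hpq, ?_⟩
        show rp (toR f) (toR (ev p q)) = 1
        rw [rp_toR, pr_ev, hfpq]
        norm_num
      have h4 : toR (ev p q) - x ∈ vectorSpan ℝ W := vsub_mem_vectorSpan ℝ h3 hxW
      have h5 : toR (ev p q) = (toR (ev p q) - x) + x := by abel
      rw [h5, hT]
      exact Submodule.add_mem_sup h4 (Submodule.mem_span_singleton_self x)
    have hall : ∀ a b, toR (ev a b) ∈ T := by
      intro a
      by_contra hcon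
      push Not at hcon
      obtain ⟨b, hb⟩ := hcon
      obtain ⟨p, q, hpq, hfpq, hpqA⟩ := tight_cross hG hy hgen hf
        (univ.filter (fun b => toR (ev a b) ∈ T)) ⟨a, by
          rw [Finset.mem_filter]
          refine ⟨Finset.mem_univ _, ?_⟩
          have : ev a a = 0 := by unfold ev; abel
          rw [this, toR_zero]
          exact T.zero_mem⟩ (by
          intro h3
          have h4 : b ∈ univ.filter (fun b => toR (ev a b) ∈ T) := by
            rw [h3]; exact Finset.mem_univ _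
          exact hb (Finset.mem_filter.mp h4).2)
      simp only [Finset.mem_filter, Finset.mem_univ, true_and] at hpqA
      have h5 := htight p q hpq hfpq
      rcases hpqA with ⟨hp, hq⟩ | ⟨hp, hq⟩
      · apply hq
        have h6 : ev a q = ev a p + ev p q := by unfold ev; abel
        rw [h6, toR_add]
        exact T.add_mem hp h5
      · apply hp
        have h6 : ev a p = ev a q - ev p q := by unfold ev; abel
        rw [h6, toR_sub]
        exact T.sub_mem hq h5
    have hle : LinearMap.ker (sumL n) ≤ T := by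
      intro z hz
      rw [← decomp_base ⟨0, hn0⟩ z hz]
      exact Submodule.sum_mem _ (fun p _ => T.smul_mem _ (hall p _))
    have h3 := Submodule.finrank_mono hle
    rw [finrank_ker_sumL hn0] at h3
    have h4 := Submodule.finrank_add_le_finrank_add_finrank (vectorSpan ℝ W)
      (Submodule.span ℝ {x})
    rw [← hT] at h4
    have h5 : Module.finrank ℝ (Submodule.span ℝ {x}) ≤ 1 := by
      have h6 := finrank_span_le_card (R := ℝ) ({x} : Set (Fin n → ℝ))
      simpa using h6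
    omega
  refine ⟨W, ⟨toR f, 1, ?_, ?_, rfl, hrank⟩, hxW⟩
  · intro z hz
    apply rp_le (u := toR f) _ hz
    intro a b hab
    have := hf.1 a b hab
    unfold toR
    exact_mod_cast this
  · show (1 : ℝ) < rp (toR f) (toR (ev i j))
    rw [rp_toR]
    have : (1 : ℤ) < pr f (ev i j) := by omega
    exact_mod_cast this

/-- every simplex of the triangulation is a cell -/
lemma cell_exists {G : SimpleGraph (Fin n)} (hG : G.Connected) (hn : 2 ≤ n) {i j : Fin n}
    {Γ : Finset (Finset (Fin n → ℤ))}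
    (hΓ : IsTriangulation Γ (visibleRegion (edgePolytope G) (toR (ev i j))))
    {σ : Finset (Fin n → ℤ)} (hσ : σ ∈ Γ) : ∃ f, IsCell G i j σ f := by
  classical
  have hn0 : 0 < n := by omega
  have hcard := hΓ.card σ hσ
  have hcpos : (0 : ℝ) < σ.card := by
    have : 0 < σ.card := by omega
    exact_mod_cast this
  have hsub : ∀ x ∈ convexHull ℝ (toR '' (σ : Set (Fin n → ℤ))),
      x ∈ visibleRegion (edgePolytope G) (toR (ev i j)) := by
    intro x hx
    rw [← hΓ.cover, Set.mem_iUnion₂]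
    exact ⟨σ, hσ, hx⟩
  have hvis : ∀ x ∈ visibleRegion (edgePolytope G) (toR (ev i j)), x ∈ edgePolytope G := by
    rintro x ⟨W, ⟨u, c, _, _, rfl, _⟩, hx⟩
    exact hx.1
  have hvP : ∀ v ∈ σ, toR v ∈ edgePolytope G := by
    intro v hv
    exact hvis _ (hsub _ (subset_convexHull ℝ _ ⟨v, hv, rfl⟩))
  -- the barycenter
  set b : Fin n → ℝ := ∑ v ∈ σ, (1 / (σ.card : ℝ)) • toR v with hb
  have hbσ : b ∈ convexHull ℝ (toR '' (σ : Set (Fin n → ℤ))) := by
    rw [mem_hull_iff]
    refine ⟨fun _ => 1 / (σ.card : ℝ), fun v _ => by positivity, ?_, rfl⟩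
    rw [Finset.sum_const, nsmul_eq_mul, mul_one_div, div_self (ne_of_gt hcpos)]
  obtain ⟨W, ⟨u, c, hu1, hu2, rfl, _⟩, hbW⟩ := hsub _ hbσ
  have hu1' : ∀ x ∈ edgePolytope G, rp u x ≤ c := hu1
  have hu2' : c < rp u (toR (ev i j)) := hu2
  have hbc : rp u b = c := hbW.2
  have hvc : ∀ v ∈ σ, rp u (toR v) = c := by
    have h1 : ∑ v ∈ σ, rp u (toR v) = ∑ v ∈ σ, c := by
      rw [Finset.sum_const, nsmul_eq_mul, ← hbc, hb, ← Finset.smul_sum, rp_smul, rp_sum,
        ← mul_assoc, mul_one_div, div_self (ne_of_gt hcpos), one_mul]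
    exact (Finset.sum_eq_sum_iff_of_le (fun v hv => hu1' _ (hvP v hv))).mp h1
  have hcpos' : 0 < c := by
    have h1 : 0 ≤ c := by
      have := hu1' _ (zero_poly hG hn)
      rwa [rp_zero] at this
    rcases lt_or_eq_of_le h1 with h2 | h2
    · exact h2
    · exfalso
      rw [← h2] at hu1' hu2'
      have h3 : ∀ a b, G.Adj a b → u a = u b := by
        intro a b hab
        have h4 := hu1' _ (mem_edge hab)
        have h5 := hu1' _ (mem_edge hab.symm)
        rw [rp_ev] at h4 h5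
        linarith
      have h4 : ∀ a b, u a = u b := by
        intro a b
        obtain ⟨p⟩ := hG.preconnected a b
        induction p with
        | nil => rfl
        | cons hab _ ih => rw [h3 _ _ hab, ih]
      rw [rp_ev, h4 i j] at hu2'
      linarith
  set y : Fin n → ℝ := (1 / c) • u with hy
  have hrpy : ∀ x, rp y x = (1 / c) * rp u x := by
    intro x
    unfold rp
    rw [Finset.mul_sum]
    apply Finset.sum_congr rfl
    intro a _
    simp only [hy, Pi.smul_apply, smul_eq_mul]; ring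
  have hyv : ∀ v ∈ σ, rp y (toR v) = 1 := by
    intro v hv
    rw [hrpy, hvc v hv, one_div, inv_mul_cancel₀ (ne_of_gt hcpos')]
  have hyP : ∀ x ∈ edgePolytope G, rp y x ≤ 1 := by
    intro x hx
    rw [hrpy, one_div, inv_mul_le_iff₀ hcpos', mul_one]
    exact hu1' x hx
  have hye : 1 < rp y (toR (ev i j)) := by
    rw [hrpy, one_div, lt_inv_mul_iff₀ hcpos', mul_one]
    exact hu2'
  -- linear independence
  have hrli : RLI σ := by
    intro r hr v hv
    have h1 : ∑ v ∈ σ, r v = 0 := by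
      have h2 : rp y (∑ v ∈ σ, r v • toR v) = ∑ v ∈ σ, r v := by
        rw [rp_sum]
        apply Finset.sum_congr rfl
        intro v hv
        rw [rp_smul, hyv v hv, mul_one]
      rw [← h2, hr, rp_zero]
    have h3 := affineIndependent_iff.mp (hΓ.indep σ hσ) Finset.univ (fun v : σ => r v) (by
      rw [← h1]
      exact Finset.sum_coe_sort σ r) (by
      rw [← hr]
      exact Finset.sum_coe_sort σ (fun v => r v • toR v)) ⟨v, hv⟩ (Finset.mem_univ _)
    exact h3
  -- the vertices are edges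
  have hedge : ∀ v ∈ σ, ∃ a b, G.Adj a b ∧ v = ev a b := by
    intro v hv
    have h1 := (mem_dilate hG hn v 1).mp (by
      rw [Nat.cast_one, one_smul]; exact hvP v hv)
    have h2 : 0 < nu G v := by
      rcases lt_or_eq_of_le (nu_nonneg hG h1.1) with h | h
      · exact h
      · exfalso
        have h3 := nu_zero_imp hG h1.1 h.symm
        have h4 := hyv v hv
        rw [h3, toR_zero, rp_zero] at h4
        norm_num at h4
    obtain ⟨a, b, hab, h3⟩ := peel hG hn h1.1 h2
    have h4 : nu G v ≤ 1 := by simpa using h1.2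
    have h5 := nu_zero_imp hG (h1.1.sub (bal_ev a b)) (by rw [h3]; omega)
    exact ⟨a, b, hab, sub_eq_zero.mp h5⟩
  -- the integral potential
  obtain ⟨f, hf⟩ := integral_cell hn0 hcard hedge hrli y hyv
  have hprf : ∀ a b, ((pr f (ev a b) : ℤ) : ℝ) = rp y (toR (ev a b)) := by
    intro a b
    rw [rp_ev, ← hf a b, pr_ev]
    push_cast
    rfl
  refine ⟨f, hcard, hrli, hedge, ?_, ?_, ?_⟩
  · intro a b hab
    have h1 := hyP _ (mem_edge hab)
    rw [← hprf, pr_ev] at h1
    exact_mod_cast h1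
  · intro v hv
    obtain ⟨a, b, _, rfl⟩ := hedge v hv
    have h1 := hyv _ hv
    rw [← hprf] at h1
    exact_mod_cast h1
  · rw [← hprf] at hye
    have : (1 : ℤ) < pr f (ev i j) := by exact_mod_cast hye
    omega

/-- the combinatorial data -/
theorem data_exists {G : SimpleGraph (Fin n)} (hG : G.Connected) (hn : 2 ≤ n) {i j : Fin n}
    {Γ : Finset (Finset (Fin n → ℤ))}
    (hΓ : IsTriangulation Γ (visibleRegion (edgePolytope G) (toR (ev i j)))) :
    ∃ F co, Data G i j Γ F co ∧ ∀ σ ∈ Γ, IsCell G i j σ (F σ) := by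
  classical
  have hn0 : 0 < n := by omega
  have h1 : ∀ σ, ∃ f, σ ∈ Γ → IsCell G i j σ f := by
    intro σ
    by_cases hσ : σ ∈ Γ
    · obtain ⟨f, hf⟩ := cell_exists hG hn hΓ hσ
      exact ⟨f, fun _ => hf⟩
    · exact ⟨0, fun h => absurd h hσ⟩
  choose F hF using h1
  have h2 : ∀ σ, ∃ A : (Fin n → ℤ) → Finset (Fin n), σ ∈ Γ →
      (∀ v ∈ σ, (A v).Nonempty ∧ A v ≠ univ) ∧
      ∀ x : Fin n → ℝ, sm x = 0 → ∑ v ∈ σ, (∑ p ∈ A v, x p) • toR v = x := by
    intro σ
    by_cases hσ : σ ∈ Γ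
    · obtain ⟨A, hA⟩ := exists_sub hn0 (hF σ hσ).card (hF σ hσ).edge (hF σ hσ).rli
      exact ⟨A, fun _ => hA⟩
    · exact ⟨fun _ => ∅, fun h => absurd h hσ⟩
  choose A hA using h2
  have hrep : ∀ σ ∈ Γ, ∀ x, bal x → ∑ v ∈ σ, ((∑ p ∈ A σ v, x p : ℤ) : ℝ) • toR v = toR x := by
    intro σ hσ x hx
    have h3 := (hA σ hσ).2 (toR x) ((sm_toR_iff x).mpr hx)
    rw [← h3]
    apply Finset.sum_congr rfl
    intro v _
    congr 1
    unfold toR
    push_cast
    rfl
  refine ⟨F, fun σ v x => ∑ p ∈ A σ v, x p, ⟨hG, ?_, ?_, ?_, ?_, ?_, ?_, ?_, ?_, ?_, ?_⟩, hF⟩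
  · intro σ hσ
    exact (hF σ hσ).card
  · intro σ hσ
    exact (hF σ hσ).edge
  · intro σ hσ
    exact (hF σ hσ).lip
  · intro σ hσ
    exact (hF σ hσ).one
  · intro σ hσ
    exact (hF σ hσ).vis
  · intro σ hσ x hx
    apply toR_inj
    rw [toR_sum]
    exact hrep σ hσ x hx
  · intro σ hσ c hc v hv
    have h3 : ∑ v ∈ σ, (c v : ℝ) • toR v = 0 := by
      rw [← toR_sum, hc, toR_zero]
    have h4 := (hF σ hσ).rli _ h3 v hv
    exact_mod_cast h4
  · intro σ hσ v hv
    exact ⟨A σ v, ((hA σ hσ).1 v hv).1, ((hA σ hσ).1 v hv).2, fun x _ => rfl⟩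
  · intro σ hσ τ hτ c c' h
    exact uniq_aux hG (hF σ hσ) (hF τ hτ) (hΓ.inter σ hσ τ hτ) c c' h
  · intro y hy hgen f hf h2
    obtain ⟨hpos, hvis⟩ := visible_of_gen hG hn hy hgen hf h2
    rw [← hΓ.cover, Set.mem_iUnion₂] at hvis
    obtain ⟨σ, hσ, hyσ⟩ := hvis
    rw [mem_hull_iff] at hyσ
    obtain ⟨r, hr0, _, hr⟩ := hyσ
    refine ⟨σ, hσ, fun v hv => ?_⟩
    have hposR : (0 : ℝ) < nu G y := by exact_mod_cast hpos
    have h3 : ∑ v ∈ σ, ((nu G y : ℝ) * r v) • toR v = toR y := by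
      have h4 : ∀ v ∈ σ, ((nu G y : ℝ) * r v) • toR v = (nu G y : ℝ) • (r v • toR v) := by
        intro v _
        rw [smul_smul]
      rw [Finset.sum_congr rfl h4, ← Finset.smul_sum, hr, smul_smul, mul_one_div,
        div_self (ne_of_gt hposR), one_smul]
    have h4 := (hF σ hσ).rli.eq (h3.trans (hrep σ hσ y hy).symm) v hv
    have h5 : (0 : ℝ) ≤ ((∑ p ∈ A σ v, y p : ℤ) : ℝ) := by
      rw [← h4]
      exact mul_nonneg hposR.le (hr0 v hv)
    exact_mod_cast h5

end Pool.Agent.R135.SEP
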