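import Mathlib
import Pool.Agent.R135.Hadwiger

/-!
# Cells of the regular subdivision of a tropical polynomial
-/

set_option autoImplicit false
open scoped Classical

namespace Pool.Agent.R135.TropCells

open Pool.Agent.R135.Hadwiger

variable {n : ℕ}

/-- the affine function `c_a + a · x` -/
def aff (c : (Fin n → ℕ) → ℝ) (a : Fin n → ℕ) (x : Fin n → ℝ) : ℝ := c a + ∑ i, (a i : ℝ) * x i

/-- the tropical polynomial `max_{a ∈ A} (c_a + a · x)` -/
noncomputable def trop (A : Finset (Fin n → ℕ)) (hA : A.Nonempty) (c : (Fin n → ℕ) → ℝ)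
    (x : Fin n → ℝ) : ℝ := A.sup' hA (fun a => aff c a x)

/-- the exponents at which the maximum is attained at `y` -/
noncomputable def act (A : Finset (Fin n → ℕ)) (hA : A.Nonempty) (c : (Fin n → ℕ) → ℝ)
    (y : Fin n → ℝ) : Finset (Fin n → ℕ) := A.filter (fun a => aff c a y = trop A hA c y)

theorem aff_le_trop (A : Finset (Fin n → ℕ)) (hA : A.Nonempty) (c : (Fin n → ℕ) → ℝ)
    (y : Fin n → ℝ) (a : Fin n → ℕ) (ha : a ∈ A) : aff c a y ≤ trop A hA c y :=
  Finset.le_sup' (fun a => aff c a y) ha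

theorem aff_add (c : (Fin n → ℕ) → ℝ) (a : Fin n → ℕ) (y v : Fin n → ℝ) (s : ℝ) :
    aff c a (y + s • v) = aff c a y + s * ∑ i, (a i : ℝ) * v i := by
  unfold aff
  simp only [Pi.add_apply, Pi.smul_apply, smul_eq_mul, mul_add, Finset.sum_add_distrib,
    Finset.mul_sum]
  have : ∑ i, (a i : ℝ) * (s * v i) = ∑ i, s * ((a i : ℝ) * v i) := by
    apply Finset.sum_congr rfl
    intro i _; ring
  rw [this]
  ring

theorem continuous_trop (A : Finset (Fin n → ℕ)) (hA : A.Nonempty) (c : (Fin n → ℕ) → ℝ) :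
    Continuous (trop A hA c) := by
  unfold trop
  apply Continuous.finset_sup'_apply hA
  intro a _
  unfold aff
  fun_prop

/-- **The cells cover the Newton polytope.** -/
theorem exists_cell (A : Finset (Fin n → ℕ)) (hA : A.Nonempty) (c : (Fin n → ℕ) → ℝ)
    (p : Fin n → ℝ) (lam : (Fin n → ℕ) → ℝ) (h0 : ∀ a ∈ A, 0 ≤ lam a) (h1 : ∑ a ∈ A, lam a = 1)
    (hp : ∀ i, p i = ∑ a ∈ A, lam a * (a i : ℝ)) :
    ∃ y : Fin n → ℝ, ∃ mu : (Fin n → ℕ) → ℝ, (∀ a ∈ act A hA c y, 0 ≤ mu a) ∧
      ∑ a ∈ act A hA c y, mu a = 1 ∧ ∀ i, p i = ∑ a ∈ act A hA c y, mu a * (a i : ℝ) := by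
  -- real exponents
  set av : (Fin n → ℕ) → (Fin n → ℝ) := fun a i => (a i : ℝ) with hav
  have hmemconv : ∀ (C : Finset (Fin n → ℕ)), p ∈ convexHull ℝ (av '' (C : Set (Fin n → ℕ))) →
      ∃ mu : (Fin n → ℕ) → ℝ, (∀ a ∈ C, 0 ≤ mu a) ∧ ∑ a ∈ C, mu a = 1 ∧
        ∀ i, p i = ∑ a ∈ C, mu a * (a i : ℝ) := by
    intro C hC
    rw [← Finset.coe_image, Finset.mem_convexHull'] at hC
    obtain ⟨w, hw0, hw1, hwp⟩ := hC
    have hinj : Function.Injective av := by
      intro a b hab
      funext i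
      have := congrFun hab i
      simp only [hav] at this
      exact_mod_cast this
    rw [Finset.sum_image (fun a _ b _ h => hinj h)] at hw1 hwp
    refine ⟨fun a => w (av a), fun a ha => hw0 _ (Finset.mem_image_of_mem _ ha), hw1, ?_⟩
    intro i
    rw [← hwp, Finset.sum_apply]
    rfl
  by_contra hcon
  push Not at hcon
  have hnot : ∀ y, p ∉ convexHull ℝ (av '' (act A hA c y : Set (Fin n → ℕ))) := by
    intro y hy
    obtain ⟨mu, m1, m2, m3⟩ := hmemconv _ hy
    obtain ⟨i, hi⟩ := hcon y mu m1 m2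
    exact hi (m3 i)
  -- separating functionals
  have hsep : ∀ C : Finset (Fin n → ℕ), ∃ (v : Fin n → ℝ) (δ : ℝ), 0 < δ ∧
      (p ∉ convexHull ℝ (av '' (C : Set (Fin n → ℕ))) →
        ∀ a ∈ C, ∑ i, (a i : ℝ) * v i ≤ ∑ i, p i * v i - δ) := by
    intro C
    by_cases hC : p ∈ convexHull ℝ (av '' (C : Set (Fin n → ℕ)))
    · exact ⟨0, 1, one_pos, fun h => absurd hC h⟩
    · have hcl : IsClosed (convexHull ℝ (av '' (C : Set (Fin n → ℕ)))) :=
        ((C.finite_toSet.image av).isCompact_convexHull (𝕜 := ℝ)).isClosed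
      obtain ⟨f, u, hf1, hf2⟩ := geometric_hahn_banach_closed_point (convex_convexHull ℝ _) hcl hC
      have hrep : ∀ z : Fin n → ℝ, f z = ∑ i, z i * f (Pi.single i 1) := by
        intro z
        conv_lhs => rw [← Finset.univ_sum_single z]
        rw [map_sum]
        apply Finset.sum_congr rfl
        intro i _
        have : (Pi.single i (z i) : Fin n → ℝ) = z i • (Pi.single i 1 : Fin n → ℝ) := by
          rw [← Pi.single_smul', smul_eq_mul, mul_one]
        rw [this, map_smul, smul_eq_mul]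
      refine ⟨fun i => f (Pi.single i 1), f p - u, by linarith, fun _ a ha => ?_⟩
      have h3 := hf1 (av a) (subset_convexHull ℝ _ ⟨a, ha, rfl⟩)
      rw [hrep (av a)] at h3
      have h4 := hrep p
      simp only [hav] at h3
      linarith
  choose v δ hδ hv using hsep
  -- a uniform small constant
  obtain ⟨ε, hε, hεC⟩ : ∃ ε : ℝ, 0 < ε ∧ ∀ C ∈ A.powerset, ε * (‖v C‖ + 1) ≤ δ C := by
    have hne : (A.powerset).Nonempty := ⟨∅, Finset.empty_mem_powerset A⟩
    refine ⟨A.powerset.inf' hne (fun C => δ C / (‖v C‖ + 1)), ?_, ?_⟩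
    · rw [Finset.lt_inf'_iff]
      intro C _
      have := norm_nonneg (v C)
      exact div_pos (hδ C) (by linarith)
    · intro C hC
      have h3 := Finset.inf'_le (fun C => δ C / (‖v C‖ + 1)) hC
      have h4 := norm_nonneg (v C)
      rw [le_div_iff₀ (by linarith)] at h3
      exact h3
  -- the penalized function
  set G : (Fin n → ℝ) → ℝ := fun y => trop A hA c y - ∑ i, p i * y i + ε * ‖y‖ with hG
  have hGc : Continuous G := by
    have := continuous_trop A hA c
    rw [hG]
    fun_prop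
  have hbound : ∀ y, (∑ a ∈ A, lam a * c a) ≤ trop A hA c y - ∑ i, p i * y i := by
    intro y
    have h3 : ∑ a ∈ A, lam a * aff c a y ≤ ∑ a ∈ A, lam a * trop A hA c y := by
      apply Finset.sum_le_sum
      intro a ha
      exact mul_le_mul_of_nonneg_left (aff_le_trop A hA c y a ha) (h0 a ha)
    rw [← Finset.sum_mul, h1, one_mul] at h3
    have h4 : ∑ a ∈ A, lam a * aff c a y = (∑ a ∈ A, lam a * c a) + ∑ i, p i * y i := by
      unfold aff
      simp only [mul_add, Finset.sum_add_distrib, Finset.mul_sum]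
      congr 1
      rw [Finset.sum_comm]
      apply Finset.sum_congr rfl
      intro i _
      rw [hp i, Finset.sum_mul]
      apply Finset.sum_congr rfl
      intro a _; ring
    linarith
  have htend : Filter.Tendsto G (Filter.cocompact (Fin n → ℝ)) Filter.atTop := by
    have h3 : Filter.Tendsto (fun y : Fin n → ℝ => (∑ a ∈ A, lam a * c a) + ε * ‖y‖)
        (Filter.cocompact (Fin n → ℝ)) Filter.atTop := by
      apply Filter.tendsto_atTop_add_const_left
      exact (tendsto_norm_cocompact_atTop (E := Fin n → ℝ)).const_mul_atTop hε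
    apply Filter.tendsto_atTop_mono _ h3
    intro y
    have := hbound y
    rw [hG]
    simp only
    linarith
  obtain ⟨y, hy⟩ := hGc.exists_forall_le htend
  -- move in the direction of the separating functional
  set C := act A hA c y with hC
  have hCA : C ∈ A.powerset := Finset.mem_powerset.mpr (Finset.filter_subset _ _)
  have hvC := hv C (hnot y)
  have hsmall : ∀ᶠ s in nhdsWithin (0 : ℝ) (Set.Ioi 0), ∀ a ∈ A, a ∉ C →
      aff c a (y + s • v C) - ∑ i, p i * (y + s • v C) i ≤
        trop A hA c y - ∑ i, p i * y i - s * δ C := by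
    have h3 : ∀ a ∈ A, ∀ᶠ s in nhdsWithin (0 : ℝ) (Set.Ioi 0), a ∉ C →
      aff c a (y + s • v C) - ∑ i, p i * (y + s • v C) i ≤
        trop A hA c y - ∑ i, p i * y i - s * δ C := by
      intro a ha
      by_cases haC : a ∈ C
      · exact Filter.Eventually.of_forall (fun _ h => absurd haC h)
      · have h4 : aff c a y < trop A hA c y := by
          apply lt_of_le_of_ne (aff_le_trop A hA c y a ha)
          intro h5
          apply haC
          rw [hC, act, Finset.mem_filter]
          exact ⟨ha, h5⟩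
        have h6 : Continuous (fun s : ℝ => (trop A hA c y - ∑ i, p i * y i - s * δ C) -
            (aff c a (y + s • v C) - ∑ i, p i * (y + s • v C) i)) := by
          unfold aff
          simp only [Pi.add_apply, Pi.smul_apply, smul_eq_mul]
          fun_prop
        have h7 : ∀ᶠ s in nhds (0 : ℝ), 0 < (trop A hA c y - ∑ i, p i * y i - s * δ C) -
            (aff c a (y + s • v C) - ∑ i, p i * (y + s • v C) i) := by
          apply (h6.tendsto 0).eventually_const_lt
          simp only [zero_smul, add_zero, zero_mul, sub_zero]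
          linarith
        apply (h7.filter_mono nhdsWithin_le_nhds).mono
        intro s hs _
        linarith
    exact ((Filter.eventually_all_finset A).mpr h3)
  obtain ⟨s, hs, hs0⟩ := (hsmall.and self_mem_nhdsWithin).exists
  have hs0' : 0 < s := hs0
  have hlin : ∑ i, p i * (y + s • v C) i = ∑ i, p i * y i + s * ∑ i, p i * v C i := by
    simp only [Pi.add_apply, Pi.smul_apply, smul_eq_mul, mul_add, Finset.sum_add_distrib,
      Finset.mul_sum]
    congr 1
    apply Finset.sum_congr rfl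
    intro i _; ring
  have hdec : trop A hA c (y + s • v C) - ∑ i, p i * (y + s • v C) i ≤
      trop A hA c y - ∑ i, p i * y i - s * δ C := by
    have h3 : trop A hA c (y + s • v C) ≤
        trop A hA c y - ∑ i, p i * y i - s * δ C + ∑ i, p i * (y + s • v C) i := by
      apply Finset.sup'_le
      intro a ha
      by_cases haC : a ∈ C
      · rw [aff_add, hlin]
        have h4 := aff_le_trop A hA c y a ha
        have h5 := mul_le_mul_of_nonneg_left (hvC a haC) hs0'.le
        rw [mul_sub] at h5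
        linarith
      · have := hs a ha haC
        linarith
    linarith
  have hnorm : ‖y + s • v C‖ ≤ ‖y‖ + s * ‖v C‖ := by
    calc ‖y + s • v C‖ ≤ ‖y‖ + ‖s • v C‖ := norm_add_le _ _
      _ = ‖y‖ + s * ‖v C‖ := by rw [norm_smul, Real.norm_eq_abs, abs_of_pos hs0']
  have hfin := hy (y + s • v C)
  rw [hG] at hfin
  simp only at hfin
  have h8 := hεC C hCA
  have h9 := norm_nonneg (v C)
  have h10 : ε * ‖y + s • v C‖ ≤ ε * (‖y‖ + s * ‖v C‖) := mul_le_mul_of_nonneg_left hnorm hε.le
  have h11 : s * (ε * (‖v C‖ + 1)) ≤ s * δ C := mul_le_mul_of_nonneg_left h8 hs0'.le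
  have h12 : 0 < s * ε := mul_pos hs0' hε
  nlinarith

/-! ## The lifted cells -/

/-- points `(z, p)` below the graph of the affine interpolation over `conv B`, above level `m` -/
def KB (c : (Fin n → ℕ) → ℝ) (m : ℝ) (B : Finset (Fin n → ℕ)) : Set (Fin (n + 1) → ℝ) :=
  {w | ∃ lam : (Fin n → ℕ) → ℝ, (∀ a ∈ B, 0 ≤ lam a) ∧ ∑ a ∈ B, lam a = 1 ∧
    (∀ i : Fin n, w i.succ = ∑ a ∈ B, lam a * (a i : ℝ)) ∧ m ≤ w 0 ∧
      w 0 ≤ ∑ a ∈ B, lam a * c a}

theorem convex_KB (c : (Fin n → ℕ) → ℝ) (m : ℝ) (B : Finset (Fin n → ℕ)) :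
    Convex ℝ (KB c m B) := by
  rintro x ⟨l1, a1, a2, a3, a4, a5⟩ y ⟨l2, b1, b2, b3, b4, b5⟩ s t hs ht hst
  refine ⟨fun a => s * l1 a + t * l2 a, ?_, ?_, ?_, ?_, ?_⟩
  · intro a ha
    have := mul_nonneg hs (a1 a ha)
    have := mul_nonneg ht (b1 a ha)
    linarith
  · rw [Finset.sum_add_distrib, ← Finset.mul_sum, ← Finset.mul_sum, a2, b2]
    linarith
  · intro i
    simp only [Pi.add_apply, Pi.smul_apply, smul_eq_mul, a3 i, b3 i]
    rw [Finset.mul_sum, Finset.mul_sum, ← Finset.sum_add_distrib]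
    apply Finset.sum_congr rfl
    intro a _; ring
  · simp only [Pi.add_apply, Pi.smul_apply, smul_eq_mul]
    have h1 := mul_le_mul_of_nonneg_left a4 hs
    have h2 := mul_le_mul_of_nonneg_left b4 ht
    have : m = s * m + t * m := by rw [← add_mul, hst, one_mul]
    linarith
  · simp only [Pi.add_apply, Pi.smul_apply, smul_eq_mul]
    have h1 := mul_le_mul_of_nonneg_left a5 hs
    have h2 := mul_le_mul_of_nonneg_left b5 ht
    have h3 : ∑ a ∈ B, (s * l1 a + t * l2 a) * c a =
        s * ∑ a ∈ B, l1 a * c a + t * ∑ a ∈ B, l2 a * c a := by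
      rw [Finset.mul_sum, Finset.mul_sum, ← Finset.sum_add_distrib]
      apply Finset.sum_congr rfl
      intro a _; ring
    rw [h3]
    linarith

/-- a lifted exponent -/
def lift (a : Fin n → ℕ) (z : ℝ) : Fin (n + 1) → ℝ := Fin.cons z (fun i => (a i : ℝ))

theorem lift_mem (c : (Fin n → ℕ) → ℝ) (m : ℝ) (B : Finset (Fin n → ℕ)) (a : Fin n → ℕ)
    (ha : a ∈ B) (z : ℝ) (h1 : m ≤ z) (h2 : z ≤ c a) : lift a z ∈ KB c m B := by
  refine ⟨fun b => if b = a then 1 else 0, ?_, ?_, ?_, ?_, ?_⟩
  · intro b _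
    change (0 : ℝ) ≤ if b = a then 1 else 0
    split_ifs <;> norm_num
  · rw [Finset.sum_ite_eq' B a, if_pos ha]
  · intro i
    simp only [lift, Fin.cons_succ, ite_mul, one_mul, zero_mul]
    rw [Finset.sum_ite_eq' B a (fun b => (b i : ℝ)), if_pos ha]
  · exact h1
  · simp only [lift, Fin.cons_zero, ite_mul, one_mul, zero_mul]
    rw [Finset.sum_ite_eq' B a, if_pos ha]
    exact h2

theorem KB_eq (c : (Fin n → ℕ) → ℝ) (m : ℝ) (B : Finset (Fin n → ℕ)) (hm : ∀ a ∈ B, m ≤ c a) :
    KB c m B = convexHull ℝ (((fun a => lift a (c a)) '' (B : Set (Fin n → ℕ))) ∪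
      ((fun a => lift a m) '' (B : Set (Fin n → ℕ)))) := by
  apply Set.Subset.antisymm
  · rintro w ⟨lam, h1, h2, h3, h4, h5⟩
    have hseg : w 0 ∈ segment ℝ m (∑ a ∈ B, lam a * c a) := by
      rw [segment_eq_Icc (h4.trans h5)]
      exact ⟨h4, h5⟩
    obtain ⟨s, t, hs, ht, hst, hw⟩ := hseg
    simp only [smul_eq_mul] at hw
    set H := convexHull ℝ (((fun a => lift a (c a)) '' (B : Set (Fin n → ℕ))) ∪
      ((fun a => lift a m) '' (B : Set (Fin n → ℕ)))) with hH
    have hc : Convex ℝ H := convex_convexHull ℝ _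
    have k1 : ∑ a ∈ B, lam a • lift a m ∈ H := by
      apply hc.sum_mem h1 h2
      intro a ha
      exact subset_convexHull ℝ _ (Or.inr ⟨a, ha, rfl⟩)
    have k2 : ∑ a ∈ B, lam a • lift a (c a) ∈ H := by
      apply hc.sum_mem h1 h2
      intro a ha
      exact subset_convexHull ℝ _ (Or.inl ⟨a, ha, rfl⟩)
    have k3 := hc k1 k2 hs ht hst
    convert k3 using 1
    funext j
    simp only [Pi.add_apply, Pi.smul_apply, smul_eq_mul, Finset.sum_apply]
    refine Fin.cases ?_ (fun i => ?_) j
    · simp only [lift, Fin.cons_zero]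
      rw [← Finset.sum_mul, h2, one_mul]
      exact hw.symm
    · simp only [lift, Fin.cons_succ]
      rw [← add_mul, hst, one_mul, h3 i]
  · apply convexHull_min _ (convex_KB c m B)
    rintro _ (⟨a, ha, rfl⟩ | ⟨a, ha, rfl⟩)
    · exact lift_mem c m B a ha _ (hm a ha) le_rfl
    · exact lift_mem c m B a ha _ le_rfl (hm a ha)

theorem compact_KB (c : (Fin n → ℕ) → ℝ) (m : ℝ) (B : Finset (Fin n → ℕ))
    (hm : ∀ a ∈ B, m ≤ c a) : IsCompact (KB c m B) := by
  rw [KB_eq c m B hm]
  exact Set.Finite.isCompact_convexHull (𝕜 := ℝ)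
    ((B.finite_toSet.image _).union (B.finite_toSet.image _))

theorem nonempty_KB (c : (Fin n → ℕ) → ℝ) (m : ℝ) (B : Finset (Fin n → ℕ))
    (hm : ∀ a ∈ B, m ≤ c a) : (KB c m B).Nonempty ↔ B.Nonempty := by
  constructor
  · rintro ⟨w, lam, h1, h2, _⟩
    by_contra hB
    rw [Finset.not_nonempty_iff_eq_empty] at hB
    rw [hB, Finset.sum_empty] at h2
    exact zero_ne_one h2
  · rintro ⟨a, ha⟩
    exact ⟨_, lift_mem c m B a ha _ le_rfl (hm a ha)⟩

/-- the functional `(z, p) ↦ z + p · x` -/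
noncomputable def fn (x : Fin n → ℝ) : (Fin (n + 1) → ℝ) →L[ℝ] ℝ :=
  ContinuousLinearMap.proj 0 + ∑ i : Fin n, x i • ContinuousLinearMap.proj i.succ

theorem fn_apply (x : Fin n → ℝ) (w : Fin (n + 1) → ℝ) :
    fn x w = w 0 + ∑ i : Fin n, x i * w i.succ := by
  simp [fn]

theorem sSup_KB (c : (Fin n → ℕ) → ℝ) (m : ℝ) (B : Finset (Fin n → ℕ)) (hB : B.Nonempty)
    (hm : ∀ a ∈ B, m ≤ c a) (x : Fin n → ℝ) : sSup (fn x '' KB c m B) = trop B hB c x := by
  apply IsGreatest.csSup_eq
  constructor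
  · obtain ⟨a, ha, hmax⟩ := Finset.exists_mem_eq_sup' hB (fun a => aff c a x)
    refine ⟨lift a (c a), lift_mem c m B a ha _ (hm a ha) le_rfl, ?_⟩
    rw [fn_apply, trop, hmax, aff]
    simp only [lift, Fin.cons_zero, Fin.cons_succ]
    congr 1
    apply Finset.sum_congr rfl
    intro i _; ring
  · rintro _ ⟨w, ⟨lam, h1, h2, h3, h4, h5⟩, rfl⟩
    rw [fn_apply]
    have h6 : ∑ a ∈ B, lam a * aff c a x = (∑ a ∈ B, lam a * c a) + ∑ i, x i * w i.succ := by
      unfold aff
      simp only [mul_add, Finset.sum_add_distrib, Finset.mul_sum]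
      congr 1
      rw [Finset.sum_comm]
      apply Finset.sum_congr rfl
      intro i _
      rw [h3 i, Finset.mul_sum]
      apply Finset.sum_congr rfl
      intro a _; ring
    have h7 : ∑ a ∈ B, lam a * aff c a x ≤ ∑ a ∈ B, lam a * trop B hB c x := by
      apply Finset.sum_le_sum
      intro a ha
      exact mul_le_mul_of_nonneg_left (aff_le_trop B hB c x a ha) (h1 a ha)
    rw [← Finset.sum_mul, h2, one_mul] at h7
    linarith

/-! ## Inclusion–exclusion -/

/-- the finite set of cells, as sets of exponents -/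
noncomputable def cells (A : Finset (Fin n → ℕ)) (hA : A.Nonempty) (c : (Fin n → ℕ) → ℝ) :
    Finset (Finset (Fin n → ℕ)) :=
  A.powerset.filter (fun C => ∃ y, act A hA c y = C)

/-- the common exponents of a set of cells -/
noncomputable def inter (A : Finset (Fin n → ℕ)) (S : Finset (Finset (Fin n → ℕ))) :
    Finset (Fin n → ℕ) := A.filter (fun a => ∀ C ∈ S, a ∈ C)

theorem inter_empty (A : Finset (Fin n → ℕ)) : inter A ∅ = A := by
  unfold inter
  rw [Finset.filter_true_of_mem]
  intro a _ C hC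
  simp at hC

theorem mem_cell (A : Finset (Fin n → ℕ)) (hA : A.Nonempty) (c : (Fin n → ℕ) → ℝ) (y : Fin n → ℝ)
    (a : Fin n → ℕ) : a ∈ act A hA c y ↔ a ∈ A ∧ aff c a y = trop A hA c y := by
  rw [act, Finset.mem_filter]

/-- the value of the interpolation -/
theorem value_cell (A : Finset (Fin n → ℕ)) (hA : A.Nonempty) (c : (Fin n → ℕ) → ℝ)
    (y : Fin n → ℝ) (B : Finset (Fin n → ℕ)) (lam : (Fin n → ℕ) → ℝ)
    (h2 : ∑ a ∈ B, lam a = 1) (w : Fin (n + 1) → ℝ)
    (h3 : ∀ i : Fin n, w i.succ = ∑ a ∈ B, lam a * (a i : ℝ)) :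
    ∑ a ∈ B, lam a * (trop A hA c y - aff c a y) =
      trop A hA c y - ∑ a ∈ B, lam a * c a - ∑ i, w i.succ * y i := by
  have h6 : ∑ a ∈ B, lam a * aff c a y = (∑ a ∈ B, lam a * c a) + ∑ i, w i.succ * y i := by
    unfold aff
    simp only [mul_add, Finset.sum_add_distrib, Finset.mul_sum]
    congr 1
    rw [Finset.sum_comm]
    apply Finset.sum_congr rfl
    intro i _
    rw [h3 i, Finset.sum_mul]
    apply Finset.sum_congr rfl
    intro a _; ring
  have h7 : ∑ a ∈ B, lam a * (trop A hA c y - aff c a y) =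
      (∑ a ∈ B, lam a) * trop A hA c y - ∑ a ∈ B, lam a * aff c a y := by
    rw [Finset.sum_mul, ← Finset.sum_sub_distrib]
    apply Finset.sum_congr rfl
    intro a _; ring
  rw [h7, h2, h6]
  ring

theorem KB_mono (c : (Fin n → ℕ) → ℝ) (m : ℝ) (B B' : Finset (Fin n → ℕ)) (h : B ⊆ B') :
    KB c m B ⊆ KB c m B' := by
  rintro w ⟨lam, h1, h2, h3, h4, h5⟩
  have key : ∀ g : (Fin n → ℕ) → ℝ, ∑ a ∈ B', (if a ∈ B then lam a else 0) * g a =
      ∑ a ∈ B, lam a * g a := by
    intro g
    symm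
    rw [← Finset.sum_subset h (f := fun a => (if a ∈ B then lam a else 0) * g a)]
    · apply Finset.sum_congr rfl
      intro a ha
      rw [if_pos ha]
    · intro a _ ha
      rw [if_neg ha, zero_mul]
  refine ⟨fun a => if a ∈ B then lam a else 0, ?_, ?_, ?_, h4, ?_⟩
  · intro a _
    change (0 : ℝ) ≤ if a ∈ B then lam a else 0
    split_ifs with ha
    · exact h1 a ha
    · exact le_rfl
  · have := key (fun _ => 1)
    simp only [mul_one] at this
    rw [this, h2]
  · intro i
    rw [key (fun a => (a i : ℝ))]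
    exact h3 i
  · rw [key c]
    exact h5

theorem mem_KB_inter (A : Finset (Fin n → ℕ)) (hA : A.Nonempty) (c : (Fin n → ℕ) → ℝ) (m : ℝ)
    (S : Finset (Finset (Fin n → ℕ))) (hS : S ⊆ cells A hA c) (hne : S.Nonempty)
    (w : Fin (n + 1) → ℝ) : w ∈ KB c m (inter A S) ↔ ∀ C ∈ S, w ∈ KB c m C := by
  constructor
  · intro h C hC
    apply KB_mono c m _ _ _ h
    intro a ha
    exact (Finset.mem_filter.mp ha).2 C hC
  · intro h
    obtain ⟨C1, hC1⟩ := hne
    obtain ⟨lam, h1, h2, h3, h4, h5⟩ := h C1 hC1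
    have hcell1 := hS hC1
    rw [cells, Finset.mem_filter] at hcell1
    obtain ⟨hsub1, y1, hy1⟩ := hcell1
    -- `lam` is supported on the intersection
    have hsupp : ∀ a ∈ C1, a ∉ inter A S → lam a = 0 := by
      intro a ha hna
      have haA : a ∈ A := Finset.mem_powerset.mp hsub1 ha
      have : ∃ C ∈ S, a ∉ C := by
        by_contra hcon
        push Not at hcon
        exact hna (Finset.mem_filter.mpr ⟨haA, hcon⟩)
      obtain ⟨C, hC, haC⟩ := this
      obtain ⟨mu, k1, k2, k3, k4, k5⟩ := h C hC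
      have hcell := hS hC
      rw [cells, Finset.mem_filter] at hcell
      obtain ⟨hsub, y, hy⟩ := hcell
      have e1 := value_cell A hA c y C1 lam h2 w h3
      have e2 := value_cell A hA c y1 C mu k2 w k3
      have e3 := value_cell A hA c y1 C1 lam h2 w h3
      have e4 := value_cell A hA c y C mu k2 w k3
      have z3 : ∑ a ∈ C1, lam a * (trop A hA c y1 - aff c a y1) = 0 := by
        apply Finset.sum_eq_zero
        intro b hb
        rw [← hy1, mem_cell] at hb
        rw [hb.2, sub_self, mul_zero]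
      have z4 : ∑ a ∈ C, mu a * (trop A hA c y - aff c a y) = 0 := by
        apply Finset.sum_eq_zero
        intro b hb
        rw [← hy, mem_cell] at hb
        rw [hb.2, sub_self, mul_zero]
      have n1 : ∀ b ∈ C1, 0 ≤ lam b * (trop A hA c y - aff c b y) := fun b hb =>
        mul_nonneg (h1 b hb)
          (sub_nonneg.mpr (aff_le_trop A hA c y b (Finset.mem_powerset.mp hsub1 hb)))
      have n2 : 0 ≤ ∑ a ∈ C, mu a * (trop A hA c y1 - aff c a y1) := by
        apply Finset.sum_nonneg
        intro b hb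
        exact mul_nonneg (k1 b hb)
          (sub_nonneg.mpr (aff_le_trop A hA c y1 b (Finset.mem_powerset.mp hsub hb)))
      have n3 := Finset.sum_nonneg n1
      have z1 : ∑ a ∈ C1, lam a * (trop A hA c y - aff c a y) = 0 := by linarith
      have z5 := (Finset.sum_eq_zero_iff_of_nonneg n1).mp z1 a ha
      rcases mul_eq_zero.mp z5 with h6 | h6
      · exact h6
      · exfalso
        apply haC
        rw [← hy, mem_cell]
        exact ⟨haA, by linarith⟩
    have hsubset : inter A S ⊆ C1 := fun a ha => (Finset.mem_filter.mp ha).2 C1 hC1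
    have key : ∀ g : (Fin n → ℕ) → ℝ, ∑ a ∈ C1, lam a * g a = ∑ a ∈ inter A S, lam a * g a := by
      intro g
      symm
      apply Finset.sum_subset hsubset
      intro a ha hna
      rw [hsupp a ha hna, zero_mul]
    refine ⟨lam, fun a ha => h1 a (hsubset ha), ?_, ?_, h4, ?_⟩
    · have := key (fun _ => 1)
      simp only [mul_one] at this
      rw [← this, h2]
    · intro i
      rw [← key (fun a => (a i : ℝ))]
      exact h3 i
    · rw [← key c]
      exact h5

theorem exists_cell_KB (A : Finset (Fin n → ℕ)) (hA : A.Nonempty) (c : (Fin n → ℕ) → ℝ) (m : ℝ)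
    (w : Fin (n + 1) → ℝ) (hw : w ∈ KB c m A) : ∃ C ∈ cells A hA c, w ∈ KB c m C := by
  obtain ⟨lam, h1, h2, h3, h4, h5⟩ := hw
  obtain ⟨y, mu, k1, k2, k3⟩ := exists_cell A hA c (fun i => w i.succ) lam h1 h2 h3
  refine ⟨act A hA c y, ?_, mu, k1, k2, k3, h4, ?_⟩
  · rw [cells, Finset.mem_filter]
    exact ⟨Finset.mem_powerset.mpr (Finset.filter_subset _ _), y, rfl⟩
  · have e1 := value_cell A hA c y A lam h2 w h3
    have e2 := value_cell A hA c y (act A hA c y) mu k2 w k3
    have z2 : ∑ a ∈ act A hA c y, mu a * (trop A hA c y - aff c a y) = 0 := by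
      apply Finset.sum_eq_zero
      intro b hb
      rw [mem_cell] at hb
      rw [hb.2, sub_self, mul_zero]
    have n1 : 0 ≤ ∑ a ∈ A, lam a * (trop A hA c y - aff c a y) := by
      apply Finset.sum_nonneg
      intro b hb
      exact mul_nonneg (h1 b hb) (sub_nonneg.mpr (aff_le_trop A hA c y b hb))
    linarith

/-- the alternating sum of the indicator functions vanishes -/
theorem ind_relation (A : Finset (Fin n → ℕ)) (hA : A.Nonempty) (c : (Fin n → ℕ) → ℝ) (m : ℝ)
    (w : Fin (n + 1) → ℝ) : ∑ S ∈ (cells A hA c).powerset,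
      (-1 : ℝ) ^ S.card * ind (KB c m (inter A S)) w = 0 := by
  by_cases hw : w ∈ KB c m A
  · set D := (cells A hA c).filter (fun C => w ∈ KB c m C) with hD
    have hDne : D.Nonempty := by
      obtain ⟨C, hC, hwC⟩ := exists_cell_KB A hA c m w hw
      exact ⟨C, Finset.mem_filter.mpr ⟨hC, hwC⟩⟩
    have h1 : ∀ S ∈ (cells A hA c).powerset,
        (-1 : ℝ) ^ S.card * ind (KB c m (inter A S)) w =
        if S ∈ D.powerset then (-1 : ℝ) ^ S.card else 0 := by
      intro S hS
      rw [Finset.mem_powerset] at hS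
      have hiff : w ∈ KB c m (inter A S) ↔ S ∈ D.powerset := by
        rw [Finset.mem_powerset]
        rcases S.eq_empty_or_nonempty with h0 | h0
        · subst h0
          rw [inter_empty]
          exact ⟨fun _ => Finset.empty_subset _, fun _ => hw⟩
        · rw [mem_KB_inter A hA c m S hS h0]
          constructor
          · intro h C hC
            exact Finset.mem_filter.mpr ⟨hS hC, h C hC⟩
          · intro h C hC
            exact (Finset.mem_filter.mp (h hC)).2
      unfold ind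
      by_cases h2 : w ∈ KB c m (inter A S)
      · rw [if_pos h2, if_pos (hiff.mp h2), mul_one]
      · rw [if_neg h2, if_neg (fun h => h2 (hiff.mpr h)), mul_zero]
    rw [Finset.sum_congr rfl h1, Finset.sum_ite_mem]
    have h2 : (cells A hA c).powerset ∩ D.powerset = D.powerset := by
      apply Finset.inter_eq_right.mpr
      exact Finset.powerset_mono.mpr (Finset.filter_subset _ _)
    rw [h2]
    have h3 := Finset.sum_powerset_neg_one_pow_card_of_nonempty hDne
    have h4 : ((∑ S ∈ D.powerset, (-1 : ℤ) ^ S.card : ℤ) : ℝ) = 0 := by rw [h3]; simp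
    push_cast at h4
    exact h4
  · apply Finset.sum_eq_zero
    intro S _
    have : w ∉ KB c m (inter A S) := fun h =>
      hw (KB_mono c m _ _ (Finset.filter_subset _ _) h)
    unfold ind
    rw [if_neg this, mul_zero]

/-- value of the (possibly empty) tropical polynomial with exponents `B` -/
noncomputable def val (c : (Fin n → ℕ) → ℝ) (B : Finset (Fin n → ℕ)) (x : Fin n → ℝ) : ℝ :=
  if hB : B.Nonempty then trop B hB c x else 0

/-- **Inclusion–exclusion for tropical polynomials.** -/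
theorem trop_relation (A : Finset (Fin n → ℕ)) (hA : A.Nonempty) (c : (Fin n → ℕ) → ℝ)
    (x : Fin n → ℝ) :
    ∑ S ∈ (cells A hA c).powerset, (-1 : ℝ) ^ S.card * val c (inter A S) x = 0 := by
  obtain ⟨m, hm⟩ : ∃ m : ℝ, ∀ a ∈ A, m ≤ c a :=
    ⟨A.inf' hA c, fun a ha => Finset.inf'_le c ha⟩
  have hmS : ∀ S, ∀ a ∈ inter A S, m ≤ c a := fun S a ha => hm a (Finset.mem_filter.mp ha).1
  have h := support_relation (n + 1) (cells A hA c).powerset (fun S => (-1 : ℝ) ^ S.card)
    (fun S => KB c m (inter A S)) (fun S _ => compact_KB c m _ (hmS S))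
    (fun S _ => convex_KB c m _) (ind_relation A hA c m) (fn x)
  rw [← h, Finset.sum_filter]
  apply Finset.sum_congr rfl
  intro S _
  by_cases hne : (inter A S).Nonempty
  · rw [if_pos ((nonempty_KB c m _ (hmS S)).mpr hne), sSup_KB c m _ hne (hmS S) x, val, dif_pos hne]
  · rw [if_neg (fun h => hne ((nonempty_KB c m _ (hmS S)).mp h)), val, dif_neg hne, mul_zero]

end Pool.Agent.R135.TropCells
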